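import Pool.Agent.Helper34.FQ.Defs
import Pool.Agent.Helper55.PN_WTS

/-!
Row VW of project FQ (MP_08bd45_co, helper34): second moment estimate for random supersets.
-/

namespace Pool.Agent.Helper34.FQ

open Finset Pool.Agent.Helper34.PN

theorem vw {α ι : Type} [DecidableEq α] (Z : Finset α) (I : Finset ι) (a : ι → ℝ)
    (b : ι → Finset α) (k : ℕ) (η : ℝ) (h0 : 0 < η) (h1 : η ≤ 1) (ha : ∀ i ∈ I, 0 ≤ a i)
    (hb : ∀ i ∈ I, b i ⊆ Z ∧ (b i).card ≤ k) (G : Finset α → ℝ) (Γ : ℝ)
    (hG0 : ∀ V, 0 ≤ G V) (hGΓ : ∀ V, G V ≤ Γ) (hGm : ∀ U V, U ⊆ V → G U ≤ G V) :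
    (∑ i ∈ I, a i) * ∑ i ∈ I, a i * G (b i)
      ≤ 2 * (∑ i ∈ I, a i) ^ 2 * ∑ V ∈ Z.powerset, wt Z η V * G V
        + 2 * Γ * (1 / η) ^ k *
          ∑ i ∈ I, ∑ j ∈ I, (if Disjoint (b i) (b j) then 0 else a i * a j) := by
  classical
  have hη : 1 ≤ 1 / η := by rw [le_div_iff₀ h0]; linarith
  have hη0 : (0 : ℝ) ≤ 1 / η := by linarith
  have hΓ : 0 ≤ Γ := (hG0 ∅).trans (hGΓ ∅)
  have hw0 : ∀ V, 0 ≤ wt Z η V := fun V => wt_nonneg Z η h0.le h1 V
  have hE : ∀ B : Finset α, B ⊆ Z →
      ∑ V ∈ Z.powerset, wt Z η V * (if B ⊆ V then (1 : ℝ) else 0) = η ^ B.card := by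
    intro B hB
    rw [← wt_sum_superset Z B hB η, Finset.sum_filter]
    refine Finset.sum_congr rfl ?_
    intro V _
    split_ifs
    · rw [mul_one]
    · rw [mul_zero]
  set A : ℝ := ∑ i ∈ I, a i with hA
  have hA0 : 0 ≤ A := Finset.sum_nonneg ha
  set N : Finset α → ℝ := fun V =>
    ∑ i ∈ I, a i * ((1 / η) ^ (b i).card * (if b i ⊆ V then (1 : ℝ) else 0)) with hN
  have hpow : ∀ m : ℕ, (1 / η) ^ m * η ^ m = 1 := by
    intro m
    rw [← mul_pow, one_div, inv_mul_cancel₀ h0.ne', one_pow]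
  -- first moment with the monotone function
  have hM : ∑ i ∈ I, a i * G (b i) ≤ ∑ V ∈ Z.powerset, wt Z η V * (N V * G V) := by
    have e1 : ∑ V ∈ Z.powerset, wt Z η V * (N V * G V)
        = ∑ i ∈ I, a i * ((1 / η) ^ (b i).card *
          ∑ V ∈ Z.powerset, wt Z η V * (if b i ⊆ V then (1 : ℝ) else 0) * G V) := by
      have e2 : ∀ V ∈ Z.powerset, wt Z η V * (N V * G V) = ∑ i ∈ I,
          a i * ((1 / η) ^ (b i).card *
            (wt Z η V * (if b i ⊆ V then (1 : ℝ) else 0) * G V)) := by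
        intro V _
        rw [hN]
        simp only []
        rw [Finset.sum_mul, Finset.mul_sum]
        refine Finset.sum_congr rfl ?_
        intro i _
        ring
      rw [Finset.sum_congr rfl e2, Finset.sum_comm]
      refine Finset.sum_congr rfl ?_
      intro i _
      rw [← Finset.mul_sum, ← Finset.mul_sum]
    rw [e1]
    refine Finset.sum_le_sum ?_
    intro i hi
    refine mul_le_mul_of_nonneg_left ?_ (ha i hi)
    have e3 : G (b i) = (1 / η) ^ (b i).card *
        ∑ V ∈ Z.powerset, wt Z η V * (if b i ⊆ V then (1 : ℝ) else 0) * G (b i) := by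
      rw [← Finset.sum_mul, hE _ (hb i hi).1, ← mul_assoc, hpow, one_mul]
    rw [e3]
    refine mul_le_mul_of_nonneg_left ?_ (pow_nonneg hη0 _)
    refine Finset.sum_le_sum ?_
    intro V _
    by_cases hbV : b i ⊆ V
    · rw [if_pos hbV, mul_one]
      refine mul_le_mul_of_nonneg_left ?_ (hw0 V)
      exact hGm _ _ hbV
    · rw [if_neg hbV, mul_zero, zero_mul, zero_mul]
  -- second moment
  have hS : ∑ V ∈ Z.powerset, wt Z η V * (N V - A) ^ 2
      = ∑ i ∈ I, ∑ j ∈ I, a i * a j * ((1 / η) ^ (b i ∩ b j).card - 1) := by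
    have e1 : ∀ V ∈ Z.powerset, wt Z η V * (N V - A) ^ 2 = ∑ i ∈ I, ∑ j ∈ I,
        a i * a j * (wt Z η V * (((1 / η) ^ (b i).card * (if b i ⊆ V then (1 : ℝ) else 0) - 1) *
          ((1 / η) ^ (b j).card * (if b j ⊆ V then (1 : ℝ) else 0) - 1))) := by
      intro V _
      have e2 : N V - A = ∑ i ∈ I, a i *
          ((1 / η) ^ (b i).card * (if b i ⊆ V then (1 : ℝ) else 0) - 1) := by
        rw [hN, hA]
        simp only []
        rw [← Finset.sum_sub_distrib]
        refine Finset.sum_congr rfl ?_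
        intro i _
        ring
      rw [e2, sq, Finset.sum_mul_sum, Finset.mul_sum]
      refine Finset.sum_congr rfl ?_
      intro i _
      rw [Finset.mul_sum]
      refine Finset.sum_congr rfl ?_
      intro j _
      ring
    rw [Finset.sum_congr rfl e1, Finset.sum_comm]
    refine Finset.sum_congr rfl ?_
    intro i hi
    rw [Finset.sum_comm]
    refine Finset.sum_congr rfl ?_
    intro j hj
    rw [← Finset.mul_sum]
    congr 1
    have e3 : ∀ V ∈ Z.powerset,
        wt Z η V * (((1 / η) ^ (b i).card * (if b i ⊆ V then (1 : ℝ) else 0) - 1) *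
          ((1 / η) ^ (b j).card * (if b j ⊆ V then (1 : ℝ) else 0) - 1))
        = (1 / η) ^ (b i).card * (1 / η) ^ (b j).card *
            (wt Z η V * (if b i ∪ b j ⊆ V then (1 : ℝ) else 0))
          - (1 / η) ^ (b i).card * (wt Z η V * (if b i ⊆ V then (1 : ℝ) else 0))
          - (1 / η) ^ (b j).card * (wt Z η V * (if b j ⊆ V then (1 : ℝ) else 0))
          + wt Z η V := by
      intro V _
      have e4 : (if b i ∪ b j ⊆ V then (1 : ℝ) else 0)
          = (if b i ⊆ V then (1 : ℝ) else 0) * (if b j ⊆ V then (1 : ℝ) else 0) := by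
        by_cases p : b i ⊆ V
        · by_cases q : b j ⊆ V
          · rw [if_pos p, if_pos q, if_pos (Finset.union_subset p q), mul_one]
          · rw [if_pos p, if_neg q, if_neg (fun h => q (Finset.subset_union_right.trans h)),
              mul_zero]
        · rw [if_neg p, if_neg (fun h => p (Finset.subset_union_left.trans h)), zero_mul]
      rw [e4]
      ring
    rw [Finset.sum_congr rfl e3, Finset.sum_add_distrib, Finset.sum_sub_distrib,
      Finset.sum_sub_distrib, ← Finset.mul_sum, ← Finset.mul_sum, ← Finset.mul_sum,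
      hE _ (Finset.union_subset (hb i hi).1 (hb j hj).1), hE _ (hb i hi).1, hE _ (hb j hj).1,
      wt_sum, hpow, hpow]
    have e5 : (1 / η) ^ (b i).card * (1 / η) ^ (b j).card * η ^ (b i ∪ b j).card
        = (1 / η) ^ (b i ∩ b j).card := by
      rw [← pow_add, ← Finset.card_union_add_card_inter, pow_add]
      have := hpow (b i ∪ b j).card
      calc (1 / η) ^ (b i ∪ b j).card * (1 / η) ^ (b i ∩ b j).card * η ^ (b i ∪ b j).card
          = (1 / η) ^ (b i ∩ b j).card * ((1 / η) ^ (b i ∪ b j).card * η ^ (b i ∪ b j).card) := by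
            ring
        _ = (1 / η) ^ (b i ∩ b j).card := by rw [this, mul_one]
    rw [e5]
    ring
  have hS2 : ∑ V ∈ Z.powerset, wt Z η V * (N V - A) ^ 2
      ≤ (1 / η) ^ k * ∑ i ∈ I, ∑ j ∈ I, (if Disjoint (b i) (b j) then 0 else a i * a j) := by
    rw [hS, Finset.mul_sum]
    refine Finset.sum_le_sum ?_
    intro i hi
    rw [Finset.mul_sum]
    refine Finset.sum_le_sum ?_
    intro j hj
    have haa : 0 ≤ a i * a j := mul_nonneg (ha i hi) (ha j hj)
    by_cases hd : Disjoint (b i) (b j)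
    · rw [if_pos hd, mul_zero]
      have : (b i ∩ b j).card = 0 := by
        rw [Finset.card_eq_zero]
        exact Finset.disjoint_iff_inter_eq_empty.1 hd
      rw [this, pow_zero, sub_self, mul_zero]
    · rw [if_neg hd]
      have h2 : (1 / η) ^ (b i ∩ b j).card ≤ (1 / η) ^ k :=
        pow_le_pow_right₀ hη ((Finset.card_le_card Finset.inter_subset_left).trans (hb i hi).2)
      nlinarith
  -- pointwise
  have hP : ∀ V, A * (N V * G V) ≤ 2 * A ^ 2 * G V + 2 * Γ * (N V - A) ^ 2 := by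
    intro V
    have g0 := hG0 V
    have g1 := hGΓ V
    by_cases hc : N V ≤ 2 * A
    · have h3 : A * (N V * G V) ≤ A * (2 * A * G V) :=
        mul_le_mul_of_nonneg_left (mul_le_mul_of_nonneg_right hc g0) hA0
      have h4 : 0 ≤ 2 * Γ * (N V - A) ^ 2 := by positivity
      nlinarith
    · push Not at hc
      have h5 : 0 ≤ N V - A := by linarith
      have h6 : A * N V ≤ (N V - A) * (2 * (N V - A)) := by nlinarith
      have h7 : A * N V * G V ≤ (N V - A) * (2 * (N V - A)) * Γ :=
        mul_le_mul h6 g1 g0 (by positivity)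
      have h8 : 0 ≤ 2 * A ^ 2 * G V := by positivity
      nlinarith
  have hfin : A * ∑ i ∈ I, a i * G (b i)
      ≤ 2 * A ^ 2 * ∑ V ∈ Z.powerset, wt Z η V * G V
        + 2 * Γ * ∑ V ∈ Z.powerset, wt Z η V * (N V - A) ^ 2 := by
    calc A * ∑ i ∈ I, a i * G (b i)
        ≤ A * ∑ V ∈ Z.powerset, wt Z η V * (N V * G V) := mul_le_mul_of_nonneg_left hM hA0
      _ = ∑ V ∈ Z.powerset, wt Z η V * (A * (N V * G V)) := by
          rw [Finset.mul_sum]
          refine Finset.sum_congr rfl ?_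
          intro V _
          ring
      _ ≤ ∑ V ∈ Z.powerset, wt Z η V * (2 * A ^ 2 * G V + 2 * Γ * (N V - A) ^ 2) :=
          Finset.sum_le_sum (fun V _ => mul_le_mul_of_nonneg_left (hP V) (hw0 V))
      _ = _ := by
          rw [Finset.mul_sum, Finset.mul_sum, ← Finset.sum_add_distrib]
          refine Finset.sum_congr rfl ?_
          intro V _
          ring
  refine hfin.trans ?_
  have h9 : 2 * Γ * ∑ V ∈ Z.powerset, wt Z η V * (N V - A) ^ 2
      ≤ 2 * Γ * ((1 / η) ^ k *
        ∑ i ∈ I, ∑ j ∈ I, (if Disjoint (b i) (b j) then 0 else a i * a j)) :=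
    mul_le_mul_of_nonneg_left hS2 (by positivity)
  rw [← mul_assoc] at h9
  linarith

end Pool.Agent.Helper34.FQ
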