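import Pool.Agent.Helper79.JefHorm3
import Pool.Agent.Helper50.JefGaussB
import Pool.Agent.Helper76.Jef.Kernel
import Pool.Agent.Helper38.JefWeak

/-!
# `kernel_main` and `kernel_ell`
-/

open MeasureTheory Set Filter Topology
open scoped ENNReal ContDiff

namespace Pool.Agent.Helper79.Horm

open Pool.Agent.Helper42.Jef

variable {n : ℕ}

/-- the Gaussian derivatives of order four satisfy the hypotheses with a uniform constant -/
theorem fam_pds (n : ℕ) : ∃ C : ℝ, 0 ≤ C ∧ ∀ l : List (Fin n), l.length = 4 →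
    Fam (fun s => pds l (Gs s)) C := by
  obtain ⟨C₁, h₁, g₁⟩ := Pool.Agent.Helper50.JG.g1 n 4
  obtain ⟨C₂, h₂, g₂⟩ := Pool.Agent.Helper50.JG.g2 n 4
  obtain ⟨C₃, h₃, g₃⟩ := Pool.Agent.Helper50.JG.g3 n 4
  refine ⟨C₁ + C₂ + C₃, by positivity, fun l hl => ⟨?_, ?_, ?_, ?_⟩⟩
  · exact Pool.Agent.Helper50.JG.g0 l
  · intro s hs
    refine (g₁ l hl s hs).trans (ENNReal.ofReal_le_ofReal ?_)
    rw [show (-((4 : ℕ) : ℝ) / 2) = -((2 : ℕ) : ℝ) by push_cast; norm_num,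
      Real.rpow_neg hs.le, Real.rpow_natCast, div_eq_mul_inv]
    refine mul_le_mul_of_nonneg_right ?_ (by positivity)
    linarith
  · intro s hs
    refine (g₂ l hl s hs).trans (ENNReal.ofReal_le_ofReal ?_)
    rw [show ((2 : ℝ) - ((4 : ℕ) : ℝ) / 2) = 0 by push_cast; norm_num, Real.rpow_zero]
    linarith
  · intro s hs y
    refine (g₃ l hl s hs y).trans (ENNReal.ofReal_le_ofReal ?_)
    rw [show (-(((4 : ℕ) : ℝ) + 1) / 2) = -(5 / 2) by push_cast; norm_num]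
    refine mul_le_mul_of_nonneg_right ?_ (Real.rpow_nonneg hs.le _)
    refine mul_le_mul_of_nonneg_right ?_ (norm_nonneg _)
    linarith

/-- integrability of the elliptic kernel -/
theorem ell_int {μ ε : ℝ} (hμ : 0 < μ) (hε : 0 < ε) (hε1 : ε < 1) {l : List (Fin n)}
    (hl : l.length = 2) : Integrable (fun z : ST n => ∫ s in ε..1, Kp μ ε s l z) := by
  obtain ⟨C, hC, g⟩ := Pool.Agent.Helper50.JG.g1 n 2
  obtain ⟨d1, d2, -, -, d5⟩ := dstep hε
  refine ell_integrable (P := fun s => pds l (Gs s)) (C := C)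
    (Pool.Agent.Helper50.JG.g0 l) ?_ d1.measurable d2 d5 hμ hε hε1 hC
  intro s hs
  refine (g l hl s hs).trans (ENNReal.ofReal_le_ofReal (le_of_eq ?_))
  rw [show (-((2 : ℕ) : ℝ) / 2) = -1 by push_cast; norm_num, Real.rpow_neg_one, div_eq_mul_inv]

/-- main kernel (four derivatives): uniform `L²` bound and uniform weak type bound -/
theorem kernel_main (n : ℕ) {μ : ℝ} (hμ : 0 < μ) : ∃ (A : ℝ) (C : ℝ → ℝ), ∀ ε : ℝ, 0 < ε → ε < 1 →
    ∀ l : List (Fin n), l.length = 4 →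
      Integrable (fun z : ST n => ∫ s in ε..1, Kr μ ε s l z) ∧
      (∀ u : ST n → ℝ, Integrable u → MemLp u 2 →
        eLpNorm (cv (fun z => ∫ s in ε..1, Kr μ ε s l z) u) 2 volume
          ≤ ENNReal.ofReal A * eLpNorm u 2 volume) ∧
      (∀ u : ST n → ℝ, Integrable u → MemLp u 2 → ∫ z, |u z| ≤ 1 → ∀ s > 0,
        volume {z | s < |cv (fun z => ∫ s in ε..1, Kr μ ε s l z) u z|}
          ≤ ENNReal.ofReal (C s * ∫ z, |u z|)) := by
  obtain ⟨C, hC, hF⟩ := fam_pds n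
  obtain ⟨W, hW⟩ := Pool.Agent.Helper38.Jef.weak_type n (1 / μ)
    (18 * μ * C + (C / μ + 2 * C / (μ * Real.sqrt (3 * μ))))
  refine ⟨1 / μ, W, fun ε hε hε1 l hl => ?_⟩
  have hint : Integrable (fun z : ST n => ∫ s in ε..1, Kr μ ε s l z) :=
    kap_integrable (hF l hl) hμ hε hε1 hC
  have hL2 : ∀ u : ST n → ℝ, Integrable u → MemLp u 2 →
        eLpNorm (cv (fun z => ∫ s in ε..1, Kr μ ε s l z) u) 2 volume
          ≤ ENNReal.ofReal (1 / μ) * eLpNorm u 2 volume := fun u hu hu2 =>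
    Pool.Agent.Helper76.Jef.kernel_main_l2 hμ hε hε1 l hl hint u hu hu2
  refine ⟨hint, hL2, ?_⟩
  exact hW _ hint hL2 fun r hr h y hh hy => horm (hF l hl) hμ hε hε1 hC hr hh hy

/-- elliptic kernel (two derivatives, `Θ'`): uniform `L²` bound -/
theorem kernel_ell (n : ℕ) {μ : ℝ} (hμ : 0 < μ) : ∃ A : ℝ, ∀ ε : ℝ, 0 < ε → ε < 1 →
    ∀ l : List (Fin n), l.length = 2 →
      Integrable (fun z : ST n => ∫ s in ε..1, Kp μ ε s l z) ∧
      (∀ u : ST n → ℝ, Integrable u → MemLp u 2 →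
        eLpNorm (cv (fun z => ∫ s in ε..1, Kp μ ε s l z) u) 2 volume
          ≤ ENNReal.ofReal A * eLpNorm u 2 volume) :=
  ⟨1, fun _ hε hε1 l hl => ⟨ell_int hμ hε hε1 hl, fun u hu hu2 =>
    Pool.Agent.Helper76.Jef.kernel_ell_l2 hμ hε hε1 l hl (ell_int hμ hε hε1 hl) u hu hu2⟩⟩

end Pool.Agent.Helper79.Horm
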