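import Pool.Agent.Helper5.N2.Stmts2

/-!
# ULT: limit characters (existence of a character realising the supremum of a bounded function)
-/

set_option autoImplicit false
open Filter Topology

namespace N79
open N2

/-- derivation along the direction `ω` -/
noncomputable def Dom {R : Type} [CommRing R] [DR R] (ω : ℂ) (f : R) : R :=
  Cst ω * D f + Cst ((starRingEnd ℂ) ω) * D' f

lemma toSm_Dom (ω : ℂ) (f : Smb) : toSm (Dom ω f) = Dom ω (toSm f) := by
  simp [Dom]

lemma fderiv_dir (f : Sm) (q : ℝ × ℝ) (ω : ℂ) :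
    fderiv ℝ f.val q (ω.re, ω.im) = (Dom ω f).val q := by
  have h1 : ((ω.re, ω.im) : ℝ × ℝ) = ω.re • ((1, 0) : ℝ × ℝ) + ω.im • ((0, 1) : ℝ × ℝ) := by
    ext <;> simp
  rw [h1, map_add, map_smul, map_smul]
  simp only [Dom, add_val, mul_val, Cst_val, D_val, D'_val, Complex.real_smul]
  have h2 : ω = (ω.re : ℂ) + (ω.im : ℂ) * Complex.I := (Complex.re_add_im ω).symm
  have h3 : (starRingEnd ℂ) ω = (ω.re : ℂ) - (ω.im : ℂ) * Complex.I := by
    apply Complex.ext <;> simp
  rw [h3]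
  have hI : Complex.I ^ 2 = -1 := Complex.I_sq
  generalize fderiv ℝ f.val q (1, 0) = X
  generalize fderiv ℝ f.val q (0, 1) = Y
  have h4 : ω * (1 / 2 * (X - Complex.I * Y))
      = ((ω.re : ℂ) + (ω.im : ℂ) * Complex.I) * (1 / 2 * (X - Complex.I * Y)) := by rw [← h2]
  rw [h4]
  linear_combination ((ω.im : ℂ) * Y) * hI

lemma hasDerivAt_line (f : Sm) (p : ℝ × ℝ) (ω : ℂ) (t : ℝ) :
    HasDerivAt (fun t : ℝ => (f.val (p + t • ((ω.re, ω.im) : ℝ × ℝ))).re)
      ((Dom ω f).val (p + t • ((ω.re, ω.im) : ℝ × ℝ))).re t := by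
  have h1 : HasDerivAt (fun t : ℝ => p + t • ((ω.re, ω.im) : ℝ × ℝ)) ((ω.re, ω.im) : ℝ × ℝ) t := by
    have := ((hasDerivAt_id t).smul_const ((ω.re, ω.im) : ℝ × ℝ)).const_add p
    simpa using this
  have h2 := (f.diff (p + t • ((ω.re, ω.im) : ℝ × ℝ))).hasFDerivAt.comp_hasDerivAt t h1
  rw [fderiv_dir] at h2
  exact Complex.reCLM.hasFDerivAt.comp_hasDerivAt t h2

/-- monotonicity: nonnegative derivative on `[0, ∞)` -/
lemma nonneg_of_deriv (h h' : ℝ → ℝ) (hd : ∀ t, HasDerivAt h (h' t) t) (h0 : 0 ≤ h 0)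
    (hn : ∀ t, 0 ≤ t → 0 ≤ h' t) (t : ℝ) (ht : 0 ≤ t) : 0 ≤ h t := by
  have hm : MonotoneOn h (Set.Ici 0) := by
    apply monotoneOn_of_deriv_nonneg (convex_Ici 0)
    · exact fun x _ => (hd x).continuousAt.continuousWithinAt
    · exact fun x _ => (hd x).differentiableAt.differentiableWithinAt
    · intro x hx
      rw [interior_Ici] at hx
      rw [(hd x).deriv]
      exact hn x (le_of_lt hx)
  exact h0.trans (hm (Set.mem_Ici.2 le_rfl) (Set.mem_Ici.2 ht) ht)

/-- Taylor lower bound with bounded third derivative -/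
lemma taylor3 (φ φ1 φ2 φ3 : ℝ → ℝ) (C : ℝ) (h1 : ∀ t, HasDerivAt φ (φ1 t) t)
    (h2 : ∀ t, HasDerivAt φ1 (φ2 t) t) (h3 : ∀ t, HasDerivAt φ2 (φ3 t) t) (hC : ∀ t, -C ≤ φ3 t)
    (t : ℝ) (ht : 0 ≤ t) : φ 0 + t * φ1 0 + t ^ 2 / 2 * φ2 0 - C * t ^ 3 / 6 ≤ φ t := by
  have e2 : ∀ t, 0 ≤ t → 0 ≤ φ2 t - φ2 0 + C * t := by
    apply nonneg_of_deriv (fun t => φ2 t - φ2 0 + C * t) (fun t => φ3 t + C)
    · intro t
      have := ((h3 t).sub_const (φ2 0)).fun_add ((hasDerivAt_id' t).const_mul C)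
      simpa only [mul_one] using this
    · simp
    · intro t _; linarith [hC t]
  have e1 : ∀ t, 0 ≤ t → 0 ≤ φ1 t - φ1 0 - φ2 0 * t + C * t ^ 2 / 2 := by
    apply nonneg_of_deriv (fun t => φ1 t - φ1 0 - φ2 0 * t + C * t ^ 2 / 2)
      (fun t => φ2 t - φ2 0 + C * t)
    · intro t
      have := (((h2 t).sub_const (φ1 0)).fun_sub ((hasDerivAt_id' t).const_mul (φ2 0))).fun_add
        (((hasDerivAt_pow 2 t).const_mul C).div_const 2)
      have e : φ2 t - φ2 0 * 1 + C * (((2 : ℕ) : ℝ) * t ^ (2 - 1)) / 2 = φ2 t - φ2 0 + C * t := by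
        norm_num
        ring
      rw [e] at this
      exact this
    · simp
    · exact e2
  have e0 : ∀ t, 0 ≤ t → 0 ≤ φ t - φ 0 - φ1 0 * t - φ2 0 * t ^ 2 / 2 + C * t ^ 3 / 6 := by
    apply nonneg_of_deriv (fun t => φ t - φ 0 - φ1 0 * t - φ2 0 * t ^ 2 / 2 + C * t ^ 3 / 6)
      (fun t => φ1 t - φ1 0 - φ2 0 * t + C * t ^ 2 / 2)
    · intro t
      have := ((((h1 t).sub_const (φ 0)).fun_sub ((hasDerivAt_id' t).const_mul (φ1 0))).fun_sub
        (((hasDerivAt_pow 2 t).const_mul (φ2 0)).div_const 2)).fun_add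
        (((hasDerivAt_pow 3 t).const_mul C).div_const 6)
      have e : φ1 t - φ1 0 * 1 - φ2 0 * (((2 : ℕ) : ℝ) * t ^ (2 - 1)) / 2
          + C * (((3 : ℕ) : ℝ) * t ^ (3 - 1)) / 6 = φ1 t - φ1 0 - φ2 0 * t + C * t ^ 2 / 2 := by
        norm_num
        ring
      rw [e] at this
      exact this
    · simp
    · exact e1
  have := e0 t ht
  linarith

/-- a first/second order conclusion from polynomial inequalities -/
lemma two_ineq (a b C : ℝ) (h : ∀ t : ℝ, 0 ≤ t → t * a + t ^ 2 / 2 * b - C * t ^ 3 / 6 ≤ 0) :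
    a ≤ 0 ∧ (a = 0 → b ≤ 0) := by
  have hc : ∀ (u v : ℝ) (F : ℝ → ℝ), Continuous F → F 0 = u → (∀ t, 0 < t → F t ≤ 0) → u ≤ 0 := by
    intro u v F hF h0 hn
    rw [← h0]
    have h1 : Tendsto F (𝓝[>] 0) (𝓝 (F 0)) := (hF.tendsto 0).mono_left nhdsWithin_le_nhds
    exact le_of_tendsto h1 (eventually_mem_nhdsWithin.mono fun t ht => hn t ht)
  constructor
  · apply hc a 0 (fun t => a + t / 2 * b - C * t ^ 2 / 6) (by fun_prop) (by simp)
    intro t ht
    have h1 := h t ht.le
    have h2 : t * (a + t / 2 * b - C * t ^ 2 / 6) ≤ 0 := by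
      calc t * (a + t / 2 * b - C * t ^ 2 / 6) = t * a + t ^ 2 / 2 * b - C * t ^ 3 / 6 := by ring
        _ ≤ 0 := h1
    by_contra hh
    push Not at hh
    have := mul_pos ht hh
    linarith
  · intro ha
    have : b / 2 ≤ 0 := by
      apply hc (b / 2) 0 (fun t => b / 2 - C * t / 6) (by fun_prop) (by simp)
      intro t ht
      have h1 := h t ht.le
      have h2 : t ^ 2 * (b / 2 - C * t / 6) ≤ 0 := by
        calc t ^ 2 * (b / 2 - C * t / 6) = t * a + t ^ 2 / 2 * b - C * t ^ 3 / 6 := by rw [ha]; ring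
          _ ≤ 0 := h1
      by_contra hh
      push Not at hh
      have := mul_pos (pow_pos ht 2) hh
      linarith
    linarith

/-- rotating a complex number onto the positive axis by the square of a unit -/
lemma exists_rot (z : ℂ) : ∃ ω : ℂ, ‖ω‖ = 1 ∧ ω * ω * z = (‖z‖ : ℂ) := by
  refine ⟨Complex.exp ((-(Complex.arg z) / 2 : ℝ) * Complex.I), ?_, ?_⟩
  · exact Complex.norm_exp_ofReal_mul_I _
  · have h := Complex.norm_mul_exp_arg_mul_I z
    have hz : Complex.exp ((-(Complex.arg z) / 2 : ℝ) * Complex.I) * Complex.exp ((-(Complex.arg z) / 2 : ℝ) * Complex.I) * z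
        = Complex.exp ((-(Complex.arg z) / 2 : ℝ) * Complex.I) * Complex.exp ((-(Complex.arg z) / 2 : ℝ) * Complex.I)
          * ((‖z‖ : ℂ) * Complex.exp ((Complex.arg z : ℂ) * Complex.I)) := by rw [h]
    rw [hz, ← Complex.exp_add]
    calc Complex.exp ((-(Complex.arg z) / 2 : ℝ) * Complex.I + (-(Complex.arg z) / 2 : ℝ) * Complex.I)
          * ((‖z‖ : ℂ) * Complex.exp ((Complex.arg z : ℂ) * Complex.I))
        = (‖z‖ : ℂ) * (Complex.exp ((-(Complex.arg z) / 2 : ℝ) * Complex.I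
            + (-(Complex.arg z) / 2 : ℝ) * Complex.I) * Complex.exp ((Complex.arg z : ℂ) * Complex.I)) := by ring
      _ = (‖z‖ : ℂ) := by
        rw [← Complex.exp_add]
        have : ((-(Complex.arg z) / 2 : ℝ) : ℂ) * Complex.I + ((-(Complex.arg z) / 2 : ℝ) : ℂ) * Complex.I
            + (Complex.arg z : ℂ) * Complex.I = 0 := by
          push_cast; ring
        rw [this, Complex.exp_zero, mul_one]

/-- limit of a family of characters along an ultrafilter -/
lemma exists_limit_char (P : ℕ → ℝ × ℝ) (U : Ultrafilter ℕ) :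
    ∃ χ : Ev Smb, ∀ h : Smb, Tendsto (fun n => evb (P n) h) U (𝓝 (χ h)) := by
  have hex : ∀ h : Smb, ∃ z : ℂ, Tendsto (fun n => evb (P n) h) U (𝓝 z) := by
    intro h
    obtain ⟨M, hM⟩ := (h.bdd 0).zero
    have hK : IsCompact (Metric.closedBall (0 : ℂ) M) := isCompact_closedBall 0 M
    have hmem : ∀ n, evb (P n) h ∈ Metric.closedBall (0 : ℂ) M := by
      intro n
      rw [mem_closedBall_zero_iff]
      exact hM (P n)
    obtain ⟨z, -, hz⟩ := hK.ultrafilter_le_nhds (U.map (fun n => evb (P n) h)) (by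
      rw [le_principal_iff]
      exact Filter.univ_mem' (f := (U : Filter ℕ)) hmem)
    exact ⟨z, hz⟩
  choose L hL using hex
  have huniq : ∀ (h : Smb) (z : ℂ), Tendsto (fun n => evb (P n) h) U (𝓝 z) → L h = z :=
    fun h z hz => tendsto_nhds_unique (hL h) hz
  refine ⟨{ h := { toFun := L
                   map_one' := ?_
                   map_mul' := ?_
                   map_zero' := ?_
                   map_add' := ?_ }
            hcj := ?_
            hC := ?_ }, hL⟩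
  · apply huniq
    have : (fun n => evb (P n) (1 : Smb)) = fun _ => (1 : ℂ) := by funext n; exact map_one _
    rw [this]; exact tendsto_const_nhds
  · intro x y
    apply huniq
    have : (fun n => evb (P n) (x * y)) = fun n => evb (P n) x * evb (P n) y := by
      funext n; exact map_mul _ _ _
    rw [this]; exact (hL x).mul (hL y)
  · apply huniq
    have : (fun n => evb (P n) (0 : Smb)) = fun _ => (0 : ℂ) := by funext n; exact map_zero _
    rw [this]; exact tendsto_const_nhds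
  · intro x y
    apply huniq
    have : (fun n => evb (P n) (x + y)) = fun n => evb (P n) x + evb (P n) y := by
      funext n; exact map_add _ _ _
    rw [this]; exact (hL x).add (hL y)
  · intro x
    show L (cj x) = (starRingEnd ℂ) (L x)
    apply huniq
    have : (fun n => evb (P n) (cj x)) = fun n => (starRingEnd ℂ) (evb (P n) x) := by
      funext n; exact (evb (P n)).hcj x
    rw [this]
    exact (Complex.continuous_conj.tendsto _).comp (hL x)
  · intro c
    show L (Cst c) = c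
    apply huniq
    have : (fun n => evb (P n) (Cst c : Smb)) = fun _ => c := by
      funext n; exact (evb (P n)).hC c
    rw [this]; exact tendsto_const_nhds

theorem st_ULT : ST_ULT := by
  intro f hf
  obtain ⟨M, hM⟩ := (f.bdd 0).zero
  have hbd : BddAbove (Set.range fun p => (evb p f).re) := by
    refine ⟨M, ?_⟩
    rintro _ ⟨p, rfl⟩
    exact (Complex.re_le_norm _).trans (hM p)
  set s : ℝ := ⨆ p, (evb p f).re with hs
  have hle : ∀ p, (evb p f).re ≤ s := fun p => le_ciSup hbd p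
  have hseq : ∀ n : ℕ, ∃ p, s - 1 / ((n : ℝ) + 1) < (evb p f).re := by
    intro n
    have hpos : (0 : ℝ) < 1 / ((n : ℝ) + 1) := by positivity
    exact exists_lt_of_lt_ciSup (by linarith)
  choose P hP using hseq
  set U : Ultrafilter ℕ := Filter.hyperfilter ℕ with hU
  have hUle : (U : Filter ℕ) ≤ atTop := by
    rw [← Nat.cofinite_eq_atTop]; exact Filter.hyperfilter_le_cofinite
  obtain ⟨χ, hχ⟩ := exists_limit_char P U
  have hre : ∀ h : Smb, Tendsto (fun n => (evb (P n) h).re) U (𝓝 (χ h).re) :=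
    fun h => (Complex.continuous_re.tendsto _).comp (hχ h)
  have hlim : Tendsto (fun n => (evb (P n) f).re) atTop (𝓝 s) := by
    have h1 : Tendsto (fun n : ℕ => s - 1 / ((n : ℝ) + 1)) atTop (𝓝 (s - 0)) :=
      tendsto_const_nhds.sub tendsto_one_div_add_atTop_nhds_zero_nat
    rw [sub_zero] at h1
    exact tendsto_of_tendsto_of_tendsto_of_le_of_le h1 tendsto_const_nhds
      (fun n => (hP n).le) (fun n => hle (P n))
  have hsχ : (χ f).re = s := tendsto_nhds_unique (hre f) (hlim.mono_left hUle)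
  -- the basic inequality
  have key : ∀ (ω : ℂ), ∃ C : ℝ, ∀ t : ℝ, 0 ≤ t →
      t * (χ (Dom ω f)).re + t ^ 2 / 2 * (χ (Dom ω (Dom ω f))).re - C * t ^ 3 / 6 ≤ 0 := by
    intro ω
    obtain ⟨C, hC⟩ := ((Dom ω (Dom ω (Dom ω f))).bdd 0).zero
    refine ⟨C, fun t ht => ?_⟩
    have h1 : ∀ n, (evb (P n) f).re + t * (evb (P n) (Dom ω f)).re
        + t ^ 2 / 2 * (evb (P n) (Dom ω (Dom ω f))).re - C * t ^ 3 / 6 ≤ s := by
      intro n
      have := taylor3 (fun t : ℝ => ((toSm f).val (P n + t • ((ω.re, ω.im) : ℝ × ℝ))).re)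
        (fun t : ℝ => ((Dom ω (toSm f)).val (P n + t • ((ω.re, ω.im) : ℝ × ℝ))).re)
        (fun t : ℝ => ((Dom ω (Dom ω (toSm f))).val (P n + t • ((ω.re, ω.im) : ℝ × ℝ))).re)
        (fun t : ℝ => ((Dom ω (Dom ω (Dom ω (toSm f)))).val (P n + t • ((ω.re, ω.im) : ℝ × ℝ))).re)
        C (hasDerivAt_line _ _ _) (hasDerivAt_line _ _ _) (hasDerivAt_line _ _ _) (by
          intro t
          have h2 := hC (P n + t • ((ω.re, ω.im) : ℝ × ℝ))
          rw [toSm_Dom, toSm_Dom, toSm_Dom, ev_val] at h2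
          have h3 := (abs_le.1 ((Complex.abs_re_le_norm _).trans h2)).1
          exact h3) t ht
      simp only [zero_smul, add_zero] at this
      have h4 := hle (P n + t • ((ω.re, ω.im) : ℝ × ℝ))
      rw [evb_eq, ev_val] at h4
      have e0 : evb (P n) f = (toSm f).val (P n) := rfl
      have e1 : evb (P n) (Dom ω f) = (Dom ω (toSm f)).val (P n) := by
        rw [evb_eq, toSm_Dom, ev_val]
      have e2 : evb (P n) (Dom ω (Dom ω f)) = (Dom ω (Dom ω (toSm f))).val (P n) := by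
        rw [evb_eq, toSm_Dom, toSm_Dom, ev_val]
      rw [e0, e1, e2]
      linarith
    have h2 : Tendsto (fun n => (evb (P n) f).re + t * (evb (P n) (Dom ω f)).re
        + t ^ 2 / 2 * (evb (P n) (Dom ω (Dom ω f))).re - C * t ^ 3 / 6) U
        (𝓝 ((χ f).re + t * (χ (Dom ω f)).re + t ^ 2 / 2 * (χ (Dom ω (Dom ω f))).re - C * t ^ 3 / 6)) :=
      (((hre f).add ((hre _).const_mul t)).add ((hre _).const_mul (t ^ 2 / 2))).sub tendsto_const_nhds
    have h3 := le_of_tendsto h2 (Filter.Eventually.of_forall h1)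
    rw [hsχ] at h3
    linarith
  have hD' : D' f = cj (D f) := by
    have := D'_cj f
    rwa [hf] at this
  have hD'D' : D' (D' f) = cj (D (D f)) := by rw [hD', D'_cj]
  -- expressions at `χ`
  have e1 : ∀ ω : ℂ, (χ (Dom ω f)).re = 2 * (ω * χ (D f)).re := by
    intro ω
    simp only [Dom, map_add, map_mul, χ.hC, hD', χ.hcj]
    rw [← map_mul, Complex.add_re, Complex.conj_re]
    ring
  have e2 : ∀ ω : ℂ, ‖ω‖ = 1 → (χ (Dom ω (Dom ω f))).re
      = 2 * (ω * ω * χ (D (D f))).re + 2 * (χ (D' (D f))).re := by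
    intro ω hω
    have hωω : ω * (starRingEnd ℂ) ω = 1 := by
      rw [Complex.mul_conj, Complex.normSq_eq_norm_sq, hω]; norm_num
    have h1 : Dom ω (Dom ω f) = Cst ω * Cst ω * D (D f)
        + Cst ((starRingEnd ℂ) ω) * Cst ((starRingEnd ℂ) ω) * D' (D' f)
        + 2 * (Cst ω * Cst ((starRingEnd ℂ) ω)) * D' (D f) := by
      simp only [Dom, D_add, D'_add, D_mul, D'_mul, D_Cst, D'_Cst, D_comm]
      ring
    rw [h1]
    simp only [map_add, map_mul, χ.hC, hD'D', χ.hcj, map_ofNat]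
    rw [hωω]
    have h2 : (starRingEnd ℂ) ω * (starRingEnd ℂ) ω * (starRingEnd ℂ) (χ (D (D f)))
        = (starRingEnd ℂ) (ω * ω * χ (D (D f))) := by
      simp only [map_mul]
    rw [h2]
    simp only [Complex.add_re, Complex.conj_re, mul_one]
    have h3 : ((2 : ℂ) * χ (D' (D f))).re = 2 * (χ (D' (D f))).re := by
      simp
    rw [h3]; ring
  have ha : ∀ ω : ℂ, (ω * χ (D f)).re ≤ 0 := by
    intro ω
    obtain ⟨C, hC⟩ := key ω
    have := (two_ineq _ _ _ hC).1
    rw [e1] at this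
    linarith
  have ha0 : ∀ ω : ℂ, (ω * χ (D f)).re = 0 := by
    intro ω
    apply le_antisymm (ha ω)
    have := ha (-ω)
    rw [neg_mul, Complex.neg_re] at this
    linarith
  refine ⟨χ, fun p => by rw [hsχ]; exact hle p, ?_, ?_⟩
  · apply Complex.ext
    · have := ha0 1
      simpa using this
    · have := ha0 Complex.I
      simpa using this
  · obtain ⟨ω, hω, hωz⟩ := exists_rot (χ (D (D f)))
    obtain ⟨C, hC⟩ := key ω
    have h1 := (two_ineq _ _ _ hC).2 (by rw [e1, ha0 ω]; ring)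
    rw [e2 ω hω, hωz, Complex.ofReal_re] at h1
    linarith

end N79
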