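import Pool.Agent.Helper79.KJ5

/-!
# Kohler-Jobin inequality, part 6: assembly
-/

open MeasureTheory Metric Set Filter Topology
open scoped ENNReal

namespace Pool.Agent.Helper79.KJ

open Pool.Agent.Helper71.FK

variable {N : ℕ}

theorem TB_mono {N : ℕ} (hN : 1 ≤ N) {x y : ℝ} (hx : 0 ≤ x) (hy : 0 ≤ y)
    (h : TB N x ≤ TB N y) : x ≤ y := by
  have hN0 : (0 : ℝ) < N := by exact_mod_cast hN
  have hom := om_pos N
  unfold TB at h
  have h1 : om N * x ^ (N + 2) ≤ om N * y ^ (N + 2) := by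
    rwa [div_le_div_iff_of_pos_right (by positivity)] at h
  have h2 : x ^ (N + 2) ≤ y ^ (N + 2) := le_of_mul_le_mul_left h1 hom
  exact (pow_le_pow_iff_left₀ hx hy (by omega)).1 h2

/-- inverse of `TB N` -/
noncomputable def th (N : ℕ) (τ : ℝ) : ℝ := (τ * (N * (N + 2)) / om N) ^ (((N + 2 : ℕ) : ℝ)⁻¹)

theorem TB_th (hN : 1 ≤ N) {τ : ℝ} (hτ : 0 ≤ τ) : TB N (th N τ) = τ := by
  have hN0 : (0 : ℝ) < N := by exact_mod_cast hN
  have hom := om_pos N
  unfold TB th
  rw [Real.rpow_inv_natCast_pow (by positivity) (by omega)]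
  field_simp

theorem th_nonneg (hN : 1 ≤ N) {τ : ℝ} (hτ : 0 ≤ τ) : 0 ≤ th N τ := by
  have hom := om_pos N
  unfold th
  exact Real.rpow_nonneg (by positivity) _

theorem th_zero (hN : 1 ≤ N) : th N 0 = 0 := by
  unfold th
  rw [zero_mul, zero_div, Real.zero_rpow (by positivity)]

theorem th_lt (hN : 1 ≤ N) {a b : ℝ} (ha : 0 ≤ a) (hab : a < b) : th N a < th N b := by
  by_contra hcon
  push Not at hcon
  have h1 : TB N (th N b) ≤ TB N (th N a) := by
    unfold TB
    have hN0 : (0 : ℝ) < N := by exact_mod_cast hN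
    have hom := om_pos N
    have := pow_le_pow_left₀ (th_nonneg hN (ha.trans hab.le)) hcon (N + 2)
    gcongr
  rw [TB_th hN ha, TB_th hN (ha.trans hab.le)] at h1
  linarith

theorem main_step (hN : 1 ≤ N) (hSV : SV N) {Ω : Set (E N)}
    (hf : volume Ω ≠ ∞) {r : ℝ} (hr : 0 < r)
    (hT : ∀ φ, Tst Ω φ → (∀ x, 0 ≤ φ x) → J φ ≤ TB N r) {Λ : ℝ} (hΛ0 : 0 ≤ Λ)
    (hΛ : ∀ v, Tst (ball (0 : E N) r) v → Λ * (∫ x, v x ^ 2) ≤ dir v)
    {u : E N → ℝ} (hu : Tst Ω u) (hu0 : ∀ x, 0 ≤ u x) {M : ℝ} (hM : 0 < M) {x₀ : E N}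
    (hx₀ : u x₀ = M) (hMle : ∀ x, u x ≤ M) {m : ℕ} (hm : 1 ≤ m) :
    Λ * ((∫ x, u x ^ 2) - 2 * (M / m) * (∫ x, u x) - 2 * (M / m) * M * volume.real Ω) ≤
      dir u := by
  have hN0 : (0 : ℝ) < N := by exact_mod_cast hN
  have hom := om_pos N
  have hm0 : (0 : ℝ) < m := by exact_mod_cast hm
  set h : ℝ := M / m with hh
  have hhp : 0 < h := by positivity
  have hmh : (m : ℝ) * h = M := by rw [hh]; field_simp
  set s : ℕ → ℝ := fun k => k * h with hs
  have hsm : Monotone s := fun i j hij => by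
    simp only [hs]
    exact mul_le_mul_of_nonneg_right (by exact_mod_cast hij) hhp.le
  have hs0 : s 0 = 0 := by simp [hs]
  have hsd : ∀ k, s (k + 1) - s k = h := fun k => by simp only [hs]; push_cast; ring
  have hsM : s m = M := hmh
  have hs0' : 0 ≤ s 0 := hs0.ge
  have huc := hu.smooth.continuous
  set b := bb u s with hb
  set a := aE u s with ha
  set μ : ℕ → ℝ := fun k => volume.real {x | s k < u x} with hμ
  -- super level sets
  have hsub : ∀ k, {x | s k < u x} ⊆ tsupport u := by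
    intro k x hx
    refine subset_tsupport u ?_
    rw [Function.mem_support]
    have h1 : 0 ≤ s k := by rw [← hs0]; exact hsm (Nat.zero_le k)
    have h2 : s k < u x := hx
    linarith
  have hfin : ∀ k, volume {x | s k < u x} < ∞ := fun k =>
    (measure_mono (hsub k)).trans_lt hu.cpt.isCompact.measure_lt_top
  have hopen : ∀ k, IsOpen {x | s k < u x} := fun k => isOpen_lt continuous_const huc
  have hμpos : ∀ j < m, 0 < μ j := by
    intro j hj
    refine ENNReal.toReal_pos ((hopen j).measure_pos volume ⟨x₀, ?_⟩).ne' (hfin j).ne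
    have : s j < s m := by
      simp only [hs]
      exact mul_lt_mul_of_pos_right (by exact_mod_cast hj) hhp
    show s j < u x₀
    rw [hx₀, ← hsM]; exact this
  have hμa : ∀ j < m, μ (j + 1) ≤ μ j := fun j _ =>
    measureReal_mono (fun x hx => lt_of_le_of_lt (hsm (Nat.le_succ j)) hx) (hfin j).ne
  have hμΩ : μ 0 ≤ volume.real Ω := measureReal_mono ((hsub 0).trans hu.supp) hf
  have hμnn : ∀ j, 0 ≤ μ j := fun j => measureReal_nonneg
  -- the numbers b
  have hcl := fun k => cl_int huc hu.cpt hsm hs0' k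
  have hbpos : ∀ j < m, 0 < b j := by
    intro j hj
    refine (hcl j).1.integral_pos_of_hasCompactSupport_nonneg_nonzero (x := x₀) (hcl j).2.1
      (fun x => cl_nonneg hsm j _) ?_
    have h1 : s (j + 1) ≤ M := by rw [← hsM]; exact hsm (by omega)
    unfold cl
    rw [hx₀, min_eq_right h1, min_eq_right ((hsm (Nat.le_succ j)).trans h1), hsd]
    exact hhp.ne'
  have hind : ∀ k, Integrable fun x => ({x | s k < u x} : Set (E N)).indicator (fun _ => h) x := by
    intro k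
    exact (integrableOn_const (hfin k).ne).integrable_indicator (hopen k).measurableSet
  have hindv : ∀ k, ∫ x, ({x | s k < u x} : Set (E N)).indicator (fun _ => h) x = h * μ k := by
    intro k
    rw [integral_indicator_const _ (hopen k).measurableSet, smul_eq_mul, mul_comm]
  have hb1 : ∀ j < m, h * μ (j + 1) ≤ b j := by
    intro j _
    rw [← hindv]
    refine integral_mono (hind _) (hcl j).2.2 fun x => ?_
    have := le_cl hsm j (u x)
    rw [hsd] at this
    exact this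
  have hb2 : ∀ j < m, b j ≤ h * μ j := by
    intro j _
    rw [← hindv]
    refine integral_mono (hcl j).2.2 (hind _) fun x => ?_
    have := cl_le hsm j (u x)
    rw [hsd] at this
    exact this
  -- test inequalities
  have t0 : ∀ c : ℕ → ℝ, (∀ k, 0 ≤ c k) → 2 * (∑ k ∈ Finset.Ico 0 m, c k * b k) -
      ∑ k ∈ Finset.Ico 0 m, c k ^ 2 * a k ≤ TB N r := fun c hc =>
    test_step hu.smooth hu.cpt hu0 hsm hs0' 0 m hc fun φ h1 h2 _ h4 h5 =>
      hT φ ⟨h1, h2, h4.trans hu.supp⟩ h5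
  have t1 : ∀ (j : ℕ) (c : ℕ → ℝ), (∀ k, 0 ≤ c k) → ∀ R, 0 ≤ R → om N * R ^ N = μ j →
      2 * (∑ k ∈ Finset.Ico j m, c k * b k) - ∑ k ∈ Finset.Ico j m, c k ^ 2 * a k ≤ TB N R :=
    fun j c hc R hR hRμ => test_step hu.smooth hu.cpt hu0 hsm hs0' j m hc
      fun φ h1 h2 h3 _ h5 => hSV {x | s j < u x} R (hopen j) hR (by
        rw [hRμ]
        simp only [hμ]
        rw [measureReal_def, ENNReal.ofReal_toReal (hfin j).ne]) φ ⟨h1, h2, h3⟩ h5
  have hann : ∀ k, 0 ≤ a k := fun k => aE_nonneg u s k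
  have hapos : ∀ j < m, 0 < a j := by
    intro j hj
    by_contra hcon
    have ha0 : a j = 0 := le_antisymm (not_lt.1 hcon) (hann j)
    have hTr : 0 ≤ TB N r := by unfold TB; positivity
    have hbj := hbpos j hj
    set l : ℝ := (TB N r + 1) / (2 * b j) with hl
    have hl0 : 0 ≤ l := by positivity
    have := t0 (fun k => if k = j then l else 0) (fun k => by split_ifs <;> simp [hl0])
    have e1 : ∑ k ∈ Finset.Ico 0 m, (if k = j then l else 0) * b k = l * b j := by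
      rw [Finset.sum_eq_single j]
      · simp
      · intro k _ hk; simp [hk]
      · intro hk; exact absurd (Finset.mem_Ico.2 ⟨Nat.zero_le _, hj⟩) hk
    have e2 : ∑ k ∈ Finset.Ico 0 m, (if k = j then l else 0) ^ 2 * a k = 0 := by
      refine Finset.sum_eq_zero fun k _ => ?_
      by_cases hk : k = j
      · rw [hk, ha0]; simp
      · simp [hk]
    rw [e1, e2] at this
    have e3 : 2 * (l * b j) = TB N r + 1 := by rw [hl]; field_simp
    linarith
  -- τ and ρ
  set τ : ℕ → ℝ := fun j => ∑ k ∈ Finset.Ico j m, b k ^ 2 / a k with hτ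
  have hτ0 : ∀ j, 0 ≤ τ j := fun j =>
    Finset.sum_nonneg fun k _ => div_nonneg (sq_nonneg _) (hann k)
  have hτs : ∀ j < m, τ j = b j ^ 2 / a j + τ (j + 1) := by
    intro j hj
    simp only [hτ]
    rw [Finset.sum_eq_sum_Ico_succ_bot hj]
  have hτm : τ m = 0 := by simp [hτ]
  set ρ : ℕ → ℝ := fun j => th N (τ j) with hρd
  have hρTB : ∀ j, TB N (ρ j) = τ j := fun j => TB_th hN (hτ0 j)
  have hρ0 : ∀ j, 0 ≤ ρ j := fun j => th_nonneg hN (hτ0 j)
  have hρ : ∀ j < m, 0 ≤ ρ (j + 1) ∧ ρ (j + 1) < ρ j := by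
    intro j hj
    refine ⟨hρ0 _, th_lt hN (hτ0 _) ?_⟩
    rw [hτs j hj]
    have h1 := hbpos j hj
    have h2 := hapos j hj
    have : 0 < b j ^ 2 / a j := by positivity
    linarith
  have hρm : ρ m = 0 := by simp only [hρd]; rw [hτm, th_zero hN]
  have hval : ∀ j, 2 * (∑ k ∈ Finset.Ico j m, b k / a k * b k) -
      ∑ k ∈ Finset.Ico j m, (b k / a k) ^ 2 * a k = τ j := by
    intro j
    simp only [hτ]
    rw [Finset.mul_sum, ← Finset.sum_sub_distrib]
    refine Finset.sum_congr rfl fun k hk => ?_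
    have := hapos k (Finset.mem_Ico.1 hk).2
    field_simp
    ring
  have hcnn : ∀ k, 0 ≤ b k / a k := fun k =>
    div_nonneg (integral_nonneg fun x => cl_nonneg hsm k _) (hann k)
  have hρr : ρ 0 ≤ r := by
    refine TB_mono hN (hρ0 0) hr.le ?_
    rw [hρTB, ← hval 0]
    exact t0 _ hcnn
  have hρμ : ∀ j < m, om N * ρ j ^ N ≤ μ j := by
    intro j hj
    set R : ℝ := (μ j / om N) ^ ((N : ℝ)⁻¹) with hR
    have hR0 : 0 ≤ R := Real.rpow_nonneg (div_nonneg (hμnn j) hom.le) _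
    have hRN : om N * R ^ N = μ j := by
      rw [hR, Real.rpow_inv_natCast_pow (div_nonneg (hμnn j) hom.le) (by omega)]
      field_simp
    have h1 : ρ j ≤ R := by
      refine TB_mono hN (hρ0 j) hR0 ?_
      rw [hρTB, ← hval j]
      exact t1 j _ hcnn R hR0 hRN
    rw [← hRN]
    have := pow_le_pow_left₀ (hρ0 j) h1 N
    gcongr
  have hTd : ∀ j < m, TB N (ρ j) - TB N (ρ (j + 1)) = b j ^ 2 / a j := by
    intro j hj
    rw [hρTB, hρTB, hτs j hj]; ring
  -- radial comparison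
  have hrad := radial_seq (κ := fun k => a k / b k) hN hm hΛ0 hρ hρm
    (fun j hj => div_nonneg (hann j) (hbpos j hj).le) hρr
    (fun v h1 h2 h3 => hΛ v ⟨h1, h2, h3⟩)
  have e1 : ∑ j ∈ Finset.range m, 2 * vv N ρ (fun k => a k / b k) j *
      (a j / b j * (TB N (ρ j) - TB N (ρ (j + 1)))) =
      ∑ j ∈ Finset.range m, 2 * vv N ρ (fun k => a k / b k) j * b j := by
    refine Finset.sum_congr rfl fun j hj => ?_
    rw [Finset.mem_range] at hj
    rw [hTd j hj]
    have h1 := hbpos j hj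
    have h2 := hapos j hj
    field_simp
  have e2 : ∑ j ∈ Finset.range m, (a j / b j) ^ 2 * (TB N (ρ j) - TB N (ρ (j + 1))) =
      ∑ j ∈ Finset.range m, a j := by
    refine Finset.sum_congr rfl fun j hj => ?_
    rw [Finset.mem_range] at hj
    rw [hTd j hj]
    have h1 := hbpos j hj
    have h2 := hapos j hj
    field_simp
  rw [e1, e2] at hrad
  have halg := alg hN hhp hμpos hμa hbpos hapos hb1 hb2 hρ hTd hρμ
  -- sums
  have hbs : ∑ j ∈ Finset.range m, b j = ∫ x, u x := by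
    simp only [hb, bb]
    rw [← integral_finsetSum _ fun k _ => (hcl k).2.2]
    refine integral_congr_ae (Eventually.of_forall fun x => ?_)
    simp only
    rw [cl_sum, hs0, hsM, min_eq_left (hMle x), min_eq_right (hu0 x), sub_zero]
  have husq : Integrable fun x => u x ^ 2 := by
    refine (huc.pow 2).integrable_of_hasCompactSupport ?_
    exact hu.cpt.comp_left (g := fun t : ℝ => t ^ 2) (by simp)
  have hu2 : ∫ x, u x ^ 2 ≤ ∑ j ∈ Finset.range m, 2 * (((j : ℝ) + 1) * h) * b j := by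
    have : ∑ j ∈ Finset.range m, 2 * (((j : ℝ) + 1) * h) * b j =
        ∫ x, ∑ j ∈ Finset.range m, 2 * s (j + 1) * cl s j (u x) := by
      rw [integral_finsetSum _ fun k _ => (hcl k).2.2.const_mul _]
      refine Finset.sum_congr rfl fun j _ => ?_
      rw [integral_const_mul]
      simp only [hb, bb, hs]
      push_cast
      ring
    rw [this]
    refine integral_mono husq (integrable_finsetSum _ fun k _ => (hcl k).2.2.const_mul _) fun x => ?_
    have := cl_sq hsm hs0 m (hu0 x)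
    rw [hsM, min_eq_left (hMle x)] at this
    exact this
  have hae := aE_sum hu.smooth hu.cpt hsm m
  rw [hbs, hmh] at halg
  have hfinal : (∫ x, u x ^ 2) - 2 * h * (∫ x, u x) - 2 * h * M * volume.real Ω ≤
      ∑ j ∈ Finset.range m, 2 * vv N ρ (fun k => a k / b k) j * b j := by
    have : 2 * h * M * μ 0 ≤ 2 * h * M * volume.real Ω :=
      mul_le_mul_of_nonneg_left hμΩ (by positivity)
    linarith
  calc _ ≤ Λ * ∑ j ∈ Finset.range m, 2 * vv N ρ (fun k => a k / b k) j * b j :=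
        mul_le_mul_of_nonneg_left hfinal hΛ0
    _ ≤ ∑ j ∈ Finset.range m, a j := hrad
    _ ≤ dir u := hae

/-- M7 (Kohler-Jobin) -/
theorem kohler_jobin {N : ℕ} (hN : 1 ≤ N) (hSV : SV N) {Ω : Set (E N)} (ho : IsOpen Ω)
    (hf : volume Ω ≠ ∞) {r : ℝ} (hr : 0 < r)
    (hT : ∀ φ, Tst Ω φ → (∀ x, 0 ≤ φ x) → J φ ≤ TB N r) {Λ : ℝ} (hΛ0 : 0 ≤ Λ)
    (hΛ : ∀ v, Tst (ball (0 : E N) r) v → Λ * (∫ x, v x ^ 2) ≤ dir v) :
    ∀ u, Tst Ω u → (∀ x, 0 ≤ u x) → Λ * (∫ x, u x ^ 2) ≤ dir u := by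
  intro u hu hu0
  have _ := ho
  have huc := hu.smooth.continuous
  by_cases hz : ∀ x, u x = 0
  · have : ∫ x, u x ^ 2 = 0 := by simp [hz]
    rw [this, mul_zero]
    exact integral_nonneg fun x => by positivity
  · push Not at hz
    obtain ⟨x₁, hx₁⟩ := hz
    obtain ⟨x₀, hx₀⟩ := huc.exists_forall_ge_of_hasCompactSupport hu.cpt
    have hM : 0 < u x₀ := lt_of_lt_of_le (lt_of_le_of_ne (hu0 x₁) (Ne.symm hx₁)) (hx₀ x₁)
    have key : ∀ n : ℕ, Λ * ((∫ x, u x ^ 2) - 2 * (u x₀ / ((n + 1 : ℕ) : ℝ)) * (∫ x, u x) -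
        2 * (u x₀ / ((n + 1 : ℕ) : ℝ)) * u x₀ * volume.real Ω) ≤ dir u := fun n =>
      main_step hN hSV hf hr hT hΛ0 hΛ hu hu0 hM rfl hx₀ (by omega)
    have lim0 : Tendsto (fun n : ℕ => u x₀ / ((n + 1 : ℕ) : ℝ)) atTop (𝓝 0) := by
      have := (tendsto_const_div_atTop_nhds_zero_nat (u x₀)).comp (tendsto_add_atTop_nat 1)
      exact this
    have lim : Tendsto (fun n : ℕ => Λ * ((∫ x, u x ^ 2) -
        2 * (u x₀ / ((n + 1 : ℕ) : ℝ)) * (∫ x, u x) -
        2 * (u x₀ / ((n + 1 : ℕ) : ℝ)) * u x₀ * volume.real Ω)) atTop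
        (𝓝 (Λ * ((∫ x, u x ^ 2) - 2 * 0 * (∫ x, u x) - 2 * 0 * u x₀ * volume.real Ω))) :=
      ((tendsto_const_nhds.sub ((lim0.const_mul 2).mul_const _)).sub
        (((lim0.const_mul 2).mul_const _).mul_const _)).const_mul Λ
    have := le_of_tendsto' lim key
    simpa using this

end Pool.Agent.Helper79.KJ
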