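import Mathlib

set_option autoImplicit false

namespace Pool.Agent.Helper79.Berg

open FreeGroup

variable {X : Type}

/-- The subgroup generated by the letters in `A`. -/
def FA (A : Set X) : Subgroup (FreeGroup X) := Subgroup.closure (FreeGroup.of '' A)

theorem of_mem {A : Set X} {x : X} (h : x ∈ A) : FreeGroup.of x ∈ FA A :=
  Subgroup.subset_closure ⟨x, h, rfl⟩

theorem FA_mono {A B : Set X} (h : A ⊆ B) : FA A ≤ FA B :=
  Subgroup.closure_mono (Set.image_mono h)

theorem map_mem {A : Set X} {G : Type*} [Group G] {K : Subgroup G} (φ : FreeGroup X →* G)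
    (h : ∀ x ∈ A, φ (FreeGroup.of x) ∈ K) {w : FreeGroup X} (hw : w ∈ FA A) : φ w ∈ K := by
  have : FA A ≤ K.comap φ := by
    rw [FA, Subgroup.closure_le]
    rintro _ ⟨x, hx, rfl⟩
    exact h x hx
  exact this hw

theorem hom_eqOn {A : Set X} {G : Type*} [Group G] (φ ψ : FreeGroup X →* G)
    (h : ∀ x ∈ A, φ (FreeGroup.of x) = ψ (FreeGroup.of x)) {w : FreeGroup X} (hw : w ∈ FA A) :
    φ w = ψ w := by
  have : FA A ≤ φ.eqLocus ψ := by
    rw [FA, Subgroup.closure_le]
    rintro _ ⟨x, hx, rfl⟩
    exact h x hx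
  exact this hw

theorem mem_FA_univ (w : FreeGroup X) : w ∈ FA (Set.univ : Set X) := by
  have : FA (Set.univ : Set X) = ⊤ := by
    rw [FA, Set.image_univ, FreeGroup.closure_range_of]
  rw [this]; trivial

open Classical in
/-- The retraction killing the letters outside `A`. -/
noncomputable def ret (A : Set X) : FreeGroup X →* FreeGroup X :=
  FreeGroup.lift (fun x => if x ∈ A then FreeGroup.of x else 1)

theorem ret_mem (A : Set X) (w : FreeGroup X) : ret A w ∈ FA A := by
  refine map_mem (A := Set.univ) (ret A) ?_ (mem_FA_univ w)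
  intro x _
  rw [ret, FreeGroup.lift_apply_of]
  split_ifs with h
  · exact of_mem h
  · exact one_mem _

theorem ret_eq {A : Set X} {w : FreeGroup X} (h : w ∈ FA A) : ret A w = w := by
  have := hom_eqOn (A := A) (ret A) (MonoidHom.id _) (by
    intro x hx
    simp [ret, hx]) h
  simpa using this

theorem ret_ret (A B : Set X) (w : FreeGroup X) : ret A (ret B w) = ret (A ∩ B) w := by
  have : (ret A).comp (ret B) = ret (A ∩ B) := by
    ext x
    simp only [MonoidHom.comp_apply, ret, FreeGroup.lift_apply_of]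
    by_cases h : x ∈ B
    · by_cases h' : x ∈ A <;> simp [h, h']
    · simp [h]
  exact DFunLike.congr_fun this w

theorem mem_inter {A B : Set X} {w : FreeGroup X} (hA : w ∈ FA A) (hB : w ∈ FA B) :
    w ∈ FA (A ∩ B) := by
  have : w = ret (A ∩ B) w := by rw [← ret_ret, ret_eq hB, ret_eq hA]
  rw [this]
  exact ret_mem _ _

theorem of_mem_iff {A : Set X} {x : X} : FreeGroup.of x ∈ FA A ↔ x ∈ A := by
  refine ⟨fun h => ?_, of_mem⟩
  by_contra hx
  have := ret_eq h
  simp only [ret, FreeGroup.lift_apply_of, hx, if_false] at this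
  exact FreeGroup.of_ne_one x this.symm

theorem exists_finset (w : FreeGroup X) : ∃ s : Finset X, w ∈ FA (s : Set X) := by
  classical
  induction w using FreeGroup.induction_on with
  | C1 => exact ⟨∅, one_mem _⟩
  | of x => exact ⟨{x}, of_mem (by simp)⟩
  | inv_of x h => obtain ⟨s, hs⟩ := h; exact ⟨s, inv_mem hs⟩
  | mul x y hx hy =>
    obtain ⟨s, hs⟩ := hx
    obtain ⟨t, ht⟩ := hy
    refine ⟨s ∪ t, mul_mem (FA_mono ?_ hs) (FA_mono ?_ ht)⟩ <;> intro z hz <;> simp at hz ⊢ <;> tauto

theorem exists_supp (w : FreeGroup X) : ∃ s : Finset X, ∀ A : Set X, w ∈ FA A ↔ (s : Set X) ⊆ A := by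
  classical
  have hex : ∃ n, ∃ s : Finset X, s.card = n ∧ w ∈ FA (s : Set X) := by
    obtain ⟨s, hs⟩ := exists_finset w
    exact ⟨_, s, rfl, hs⟩
  obtain ⟨s, hsn, hs⟩ := Nat.find_spec hex
  refine ⟨s, fun A => ⟨fun hA => ?_, fun h => FA_mono h hs⟩⟩
  have h1 : w ∈ FA ((s.filter (· ∈ A) : Finset X) : Set X) := by
    refine FA_mono ?_ (mem_inter hs hA)
    intro z hz
    simpa using hz
  have h2 := Nat.find_min' hex ⟨_, rfl, h1⟩
  rw [← hsn] at h2
  have h3 : s.filter (· ∈ A) = s := Finset.eq_of_subset_of_card_le (Finset.filter_subset _ _) h2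
  intro z hz
  rw [Finset.mem_coe, ← h3, Finset.mem_filter] at hz
  exact hz.2

/-- The (finite) support of an element. -/
noncomputable def supp (w : FreeGroup X) : Finset X := (exists_supp w).choose

theorem mem_FA_iff {w : FreeGroup X} {A : Set X} : w ∈ FA A ↔ ((supp w : Finset X) : Set X) ⊆ A :=
  (exists_supp w).choose_spec A

theorem mem_supp (w : FreeGroup X) : w ∈ FA ((supp w : Finset X) : Set X) :=
  mem_FA_iff.2 subset_rfl

/-- `A` is closed under `g`: `g` and its inverse map the subgroup generated by `A` to itself. -/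
def Closed (g : MulAut (FreeGroup X)) (A : Set X) : Prop :=
  ∀ x ∈ A, g (FreeGroup.of x) ∈ FA A ∧ g⁻¹ (FreeGroup.of x) ∈ FA A

theorem Closed.mem {g : MulAut (FreeGroup X)} {A : Set X} (h : Closed g A) {w : FreeGroup X}
    (hw : w ∈ FA A) : g w ∈ FA A :=
  map_mem (φ := g.toMonoidHom) (fun x hx => (h x hx).1) hw

theorem Closed.inv {g : MulAut (FreeGroup X)} {A : Set X} (h : Closed g A) : Closed g⁻¹ A :=
  fun x hx => ⟨(h x hx).2, by rw [inv_inv]; exact (h x hx).1⟩

theorem Closed.mem_inv {g : MulAut (FreeGroup X)} {A : Set X} (h : Closed g A) {w : FreeGroup X}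
    (hw : w ∈ FA A) : g⁻¹ w ∈ FA A := h.inv.mem hw

theorem Closed.mul {g h : MulAut (FreeGroup X)} {A : Set X} (hg : Closed g A) (hh : Closed h A) :
    Closed (g * h) A := by
  intro x hx
  refine ⟨?_, ?_⟩
  · rw [MulAut.mul_apply]
    exact hg.mem (hh.mem (of_mem hx))
  · rw [mul_inv_rev, MulAut.mul_apply]
    exact hh.mem_inv (hg.mem_inv (of_mem hx))

theorem closed_one (A : Set X) : Closed (1 : MulAut (FreeGroup X)) A := by
  intro x hx
  simpa using of_mem hx

theorem Closed.inter {g : MulAut (FreeGroup X)} {A B : Set X} (hA : Closed g A) (hB : Closed g B) :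
    Closed g (A ∩ B) := by
  intro x hx
  exact ⟨mem_inter (hA x hx.1).1 (hB x hx.2).1, mem_inter (hA x hx.1).2 (hB x hx.2).2⟩

theorem closed_iUnion {g : MulAut (FreeGroup X)} {ι : Sort*} {A : ι → Set X}
    (h : ∀ i, Closed g (A i)) : Closed g (⋃ i, A i) := by
  intro x hx
  obtain ⟨i, hi⟩ := Set.mem_iUnion.1 hx
  exact ⟨FA_mono (Set.subset_iUnion _ i) (h i x hi).1, FA_mono (Set.subset_iUnion _ i) (h i x hi).2⟩

theorem Closed.union {g : MulAut (FreeGroup X)} {A B : Set X} (hA : Closed g A) (hB : Closed g B) :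
    Closed g (A ∪ B) := by
  rintro x (hx | hx)
  · exact ⟨FA_mono Set.subset_union_left (hA x hx).1, FA_mono Set.subset_union_left (hA x hx).2⟩
  · exact ⟨FA_mono Set.subset_union_right (hB x hx).1, FA_mono Set.subset_union_right (hB x hx).2⟩

theorem closed_iInter {g : MulAut (FreeGroup X)} {ι : Sort*} {A : ι → Set X}
    (h : ∀ i, Closed g (A i)) : Closed g (⋂ i, A i) := by
  intro x hx
  rw [Set.mem_iInter] at hx
  refine ⟨?_, ?_⟩ <;> rw [mem_FA_iff] <;> refine Set.subset_iInter fun i => ?_ <;> rw [← mem_FA_iff]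
  · exact (h i x (hx i)).1
  · exact (h i x (hx i)).2

open Classical in
/-- `g` on the letters in `A`, the identity on the other letters. -/
noncomputable def resE (g : MulAut (FreeGroup X)) (A : Set X) : FreeGroup X →* FreeGroup X :=
  FreeGroup.lift (fun x => if x ∈ A then g (FreeGroup.of x) else FreeGroup.of x)

theorem resE_of_mem (g : MulAut (FreeGroup X)) {A : Set X} {x : X} (h : x ∈ A) :
    resE g A (FreeGroup.of x) = g (FreeGroup.of x) := by
  simp [resE, h]

theorem resE_of_not_mem (g : MulAut (FreeGroup X)) {A : Set X} {x : X} (h : x ∉ A) :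
    resE g A (FreeGroup.of x) = FreeGroup.of x := by
  simp [resE, h]

theorem resE_mem (g : MulAut (FreeGroup X)) {A : Set X} {w : FreeGroup X} (h : w ∈ FA A) :
    resE g A w = g w :=
  hom_eqOn (resE g A) g.toMonoidHom (fun _ hx => resE_of_mem g hx) h

theorem resE_comp {g : MulAut (FreeGroup X)} {A : Set X} (h : Closed g A) :
    (resE g A).comp (resE g⁻¹ A) = MonoidHom.id _ := by
  ext x
  simp only [MonoidHom.comp_apply, MonoidHom.id_apply]
  by_cases hx : x ∈ A
  · rw [resE_of_mem _ hx, resE_mem g (h x hx).2, MulAut.apply_inv_self]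
  · rw [resE_of_not_mem _ hx, resE_of_not_mem _ hx]

/-- `g` on the letters in the closed set `A`, the identity on the other letters. -/
noncomputable def resA (g : MulAut (FreeGroup X)) (A : Set X) (h : Closed g A) :
    MulAut (FreeGroup X) :=
  MonoidHom.toMulEquiv (resE g A) (resE g⁻¹ A)
    (by have := resE_comp h.inv; rwa [inv_inv] at this) (resE_comp h)

theorem resA_apply (g : MulAut (FreeGroup X)) (A : Set X) (h : Closed g A) (w : FreeGroup X) :
    resA g A h w = resE g A w := rfl

theorem resA_inv_apply (g : MulAut (FreeGroup X)) (A : Set X) (h : Closed g A) (w : FreeGroup X) :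
    (resA g A h)⁻¹ w = resE g⁻¹ A w := rfl

theorem resA_closed (g : MulAut (FreeGroup X)) (A : Set X) (h : Closed g A) {Y : Set X}
    (hY : Closed g Y) : Closed (resA g A h) Y := by
  intro x hx
  rw [resA_apply, resA_inv_apply]
  by_cases hxA : x ∈ A
  · rw [resE_of_mem _ hxA, resE_of_mem _ hxA]
    exact hY x hx
  · rw [resE_of_not_mem _ hxA, resE_of_not_mem _ hxA]
    exact ⟨of_mem hx, of_mem hx⟩

/-- The gluing lemma. -/
theorem gluing {I : Type*} [LinearOrder I] [WellFoundedLT I] (β : X → I)
    (θ : I → MulAut (FreeGroup X))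
    (hfix : ∀ i x, β x ≠ i → θ i (FreeGroup.of x) = FreeGroup.of x)
    (hcl : ∀ i, Closed (θ i) {x | β x ≤ i}) :
    ∃ h : MulAut (FreeGroup X), (∀ x, h (FreeGroup.of x) = θ (β x) (FreeGroup.of x)) ∧
      ∀ Y : Set X, (∀ i, Closed (θ i) Y) → Closed h Y := by
  classical
  -- the candidate inverse on letters
  let k : X → FreeGroup X := (InvImage.wf β (wellFounded_lt (α := I))).fix
    (fun x rec => FreeGroup.lift (fun z => if h : β z < β x then rec z h else FreeGroup.of z)
      ((θ (β x))⁻¹ (FreeGroup.of x)))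
  have hk : ∀ x, k x = FreeGroup.lift (fun z => if β z < β x then k z else FreeGroup.of z)
      ((θ (β x))⁻¹ (FreeGroup.of x)) := by
    intro x
    have := (InvImage.wf β (wellFounded_lt (α := I))).fix_eq
      (fun x rec => FreeGroup.lift (fun z => if h : β z < β x then rec z h else FreeGroup.of z)
      ((θ (β x))⁻¹ (FreeGroup.of x))) x
    change k x = _ at this
    rw [this]
    congr 2
  let μ : I → (FreeGroup X →* FreeGroup X) := fun i =>
    FreeGroup.lift (fun z => if β z < i then k z else FreeGroup.of z)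
  have hk' : ∀ x, k x = μ (β x) ((θ (β x))⁻¹ (FreeGroup.of x)) := hk
  let H : FreeGroup X →* FreeGroup X := FreeGroup.lift (fun x => θ (β x) (FreeGroup.of x))
  let K : FreeGroup X →* FreeGroup X := FreeGroup.lift k
  have hfix' : ∀ i x, β x ≠ i → (θ i)⁻¹ (FreeGroup.of x) = FreeGroup.of x := by
    intro i x hx
    have h1 : (θ i)⁻¹ (θ i (FreeGroup.of x)) = FreeGroup.of x := MulAut.inv_apply_self _ _ _
    rwa [hfix i x hx] at h1
  have hHK : ∀ i : I, ∀ x, β x = i → H (k x) = FreeGroup.of x := by
    intro i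
    induction i using WellFoundedLT.induction with
    | ind i ih =>
      intro x hx
      subst hx
      rw [hk' x]
      have h1 := hom_eqOn (A := {z | β z ≤ β x}) (H.comp (μ (β x))) (θ (β x)).toMonoidHom (by
        intro z hz
        simp only [MonoidHom.comp_apply, μ, FreeGroup.lift_apply_of]
        rcases lt_or_eq_of_le (show β z ≤ β x from hz) with h | h
        · rw [if_pos h, ih _ h z rfl]
          exact (hfix _ _ h.ne).symm
        · rw [if_neg (by rw [h]; exact lt_irrefl _)]
          simp only [H, FreeGroup.lift_apply_of, h]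
          rfl) (hcl (β x) x (le_refl _)).2
      simp only [MonoidHom.comp_apply] at h1
      rw [h1]
      exact MulAut.apply_inv_self _ _ _
  have hKH : ∀ x, K (H (FreeGroup.of x)) = FreeGroup.of x := by
    intro x
    have h1 := hom_eqOn (A := {z | β z ≤ β x}) K ((μ (β x)).comp ((θ (β x))⁻¹).toMonoidHom) (by
      intro z hz
      simp only [MonoidHom.comp_apply, K, FreeGroup.lift_apply_of]
      rcases lt_or_eq_of_le (show β z ≤ β x from hz) with h | h
      · have : ((θ (β x))⁻¹).toMonoidHom (FreeGroup.of z) = FreeGroup.of z := hfix' _ _ h.ne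
        rw [this]
        simp only [μ, FreeGroup.lift_apply_of, if_pos h]
      · rw [hk' z, h]
        rfl) (hcl (β x) x (le_refl _)).1
    have h2 : H (FreeGroup.of x) = θ (β x) (FreeGroup.of x) := by
      simp only [H, FreeGroup.lift_apply_of]
    rw [h2, h1]
    simp only [MonoidHom.comp_apply]
    have h3 : ((θ (β x))⁻¹).toMonoidHom (θ (β x) (FreeGroup.of x)) = FreeGroup.of x :=
      MulAut.inv_apply_self _ _ _
    rw [h3]
    simp only [μ, FreeGroup.lift_apply_of, lt_irrefl, if_false]
  refine ⟨MonoidHom.toMulEquiv H K ?_ ?_, ?_, ?_⟩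
  · ext x
    exact hKH x
  · ext x
    simp only [MonoidHom.comp_apply, K, FreeGroup.lift_apply_of, MonoidHom.id_apply]
    exact hHK _ x rfl
  · intro x
    change H (FreeGroup.of x) = _
    simp only [H, FreeGroup.lift_apply_of]
  · intro Y hY
    have hkY : ∀ i : I, ∀ x, x ∈ Y → β x = i → k x ∈ FA Y := by
      intro i
      induction i using WellFoundedLT.induction with
      | ind i ih =>
        intro x hxY hx
        subst hx
        rw [hk' x]
        refine map_mem (A := Y) (μ (β x)) ?_ (hY (β x) x hxY).2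
        intro z hz
        simp only [μ, FreeGroup.lift_apply_of]
        split_ifs with h
        · exact ih _ h z hz rfl
        · exact of_mem hz
    intro x hx
    refine ⟨?_, ?_⟩
    · change H (FreeGroup.of x) ∈ _
      simp only [H, FreeGroup.lift_apply_of]
      exact (hY _ x hx).1
    · change K (FreeGroup.of x) ∈ _
      simp only [K, FreeGroup.lift_apply_of]
      exact hkY _ x hx rfl

end Pool.Agent.Helper79.Berg
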