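import Pool.Agent.Helper79.Berg9

set_option autoImplicit false

namespace Pool.Agent.Helper79.Berg

variable {X : Type}

/-- Dependent sequences of choices. -/
theorem exists_seq_of_step {M : Type*} (P : ℕ → M → Prop) (R : ℕ → M → M → Prop) (a : M)
    (ha : P 0 a) (hs : ∀ i m, P i m → ∃ m', P (i + 1) m' ∧ R i m m') :
    ∃ f : ℕ → M, (∀ i, P i (f i)) ∧ ∀ i, R i (f i) (f (i + 1)) := by
  classical
  choose nxt h1 h2 using hs
  let F : (i : ℕ) → {m : M // P i m} := fun i =>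
    Nat.rec (motive := fun i => {m : M // P i m}) ⟨a, ha⟩ (fun i m => ⟨nxt i m.1 m.2, h1 i m.1 m.2⟩) i
  exact ⟨fun i => (F i).1, fun i => (F i).2, fun i => h2 i (F i).1 (F i).2⟩

/-- The exhausting sequence of finite sets. -/
theorem exists_exhaustion (g : MulAut (FreeGroup X)) (A C : Set X) (hC : C.Countable)
    (hAC : Closed g (A ∪ C)) :
    ∃ D : ℕ → Set X, D 0 = ∅ ∧ (∀ i, (D i).Finite) ∧ (∀ i, D i ⊆ D (i + 1)) ∧ (⋃ i, D i) = C ∧
      (∀ i, ∀ z ∈ D i, g (FreeGroup.of z) ∈ FA (A ∪ D (i + 1)) ∧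
        g⁻¹ (FreeGroup.of z) ∈ FA (A ∪ D (i + 1))) := by
  classical
  obtain ⟨f, hf⟩ := Set.countable_iff_exists_injOn.1 hC
  let nx : ℕ → Set X → Set X := fun i D => D ∪ ({x ∈ C | f x ≤ i} ∪
    ((⋃ z ∈ D, (((supp (g (FreeGroup.of z)) : Finset X) : Set X) ∪
      ((supp (g⁻¹ (FreeGroup.of z)) : Finset X) : Set X))) ∩ C))
  let D : ℕ → Set X := fun n => Nat.rec ∅ nx n
  have hD0 : D 0 = ∅ := rfl
  have hDs : ∀ i, D (i + 1) = nx i (D i) := fun i => rfl
  have hDC : ∀ i, D i ⊆ C := by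
    intro i
    induction i with
    | zero => rw [hD0]; exact Set.empty_subset _
    | succ i ih =>
      rw [hDs]
      rintro x (hx | hx | hx)
      · exact ih hx
      · exact hx.1
      · exact hx.2
  refine ⟨D, hD0, ?_, ?_, ?_, ?_⟩
  · intro i
    induction i with
    | zero => rw [hD0]; exact Set.finite_empty
    | succ i ih =>
      rw [hDs]
      refine ih.union (Set.Finite.union ?_ (Set.Finite.inter_of_left ?_ _))
      · refine Set.Finite.of_finite_image (f := f) ((Set.finite_Iic i).subset ?_) ?_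
        · rintro _ ⟨x, hx, rfl⟩
          exact hx.2
        · intro x hx y hy hxy
          exact hf hx.1 hy.1 hxy
      · exact ih.biUnion fun z _ => (Finset.finite_toSet _).union (Finset.finite_toSet _)
  · intro i
    rw [hDs]
    exact Set.subset_union_left
  · apply Set.Subset.antisymm (Set.iUnion_subset hDC)
    intro x hx
    refine Set.mem_iUnion.2 ⟨f x + 1, ?_⟩
    rw [hDs]
    exact Or.inr (Or.inl ⟨hx, le_refl _⟩)
  · intro i z hz
    have hzC : z ∈ A ∪ C := Or.inr (hDC i hz)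
    have h1 := hAC z hzC
    refine ⟨?_, ?_⟩ <;> rw [mem_FA_iff] <;> intro y hy
    · rcases (mem_FA_iff.1 h1.1) hy with h | h
      · exact Or.inl h
      · right
        rw [hDs]
        exact Or.inr (Or.inr ⟨Set.mem_biUnion hz (Or.inl hy), h⟩)
    · rcases (mem_FA_iff.1 h1.2) hy with h | h
      · exact Or.inl h
      · right
        rw [hDs]
        exact Or.inr (Or.inr ⟨Set.mem_biUnion hz (Or.inr hy), h⟩)

theorem rel : RelStatement X := by
  classical
  intro g A C hdis hC hA hAC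
  obtain ⟨D, hD0, hDf, hDm, hDu, hDg⟩ := exists_exhaustion g A C hC hAC
  have hDmono : Monotone D := monotone_nat_of_le_succ hDm
  have hDC : ∀ i, D i ⊆ C := fun i => by rw [← hDu]; exact Set.subset_iUnion _ i
  let φ : ℕ → MulAut (FreeGroup X) := fun i => if Even i then 1 else g
  have hφA : ∀ i, Closed (φ i) A := by
    intro i
    simp only [φ]
    split_ifs
    · exact closed_one A
    · exact hA
  have hmove : ∀ i, ∀ w ∈ FA (A ∪ D i), (φ (i + 1))⁻¹ (φ i w) ∈ FA (A ∪ D (i + 1)) := by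
    intro i w hw
    have hgen : ∀ x ∈ A ∪ D i, g (FreeGroup.of x) ∈ FA (A ∪ D (i + 1)) ∧
        g⁻¹ (FreeGroup.of x) ∈ FA (A ∪ D (i + 1)) := by
      rintro x (hx | hx)
      · exact ⟨FA_mono Set.subset_union_left (hA x hx).1,
          FA_mono Set.subset_union_left (hA x hx).2⟩
      · exact hDg i x hx
    by_cases hi : Even i
    · have h1 : φ i = 1 := if_pos hi
      have h2 : φ (i + 1) = g := if_neg (by rw [Nat.even_add_one]; exact not_not.2 hi)
      rw [h1, h2]
      exact map_mem (φ := (g⁻¹).toMonoidHom) (fun x hx => (hgen x hx).2) hw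
    · have h1 : φ i = g := if_neg hi
      have h2 : φ (i + 1) = 1 := if_pos (by rw [Nat.even_add_one]; exact hi)
      rw [h1, h2, inv_one]
      exact map_mem (φ := g.toMonoidHom) (fun x hx => (hgen x hx).1) hw
  obtain ⟨θ, hθP, hθR⟩ := exists_seq_of_step
    (P := fun i (θ : MulAut (FreeGroup X)) => (∀ x ∈ A, θ (FreeGroup.of x) = FreeGroup.of x) ∧
      Closed ((φ i)⁻¹ * θ) (A ∪ D i))
    (R := fun i θ θ' => ∀ x ∈ A ∪ D i, θ' (FreeGroup.of x) = θ (FreeGroup.of x)) 1 (by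
      refine ⟨fun x _ => rfl, ?_⟩
      have h1 : φ 0 = 1 := if_pos (by decide)
      rw [h1, inv_one, one_mul]
      exact closed_one _) (by
      rintro i θ ⟨hfix, hcl⟩
      have hfix' : ∀ x ∈ A, θ⁻¹ (FreeGroup.of x) = FreeGroup.of x := by
        intro x hx
        have h1 : θ⁻¹ (θ (FreeGroup.of x)) = FreeGroup.of x := MulAut.inv_apply_self _ _ _
        rwa [hfix x hx] at h1
      have hθA : Closed θ A := fun x hx => by
        rw [hfix x hx, hfix' x hx]
        exact ⟨of_mem hx, of_mem hx⟩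
      obtain ⟨τ, hτ1, hτ2⟩ := step (θ⁻¹ * φ (i + 1)) (A := A) (B := A ∪ D i) (B' := A ∪ D (i + 1))
        Set.subset_union_left (Set.union_subset_union_right _ (hDm i))
        ((hDf (i + 1)).subset (by
          rintro x ⟨hx | hx, hx'⟩
          · exact absurd hx hx'
          · exact hx))
        (hθA.inv.mul (hφA (i + 1))) (by
          intro w hw
          have h1 := hmove i _ (hcl.mem hw)
          have h2 : (θ⁻¹ * φ (i + 1))⁻¹ w = (φ (i + 1))⁻¹ (φ i (((φ i)⁻¹ * θ) w)) := by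
            rw [mul_inv_rev, inv_inv, MulAut.mul_apply, MulAut.mul_apply, MulAut.apply_inv_self]
          rw [h2]
          exact h1)
      refine ⟨θ * τ, ⟨?_, ?_⟩, ?_⟩
      · intro x hx
        rw [MulAut.mul_apply, hτ1 x (Or.inl hx), hfix x hx]
      · have h3 : (θ⁻¹ * φ (i + 1))⁻¹ * τ = (φ (i + 1))⁻¹ * (θ * τ) := by
          rw [mul_inv_rev, inv_inv, mul_assoc]
        rwa [h3] at hτ2
      · intro x hx
        rw [MulAut.mul_apply, hτ1 x hx])
  have hfixA : ∀ i, ∀ x ∈ A, θ i (FreeGroup.of x) = FreeGroup.of x := fun i => (hθP i).1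
  -- agreement
  have hagree : ∀ i j, i ≤ j → ∀ w ∈ FA (A ∪ D i), θ j w = θ i w := by
    intro i j hij
    induction j, hij using Nat.le_induction with
    | base => intro w _; rfl
    | succ j hij ih =>
      intro w hw
      rw [← ih w hw]
      exact hom_eqOn (A := A ∪ D j) (θ (j + 1)).toMonoidHom (θ j).toMonoidHom (hθR j)
        (FA_mono (Set.union_subset_union_right _ (hDmono hij)) hw)
  have heven : ∀ i, Closed (θ (2 * i)) (A ∪ D (2 * i)) := by
    intro i
    have h1 := (hθP (2 * i)).2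
    have h2 : φ (2 * i) = 1 := if_pos (even_two_mul i)
    rwa [h2, inv_one, one_mul] at h1
  have hodd : ∀ i, Closed (g⁻¹ * θ (2 * i + 1)) (A ∪ D (2 * i + 1)) := by
    intro i
    have h1 := (hθP (2 * i + 1)).2
    have h2 : φ (2 * i + 1) = g := if_neg (by
      rw [Nat.even_add_one]; exact not_not.2 (even_two_mul i))
    rwa [h2] at h1
  have hinvag : ∀ i j, i ≤ j → ∀ w ∈ FA (A ∪ D (2 * i)),
      (θ (2 * j))⁻¹ w = (θ (2 * i))⁻¹ w := by
    intro i j hij w hw
    have h1 := hagree (2 * i) (2 * j) (Nat.mul_le_mul_left 2 hij) _ ((heven i).mem_inv hw)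
    rw [MulAut.apply_inv_self] at h1
    have h2 : (θ (2 * j))⁻¹ (θ (2 * j) ((θ (2 * i))⁻¹ w)) = (θ (2 * i))⁻¹ w :=
      MulAut.inv_apply_self _ _ _
    rw [h1] at h2
    exact h2
  have hex : ∀ x ∈ C, ∃ i, x ∈ D i := fun x hx => by
    rw [← hDu] at hx
    exact Set.mem_iUnion.1 hx
  let n : X → ℕ := fun x => if h : ∃ i, x ∈ D i then Nat.find h else 0
  have hn : ∀ x ∈ C, x ∈ D (n x) := by
    intro x hx
    have h := hex x hx
    simp only [n, dif_pos h]
    exact Nat.find_spec h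
  have hn' : ∀ x i, x ∈ D i → n x ≤ i := by
    intro x i hx
    have h : ∃ i, x ∈ D i := ⟨i, hx⟩
    simp only [n, dif_pos h]
    exact Nat.find_min' h hx
  have hn2 : ∀ x ∈ C, x ∈ D (2 * n x) := fun x hx => hDmono (by omega) (hn x hx)
  have hAnC : ∀ x ∈ A, x ∉ C := fun x hx hx' => Set.disjoint_left.1 hdis hx hx'
  let H : FreeGroup X →* FreeGroup X := FreeGroup.lift
    (fun x => if x ∈ C then θ (n x) (FreeGroup.of x) else FreeGroup.of x)
  let K : FreeGroup X →* FreeGroup X := FreeGroup.lift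
    (fun x => if x ∈ C then (θ (2 * n x))⁻¹ (FreeGroup.of x) else FreeGroup.of x)
  have hH1 : ∀ x, x ∉ C → H (FreeGroup.of x) = FreeGroup.of x := by
    intro x hx
    simp only [H, FreeGroup.lift_apply_of, if_neg hx]
  have hK1 : ∀ x, x ∉ C → K (FreeGroup.of x) = FreeGroup.of x := by
    intro x hx
    simp only [K, FreeGroup.lift_apply_of, if_neg hx]
  have hH2 : ∀ i, ∀ w ∈ FA (A ∪ D i), H w = θ i w := by
    intro i w hw
    refine hom_eqOn (A := A ∪ D i) H (θ i).toMonoidHom ?_ hw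
    rintro x (hx | hx)
    · rw [hH1 x (hAnC x hx)]
      exact (hfixA i x hx).symm
    · simp only [H, FreeGroup.lift_apply_of, if_pos (hDC i hx)]
      exact (hagree (n x) i (hn' x i hx) _ (of_mem (Or.inr (hn x (hDC i hx))))).symm
  have hK2 : ∀ i, ∀ w ∈ FA (A ∪ D (2 * i)), K w = (θ (2 * i))⁻¹ w := by
    intro i w hw
    refine hom_eqOn (A := A ∪ D (2 * i)) K ((θ (2 * i))⁻¹).toMonoidHom ?_ hw
    rintro x (hx | hx)
    · rw [hK1 x (hAnC x hx)]
      have h1 : (θ (2 * i))⁻¹ (θ (2 * i) (FreeGroup.of x)) = FreeGroup.of x :=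
        MulAut.inv_apply_self _ _ _
      rw [hfixA (2 * i) x hx] at h1
      exact h1.symm
    · simp only [K, FreeGroup.lift_apply_of, if_pos (hDC _ hx)]
      change (θ (2 * n x))⁻¹ (FreeGroup.of x) = (θ (2 * i))⁻¹ (FreeGroup.of x)
      rcases le_total (n x) i with h | h
      · exact (hinvag (n x) i h _ (of_mem (Or.inr (hn2 x (hDC _ hx))))).symm
      · exact hinvag i (n x) h _ (of_mem (Or.inr hx))
  have hKH : ∀ x, K (H (FreeGroup.of x)) = FreeGroup.of x := by
    intro x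
    by_cases hx : x ∈ C
    · have hm : FreeGroup.of x ∈ FA (A ∪ D (2 * n x)) := of_mem (Or.inr (hn2 x hx))
      rw [hH2 _ _ hm, hK2 _ _ ((heven _).mem hm)]
      exact MulAut.inv_apply_self _ _ _
    · rw [hH1 x hx, hK1 x hx]
  have hHK : ∀ x, H (K (FreeGroup.of x)) = FreeGroup.of x := by
    intro x
    by_cases hx : x ∈ C
    · have hm : FreeGroup.of x ∈ FA (A ∪ D (2 * n x)) := of_mem (Or.inr (hn2 x hx))
      rw [hK2 _ _ hm, hH2 _ _ ((heven _).mem_inv hm)]
      exact MulAut.apply_inv_self _ _ _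
    · rw [hK1 x hx, hH1 x hx]
  let Θ : MulAut (FreeGroup X) := MonoidHom.toMulEquiv H K
    (by ext x; exact hKH x) (by ext x; exact hHK x)
  have hΘ : ∀ i, ∀ w ∈ FA (A ∪ D i), Θ w = θ i w := hH2
  have hΘinv : ∀ i, ∀ w ∈ FA (A ∪ D (2 * i)), Θ⁻¹ w = (θ (2 * i))⁻¹ w := hK2
  have hclS : ∀ i, Closed Θ (A ∪ D (2 * i)) := by
    intro i x hx
    rw [hΘ _ _ (of_mem hx), hΘinv _ _ (of_mem hx)]
    exact heven i x hx
  have hclT : ∀ i, Closed (Θ⁻¹ * g) (A ∪ D (2 * i + 1)) := by
    intro i x hx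
    have h0 := hodd i
    refine ⟨?_, ?_⟩
    · have h1 := h0.mem_inv (of_mem hx)
      have h2 := hΘ _ _ h1
      have h3 : θ (2 * i + 1) ((g⁻¹ * θ (2 * i + 1))⁻¹ (FreeGroup.of x)) = g (FreeGroup.of x) := by
        rw [mul_inv_rev, inv_inv, MulAut.mul_apply, MulAut.apply_inv_self]
      rw [h3] at h2
      have h4 : Θ⁻¹ (Θ ((g⁻¹ * θ (2 * i + 1))⁻¹ (FreeGroup.of x))) =
        (g⁻¹ * θ (2 * i + 1))⁻¹ (FreeGroup.of x) := MulAut.inv_apply_self _ _ _
      rw [h2] at h4
      rw [MulAut.mul_apply, h4]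
      exact h1
    · rw [mul_inv_rev, inv_inv, MulAut.mul_apply, hΘ _ _ (of_mem hx)]
      exact (h0 x hx).1
  refine ⟨Θ, fun i => D (2 * i), fun i => D (2 * i + 1), hH1, ?_, fun i => hDf _, fun i => hDf _,
    ?_, ?_, hclS, hclT⟩
  · have h1 : A ∪ C = ⋃ i, (A ∪ D (2 * i)) := by
      apply Set.Subset.antisymm
      · rintro x (hx | hx)
        · exact Set.mem_iUnion.2 ⟨0, Or.inl hx⟩
        · exact Set.mem_iUnion.2 ⟨n x, Or.inr (hn2 x hx)⟩
      · exact Set.iUnion_subset fun i => Set.union_subset_union_right _ (hDC _)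
    rw [h1]
    exact closed_iUnion hclS
  · apply Set.Subset.antisymm
    · exact Set.iUnion_subset fun i => hDC _
    · intro x hx
      exact Set.mem_iUnion.2 ⟨n x, hn2 x hx⟩
  · apply Set.Subset.antisymm
    · exact Set.iUnion_subset fun i => hDC _
    · intro x hx
      exact Set.mem_iUnion.2 ⟨n x, hDm _ (hn2 x hx)⟩

end Pool.Agent.Helper79.Berg
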