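import Pool.Agent.Helper79.Berg1

set_option autoImplicit false

namespace Pool.Agent.Helper79.Berg

open FreeGroup Cardinal

variable {X : Type}

/-- Locally finite automorphisms. -/
def LF (g : MulAut (FreeGroup X)) : Prop := ∀ x, ∃ Y : Set X, Y.Finite ∧ x ∈ Y ∧ Closed g Y

/-- The least closed set containing `x`. -/
def cls (g : MulAut (FreeGroup X)) (x : X) : Set X :=
  ⋂ Y : {Y' : Set X // x ∈ Y' ∧ Closed g Y'}, Y.1

theorem cls_closed (g : MulAut (FreeGroup X)) (x : X) : Closed g (cls g x) :=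
  closed_iInter fun Y => Y.2.2

theorem mem_cls (g : MulAut (FreeGroup X)) (x : X) : x ∈ cls g x :=
  Set.mem_iInter.2 fun Y => Y.2.1

theorem cls_subset {g : MulAut (FreeGroup X)} {x : X} {Y : Set X} (hx : x ∈ Y)
    (hY : Closed g Y) : cls g x ⊆ Y := Set.iInter_subset _ (⟨Y, hx, hY⟩ : {Y : Set X // _})

theorem cls_sub_cls {g : MulAut (FreeGroup X)} {x y : X} (h : y ∈ cls g x) :
    cls g y ⊆ cls g x := cls_subset h (cls_closed g x)

theorem cls_finite {g : MulAut (FreeGroup X)} (hg : LF g) (x : X) : (cls g x).Finite := by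
  obtain ⟨Y, hY, hx, hc⟩ := hg x
  exact hY.subset (cls_subset hx hc)

theorem closed_of_cls {g : MulAut (FreeGroup X)} {A : Set X} (h : ∀ x ∈ A, cls g x ⊆ A) :
    Closed g A := by
  intro x hx
  have := cls_closed g x x (mem_cls g x)
  exact ⟨FA_mono (h x hx) this.1, FA_mono (h x hx) this.2⟩

theorem LF_of_rel {I : Type*} [LinearOrder I] [WellFoundedLT I] (g : MulAut (FreeGroup X))
    (β : X → I) (S : I → ℕ → Set X) (hS : ∀ i n, (S i n).Finite)
    (hcov : ∀ x, ∃ n, x ∈ S (β x) n) (hcl : ∀ i n, Closed g ({z | β z < i} ∪ S i n)) : LF g := by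
  classical
  have key : ∀ i : I, ∀ x, β x = i → ∃ Y : Set X, Y.Finite ∧ x ∈ Y ∧ Closed g Y := by
    intro i
    induction i using WellFoundedLT.induction with
    | ind i ih =>
      intro x hx
      obtain ⟨n, hn⟩ := hcov x
      rw [hx] at hn
      have hex : ∀ y, ∃ Y : Set X, β y < i → (Y.Finite ∧ y ∈ Y ∧ Closed g Y) := by
        intro y
        by_cases h : β y < i
        · obtain ⟨Y, hY⟩ := ih _ h y rfl
          exact ⟨Y, fun _ => hY⟩
        · exact ⟨∅, fun h' => absurd h' h⟩
      choose F hF using hex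
      let T : Set X := ⋃ z ∈ S i n, ((supp (g (FreeGroup.of z)) : Finset X) : Set X) ∪
        ((supp (g⁻¹ (FreeGroup.of z)) : Finset X) : Set X)
      have hT : T.Finite := (hS i n).biUnion fun z _ => (Finset.finite_toSet _).union
        (Finset.finite_toSet _)
      let W : Set X := ⋃ y ∈ T ∩ {y | β y < i}, F y
      have hW : W.Finite := (hT.inter_of_left _).biUnion fun y hy => (hF y hy.2).1
      refine ⟨S i n ∪ W, (hS i n).union hW, Or.inl hn, ?_⟩
      intro z hz
      have aux : ∀ w : FreeGroup X, ((supp w : Finset X) : Set X) ⊆ T →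
          w ∈ FA ({z | β z < i} ∪ S i n) → w ∈ FA (S i n ∪ W) := by
        intro w hw1 hw2
        rw [mem_FA_iff] at hw2 ⊢
        intro y hy
        rcases hw2 hy with h | h
        · exact Or.inr (Set.mem_biUnion (⟨hw1 hy, h⟩ : y ∈ T ∩ {y | β y < i}) (hF y h).2.1)
        · exact Or.inl h
      rcases hz with hz | hz
      · have h1 := hcl i n z (Or.inr hz)
        refine ⟨aux _ ?_ h1.1, aux _ ?_ h1.2⟩
        · intro y hy
          exact Set.mem_biUnion hz (Or.inl hy)
        · intro y hy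
          exact Set.mem_biUnion hz (Or.inr hy)
      · obtain ⟨y, hy, hz'⟩ := Set.mem_iUnion₂.1 hz
        have h1 := (hF y hy.2).2.2 z hz'
        have h2 : F y ⊆ S i n ∪ W := fun t ht => Or.inr (Set.mem_biUnion hy ht)
        exact ⟨FA_mono h2 h1.1, FA_mono h2 h1.2⟩
  exact fun x => key _ x rfl

/-- `g` fixes as many letters as there are letters. -/
def Room (g : MulAut (FreeGroup X)) : Prop :=
  ∃ R : Set X, #R = #X ∧ ∀ x ∈ R, g (FreeGroup.of x) = FreeGroup.of x

theorem split_set [Infinite X] {Z : Type} (f : X → Z) (hf : ∀ z, {x | f x = z}.Finite) :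
    ∃ S : Set X, #S = #X ∧ #(Sᶜ : Set X) = #X ∧ ∀ x y, f x = f y → (x ∈ S ↔ y ∈ S) := by
  classical
  have hX : ℵ₀ ≤ #X := Cardinal.aleph0_le_mk X
  have hinf : Infinite (Set.range f) := by
    by_contra hcon
    rw [not_infinite_iff_finite] at hcon
    have : (Set.univ : Set X).Finite := by
      have h1 : (Set.univ : Set X) = ⋃ z ∈ Set.range f, {x | f x = z} := by
        ext x; simp
      rw [h1]
      exact (Set.toFinite (Set.range f)).biUnion fun z _ => hf z
    exact Set.infinite_univ this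
  have hr : #(Set.range f) = #X := by
    apply le_antisymm Cardinal.mk_range_le
    have h1 : #X = #(Σ z : Set.range f, {x // f x = z}) := by
      refine Cardinal.mk_congr ⟨fun x => ⟨⟨f x, x, rfl⟩, x, rfl⟩, fun p => p.2.1, fun x => rfl, ?_⟩
      rintro ⟨⟨z, hz⟩, ⟨x, hx⟩⟩
      dsimp only at hx
      subst hx
      rfl
    rw [h1, Cardinal.mk_sigma]
    calc Cardinal.sum (fun z : Set.range f => #{x // f x = z})
        ≤ Cardinal.sum (fun _ : Set.range f => ℵ₀) := Cardinal.sum_le_sum _ _ (fun z => by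
          have := hf z.1
          exact (Cardinal.lt_aleph0_iff_finite.2 this).le)
      _ = #(Set.range f) * ℵ₀ := by simp
      _ = #(Set.range f) := Cardinal.mul_aleph0_eq (Cardinal.aleph0_le_mk _)
  have e : Nonempty (Set.range f ≃ Set.range f ⊕ Set.range f) := by
    rw [← Cardinal.eq, Cardinal.mk_sum, Cardinal.lift_id, Cardinal.add_eq_self
      (Cardinal.aleph0_le_mk _)]
  obtain ⟨e⟩ := e
  refine ⟨{x | (e ⟨f x, x, rfl⟩).isLeft = true}, ?_, ?_, ?_⟩
  · apply le_antisymm (Cardinal.mk_set_le _)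
    rw [← hr]
    refine Cardinal.mk_le_of_surjective (f := fun x => (e ⟨f x.1, x.1, rfl⟩).getLeft x.2) ?_
    intro z
    obtain ⟨x, hx⟩ := (e.symm (Sum.inl z)).2
    have h1 : e ⟨f x, x, rfl⟩ = Sum.inl z := by
      rw [← e.apply_symm_apply (Sum.inl z)]
      congr 1
      exact Subtype.ext hx
    refine ⟨⟨x, by simp [h1]⟩, ?_⟩
    simp [h1]
  · apply le_antisymm (Cardinal.mk_set_le _)
    rw [← hr]
    refine Cardinal.mk_le_of_surjective (f := fun x => (e ⟨f x.1, x.1, rfl⟩).getRight
      (Sum.not_isLeft.1 x.2)) ?_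
    intro z
    obtain ⟨x, hx⟩ := (e.symm (Sum.inr z)).2
    have h1 : e ⟨f x, x, rfl⟩ = Sum.inr z := by
      rw [← e.apply_symm_apply (Sum.inr z)]
      congr 1
      exact Subtype.ext hx
    refine ⟨⟨x, by simp [h1]⟩, ?_⟩
    simp [h1]
  · intro x y hxy
    simp [hxy]

section levels

variable {g : MulAut (FreeGroup X)} (hg : LF g)

theorem ncard_lt_or_eq (hg : LF g) {x y : X} (h : y ∈ cls g x) :
    (cls g y).ncard < (cls g x).ncard ∨ cls g y = cls g x := by
  rcases (cls_sub_cls h).lt_or_eq with h1 | h1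
  · exact Or.inl (Set.ncard_lt_ncard h1 (cls_finite hg x))
  · exact Or.inr h1

end levels

theorem room_split [Infinite X] {g : MulAut (FreeGroup X)} (hg : LF g) :
    ∃ g1 g2 : MulAut (FreeGroup X), g = g1 * g2 ∧ LF g1 ∧ LF g2 ∧ Room g1 ∧ Room g2 := by
  classical
  have hfib : ∀ q : Set X, {x | cls g x = q}.Finite := by
    intro q
    by_cases h : ∃ x, cls g x = q
    · obtain ⟨x, rfl⟩ := h
      exact (cls_finite hg x).subset fun y (hy : cls g y = cls g x) => hy ▸ mem_cls g y
    · have : {x | cls g x = q} = ∅ := by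
        ext x; simp only [Set.mem_ofPred_eq, Set.mem_empty_iff_false, iff_false]
        exact fun h' => h ⟨x, h'⟩
      rw [this]; exact Set.finite_empty
  obtain ⟨S, hS1, hS2, hS3⟩ := split_set (cls g) hfib
  let ρ : X → ℕ := fun x => (cls g x).ncard
  have hY : ∀ n, Closed g {x | ρ x < n} := by
    intro n
    refine closed_of_cls fun x hx y hy => ?_
    have hx' : ρ x < n := hx
    rcases ncard_lt_or_eq hg hy with h | h
    · exact lt_trans h hx'
    · change (cls g y).ncard < n
      rw [h]; exact hx'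
  have hZ : ∀ n, Closed g ({x | ρ x < n} ∪ ({x | ρ x = n} ∩ S)) := by
    intro n
    refine closed_of_cls ?_
    rintro x (hx | ⟨hx, hxS⟩) y hy
    · left
      have hx' : ρ x < n := hx
      rcases ncard_lt_or_eq hg hy with h | h
      · exact lt_trans h hx'
      · change (cls g y).ncard < n
        rw [h]; exact hx'
    · have hx' : ρ x = n := hx
      rcases ncard_lt_or_eq hg hy with h | h
      · left
        change (cls g y).ncard < n
        exact lt_of_lt_of_eq h hx'
      · right
        refine ⟨?_, (hS3 y x h).2 hxS⟩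
        change (cls g y).ncard = n
        rw [h]; exact hx'
  let θ : ℕ → MulAut (FreeGroup X) := fun n => resA g _ (hZ n) * (resA g _ (hY n))⁻¹
  have hθ : ∀ n x, θ n (FreeGroup.of x) = if ρ x = n ∧ x ∈ S then g (FreeGroup.of x)
      else FreeGroup.of x := by
    intro n x
    simp only [θ, MulAut.mul_apply, resA_apply, resA_inv_apply]
    by_cases h1 : ρ x < n
    · rw [resE_of_mem _ (show x ∈ {x | ρ x < n} from h1), resE_mem g, MulAut.apply_inv_self,
        if_neg (fun h => h1.ne h.1)]
      exact FA_mono Set.subset_union_left (hY n x h1).2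
    · rw [resE_of_not_mem _ (show x ∉ {x | ρ x < n} from h1)]
      by_cases h2 : ρ x = n ∧ x ∈ S
      · rw [if_pos h2, resE_of_mem]
        exact Or.inr h2
      · rw [if_neg h2, resE_of_not_mem]
        rintro (h | h)
        · exact h1 h
        · exact h2 h
  have hθcl : ∀ (n : ℕ) (Y : Set X), Closed g Y → Closed (θ n) Y := fun n Y hc =>
    (resA_closed g _ (hZ n) hc).mul (resA_closed g _ (hY n) hc).inv
  obtain ⟨h, hh1, hh2⟩ := gluing ρ θ (fun n x hx => by rw [hθ, if_neg (fun h => hx h.1)])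
    (fun n => hθcl n _ (by
      have := hY (n + 1)
      convert this using 3
      exact Nat.lt_succ_iff.symm))
  have hh1' : ∀ x, h (FreeGroup.of x) = if x ∈ S then g (FreeGroup.of x) else FreeGroup.of x := by
    intro x
    rw [hh1, hθ]
    simp
  have hcl : ∀ Y : Set X, Closed g Y → Closed h Y := fun Y hc => hh2 Y fun n => hθcl n Y hc
  refine ⟨h, h⁻¹ * g, by group, ?_, ?_, ⟨Sᶜ, hS2, ?_⟩, ⟨S, hS1, ?_⟩⟩
  · intro x
    exact ⟨cls g x, cls_finite hg x, mem_cls g x, hcl _ (cls_closed g x)⟩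
  · intro x
    exact ⟨cls g x, cls_finite hg x, mem_cls g x,
      (hcl _ (cls_closed g x)).inv.mul (cls_closed g x)⟩
  · intro x hx
    rw [hh1', if_neg hx]
  · intro x hx
    have h1 := hh1' x
    rw [if_pos hx] at h1
    rw [MulAut.mul_apply, ← h1, MulAut.inv_apply_self]

end Pool.Agent.Helper79.Berg
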