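import Pool.Agent.Helper79.Berg2

set_option autoImplicit false

namespace Pool.Agent.Helper79.Berg

open FreeGroup Cardinal

/-- Cell types over `A`: automorphisms of `F(A ⊔ Fin m)` fixing `A`. -/
structure Ty (A : Type) : Type where
  m : ℕ
  E : MulAut (FreeGroup (A ⊕ Fin m))
  fix : ∀ a, E (FreeGroup.of (Sum.inl a)) = FreeGroup.of (Sum.inl a)

section ext

variable {A A' : Type}

/-- Extension of `Γ` by the identity on the letters of `Fin m`. -/
def extHom (Γ : FreeGroup A →* FreeGroup A') (m : ℕ) :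
    FreeGroup (A ⊕ Fin m) →* FreeGroup (A' ⊕ Fin m) :=
  FreeGroup.lift (Sum.elim (fun a => FreeGroup.map Sum.inl (Γ (FreeGroup.of a)))
    (fun i => FreeGroup.of (Sum.inr i)))

theorem extHom_inl (Γ : FreeGroup A →* FreeGroup A') (m : ℕ) (a : A) :
    extHom Γ m (FreeGroup.of (Sum.inl a)) = FreeGroup.map Sum.inl (Γ (FreeGroup.of a)) := by
  simp [extHom]

theorem extHom_inr (Γ : FreeGroup A →* FreeGroup A') (m : ℕ) (i : Fin m) :
    extHom Γ m (FreeGroup.of (Sum.inr i)) = FreeGroup.of (Sum.inr i) := by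
  simp [extHom]

theorem extHom_map (Γ : FreeGroup A →* FreeGroup A') (m : ℕ) (w : FreeGroup A) :
    extHom Γ m (FreeGroup.map Sum.inl w) = FreeGroup.map Sum.inl (Γ w) := by
  have : (extHom Γ m).comp (FreeGroup.map Sum.inl) = (FreeGroup.map Sum.inl).comp Γ := by
    ext a
    simp only [MonoidHom.comp_apply, FreeGroup.map.of, extHom_inl]
  exact DFunLike.congr_fun this w

theorem extHom_comp {A'' : Type} (Γ : FreeGroup A →* FreeGroup A')
    (Δ : FreeGroup A' →* FreeGroup A'') (m : ℕ) :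
    (extHom Δ m).comp (extHom Γ m) = extHom (Δ.comp Γ) m := by
  ext x
  rcases x with a | i
  · simp only [MonoidHom.comp_apply, extHom_inl, extHom_map]
  · simp only [MonoidHom.comp_apply, extHom_inr]

theorem extHom_id (m : ℕ) : extHom (MonoidHom.id (FreeGroup A)) m = MonoidHom.id _ := by
  ext x
  rcases x with a | i
  · simp only [extHom_inl, MonoidHom.id_apply, FreeGroup.map.of]
  · simp only [extHom_inr, MonoidHom.id_apply]

/-- Extension of an isomorphism. -/
def extE (Γ : FreeGroup A ≃* FreeGroup A') (m : ℕ) :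
    FreeGroup (A ⊕ Fin m) ≃* FreeGroup (A' ⊕ Fin m) :=
  MonoidHom.toMulEquiv (extHom Γ.toMonoidHom m) (extHom Γ.symm.toMonoidHom m)
    (by rw [extHom_comp, show Γ.symm.toMonoidHom.comp Γ.toMonoidHom = MonoidHom.id _ from
      MonoidHom.ext fun x => Γ.symm_apply_apply x, extHom_id])
    (by rw [extHom_comp, show Γ.toMonoidHom.comp Γ.symm.toMonoidHom = MonoidHom.id _ from
      MonoidHom.ext fun x => Γ.apply_symm_apply x, extHom_id])

theorem extE_apply (Γ : FreeGroup A ≃* FreeGroup A') (m : ℕ) (w : FreeGroup (A ⊕ Fin m)) :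
    extE Γ m w = extHom Γ.toMonoidHom m w := rfl

theorem extE_symm_apply (Γ : FreeGroup A ≃* FreeGroup A') (m : ℕ)
    (w : FreeGroup (A' ⊕ Fin m)) :
    (extE Γ m).symm w = extHom Γ.symm.toMonoidHom m w := rfl

theorem fix_map_inl {m : ℕ} (E : MulAut (FreeGroup (A ⊕ Fin m)))
    (hE : ∀ a, E (FreeGroup.of (Sum.inl a)) = FreeGroup.of (Sum.inl a)) (w : FreeGroup A) :
    E (FreeGroup.map Sum.inl w) = FreeGroup.map Sum.inl w := by
  have : (E.toMonoidHom).comp (FreeGroup.map Sum.inl) = FreeGroup.map Sum.inl := by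
    ext a
    simp only [MonoidHom.comp_apply, FreeGroup.map.of]
    exact hE a
  exact DFunLike.congr_fun this w

theorem conj_fix (Γ : FreeGroup A ≃* FreeGroup A') {m : ℕ} (E : MulAut (FreeGroup (A ⊕ Fin m)))
    (hE : ∀ a, E (FreeGroup.of (Sum.inl a)) = FreeGroup.of (Sum.inl a)) (a : A') :
    MulAut.congr (extE Γ m) E (FreeGroup.of (Sum.inl a)) = FreeGroup.of (Sum.inl a) := by
  change extE Γ m (E ((extE Γ m).symm (FreeGroup.of (Sum.inl a)))) = _
  rw [extE_symm_apply, extHom_inl, fix_map_inl E hE, extE_apply, extHom_map]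
  have : Γ.toMonoidHom (Γ.symm.toMonoidHom (FreeGroup.of a)) = FreeGroup.of a :=
    Γ.apply_symm_apply _
  rw [this, FreeGroup.map.of]

/-- Transport of cell types. -/
def tyMap (Γ : FreeGroup A ≃* FreeGroup A') (t : Ty A) : Ty A' :=
  ⟨t.m, MulAut.congr (extE Γ t.m) t.E, conj_fix Γ t.E t.fix⟩

theorem tyMap_symm (Γ : FreeGroup A ≃* FreeGroup A') (t : Ty A) :
    tyMap Γ.symm (tyMap Γ t) = t := by
  obtain ⟨m, E, hE⟩ := t
  simp only [tyMap]
  congr 1
  apply MulEquiv.ext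
  intro w
  change (extE Γ.symm m) ((extE Γ m) (E ((extE Γ m).symm ((extE Γ.symm m).symm w)))) = E w
  have h1 : ∀ v, (extE Γ.symm m) v = (extE Γ m).symm v := fun v => rfl
  have h2 : ∀ v, (extE Γ.symm m).symm v = (extE Γ m) v := fun v => rfl
  rw [h1, h2, MulEquiv.symm_apply_apply, MulEquiv.symm_apply_apply]

/-- Transport of cell types as an equivalence. -/
def tyE (Γ : FreeGroup A ≃* FreeGroup A') : Ty A ≃ Ty A' where
  toFun := tyMap Γ
  invFun := tyMap Γ.symm
  left_inv := tyMap_symm Γ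
  right_inv := fun t => by
    have := tyMap_symm Γ.symm t
    rwa [MulEquiv.symm_symm] at this

theorem tyE_fst (Γ : FreeGroup A ≃* FreeGroup A') (t : Ty A) : (tyE Γ t).m = t.m := rfl

theorem tyE_apply_inr (Γ : FreeGroup A ≃* FreeGroup A') (t : Ty A) (i : Fin t.m) :
    (tyE Γ t).E (FreeGroup.of (Sum.inr i)) =
      extHom Γ.toMonoidHom t.m (t.E (FreeGroup.of (Sum.inr i))) := by
  change extE Γ t.m (t.E ((extE Γ t.m).symm (FreeGroup.of (Sum.inr i)))) = _
  rw [extE_symm_apply, extHom_inr, extE_apply]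

end ext

variable {X : Type}

/-- The level `n` structure of a universal automorphism. -/
structure Level (k : MulAut (FreeGroup X)) (ρ : X → ℕ) (n : ℕ) where
  C : Type
  τ : C → Ty {x // ρ x < n}
  lam : (Σ c : C, Fin (τ c).m) ≃ {x // ρ x = n}
  card : ∀ t, #{c // τ c = t} = #X
  eq : ∀ c i, k (FreeGroup.of (lam ⟨c, i⟩).1) =
    FreeGroup.map (Sum.elim (fun a => a.1) (fun j => (lam ⟨c, j⟩).1))
      ((τ c).E (FreeGroup.of (Sum.inr i)))

/-- Universal automorphisms. -/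
def Univ (k : MulAut (FreeGroup X)) (ρ : X → ℕ) : Prop := ∀ n, Nonempty (Level k ρ n)

theorem map_mem_FA {Y : Type} (f : Y → X) {A : Set X} (h : ∀ y, f y ∈ A) (w : FreeGroup Y) :
    FreeGroup.map f w ∈ FA A := by
  refine map_mem (A := Set.univ) (FreeGroup.map f) ?_ (mem_FA_univ w)
  intro y _
  rw [FreeGroup.map.of]
  exact of_mem (h y)

theorem map_congr_on {Y : Type} {f f' : X → Y} {A : Set X} (h : ∀ x ∈ A, f x = f' x)
    {w : FreeGroup X} (hw : w ∈ FA A) : FreeGroup.map f w = FreeGroup.map f' w :=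
  hom_eqOn _ _ (fun x hx => by rw [FreeGroup.map.of, FreeGroup.map.of, h x hx]) hw

theorem Level.mem {k : MulAut (FreeGroup X)} {ρ : X → ℕ} {n : ℕ} (L : Level k ρ n) {x : X}
    (hx : ρ x = n) : k (FreeGroup.of x) ∈ FA {y | ρ y ≤ n} := by
  have h1 : x = (L.lam (L.lam.symm ⟨x, hx⟩)).1 := by rw [Equiv.apply_symm_apply]
  generalize L.lam.symm ⟨x, hx⟩ = p at h1
  obtain ⟨c, i⟩ := p
  rw [h1, L.eq]
  apply map_mem_FA
  rintro (a | j)
  · exact a.2.le
  · exact (L.lam ⟨c, j⟩).2.le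

theorem Level.eq' {k : MulAut (FreeGroup X)} {ρ : X → ℕ} {n : ℕ} (L : Level k ρ n)
    (c : L.C) (t : Ty {x // ρ x < n}) (h : L.τ c = t) (i : Fin t.m) :
    k (FreeGroup.of (L.lam ⟨c, Fin.cast (by rw [h]) i⟩).1) =
      FreeGroup.map (Sum.elim (fun a => a.1) (fun j => (L.lam ⟨c, Fin.cast (by rw [h]) j⟩).1))
        (t.E (FreeGroup.of (Sum.inr i))) := by
  subst h
  exact L.eq c i

/-- Partial isomorphisms. -/
structure PI (k k' : MulAut (FreeGroup X)) (ρ ρ' : X → ℕ) (n : ℕ) (f : X → X) : Prop where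
  bij : Set.BijOn f {x | ρ x < n} {x | ρ' x < n}
  lvl : ∀ x, ρ x < n → ρ' (f x) = ρ x
  conj : ∀ x, ρ x < n → k' (FreeGroup.of (f x)) = FreeGroup.map f (k (FreeGroup.of x))

theorem PI.step {k k' : MulAut (FreeGroup X)} {ρ ρ' : X → ℕ} {n : ℕ} {f : X → X}
    (hk : Univ k ρ) (hk' : Univ k' ρ') (hf : PI k k' ρ ρ' n f) :
    ∃ f', PI k k' ρ ρ' (n + 1) f' ∧ ∀ x, ρ x < n → f' x = f x := by
  classical
  obtain ⟨L⟩ := hk n
  obtain ⟨L'⟩ := hk' n
  let fe : {x // ρ x < n} ≃ {x // ρ' x < n} := hf.bij.equiv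
  have hfe : ∀ a, (fe a).1 = f a.1 := fun a => rfl
  let T := tyE (FreeGroup.freeGroupCongr fe)
  have e : ∀ t', Nonempty ({c // T (L.τ c) = t'} ≃ {c // L'.τ c = t'}) := by
    intro t'
    rw [← Cardinal.eq, L'.card t', ← L.card (T.symm t')]
    refine Cardinal.mk_congr (Equiv.subtypeEquivRight fun c => ?_)
    rw [Equiv.eq_symm_apply]
  let κ : L.C ≃ L'.C := Equiv.ofFiberEquiv (f := fun c => T (L.τ c)) (g := L'.τ)
    (fun t' => (e t').some)
  have hκ : ∀ c, L'.τ (κ c) = T (L.τ c) := fun c =>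
    Equiv.ofFiberEquiv_map (f := fun c => T (L.τ c)) (g := L'.τ) (fun t' => (e t').some) c
  have hκ1 : ∀ c, (L.τ c).m = (L'.τ (κ c)).m := fun c => by rw [hκ]; rfl
  let σ : (Σ c : L.C, Fin (L.τ c).m) ≃ (Σ c : L'.C, Fin (L'.τ c).m) :=
    Equiv.sigmaCongr κ (fun c => finCongr (hκ1 c))
  let ε : {x // ρ x = n} ≃ {x // ρ' x = n} := L.lam.symm.trans (σ.trans L'.lam)
  have hε : ∀ c i, ε (L.lam ⟨c, i⟩) = L'.lam ⟨κ c, Fin.cast (hκ1 c) i⟩ := by
    intro c i
    simp only [ε, Equiv.trans_apply, Equiv.symm_apply_apply]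
    rfl
  let f' : X → X := fun x => if ρ x < n then f x else if h : ρ x = n then (ε ⟨x, h⟩).1 else x
  have f'1 : ∀ x, ρ x < n → f' x = f x := fun x hx => if_pos hx
  have f'2 : ∀ x (hx : ρ x = n), f' x = (ε ⟨x, hx⟩).1 := fun x hx => by
    simp only [f', hx, lt_irrefl, if_false, dif_pos]
  have f'3 : ∀ z : {x // ρ x = n}, f' z.1 = (ε z).1 := fun z => f'2 z.1 z.2
  have lvl' : ∀ x, ρ x < n + 1 → ρ' (f' x) = ρ x := by
    intro x hx
    rcases Nat.lt_succ_iff_lt_or_eq.1 hx with h | h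
    · rw [f'1 x h]; exact hf.lvl x h
    · rw [f'2 x h, (ε ⟨x, h⟩).2, h]
  refine ⟨f', ⟨⟨?_, ?_, ?_⟩, lvl', ?_⟩, f'1⟩
  · intro x hx
    change ρ' (f' x) < n + 1
    rw [lvl' x hx]; exact hx
  · intro x hx y hy hxy
    have hx' : ρ x < n + 1 := hx
    have hy' : ρ y < n + 1 := hy
    have hl : ρ x = ρ y := by rw [← lvl' x hx, ← lvl' y hy, hxy]
    rcases Nat.lt_succ_iff_lt_or_eq.1 hx' with h | h
    · rw [f'1 x h, f'1 y (hl ▸ h)] at hxy
      exact hf.bij.injOn h (show ρ y < n from hl ▸ h) hxy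
    · have h2 : ρ y = n := hl ▸ h
      rw [f'2 x h, f'2 y h2] at hxy
      have := ε.injective (Subtype.ext hxy)
      exact congrArg Subtype.val this
  · intro y hy
    have hy' : ρ' y < n + 1 := hy
    rcases Nat.lt_succ_iff_lt_or_eq.1 hy' with h | h
    · obtain ⟨x, hx, rfl⟩ := hf.bij.surjOn (show y ∈ {x | ρ' x < n} from h)
      exact ⟨x, lt_trans (show ρ x < n from hx) (Nat.lt_succ_self n), f'1 x hx⟩
    · refine ⟨(ε.symm ⟨y, h⟩).1, ?_, ?_⟩
      · exact lt_of_eq_of_lt (ε.symm ⟨y, h⟩).2 (Nat.lt_succ_self n)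
      · rw [f'3, Equiv.apply_symm_apply]
  · intro x hx
    rcases Nat.lt_succ_iff_lt_or_eq.1 hx with h | h
    · rw [f'1 x h, hf.conj x h]
      refine map_congr_on (A := {y | ρ y ≤ ρ x}) ?_ ((hk (ρ x)).some.mem rfl)
      intro z hz
      exact (f'1 z (lt_of_le_of_lt hz h)).symm
    · have h1 : (⟨x, h⟩ : {x // ρ x = n}) = L.lam (L.lam.symm ⟨x, h⟩) := by
        rw [Equiv.apply_symm_apply]
      rw [f'2 x h]
      generalize L.lam.symm ⟨x, h⟩ = p at h1
      obtain ⟨c, i⟩ := p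
      have h2 : x = (L.lam ⟨c, i⟩).1 := congrArg Subtype.val h1
      rw [h1, hε]
      have h3 : k' (FreeGroup.of (L'.lam ⟨κ c, Fin.cast (hκ1 c) i⟩).1) =
          FreeGroup.map (Sum.elim (fun a : {x // ρ' x < n} => a.1)
            (fun j : Fin (L.τ c).m => (L'.lam ⟨κ c, Fin.cast (hκ1 c) j⟩).1))
            (extHom (FreeGroup.freeGroupCongr fe).toMonoidHom (L.τ c).m
              ((L.τ c).E (FreeGroup.of (Sum.inr i)))) := by
        rw [← tyE_apply_inr]
        exact L'.eq' (κ c) (T (L.τ c)) (hκ c) i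
      rw [h3, h2, L.eq]
      have h5 : ∀ w : FreeGroup ({x // ρ x < n} ⊕ Fin (L.τ c).m),
          FreeGroup.map (Sum.elim (fun a : {x // ρ' x < n} => a.1)
            (fun j : Fin (L.τ c).m => (L'.lam ⟨κ c, Fin.cast (hκ1 c) j⟩).1))
            (extHom (FreeGroup.freeGroupCongr fe).toMonoidHom (L.τ c).m w) =
          FreeGroup.map f' (FreeGroup.map (Sum.elim (fun a => a.1)
            (fun j => (L.lam ⟨c, j⟩).1)) w) := by
        intro w
        have : (FreeGroup.map (Sum.elim (fun a : {x // ρ' x < n} => a.1)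
            (fun j : Fin (L.τ c).m => (L'.lam ⟨κ c, Fin.cast (hκ1 c) j⟩).1))).comp
            (extHom (FreeGroup.freeGroupCongr fe).toMonoidHom (L.τ c).m) =
          (FreeGroup.map f').comp (FreeGroup.map (Sum.elim (fun a => a.1)
            (fun j => (L.lam ⟨c, j⟩).1))) := by
          ext y
          rcases y with a | j
          · simp only [MonoidHom.comp_apply, extHom_inl, FreeGroup.map.of, Sum.elim_inl]
            have : (FreeGroup.freeGroupCongr fe).toMonoidHom (FreeGroup.of a) =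
              FreeGroup.of (fe a) := by
              change FreeGroup.freeGroupCongr fe (FreeGroup.of a) = _
              simp
            rw [this, FreeGroup.map.of, FreeGroup.map.of, Sum.elim_inl, hfe, f'1 _ a.2]
          · simp only [MonoidHom.comp_apply, extHom_inr, FreeGroup.map.of, Sum.elim_inr]
            rw [f'3, hε]
        exact DFunLike.congr_fun this w
      exact h5 _

theorem conj_of_univ {k k' : MulAut (FreeGroup X)} {ρ ρ' : X → ℕ}
    (hk : Univ k ρ) (hk' : Univ k' ρ') :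
    ∃ π : Equiv.Perm X, ∀ x, k' (FreeGroup.of (π x)) = FreeGroup.map π (k (FreeGroup.of x)) := by
  classical
  let F : (n : ℕ) → {f : X → X // PI k k' ρ ρ' n f} := fun n =>
    Nat.rec (motive := fun n => {f : X → X // PI k k' ρ ρ' n f})
      ⟨id, ⟨⟨fun x hx => absurd hx (Nat.not_lt_zero _), fun x hx => absurd hx (Nat.not_lt_zero _),
        fun x hx => absurd hx (Nat.not_lt_zero _)⟩, fun x hx => absurd hx (Nat.not_lt_zero _),
        fun x hx => absurd hx (Nat.not_lt_zero _)⟩⟩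
      (fun n f => ⟨(f.2.step hk hk').choose, (f.2.step hk hk').choose_spec.1⟩) n
  have hF : ∀ n x, ρ x < n → (F (n + 1)).1 x = (F n).1 x := fun n x hx =>
    ((F n).2.step hk hk').choose_spec.2 x hx
  have hF2 : ∀ n m x, ρ x < n → n ≤ m → (F m).1 x = (F n).1 x := by
    intro n m x hx hnm
    induction m, hnm using Nat.le_induction with
    | base => rfl
    | succ m hm ih => rw [hF m x (lt_of_lt_of_le hx hm), ih]
  let π : X → X := fun x => (F (ρ x + 1)).1 x
  have hπ : ∀ n x, ρ x < n → (F n).1 x = π x := fun n x hx =>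
    hF2 (ρ x + 1) n x (Nat.lt_succ_self _) hx
  have hπl : ∀ x, ρ' (π x) = ρ x := fun x => (F (ρ x + 1)).2.lvl x (Nat.lt_succ_self _)
  have hπb : Function.Bijective π := by
    constructor
    · intro x y hxy
      have h1 : ρ x = ρ y := by rw [← hπl x, ← hπl y, hxy]
      have h2 := (F (ρ x + 1)).2.bij.injOn
      refine h2 (Nat.lt_succ_self _) (show ρ y < ρ x + 1 by rw [h1]; exact Nat.lt_succ_self _) ?_
      rw [hπ _ _ (Nat.lt_succ_self _), hπ (ρ x + 1) y (by rw [h1]; exact Nat.lt_succ_self _), hxy]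
    · intro y
      obtain ⟨x, hx, hxy⟩ := (F (ρ' y + 1)).2.bij.surjOn
        (show y ∈ {x | ρ' x < ρ' y + 1} from Nat.lt_succ_self _)
      exact ⟨x, by rw [← hπ (ρ' y + 1) x hx, hxy]⟩
  refine ⟨Equiv.ofBijective π hπb, fun x => ?_⟩
  have h1 := (F (ρ x + 1)).2.conj x (Nat.lt_succ_self _)
  change k' (FreeGroup.of (π x)) = FreeGroup.map π (k (FreeGroup.of x))
  rw [show π x = (F (ρ x + 1)).1 x from rfl, h1]
  refine map_congr_on (A := {y | ρ y ≤ ρ x}) ?_ ((hk (ρ x)).some.mem rfl)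
  intro z hz
  exact hπ _ z (Nat.lt_succ_of_le hz)

end Pool.Agent.Helper79.Berg
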