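import Pool.Agent.Helper79.Berg3

set_option autoImplicit false

namespace Pool.Agent.Helper79.Berg

open FreeGroup Cardinal

variable {X : Type}

section block

variable {A : Type} (ι : A → X) {C : Type} (m : C → ℕ) (lam : (Σ c, Fin (m c)) → X)

/-- The homomorphism acting on the labelled blocks. -/
noncomputable def blockHom (E : ∀ c, MulAut (FreeGroup (A ⊕ Fin (m c)))) :
    FreeGroup X →* FreeGroup X :=
  FreeGroup.lift (Function.extend lam (fun p => FreeGroup.map
    (Sum.elim ι (fun j => lam ⟨p.1, j⟩)) (E p.1 (FreeGroup.of (Sum.inr p.2))))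
    (fun x => FreeGroup.of x))

variable {ι m lam}

theorem blockHom_lam (hinj : Function.Injective lam)
    (E : ∀ c, MulAut (FreeGroup (A ⊕ Fin (m c)))) (p : Σ c, Fin (m c)) :
    blockHom ι m lam E (FreeGroup.of (lam p)) = FreeGroup.map
      (Sum.elim ι (fun j => lam ⟨p.1, j⟩)) (E p.1 (FreeGroup.of (Sum.inr p.2))) := by
  rw [blockHom, FreeGroup.lift_apply_of, hinj.extend_apply]

theorem blockHom_not (E : ∀ c, MulAut (FreeGroup (A ⊕ Fin (m c)))) {x : X}
    (hx : x ∉ Set.range lam) :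
    blockHom ι m lam E (FreeGroup.of x) = FreeGroup.of x := by
  rw [blockHom, FreeGroup.lift_apply_of, Function.extend_apply']
  exact hx

theorem blockHom_map (hinj : Function.Injective lam) (hdisj : ∀ a p, ι a ≠ lam p)
    (E : ∀ c, MulAut (FreeGroup (A ⊕ Fin (m c))))
    (hE : ∀ c a, E c (FreeGroup.of (Sum.inl a)) = FreeGroup.of (Sum.inl a))
    (c : C) (w : FreeGroup (A ⊕ Fin (m c))) :
    blockHom ι m lam E (FreeGroup.map (Sum.elim ι (fun j => lam ⟨c, j⟩)) w) =
      FreeGroup.map (Sum.elim ι (fun j => lam ⟨c, j⟩)) (E c w) := by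
  have : (blockHom ι m lam E).comp (FreeGroup.map (Sum.elim ι (fun j => lam ⟨c, j⟩))) =
      (FreeGroup.map (Sum.elim ι (fun j => lam ⟨c, j⟩))).comp (E c).toMonoidHom := by
    ext y
    rcases y with a | i
    · simp only [MonoidHom.comp_apply, FreeGroup.map.of, Sum.elim_inl]
      rw [blockHom_not E (by rintro ⟨p, hp⟩; exact hdisj a p hp.symm)]
      change _ = FreeGroup.map _ (E c (FreeGroup.of (Sum.inl a)))
      rw [hE, FreeGroup.map.of, Sum.elim_inl]
    · simp only [MonoidHom.comp_apply, FreeGroup.map.of, Sum.elim_inr]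
      rw [blockHom_lam hinj]
      rfl
  exact DFunLike.congr_fun this w

theorem blockHom_comp (hinj : Function.Injective lam) (hdisj : ∀ a p, ι a ≠ lam p)
    (E E' : ∀ c, MulAut (FreeGroup (A ⊕ Fin (m c))))
    (hE : ∀ c a, E c (FreeGroup.of (Sum.inl a)) = FreeGroup.of (Sum.inl a))
    (h1 : ∀ c w, E c (E' c w) = w) :
    (blockHom ι m lam E).comp (blockHom ι m lam E') = MonoidHom.id _ := by
  ext x
  simp only [MonoidHom.comp_apply, MonoidHom.id_apply]
  by_cases hx : x ∈ Set.range lam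
  · obtain ⟨p, rfl⟩ := hx
    rw [blockHom_lam hinj, blockHom_map hinj hdisj E hE, h1, FreeGroup.map.of, Sum.elim_inr]
  · rw [blockHom_not E' hx, blockHom_not E hx]

theorem block (hinj : Function.Injective lam) (hdisj : ∀ a p, ι a ≠ lam p)
    (E : ∀ c, MulAut (FreeGroup (A ⊕ Fin (m c))))
    (hE : ∀ c a, E c (FreeGroup.of (Sum.inl a)) = FreeGroup.of (Sum.inl a)) :
    ∃ θ : MulAut (FreeGroup X), (∀ x, x ∉ Set.range lam → θ (FreeGroup.of x) = FreeGroup.of x) ∧
      (∀ c i, θ (FreeGroup.of (lam ⟨c, i⟩)) = FreeGroup.map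
        (Sum.elim ι (fun j => lam ⟨c, j⟩)) (E c (FreeGroup.of (Sum.inr i)))) ∧
      (∀ Y : Set X, Set.range ι ⊆ Y → Set.range lam ⊆ Y → Closed θ Y) := by
  have hE' : ∀ c a, (E c)⁻¹ (FreeGroup.of (Sum.inl a)) = FreeGroup.of (Sum.inl a) := by
    intro c a
    have : (E c)⁻¹ (E c (FreeGroup.of (Sum.inl a))) = FreeGroup.of (Sum.inl a) :=
      MulAut.inv_apply_self _ _ _
    rwa [hE] at this
  have hmem : ∀ (E : ∀ c, MulAut (FreeGroup (A ⊕ Fin (m c)))) (Y : Set X), Set.range ι ⊆ Y →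
      Set.range lam ⊆ Y → ∀ x ∈ Y, blockHom ι m lam E (FreeGroup.of x) ∈ FA Y := by
    intro E Y h1 h2 x hx
    by_cases hx' : x ∈ Set.range lam
    · obtain ⟨p, rfl⟩ := hx'
      rw [blockHom_lam hinj]
      apply map_mem_FA
      rintro (a | j)
      · exact h1 ⟨a, rfl⟩
      · exact h2 ⟨_, rfl⟩
    · rw [blockHom_not E hx']
      exact of_mem hx
  refine ⟨MonoidHom.toMulEquiv (blockHom ι m lam E) (blockHom ι m lam fun c => (E c)⁻¹)
    (blockHom_comp hinj hdisj _ _ hE' fun c w => MulAut.inv_apply_self _ _ _)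
    (blockHom_comp hinj hdisj _ _ hE fun c w => MulAut.apply_inv_self _ _ _), ?_, ?_, ?_⟩
  · intro x hx
    exact blockHom_not E hx
  · intro c i
    exact blockHom_lam hinj E ⟨c, i⟩
  · intro Y h1 h2 x hx
    exact ⟨hmem E Y h1 h2 x hx, hmem (fun c => (E c)⁻¹) Y h1 h2 x hx⟩

end block

theorem range_map_eq {T : Type} (j : T → X) {w : FreeGroup X} (hw : w ∈ FA (Set.range j)) :
    ∃ v, FreeGroup.map j v = w := by
  have : FA (Set.range j) ≤ (FreeGroup.map j).range := by
    rw [FA, Subgroup.closure_le]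
    rintro _ ⟨_, ⟨t, rfl⟩, rfl⟩
    exact ⟨FreeGroup.of t, FreeGroup.map.of⟩
  exact this hw

theorem restrict {T : Type} (θ : MulAut (FreeGroup X)) (j : T → X) (hj : Function.Injective j)
    (hc : Closed θ (Set.range j)) :
    ∃ E : MulAut (FreeGroup T), ∀ w, FreeGroup.map j (E w) = θ (FreeGroup.map j w) := by
  have hinj := FreeGroup.map_injective hj
  have key : ∀ θ : MulAut (FreeGroup X), Closed θ (Set.range j) →
      ∃ E : FreeGroup T →* FreeGroup T, ∀ w, FreeGroup.map j (E w) = θ (FreeGroup.map j w) := by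
    intro θ hc
    have h1 : ∀ t, ∃ v, FreeGroup.map j v = θ (FreeGroup.of (j t)) := fun t =>
      range_map_eq j (hc _ ⟨t, rfl⟩).1
    choose v hv using h1
    refine ⟨FreeGroup.lift v, fun w => ?_⟩
    have : (FreeGroup.map j).comp (FreeGroup.lift v) = (θ.toMonoidHom).comp (FreeGroup.map j) := by
      ext t
      simp only [MonoidHom.comp_apply, FreeGroup.lift_apply_of, FreeGroup.map.of, hv]
      rfl
    exact DFunLike.congr_fun this w
  obtain ⟨E, hE⟩ := key θ hc
  obtain ⟨E', hE'⟩ := key θ⁻¹ hc.inv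
  refine ⟨MonoidHom.toMulEquiv E E' ?_ ?_, hE⟩
  · ext t
    apply hinj
    simp only [MonoidHom.comp_apply, MonoidHom.id_apply]
    rw [hE', hE]
    exact MulAut.inv_apply_self _ _ _
  · ext t
    apply hinj
    simp only [MonoidHom.comp_apply, MonoidHom.id_apply]
    rw [hE, hE']
    exact MulAut.apply_inv_self _ _ _

section card

variable [Infinite X]

/-- The trivial type. -/
def triv (A : Type) : Ty A := ⟨1, 1, fun _ => rfl⟩

theorem card_Ty {A : Type} (hA : #A ≤ #X) : #(Ty A) ≤ #X := by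
  have hX : ℵ₀ ≤ #X := Cardinal.aleph0_le_mk X
  have h1 : #(Ty A) ≤ #(Σ m : ℕ, (Fin m → FreeGroup (A ⊕ Fin m))) := by
    refine Cardinal.mk_le_of_injective
      (f := fun t => ⟨t.m, fun i => t.E (FreeGroup.of (Sum.inr i))⟩) ?_
    rintro ⟨m, E, hE⟩ ⟨m', E', hE'⟩ h
    simp only [Sigma.mk.injEq] at h
    obtain ⟨rfl, h⟩ := h
    have h := eq_of_heq h
    congr 1
    apply MulEquiv.ext
    intro w
    have : E.toMonoidHom = E'.toMonoidHom := by
      ext y
      rcases y with a | i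
      · exact (hE a).trans (hE' a).symm
      · exact congrFun h i
    exact DFunLike.congr_fun this w
  refine h1.trans ?_
  rw [Cardinal.mk_sigma]
  have h2 : ∀ m : ℕ, #(Fin m → FreeGroup (A ⊕ Fin m)) ≤ #X := by
    intro m
    rw [← Cardinal.power_def, Cardinal.mk_fin]
    have h3 : #(FreeGroup (A ⊕ Fin m)) ≤ #X := by
      rcases isEmpty_or_nonempty (A ⊕ Fin m) with h | h
      · exact (Cardinal.mk_le_aleph0).trans hX
      · rw [Cardinal.mk_freeGroup]
        refine max_le ?_ hX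
        rw [Cardinal.mk_sum, Cardinal.lift_id, Cardinal.lift_id]
        exact Cardinal.add_le_of_le hX hA ((Cardinal.mk_le_aleph0).trans hX)
    exact (Cardinal.power_le_power_right h3).trans (Cardinal.power_nat_le hX)
  calc Cardinal.sum (fun m : ℕ => #(Fin m → FreeGroup (A ⊕ Fin m)))
      ≤ Cardinal.sum (fun _ : ℕ => #X) := Cardinal.sum_le_sum _ _ h2
    _ = ℵ₀ * #X := by simp
    _ ≤ #X := Cardinal.mul_le_of_le hX hX le_rfl

theorem card_cells {A : Type} (hA : #A ≤ #X) : #(Σ p : Ty A × X, Fin p.1.m) = #X := by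
  have hX : ℵ₀ ≤ #X := Cardinal.aleph0_le_mk X
  apply le_antisymm
  · rw [Cardinal.mk_sigma]
    calc Cardinal.sum (fun p : Ty A × X => #(Fin p.1.m))
        ≤ Cardinal.sum (fun _ : Ty A × X => #X) :=
          Cardinal.sum_le_sum _ _ fun p => (Cardinal.mk_le_aleph0).trans hX
      _ = #(Ty A × X) * #X := by simp
      _ ≤ #X := by
        refine Cardinal.mul_le_of_le hX ?_ le_rfl
        rw [Cardinal.mk_prod, Cardinal.lift_id, Cardinal.lift_id]
        exact Cardinal.mul_le_of_le hX (card_Ty hA) le_rfl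
  · refine Cardinal.mk_le_of_injective (f := fun x => ⟨(triv A, x), (0 : Fin 1)⟩) ?_
    intro x y h
    exact congrArg (fun z => z.1.2) h

theorem card_fiber {A : Type} (hA : #A ≤ #X) {D : Type} (hD : #D ≤ #X) (σ : Ty A ≃ Ty A)
    (τ : D → Ty A) (t : Ty A) :
    #{c : (Ty A × X) ⊕ D // Sum.elim (fun p => σ p.1) τ c = t} = #X := by
  have hX : ℵ₀ ≤ #X := Cardinal.aleph0_le_mk X
  apply le_antisymm
  · refine (Cardinal.mk_subtype_le _).trans ?_
    rw [Cardinal.mk_sum, Cardinal.lift_id, Cardinal.lift_id]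
    refine Cardinal.add_le_of_le hX ?_ hD
    rw [Cardinal.mk_prod, Cardinal.lift_id, Cardinal.lift_id]
    exact Cardinal.mul_le_of_le hX (card_Ty hA) le_rfl
  · refine Cardinal.mk_le_of_injective
      (f := fun x => ⟨Sum.inl (σ.symm t, x), by simp⟩) ?_
    intro x y h
    simpa using h

end card

end Pool.Agent.Helper79.Berg
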