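import Pool.Agent.Helper79.Berg4

set_option autoImplicit false

namespace Pool.Agent.Helper79.Berg

open FreeGroup Cardinal

variable {X : Type}

/-- A compatible choice of levels. -/
theorem exists_levels [Infinite X] {g : MulAut (FreeGroup X)} (hg : LF g) {R : Set X}
    (hR : #R = #X) (hfix : ∀ x ∈ R, g (FreeGroup.of x) = FreeGroup.of x) :
    ∃ ρ : X → ℕ, (∀ n, #{z : {x // ρ x = n} // z.1 ∈ R} = #X) ∧
      (∀ n, Closed g {x | ρ x < n}) ∧
      (∀ n x, x ∉ R → ρ x = n → Closed g ({y | ρ y < n} ∪ {y | cls g y = cls g x})) ∧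
      (∀ x y, x ∉ R → cls g y = cls g x → y ∉ R ∧ ρ y = ρ x) := by
  classical
  have hX : ℵ₀ ≤ #X := Cardinal.aleph0_le_mk X
  have he : Nonempty (R ≃ ℕ × X) := by
    rw [← Cardinal.eq, hR, Cardinal.mk_prod, Cardinal.lift_id, Cardinal.lift_id, Cardinal.mk_nat,
      Cardinal.aleph0_mul_eq hX]
  obtain ⟨e⟩ := he
  have hRc : ∀ x ∈ R, cls g x = {x} := by
    intro x hx
    apply le_antisymm
    · refine cls_subset rfl ?_
      rintro y (rfl : y = x)
      have h1 : g⁻¹ (g (FreeGroup.of y)) = FreeGroup.of y := MulAut.inv_apply_self _ _ _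
      rw [hfix y hx] at h1
      rw [h1, hfix y hx]
      exact ⟨of_mem rfl, of_mem rfl⟩
    · rintro y (rfl : y = x)
      exact mem_cls g y
  let w : X → ℕ := fun y => if h : y ∈ R then 1 + (e ⟨y, h⟩).1 else 1
  have hw : ∀ y, 1 ≤ w y := by
    intro y
    simp only [w]
    split_ifs <;> omega
  let ρ : X → ℕ := fun x => if h : x ∈ R then (e ⟨x, h⟩).1
    else ∑ y ∈ (cls_finite hg x).toFinset, w y
  have hρR : ∀ x (h : x ∈ R), ρ x = (e ⟨x, h⟩).1 := fun x h => dif_pos h
  have hρN : ∀ x, x ∉ R → ρ x = ∑ y ∈ (cls_finite hg x).toFinset, w y := fun x h => dif_neg h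
  have hnot : ∀ x y, x ∉ R → cls g y = cls g x → y ∉ R := by
    intro x y hx h hy
    rw [hRc y hy] at h
    have : x ∈ ({y} : Set X) := by rw [h]; exact mem_cls g x
    rw [Set.mem_singleton_iff] at this
    exact hx (this ▸ hy)
  have hb : ∀ x y, x ∉ R → cls g y = cls g x → ρ y = ρ x := by
    intro x y hx h
    rw [hρN x hx, hρN y (hnot x y hx h)]
    congr 1
    ext z
    simp [h]
  have ha : ∀ x y, x ∉ R → y ∈ cls g x → cls g y ≠ cls g x → ρ y < ρ x := by
    intro x y hx hy hne
    rw [hρN x hx]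
    by_cases hyR : y ∈ R
    · rw [hρR y hyR]
      have h1 : w y ≤ ∑ z ∈ (cls_finite hg x).toFinset, w z :=
        Finset.single_le_sum (fun z _ => Nat.zero_le _) (by simpa using hy)
      have h2 : w y = 1 + (e ⟨y, hyR⟩).1 := dif_pos hyR
      omega
    · rw [hρN y hyR]
      have hss : cls g y ⊂ cls g x := (cls_sub_cls hy).lt_of_ne hne
      obtain ⟨z, hz1, hz2⟩ := Set.exists_of_ssubset hss
      refine Finset.sum_lt_sum_of_subset (i := z) ?_ ?_ ?_ ?_ ?_
      · intro u hu
        simp only [Set.Finite.mem_toFinset] at hu ⊢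
        exact hss.1 hu
      · simpa using hz1
      · simpa using hz2
      · exact hw z
      · intro u _ _
        exact Nat.zero_le _
  have hc : ∀ x y, y ∈ cls g x → ρ y ≤ ρ x := by
    intro x y hy
    by_cases hx : x ∈ R
    · rw [hRc x hx, Set.mem_singleton_iff] at hy
      rw [hy]
    · by_cases h : cls g y = cls g x
      · exact (hb x y hx h).le
      · exact (ha x y hx hy h).le
  refine ⟨ρ, ?_, ?_, ?_, ?_⟩
  · intro n
    refine Cardinal.mk_congr ⟨fun z => (e ⟨z.1.1, z.2⟩).2, fun x => ⟨⟨(e.symm (n, x)).1, ?_⟩, ?_⟩,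
      ?_, ?_⟩
    · rw [hρR _ (e.symm (n, x)).2]
      simp
    · exact (e.symm (n, x)).2
    · rintro ⟨⟨z, hz⟩, hzR⟩
      apply Subtype.ext
      apply Subtype.ext
      have h1 : (n, (e ⟨z, hzR⟩).2) = e ⟨z, hzR⟩ := by
        rw [← hz, hρR z hzR]
      change (e.symm (n, (e ⟨z, hzR⟩).2)).1 = z
      rw [h1, Equiv.symm_apply_apply]
    · intro x
      simp
  · intro n
    refine closed_of_cls fun x hx y hy => ?_
    exact lt_of_le_of_lt (hc x y hy) hx
  · intro n x hx hxn
    refine closed_of_cls ?_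
    rintro z (hz | hz) y hy
    · exact Or.inl (lt_of_le_of_lt (hc z y hy) hz)
    · have hz' : cls g z = cls g x := hz
      rw [hz'] at hy
      by_cases h : cls g y = cls g x
      · exact Or.inr h
      · left
        have := ha x y hx hy h
        rw [hxn] at this
        exact this
  · intro x y hx h
    exact ⟨hnot x y hx h, hb x y hx h⟩

end Pool.Agent.Helper79.Berg
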