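import Pool.Agent.Helper79.Berg5

set_option autoImplicit false

namespace Pool.Agent.Helper79.Berg

open FreeGroup Cardinal

variable {X : Type}

theorem exists_univ [Infinite X] {g : MulAut (FreeGroup X)} (hg : LF g) (hr : Room g) :
    ∃ (ρ : X → ℕ) (k : MulAut (FreeGroup X)), Univ k ρ ∧ Univ (g * k) ρ := by
  classical
  have hX : ℵ₀ ≤ #X := Cardinal.aleph0_le_mk X
  obtain ⟨R, hR, hfix⟩ := hr
  obtain ⟨ρ, hρR, hρc, hρW, hρb⟩ := exists_levels hg hR hfix
  have hA : ∀ n, #{x // ρ x < n} ≤ #X := fun n => Cardinal.mk_subtype_le _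
  -- labelling of the room letters
  have hlam : ∀ n, Nonempty ((Σ p : Ty {x // ρ x < n} × X, Fin p.1.m) ≃
      {z : {x // ρ x = n} // z.1 ∈ R}) := by
    intro n
    rw [← Cardinal.eq, card_cells (hA n), hρR n]
  let lam : ∀ n, (Σ p : Ty {x // ρ x < n} × X, Fin p.1.m) ≃ {z : {x // ρ x = n} // z.1 ∈ R} :=
    fun n => (hlam n).some
  let lam' : ∀ n, (Σ p : Ty {x // ρ x < n} × X, Fin p.1.m) → X := fun n p => (lam n p).1.1
  have lam'inj : ∀ n, Function.Injective (lam' n) := fun n =>
    Subtype.val_injective.comp (Subtype.val_injective.comp (lam n).injective)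
  have lam'lvl : ∀ n p, ρ (lam' n p) = n := fun n p => (lam n p).1.2
  have lam'R : ∀ n p, lam' n p ∈ R := fun n p => (lam n p).2
  have lam'surj : ∀ n x, ρ x = n → x ∈ R → ∃ p, lam' n p = x := by
    intro n x hx hxR
    refine ⟨(lam n).symm ⟨⟨x, hx⟩, hxR⟩, ?_⟩
    simp only [lam', Equiv.apply_symm_apply]
  have hθ : ∀ n, ∃ θ : MulAut (FreeGroup X),
      (∀ x, x ∉ Set.range (lam' n) → θ (FreeGroup.of x) = FreeGroup.of x) ∧
      (∀ c i, θ (FreeGroup.of (lam' n ⟨c, i⟩)) = FreeGroup.map
        (Sum.elim (fun a : {x // ρ x < n} => a.1) (fun j => lam' n ⟨c, j⟩))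
          (c.1.E (FreeGroup.of (Sum.inr i)))) ∧
      (∀ Y : Set X, Set.range (fun a : {x // ρ x < n} => a.1) ⊆ Y → Set.range (lam' n) ⊆ Y →
        Closed θ Y) := by
    intro n
    refine block (ι := fun a : {x // ρ x < n} => a.1) (m := fun c : Ty {x // ρ x < n} × X => c.1.m)
      (lam'inj n) ?_ (fun c => c.1.E) (fun c => c.1.fix)
    intro a p h
    have h1 := a.2
    have h2 := lam'lvl n p
    rw [← h] at h2
    omega
  choose θ hθ1 hθ2 hθ3 using hθ
  obtain ⟨k, hk1, -⟩ := gluing ρ θ
    (fun n x hx => hθ1 n x (by rintro ⟨p, rfl⟩; exact hx (lam'lvl n p)))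
    (fun n => hθ3 n _ (by rintro _ ⟨a, rfl⟩; exact a.2.le)
      (by rintro _ ⟨p, rfl⟩; exact (lam'lvl n p).le))
  have hkN : ∀ x, x ∉ R → k (FreeGroup.of x) = FreeGroup.of x := by
    intro x hx
    rw [hk1]
    exact hθ1 _ x (by rintro ⟨p, hp⟩; exact hx (hp ▸ lam'R _ p))
  have hkR : ∀ n c i, k (FreeGroup.of (lam' n ⟨c, i⟩)) = FreeGroup.map
        (Sum.elim (fun a : {x // ρ x < n} => a.1) (fun j => lam' n ⟨c, j⟩))
          (c.1.E (FreeGroup.of (Sum.inr i))) := by
    intro n c i
    rw [hk1, lam'lvl]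
    exact hθ2 n c i
  refine ⟨ρ, k, ?_, ?_⟩
  · intro n
    let τ : (Ty {x // ρ x < n} × X) ⊕ {z : {x // ρ x = n} // z.1 ∉ R} → Ty {x // ρ x < n} :=
      Sum.elim (fun p => (Equiv.refl (Ty {x // ρ x < n})) p.1) (fun _ => triv _)
    let e2 : (Σ _c : {z : {x // ρ x = n} // z.1 ∉ R}, Fin (triv {x // ρ x < n}).m) ≃
        {z : {x // ρ x = n} // z.1 ∉ R} :=
      ⟨fun p => p.1, fun z => ⟨z, (0 : Fin 1)⟩, fun p => by
        obtain ⟨z, i⟩ := p
        have : i = (0 : Fin 1) := Subsingleton.elim (α := Fin 1) _ _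
        rw [this], fun z => rfl⟩
    let L : (Σ c, Fin (τ c).m) ≃ {x // ρ x = n} :=
      (Equiv.sumSigmaDistrib (fun c => Fin (τ c).m)).trans
        ((Equiv.sumCongr (lam n) e2).trans (Equiv.sumCompl (fun z : {x // ρ x = n} => z.1 ∈ R)))
    have hL1 : ∀ p i, (L ⟨Sum.inl p, i⟩).1 = lam' n ⟨p, i⟩ := fun p i => rfl
    have hL2 : ∀ z i, (L ⟨Sum.inr z, i⟩).1 = z.1.1 := fun z i => rfl
    refine ⟨⟨_, τ, L, fun t => card_fiber (hA n) ?_ (Equiv.refl _) _ t, ?_⟩⟩
    · exact (Cardinal.mk_subtype_le _).trans (Cardinal.mk_subtype_le _)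
    · rintro (p | z) i
      · exact hkR n p i
      · have h1 : k (FreeGroup.of z.1.1) = FreeGroup.of z.1.1 := hkN _ z.2
        exact h1.trans (FreeGroup.map.of (f := Sum.elim (fun a : {x // ρ x < n} => a.1)
          (fun _ : Fin 1 => z.1.1)) (x := Sum.inr (0 : Fin 1))).symm
  · intro n
    -- the restriction of g to lower levels
    have hr0 : Closed g (Set.range (fun a : {x // ρ x < n} => a.1)) := by
      have := hρc n
      rwa [show Set.range (fun a : {x // ρ x < n} => a.1) = {x | ρ x < n} from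
        Subtype.range_coe]
    obtain ⟨Γ, hΓ⟩ := restrict g (fun a : {x // ρ x < n} => a.1) Subtype.val_injective hr0
    -- blocks
    let B : Type := {q : Set X // ∃ x, x ∉ R ∧ ρ x = n ∧ cls g x = q}
    let Q : B → Type := fun q => {z : {z : {x // ρ x = n} // z.1 ∉ R} // cls g z.1.1 = q.1}
    have hQfin : ∀ q, Finite (Q q) := by
      rintro ⟨q, x, hx, hxn, rfl⟩
      have := (cls_finite hg x).to_subtype
      refine Finite.of_injective (β := cls g x)
        (fun z => ⟨z.1.1.1, (show cls g z.1.1.1 = cls g x from z.2).le (mem_cls g _)⟩) ?_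
      intro z z' h
      have h1 := congrArg Subtype.val h
      exact Subtype.ext (Subtype.ext (Subtype.ext h1))
    let ε : ∀ q, Fin (Nat.card (Q q)) ≃ Q q := fun q => (Finite.equivFin (Q q)).symm
    let j : ∀ q, {x // ρ x < n} ⊕ Fin (Nat.card (Q q)) → X := fun q =>
      Sum.elim (fun a => a.1) (fun i => (ε q i).1.1.1)
    have hj : ∀ q, Function.Injective (j q) := by
      intro q
      rintro (a | i) (b | i') h
      · exact congrArg Sum.inl (Subtype.ext h)
      · exfalso
        have h1 : a.1 = (ε q i').1.1.1 := h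
        have h2 := a.2
        have h3 := (ε q i').1.1.2
        rw [← h1] at h3
        omega
      · exfalso
        have h1 : (ε q i).1.1.1 = b.1 := h
        have h2 := b.2
        have h3 := (ε q i).1.1.2
        rw [h1] at h3
        omega
      · have h1 : (ε q i).1.1.1 = (ε q i').1.1.1 := h
        exact congrArg Sum.inr ((ε q).injective (Subtype.ext (Subtype.ext (Subtype.ext h1))))
    have hrange : ∀ q x, x ∉ R → ρ x = n → cls g x = q.1 →
        Set.range (j q) = {y | ρ y < n} ∪ {y | cls g y = cls g x} := by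
      intro q x hx hxn hq
      ext y
      constructor
      · rintro ⟨a | i, rfl⟩
        · exact Or.inl a.2
        · right
          change cls g (ε q i).1.1.1 = cls g x
          rw [(ε q i).2, hq]
      · rintro (hy | hy)
        · exact ⟨Sum.inl ⟨y, hy⟩, rfl⟩
        · have hy' : cls g y = cls g x := hy
          obtain ⟨h1, h2⟩ := hρb x y hx hy'
          refine ⟨Sum.inr ((ε q).symm ⟨⟨⟨y, h2.trans hxn⟩, h1⟩, hy'.trans hq⟩), ?_⟩
          simp only [j, Sum.elim_inr, Equiv.apply_symm_apply]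
    have hE : ∀ q : B, ∃ E : MulAut (FreeGroup ({x // ρ x < n} ⊕ Fin (Nat.card (Q q)))),
        (∀ a, E (FreeGroup.of (Sum.inl a)) = FreeGroup.of (Sum.inl a)) ∧
        ∀ i, FreeGroup.map (j q) (E (FreeGroup.of (Sum.inr i))) =
          g (FreeGroup.of (ε q i).1.1.1) := by
      intro q
      obtain ⟨x, hx, hxn, hq⟩ := q.2
      have hW := hρW n x hx hxn
      let θq : MulAut (FreeGroup X) := resA g _ hW * (resA g _ (hρc n))⁻¹
      have hcl : Closed θq (Set.range (j q)) := by
        rw [hrange q x hx hxn hq]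
        exact (resA_closed g _ hW hW).mul (resA_closed g _ (hρc n) hW).inv
      obtain ⟨E, hE⟩ := restrict θq (j q) (hj q) hcl
      refine ⟨E, ?_, ?_⟩
      · intro a
        apply FreeGroup.map_injective (hj q)
        rw [hE, FreeGroup.map.of]
        change θq (FreeGroup.of a.1) = _
        simp only [θq, MulAut.mul_apply, resA_apply, resA_inv_apply]
        rw [resE_of_mem _ (show a.1 ∈ {x | ρ x < n} from a.2), resE_mem g,
          MulAut.apply_inv_self]
        · rfl
        · exact FA_mono Set.subset_union_left (hρc n a.1 a.2).2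
      · intro i
        rw [hE, FreeGroup.map.of]
        change θq (FreeGroup.of (ε q i).1.1.1) = _
        simp only [θq, MulAut.mul_apply, resA_apply, resA_inv_apply]
        rw [resE_of_not_mem, resE_of_mem]
        · right
          change cls g (ε q i).1.1.1 = cls g x
          rw [(ε q i).2, hq]
        · intro h
          have h1 : ρ (ε q i).1.1.1 < n := h
          have h2 := (ε q i).1.1.2
          omega
    choose E hE1 hE2 using hE
    let τB : B → Ty {x // ρ x < n} := fun q => ⟨Nat.card (Q q), E q, hE1 q⟩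
    let τ : (Ty {x // ρ x < n} × X) ⊕ B → Ty {x // ρ x < n} :=
      Sum.elim (fun p => (tyE Γ) p.1) τB
    let e2 : (Σ q : B, Fin (τB q).m) ≃ {z : {x // ρ x = n} // z.1 ∉ R} :=
      (Equiv.sigmaCongrRight ε).trans
        ⟨fun p => p.2.1, fun z => ⟨⟨cls g z.1.1, z.1.1, z.2, z.1.2, rfl⟩, z, rfl⟩, by
          rintro ⟨⟨q, hq⟩, z, hz⟩
          dsimp only at hz
          subst hz
          rfl, fun z => rfl⟩
    have he2 : ∀ q i, e2 ⟨q, i⟩ = (ε q i).1 := fun q i => rfl
    let L : (Σ c, Fin (τ c).m) ≃ {x // ρ x = n} :=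
      (Equiv.sumSigmaDistrib (fun c => Fin (τ c).m)).trans
        ((Equiv.sumCongr (lam n) e2).trans (Equiv.sumCompl (fun z : {x // ρ x = n} => z.1 ∈ R)))
    have hL1 : ∀ (p : Ty {x // ρ x < n} × X) (i : Fin p.1.m),
        (L ⟨Sum.inl p, i⟩).1 = lam' n ⟨p, i⟩ := fun p i => rfl
    have hL2 : ∀ (q : B) (i : Fin (Nat.card (Q q))), (L ⟨Sum.inr q, i⟩).1 = (ε q i).1.1.1 :=
      fun q i => rfl
    refine ⟨⟨_, τ, L, fun t => card_fiber (hA n) ?_ (tyE Γ) _ t, ?_⟩⟩
    · have : #B ≤ #{z : {x // ρ x = n} // z.1 ∉ R} := by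
        refine Cardinal.mk_le_of_surjective
          (f := fun z => ⟨cls g z.1.1, z.1.1, z.2, z.1.2, rfl⟩) ?_
        rintro ⟨q, x, hx, hxn, rfl⟩
        exact ⟨⟨⟨x, hxn⟩, hx⟩, rfl⟩
      exact this.trans ((Cardinal.mk_subtype_le _).trans (Cardinal.mk_subtype_le _))
    · have hcR : ∀ (p : Ty {x // ρ x < n} × X) (i : Fin p.1.m),
          (g * k) (FreeGroup.of (lam' n ⟨p, i⟩)) = FreeGroup.map
          (Sum.elim (fun a : {x // ρ x < n} => a.1) (fun j => lam' n ⟨p, j⟩))
            ((tyE Γ p.1).E (FreeGroup.of (Sum.inr i))) := by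
        intro p i
        have h0 := tyE_apply_inr Γ p.1 i
        have h1 : (g * k) (FreeGroup.of (lam' n ⟨p, i⟩)) = g (FreeGroup.map
          (Sum.elim (fun a : {x // ρ x < n} => a.1) (fun j => lam' n ⟨p, j⟩))
            (p.1.E (FreeGroup.of (Sum.inr i)))) := by
          rw [MulAut.mul_apply, hkR]
        have h2 : (g.toMonoidHom).comp (FreeGroup.map
            (Sum.elim (fun a : {x // ρ x < n} => a.1) (fun j => lam' n ⟨p, j⟩))) =
            (FreeGroup.map (Sum.elim (fun a : {x // ρ x < n} => a.1)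
              (fun j => lam' n ⟨p, j⟩))).comp (extHom Γ.toMonoidHom p.1.m) := by
          ext y
          rcases y with a | j
          · simp only [MonoidHom.comp_apply, extHom_inl, FreeGroup.map.of, Sum.elim_inl]
            have h1 := hΓ (FreeGroup.of a)
            rw [FreeGroup.map.of] at h1
            change g (FreeGroup.of a.1) = _
            rw [← h1]
            have h2 : FreeGroup.map (Sum.elim (fun a : {x // ρ x < n} => a.1)
              (fun j => lam' n ⟨p, j⟩)) (FreeGroup.map Sum.inl (Γ (FreeGroup.of a))) =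
              FreeGroup.map (fun a : {x // ρ x < n} => a.1) (Γ (FreeGroup.of a)) := by
              rw [FreeGroup.map.comp]
              rfl
            exact h2.symm
          · simp only [MonoidHom.comp_apply, extHom_inr, FreeGroup.map.of, Sum.elim_inr]
            exact hfix _ (lam'R n _)
        have h3 := DFunLike.congr_fun h2 (p.1.E (FreeGroup.of (Sum.inr i)))
        refine h1.trans (h3.trans ?_)
        exact congrArg (FreeGroup.map (Sum.elim (fun a : {x // ρ x < n} => a.1)
          (fun j => lam' n ⟨p, j⟩))) h0.symm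
      have hcN : ∀ (q : B) (i : Fin (Nat.card (Q q))), (g * k) (FreeGroup.of (ε q i).1.1.1) =
          FreeGroup.map (j q) (E q (FreeGroup.of (Sum.inr i))) := by
        intro q i
        rw [MulAut.mul_apply, hkN _ (ε q i).1.2, hE2]
      rintro (p | q) i
      · exact hcR p i
      · exact hcN q i

end Pool.Agent.Helper79.Berg
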