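import Pool.Agent.Helper79.Berg6
import Pool.Agent.Helper7.BergmanSym

set_option autoImplicit false

namespace Pool.Agent.Helper79.Berg

open FreeGroup Cardinal

variable {X : Type}

theorem cls_countable (g : MulAut (FreeGroup X)) (x : X) : (cls g x).Countable := by
  classical
  let step : Set X → Set X := fun Z => Z ∪ ⋃ z ∈ Z,
    (((supp (g (FreeGroup.of z)) : Finset X) : Set X) ∪
      ((supp (g⁻¹ (FreeGroup.of z)) : Finset X) : Set X))
  let Y : ℕ → Set X := fun n => step^[n] {x}
  have hY : ∀ n, (Y n).Countable := by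
    intro n
    induction n with
    | zero => exact Set.countable_singleton x
    | succ n ih =>
      simp only [Y, Function.iterate_succ_apply']
      exact ih.union (ih.biUnion fun z _ => ((Finset.countable_toSet _).union
        (Finset.countable_toSet _)))
  have hc : Closed g (⋃ n, Y n) := by
    intro z hz
    obtain ⟨n, hn⟩ := Set.mem_iUnion.1 hz
    have h1 : Y (n + 1) = step (Y n) := Function.iterate_succ_apply' _ _ _
    refine ⟨?_, ?_⟩ <;> rw [mem_FA_iff] <;> intro y hy <;>
      refine Set.mem_iUnion.2 ⟨n + 1, ?_⟩ <;> rw [h1] <;> right <;>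
      refine Set.mem_biUnion hn ?_
    · exact Or.inl hy
    · exact Or.inr hy
  exact (Set.countable_iUnion hY).mono (cls_subset (Set.mem_iUnion.2 ⟨0, rfl⟩) hc)

/-- The statement of the relative decomposition lemma. -/
def RelStatement (X : Type) : Prop :=
  ∀ (g : MulAut (FreeGroup X)) (A C : Set X), Disjoint A C → C.Countable → Closed g A →
    Closed g (A ∪ C) → ∃ (θ : MulAut (FreeGroup X)) (S T : ℕ → Set X),
      (∀ x, x ∉ C → θ (FreeGroup.of x) = FreeGroup.of x) ∧ Closed θ (A ∪ C) ∧
      (∀ n, (S n).Finite) ∧ (∀ n, (T n).Finite) ∧ (⋃ n, S n) = C ∧ (⋃ n, T n) = C ∧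
      (∀ n, Closed θ (A ∪ S n)) ∧ (∀ n, Closed (θ⁻¹ * g) (A ∪ T n))

theorem decomp (hrel : RelStatement X) (g : MulAut (FreeGroup X)) :
    ∃ h : MulAut (FreeGroup X), LF h ∧ LF (h⁻¹ * g) := by
  classical
  obtain ⟨inst1, inst2⟩ := exists_wellFoundedLT (α := X)
  have hne : ∀ z, {x | z ∈ cls g x}.Nonempty := fun z => ⟨z, mem_cls g z⟩
  let β : X → X := fun z => WellFounded.min (wellFounded_lt (α := X)) {x | z ∈ cls g x} (hne z)
  have hβ1 : ∀ z, z ∈ cls g (β z) := fun z =>
    WellFounded.min_mem (wellFounded_lt (α := X)) {x | z ∈ cls g x} (hne z)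
  have hβ2 : ∀ z x, z ∈ cls g x → β z ≤ x := fun z x h =>
    not_lt.1 (WellFounded.not_lt_min (wellFounded_lt (α := X)) {x | z ∈ cls g x} h)
  have hβ3 : ∀ z y, y ∈ cls g z → β y ≤ β z := fun z y h =>
    hβ2 y (β z) (cls_sub_cls (hβ1 z) h)
  have hA : ∀ x, Closed g {z | β z < x} := fun x =>
    closed_of_cls fun z hz y hy => lt_of_le_of_lt (hβ3 z y hy) hz
  have hAC' : ∀ x, {z | β z < x} ∪ {z | β z = x} = {z | β z ≤ x} := by
    intro x
    ext z
    exact (le_iff_lt_or_eq).symm
  have hAC : ∀ x, Closed g ({z | β z < x} ∪ {z | β z = x}) := by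
    intro x
    rw [hAC']
    exact closed_of_cls fun z hz y hy => (hβ3 z y hy).trans hz
  have hC : ∀ x, {z | β z = x}.Countable := fun x =>
    (cls_countable g x).mono fun z (hz : β z = x) => hz ▸ hβ1 z
  have hd : ∀ x, Disjoint {z | β z < x} {z | β z = x} := by
    intro x
    rw [Set.disjoint_left]
    intro z hz hz'
    exact (ne_of_lt (show β z < x from hz)) hz'
  choose θ S T hθfix hθcl hSf hTf hSu hTu hS hT using
    fun x => hrel g _ _ (hd x) (hC x) (hA x) (hAC x)
  obtain ⟨h, hh1, hh2⟩ := gluing β θ (fun i x hx => hθfix i x hx)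
    (fun i => by rw [← hAC']; exact hθcl i)
  -- θ i fixes letters of other blocks, in both directions
  have hfix : ∀ i z, β z ≠ i → θ i (FreeGroup.of z) = FreeGroup.of z ∧
      (θ i)⁻¹ (FreeGroup.of z) = FreeGroup.of z := by
    intro i z hz
    have h1 := hθfix i z hz
    refine ⟨h1, ?_⟩
    have h2 : (θ i)⁻¹ (θ i (FreeGroup.of z)) = FreeGroup.of z := MulAut.inv_apply_self _ _ _
    rwa [h1] at h2
  have hclosed : ∀ x (W : Set X), W ⊆ {z | β z = x} → Closed (θ x) ({z | β z < x} ∪ W) →
      ∀ i, Closed (θ i) ({z | β z < x} ∪ W) := by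
    intro x W hW hc i z hz
    by_cases hzi : β z = i
    · by_cases hix : i = x
      · subst hix
        exact hc z hz
      · have hlt : β z < x := by
          rcases hz with hz | hz
          · exact hz
          · exact absurd (hzi.symm.trans (hW hz)) hix
        have h1 := hθcl i z (Or.inr hzi)
        have h2 : {z | β z < i} ∪ {z | β z = i} ⊆ {z | β z < x} ∪ W := by
          intro y hy
          left
          have hy' : β y ≤ i := by
            rw [hAC'] at hy
            exact hy
          exact lt_of_le_of_lt hy' (hzi ▸ hlt)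
        exact ⟨FA_mono h2 h1.1, FA_mono h2 h1.2⟩
    · rw [(hfix i z hzi).1, (hfix i z hzi).2]
      exact ⟨of_mem hz, of_mem hz⟩
  have hSsub : ∀ x n, S x n ⊆ {z | β z = x} := fun x n => by
    rw [← hSu x]; exact Set.subset_iUnion _ n
  have hTsub : ∀ x n, T x n ⊆ {z | β z = x} := fun x n => by
    rw [← hTu x]; exact Set.subset_iUnion _ n
  have hhA : ∀ x, Closed h {z | β z < x} := by
    intro x
    have h1 : Closed (θ x) ({z | β z < x} ∪ ∅) := by
      rw [Set.union_empty]
      intro z hz
      have := hfix x z (ne_of_lt hz)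
      rw [this.1, this.2]
      exact ⟨of_mem hz, of_mem hz⟩
    have := hh2 _ (hclosed x ∅ (Set.empty_subset _) h1)
    rwa [Set.union_empty] at this
  refine ⟨h, ?_, ?_⟩
  · refine LF_of_rel h β S hSf (fun x => ?_) (fun i n => hh2 _ (hclosed i _ (hSsub i n) (hS i n)))
    have : x ∈ ⋃ n, S (β x) n := by rw [hSu]; rfl
    exact Set.mem_iUnion.1 this
  · refine LF_of_rel (h⁻¹ * g) β T hTf (fun x => ?_) ?_
    · have : x ∈ ⋃ n, T (β x) n := by rw [hTu]; rfl
      exact Set.mem_iUnion.1 this
    · intro x n
      set W : Set X := {z | β z < x} ∪ T x n with hW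
      have hWle : W ⊆ {z | β z ≤ x} := by
        rintro z (hz | hz)
        · exact le_of_lt hz
        · exact le_of_eq (hTsub x n hz)
      let u : MulAut (FreeGroup X) := resA h _ (hhA x)
      have hu : Closed u W := by
        intro z hz
        by_cases hzA : β z < x
        · have h1 := resA_closed h _ (hhA x) (hhA x) z hzA
          exact ⟨FA_mono Set.subset_union_left h1.1, FA_mono Set.subset_union_left h1.2⟩
        · have h1 : u (FreeGroup.of z) = FreeGroup.of z := resE_of_not_mem _ hzA
          have h2 : u⁻¹ (FreeGroup.of z) = FreeGroup.of z := resE_of_not_mem _ hzA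
          rw [h1, h2]
          exact ⟨of_mem hz, of_mem hz⟩
      have hhu : ∀ w ∈ FA {z | β z ≤ x}, h w = θ x (u w) := by
        intro w hw
        refine hom_eqOn h.toMonoidHom ((θ x).toMonoidHom.comp u.toMonoidHom) ?_ hw
        intro z hz
        change h (FreeGroup.of z) = θ x (u (FreeGroup.of z))
        by_cases hzA : β z < x
        · have h1 : u (FreeGroup.of z) = h (FreeGroup.of z) := resE_of_mem _ hzA
          rw [h1]
          have h2 : h (FreeGroup.of z) ∈ FA {z | β z < x} := (hhA x z hzA).1
          symm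
          refine hom_eqOn (A := {z | β z < x}) (θ x).toMonoidHom (MonoidHom.id _) ?_ h2
          intro y hy
          exact (hfix x y (ne_of_lt hy)).1
        · have h1 : u (FreeGroup.of z) = FreeGroup.of z := resE_of_not_mem _ hzA
          rw [h1, hh1 z]
          have : β z = x := le_antisymm hz (not_lt.1 hzA)
          rw [this]
      intro z hz
      have hTz := hT x n z hz
      rw [MulAut.mul_apply] at hTz
      refine ⟨?_, ?_⟩
      · rw [MulAut.mul_apply]
        set v := (θ x)⁻¹ (g (FreeGroup.of z)) with hv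
        have hw : u⁻¹ v ∈ FA W := hu.mem_inv hTz.1
        have h1 : h (u⁻¹ v) = g (FreeGroup.of z) := by
          rw [hhu _ (FA_mono hWle hw), MulAut.apply_inv_self, hv, MulAut.apply_inv_self]
        rw [← h1, MulAut.inv_apply_self]
        exact hw
      · rw [mul_inv_rev, inv_inv, MulAut.mul_apply, hhu _ (of_mem (hWle hz))]
        have h1 := (hT x n).mem_inv (hu.mem (of_mem hz))
        rw [mul_inv_rev, inv_inv, MulAut.mul_apply] at h1
        exact h1

end Pool.Agent.Helper79.Berg
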