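import Pool.Agent.Helper79.Berg7

set_option autoImplicit false

namespace Pool.Agent.Helper79.Berg

open FreeGroup Cardinal

variable {X : Type}

/-- The automorphism induced by a permutation of the letters. -/
def P (π : Equiv.Perm X) : MulAut (FreeGroup X) := FreeGroup.freeGroupCongr π

theorem P_of (π : Equiv.Perm X) (x : X) : P π (FreeGroup.of x) = FreeGroup.of (π x) := by
  simp [P]

theorem P_apply (π : Equiv.Perm X) (w : FreeGroup X) : P π w = FreeGroup.map π w := rfl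

theorem mulAut_ext {g h : MulAut (FreeGroup X)}
    (H : ∀ x, g (FreeGroup.of x) = h (FreeGroup.of x)) : g = h := by
  apply MulEquiv.ext
  intro w
  have : g.toMonoidHom = h.toMonoidHom := by
    ext x
    exact H x
  exact DFunLike.congr_fun this w

theorem P_mul (π σ : Equiv.Perm X) : P (π * σ) = P π * P σ := by
  apply mulAut_ext
  intro x
  rw [MulAut.mul_apply, P_of, P_of, P_of]
  rfl

theorem P_one : P (1 : Equiv.Perm X) = 1 := by
  apply mulAut_ext
  intro x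
  rw [P_of]
  rfl

theorem P_inv (π : Equiv.Perm X) : P π⁻¹ = (P π)⁻¹ := by
  rw [eq_inv_iff_mul_eq_one, ← P_mul, inv_mul_cancel, P_one]

theorem room_one : Room (1 : MulAut (FreeGroup X)) := ⟨Set.univ, Cardinal.mk_univ, fun _ _ => rfl⟩

theorem LF_one : LF (1 : MulAut (FreeGroup X)) :=
  fun x => ⟨{x}, Set.finite_singleton x, rfl, closed_one _⟩

theorem bounded [Infinite X] (hrel : RelStatement X) (l : MulAut (FreeGroup X) → ℕ)
    (hmul : ∀ a b, l (a * b) ≤ l a + l b) (hinv : ∀ a, l a⁻¹ = l a) : ∃ N, ∀ a, l a ≤ N := by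
  obtain ⟨N, hN⟩ := Pool.Agent.Helper7.BergmanSym.symBounded X (fun π => l (P π))
    (fun a b => by rw [P_mul]; exact hmul _ _) (fun a => by rw [P_inv]; exact hinv _)
  obtain ⟨ρ0, k0, hk0, -⟩ := exists_univ (LF_one (X := X)) room_one
  have h1 : ∀ k ρ, Univ k ρ → l k ≤ 2 * N + l k0 := by
    intro k ρ hk
    obtain ⟨π, hπ⟩ := conj_of_univ hk0 hk
    have : k = P π * k0 * (P π)⁻¹ := by
      rw [eq_mul_inv_iff_mul_eq]
      apply mulAut_ext
      intro x
      rw [MulAut.mul_apply, MulAut.mul_apply, P_of, hπ x]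
      rfl
    rw [this]
    calc l (P π * k0 * (P π)⁻¹) ≤ l (P π * k0) + l (P π)⁻¹ := hmul _ _
      _ ≤ l (P π) + l k0 + l (P π)⁻¹ := Nat.add_le_add_right (hmul _ _) _
      _ = l (P π) + l k0 + l (P π) := by rw [hinv]
      _ ≤ 2 * N + l k0 := by
        have := hN π
        omega
  have h2 : ∀ g, LF g → Room g → l g ≤ 2 * (2 * N + l k0) := by
    intro g hg hr
    obtain ⟨ρ, k, hk, hgk⟩ := exists_univ hg hr
    have e : g = (g * k) * k⁻¹ := by group
    rw [e]
    calc l ((g * k) * k⁻¹) ≤ l (g * k) + l k⁻¹ := hmul _ _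
      _ = l (g * k) + l k := by rw [hinv]
      _ ≤ 2 * (2 * N + l k0) := by
        have := h1 _ _ hk
        have := h1 _ _ hgk
        omega
  have h3 : ∀ g, LF g → l g ≤ 4 * (2 * N + l k0) := by
    intro g hg
    obtain ⟨g1, g2, e, hg1, hg2, hr1, hr2⟩ := room_split hg
    rw [e]
    have := hmul g1 g2
    have := h2 g1 hg1 hr1
    have := h2 g2 hg2 hr2
    omega
  refine ⟨8 * (2 * N + l k0), fun g => ?_⟩
  obtain ⟨h, hh, hh'⟩ := decomp hrel g
  have e : g = h * (h⁻¹ * g) := by group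
  rw [e]
  have := hmul h (h⁻¹ * g)
  have := h3 _ hh
  have := h3 _ hh'
  omega

theorem width {G : Type*} [Group G] (hb : ∀ l : G → ℕ, (∀ a b, l (a * b) ≤ l a + l b) →
    (∀ a, l a⁻¹ = l a) → ∃ N, ∀ a, l a ≤ N) (S : Set G) (hS : Subgroup.closure S = ⊤) :
    ∃ n : ℕ, ∀ g : G, ∃ l : List G, l.length ≤ n ∧ (∀ x ∈ l, x ∈ S ∨ x⁻¹ ∈ S) ∧ l.prod = g := by
  classical
  have hex : ∀ g : G, ∃ n : ℕ, ∃ l : List G, l.length = n ∧ (∀ x ∈ l, x ∈ S ∨ x⁻¹ ∈ S) ∧
      l.prod = g := by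
    intro g
    have hg : g ∈ Submonoid.closure (S ∪ S⁻¹) := by
      rw [← Subgroup.closure_toSubmonoid, hS]; trivial
    obtain ⟨l, h1, h2⟩ := Submonoid.exists_list_of_mem_closure hg
    exact ⟨_, l, rfl, fun x hx => (h1 x hx), h2⟩
  let L : G → ℕ := fun g => Nat.find (hex g)
  have hL : ∀ g, ∃ l : List G, l.length = L g ∧ (∀ x ∈ l, x ∈ S ∨ x⁻¹ ∈ S) ∧ l.prod = g :=
    fun g => Nat.find_spec (hex g)
  have hinv' : ∀ a, L a⁻¹ ≤ L a := by
    intro a
    obtain ⟨l, h1, h2, h3⟩ := hL a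
    refine Nat.find_min' (hex a⁻¹) ⟨(l.map (fun x => x⁻¹)).reverse, ?_, ?_, ?_⟩
    · simp [h1]
    · intro x hx
      simp only [List.mem_reverse, List.mem_map] at hx
      obtain ⟨y, hy, rfl⟩ := hx
      rw [inv_inv]
      exact (h2 y hy).symm
    · rw [← h3, List.prod_inv_reverse]
  obtain ⟨N, hN⟩ := hb L (fun a b => by
    obtain ⟨l, h1, h2, h3⟩ := hL a
    obtain ⟨l', h1', h2', h3'⟩ := hL b
    refine Nat.find_min' (hex (a * b)) ⟨l ++ l', ?_, ?_, ?_⟩
    · rw [List.length_append, h1, h1']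
    · intro x hx
      rcases List.mem_append.1 hx with h | h
      · exact h2 x h
      · exact h2' x h
    · rw [List.prod_append, h3, h3']) (fun a => le_antisymm (hinv' a) (by
    have := hinv' a⁻¹
    rwa [inv_inv] at this))
  refine ⟨N, fun g => ?_⟩
  obtain ⟨l, h1, h2, h3⟩ := hL g
  exact ⟨l, h1 ▸ hN g, h2, h3⟩

end Pool.Agent.Helper79.Berg
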