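import Pool.Agent.Helper79.Berg7
import Pool.Agent.Helper6.LemmaK

set_option autoImplicit false

namespace Pool.Agent.Helper79.Berg

set_option maxHeartbeats 4000000

variable {X : Type}

/-- Functions trivial on `S` are functions on the complement. -/
noncomputable def funEquiv {T Z : Type} [One Z] (S : Set T) :
    {f : T → Z // ∀ t ∈ S, f t = 1} ≃ ({t // t ∉ S} → Z) := by
  classical
  exact
  { toFun := fun f t => f.1 t.1
    invFun := fun f => ⟨fun t => if h : t ∉ S then f ⟨t, h⟩ else 1, fun t ht => by simp [ht]⟩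
    left_inv := fun f => by
      apply Subtype.ext
      funext t
      by_cases h : t ∈ S
      · simp [h, f.2 t h]
      · simp [h]
    right_inv := fun f => by
      funext t
      simp [t.2] }

theorem rank_eq {B B' A : Set X} (hAB : A ⊆ B) (hBB' : B ⊆ B') (hfin : (B' \ A).Finite) {N : Type}
    (e : {f : (B ⊕ N) → Multiplicative (ZMod 2) // ∀ t ∈ {t : B ⊕ N | ∃ a : B, a.1 ∈ A ∧ t = Sum.inl a},
      f t = 1} ≃ {f : B' → Multiplicative (ZMod 2) // ∀ t ∈ {t : B' | t.1 ∈ A}, f t = 1}) :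
    Nonempty (N ≃ (B' \ B : Set X)) := by
  classical
  have e1 := (funEquiv (Z := Multiplicative (ZMod 2)) {t : B ⊕ N | ∃ a : B, a.1 ∈ A ∧ t = Sum.inl a}).symm.trans
    (e.trans (funEquiv (Z := Multiplicative (ZMod 2)) {t : B' | t.1 ∈ A}))
  have e2 : {t : B ⊕ N // t ∉ {t : B ⊕ N | ∃ a : B, a.1 ∈ A ∧ t = Sum.inl a}} ≃ {b : B // b.1 ∉ A} ⊕ N :=
    { toFun := fun t => match t with
        | ⟨Sum.inl b, h⟩ => Sum.inl ⟨b, fun hb => h ⟨b, hb, rfl⟩⟩
        | ⟨Sum.inr n, _⟩ => Sum.inr n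
      invFun := fun t => match t with
        | Sum.inl b => ⟨Sum.inl b.1, by
            rintro ⟨a, ha, hab⟩
            exact b.2 ((Sum.inl.inj hab) ▸ ha)⟩
        | Sum.inr n => ⟨Sum.inr n, by rintro ⟨a, ha, hab⟩; cases hab⟩
      left_inv := by rintro ⟨b | n, h⟩ <;> rfl
      right_inv := by rintro (b | n) <;> rfl }
  have e3 : {t : B' // t ∉ {t : B' | t.1 ∈ A}} ≃ {b : B // b.1 ∉ A} ⊕ (B' \ B : Set X) :=
    { toFun := fun t => if h : t.1.1 ∈ B then Sum.inl ⟨⟨t.1.1, h⟩, t.2⟩ else Sum.inr ⟨t.1.1, t.1.2, h⟩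
      invFun := fun t => match t with
        | Sum.inl b => ⟨⟨b.1.1, hBB' b.1.2⟩, b.2⟩
        | Sum.inr n => ⟨⟨n.1, n.2.1⟩, fun h => n.2.2 (hAB h)⟩
      left_inv := by
        intro t
        by_cases h : t.1.1 ∈ B <;> simp [h]
      right_inv := by
        rintro (b | n)
        · simp
        · have : n.1 ∉ B := n.2.2
          simp [this] }
  have fin3 : Finite {t : B' // t ∉ {t : B' | t.1 ∈ A}} := by
    have := hfin.to_subtype
    exact Finite.of_injective (β := (B' \ A : Set X)) (fun t => ⟨t.1.1, t.1.2, t.2⟩) (by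
      intro s t h
      have h1 : s.1.1 = t.1.1 := (Subtype.mk.inj h)
      exact Subtype.ext (Subtype.ext h1))
  have fin4 : Finite ({b : B // b.1 ∉ A} ⊕ (B' \ B : Set X)) := Finite.of_equiv _ e3
  have fin5 : Finite {b : B // b.1 ∉ A} := Finite.of_injective
    (Sum.inl : _ → {b : B // b.1 ∉ A} ⊕ (B' \ B : Set X)) Sum.inl_injective
  have fin6 : Finite (B' \ B : Set X) := Finite.of_injective
    (Sum.inr : _ → {b : B // b.1 ∉ A} ⊕ (B' \ B : Set X)) Sum.inr_injective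
  let e4 : (({b : B // b.1 ∉ A} ⊕ N) → Multiplicative (ZMod 2)) ≃
      (({b : B // b.1 ∉ A} ⊕ (B' \ B : Set X)) → Multiplicative (ZMod 2)) :=
    (Equiv.arrowCongr e2 (Equiv.refl _)).symm.trans (e1.trans (Equiv.arrowCongr e3 (Equiv.refl _)))
  have fin7 : Finite (({b : B // b.1 ∉ A} ⊕ N) → Multiplicative (ZMod 2)) :=
    Finite.of_equiv _ e4.symm
  have fin8 : Finite ({b : B // b.1 ∉ A} ⊕ N) := by
    refine Finite.of_injective (β := (({b : B // b.1 ∉ A} ⊕ N) → Multiplicative (ZMod 2)))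
      (fun t => Pi.mulSingle t (Multiplicative.ofAdd 1)) ?_
    intro s t h
    by_contra hne
    have := congrFun h s
    dsimp only at this
    rw [Pi.mulSingle_eq_same, Pi.mulSingle_eq_of_ne hne] at this
    exact absurd this (by decide)
  have fin9 : Finite N := Finite.of_injective
    (Sum.inr : _ → {b : B // b.1 ∉ A} ⊕ N) Sum.inr_injective
  have h1 := Nat.card_congr e4
  rw [Nat.card_fun, Nat.card_fun, Nat.card_sum, Nat.card_sum] at h1
  have h2 : Nat.card (Multiplicative (ZMod 2)) = 2 := by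
    rw [Nat.card_eq_fintype_card]; rfl
  rw [h2] at h1
  have h3 := Nat.pow_right_injective (le_refl 2) h1
  have h4 : Nat.card N = Nat.card (B' \ B : Set X) := by omega
  exact ⟨(Finite.equivFin N).trans ((finCongr h4).trans (Finite.equivFin _).symm)⟩


theorem step (ρ : MulAut (FreeGroup X)) {A B B' : Set X} (hAB : A ⊆ B) (hBB' : B ⊆ B')
    (hfin : (B' \ A).Finite) (hA : Closed ρ A) (hle : ∀ w ∈ FA B, ρ⁻¹ w ∈ FA B') :
    ∃ τ : MulAut (FreeGroup X), (∀ x ∈ B, τ (FreeGroup.of x) = FreeGroup.of x) ∧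
      Closed (ρ⁻¹ * τ) B' := by
  classical
  set H : Subgroup (FreeGroup X) := (FA B').map ρ.toMonoidHom with hH
  have hmemH : ∀ w, w ∈ H ↔ ρ⁻¹ w ∈ FA B' := by
    intro w
    constructor
    · rintro ⟨v, hv, rfl⟩
      have : ρ⁻¹ (ρ v) = v := MulAut.inv_apply_self _ _ _
      change ρ⁻¹ (ρ v) ∈ FA B'
      rw [this]; exact hv
    · intro h
      exact ⟨ρ⁻¹ w, h, MulAut.apply_inv_self _ _ _⟩
  have hρH : ∀ w ∈ FA B', ρ w ∈ H := fun w hw => ⟨w, hw, rfl⟩
  have hBH : ∀ x ∈ B, FreeGroup.of x ∈ H := fun x hx => (hmemH _).2 (hle _ (of_mem hx))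
  obtain ⟨N, b, hb⟩ := Pool.Agent.Helper6.LemmaK.lemmaK X B H hBH
  let Z := Multiplicative (ZMod 2)
  -- the characters
  have hchar : Nonempty ({f : (B ⊕ N) → Z // ∀ t ∈ {t : B ⊕ N | ∃ a : B, a.1 ∈ A ∧ t = Sum.inl a},
      f t = 1} ≃ {f : B' → Z // ∀ t ∈ {t : B' | t.1 ∈ A}, f t = 1}) := by
    have hA1 : ∀ (F : H →* Z), (∀ a (ha : a ∈ A), F ⟨FreeGroup.of a, hBH a (hAB ha)⟩ = 1) →
        ∀ w (hw : w ∈ FA A) (hw' : w ∈ H), F ⟨w, hw'⟩ = 1 := by
      intro F hF w hw
      induction hw using Subgroup.closure_induction with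
      | mem x hx =>
        obtain ⟨a, ha, rfl⟩ := hx
        intro _
        exact hF a ha
      | one => intro h; exact map_one F
      | mul x y hx hy ihx ihy =>
        intro hw'
        have hAH : FA A ≤ H := by
          rw [FA, Subgroup.closure_le]
          rintro _ ⟨a, ha, rfl⟩
          exact hBH a (hAB ha)
        have h1 : (⟨x * y, hw'⟩ : H) = ⟨x, hAH hx⟩ * ⟨y, hAH hy⟩ := rfl
        rw [h1, map_mul, ihx, ihy, one_mul]
      | inv x hx ihx =>
        intro hw'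
        have hAH : FA A ≤ H := by
          rw [FA, Subgroup.closure_le]
          rintro _ ⟨a, ha, rfl⟩
          exact hBH a (hAB ha)
        have h1 : (⟨x⁻¹, hw'⟩ : H) = (⟨x, hAH hx⟩ : H)⁻¹ := rfl
        rw [h1, map_inv, ihx, inv_one]
    -- equality of homs out of H
    have hext : ∀ F G : H →* Z, (∀ z (hz : z ∈ B'), F ⟨ρ (FreeGroup.of z), hρH _ (of_mem hz)⟩ =
        G ⟨ρ (FreeGroup.of z), hρH _ (of_mem hz)⟩) → F = G := by
      intro F G hFG
      have key : ∀ w (hw : w ∈ FA B'), F ⟨ρ w, hρH w hw⟩ = G ⟨ρ w, hρH w hw⟩ := by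
        intro w hw
        induction hw using Subgroup.closure_induction with
        | mem x hx =>
          obtain ⟨z, hz, rfl⟩ := hx
          exact hFG z hz
        | one =>
          have h1 : (⟨ρ 1, hρH 1 (one_mem _)⟩ : H) = 1 := Subtype.ext (map_one ρ)
          rw [h1, map_one, map_one]
        | mul x y hx hy ihx ihy =>
          have h1 : (⟨ρ (x * y), hρH _ (mul_mem hx hy)⟩ : H) = ⟨ρ x, hρH x hx⟩ * ⟨ρ y, hρH y hy⟩ :=
            Subtype.ext (map_mul ρ x y)
          rw [h1, map_mul, map_mul, ihx, ihy]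
        | inv x hx ihx =>
          have h1 : (⟨ρ x⁻¹, hρH _ (inv_mem hx)⟩ : H) = (⟨ρ x, hρH x hx⟩ : H)⁻¹ :=
            Subtype.ext (map_inv ρ x)
          rw [h1, map_inv, map_inv, ihx]
      ext w
      obtain ⟨w, hw⟩ := w
      have h1 := key (ρ⁻¹ w) ((hmemH w).1 hw)
      have h2 : ρ (ρ⁻¹ w) = w := MulAut.apply_inv_self _ _ _
      simp only [h2] at h1
      exact h1
    let tr : (B' → Z) → (H →* Z) := fun f' =>
      ((FreeGroup.lift (fun z => if h : z ∈ B' then f' ⟨z, h⟩ else 1)).comp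
        (ρ⁻¹).toMonoidHom).comp H.subtype
    have htr : ∀ f' z (hz : z ∈ B'), tr f' ⟨ρ (FreeGroup.of z), hρH _ (of_mem hz)⟩ = f' ⟨z, hz⟩ := by
      intro f' z hz
      change (FreeGroup.lift _) (ρ⁻¹ (ρ (FreeGroup.of z))) = _
      have : ρ⁻¹ (ρ (FreeGroup.of z)) = FreeGroup.of z := MulAut.inv_apply_self _ _ _
      rw [this, FreeGroup.lift_apply_of, dif_pos hz]
    refine ⟨⟨fun f => ⟨fun z => b.lift f.1 ⟨ρ (FreeGroup.of z.1), hρH _ (of_mem z.2)⟩, ?_⟩,
      fun f' => ⟨fun p => tr f'.1 (b p), ?_⟩, ?_, ?_⟩⟩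
    · intro z hz
      have hz' : z.1 ∈ A := hz
      refine hA1 (b.lift f.1) ?_ _ (hA z.1 hz').1 _
      intro a ha
      have h1 : (⟨FreeGroup.of a, hBH a (hAB ha)⟩ : H) = b (Sum.inl ⟨a, hAB ha⟩) :=
        Subtype.ext (hb ⟨a, hAB ha⟩).symm
      rw [h1, FreeGroupBasis.lift_apply_apply, FreeGroupBasis.repr_apply_coe,
        FreeGroup.lift_apply_of]
      exact f.2 _ ⟨_, ha, rfl⟩
    · rintro t ⟨a, ha, rfl⟩
      have h1 : b (Sum.inl a) = ⟨FreeGroup.of a.1, hBH a.1 a.2⟩ := Subtype.ext (hb a)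
      change tr f'.1 (b (Sum.inl a)) = 1
      rw [h1]
      change (FreeGroup.lift _) (ρ⁻¹ (FreeGroup.of a.1)) = 1
      have h2 := map_mem (K := (⊥ : Subgroup Z))
        (FreeGroup.lift (fun z => if h : z ∈ B' then f'.1 ⟨z, h⟩ else 1)) (A := A) ?_
        (hA a.1 ha).2
      · exact Subgroup.mem_bot.1 h2
      · intro z hz
        rw [FreeGroup.lift_apply_of, dif_pos (hBB' (hAB hz)), Subgroup.mem_bot]
        exact f'.2 ⟨z, hBB' (hAB hz)⟩ hz
    · intro f
      apply Subtype.ext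
      funext p
      have h1 : tr (fun z => b.lift f.1 ⟨ρ (FreeGroup.of z.1), hρH _ (of_mem z.2)⟩) = b.lift f.1 :=
        hext _ _ fun z hz => htr (fun z => b.lift f.1 ⟨ρ (FreeGroup.of z.1), hρH _ (of_mem z.2)⟩) z hz
      change tr (fun z => b.lift f.1 ⟨ρ (FreeGroup.of z.1), hρH _ (of_mem z.2)⟩) (b p) = f.1 p
      rw [h1, FreeGroupBasis.lift_apply_apply, FreeGroupBasis.repr_apply_coe,
        FreeGroup.lift_apply_of]
    · intro f'
      apply Subtype.ext
      funext z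
      have h1 : b.lift (fun p => tr f'.1 (b p)) = tr f'.1 := by
        apply b.ext_hom
        intro p
        rw [FreeGroupBasis.lift_apply_apply, FreeGroupBasis.repr_apply_coe,
          FreeGroup.lift_apply_of]
      change b.lift (fun p => tr f'.1 (b p)) ⟨ρ (FreeGroup.of z.1), hρH _ (of_mem z.2)⟩ = f'.1 z
      rw [h1, htr]
  obtain ⟨echar⟩ := hchar
  obtain ⟨eN⟩ := rank_eq hAB hBB' hfin echar
  -- the bijection of index sets
  let j : B' ≃ B ⊕ N :=
    { toFun := fun z => if h : z.1 ∈ B then Sum.inl ⟨z.1, h⟩ else Sum.inr (eN.symm ⟨z.1, z.2, h⟩)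
      invFun := fun p => match p with
        | Sum.inl x => ⟨x.1, hBB' x.2⟩
        | Sum.inr n => ⟨(eN n).1, (eN n).2.1⟩
      left_inv := by
        intro z
        by_cases h : z.1 ∈ B <;> simp [h]
      right_inv := by
        rintro (x | n)
        · simp
        · have : (eN n).1 ∉ B := (eN n).2.2
          simp only [this, dif_neg, not_false_eq_true]
          exact congrArg Sum.inr (eN.symm_apply_apply n) }
  have hj : ∀ x (hx : x ∈ B), j ⟨x, hBB' hx⟩ = Sum.inl ⟨x, hx⟩ := by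
    intro x hx
    simp [j, hx]
  -- κ and its inverse
  let κ : FreeGroup X →* FreeGroup X := FreeGroup.lift (fun z =>
    if h : z ∈ B' then ρ⁻¹ (b (j ⟨z, h⟩) : FreeGroup X) else FreeGroup.of z)
  let κ' : FreeGroup X →* FreeGroup X := FreeGroup.lift (fun z =>
    if h : z ∈ B' then FreeGroup.map (fun p => (j.symm p).1)
      (b.repr ⟨ρ (FreeGroup.of z), hρH _ (of_mem h)⟩) else FreeGroup.of z)
  have hκ1 : ∀ z (hz : z ∈ B'), κ (FreeGroup.of z) = ρ⁻¹ (b (j ⟨z, hz⟩) : FreeGroup X) := by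
    intro z hz
    simp only [κ, FreeGroup.lift_apply_of, dif_pos hz]
  have hκ2 : ∀ z, z ∉ B' → κ (FreeGroup.of z) = FreeGroup.of z := by
    intro z hz
    simp only [κ, FreeGroup.lift_apply_of, dif_neg hz]
  have hκ'1 : ∀ z (hz : z ∈ B'), κ' (FreeGroup.of z) = FreeGroup.map (fun p => (j.symm p).1)
      (b.repr ⟨ρ (FreeGroup.of z), hρH _ (of_mem hz)⟩) := by
    intro z hz
    simp only [κ', FreeGroup.lift_apply_of, dif_pos hz]
  have hκ'2 : ∀ z, z ∉ B' → κ' (FreeGroup.of z) = FreeGroup.of z := by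
    intro z hz
    simp only [κ', FreeGroup.lift_apply_of, dif_neg hz]
  have hκmap : ∀ v : FreeGroup (B ⊕ N), κ (FreeGroup.map (fun p => (j.symm p).1) v) =
      ρ⁻¹ (b.repr.symm v : FreeGroup X) := by
    intro v
    have : κ.comp (FreeGroup.map (fun p => (j.symm p).1)) =
        ((ρ⁻¹).toMonoidHom.comp H.subtype).comp b.repr.symm.toMonoidHom := by
      ext p
      simp only [MonoidHom.comp_apply, FreeGroup.map.of]
      rw [hκ1 _ (j.symm p).2]
      simp only [Subtype.coe_eta, Equiv.apply_symm_apply]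
      rfl
    exact DFunLike.congr_fun this v
  have hκ'mem : ∀ w (hw : w ∈ FA B'), κ' w = FreeGroup.map (fun p => (j.symm p).1)
      (b.repr ⟨ρ w, hρH w hw⟩) := by
    intro w hw
    induction hw using Subgroup.closure_induction with
    | mem x hx =>
      obtain ⟨z, hz, rfl⟩ := hx
      exact hκ'1 z hz
    | one =>
      have h1 : (⟨ρ 1, hρH 1 (one_mem _)⟩ : H) = 1 := Subtype.ext (map_one ρ)
      rw [h1, map_one, map_one, map_one]
    | mul x y hx hy ihx ihy =>
      have h1 : (⟨ρ (x * y), hρH _ (mul_mem hx hy)⟩ : H) = ⟨ρ x, hρH x hx⟩ * ⟨ρ y, hρH y hy⟩ :=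
        Subtype.ext (map_mul ρ x y)
      rw [h1, map_mul, map_mul, map_mul, ihx, ihy]
    | inv x hx ihx =>
      have h1 : (⟨ρ x⁻¹, hρH _ (inv_mem hx)⟩ : H) = (⟨ρ x, hρH x hx⟩ : H)⁻¹ :=
        Subtype.ext (map_inv ρ x)
      rw [h1, map_inv, map_inv, map_inv, ihx]
  have hbmem : ∀ p, ρ⁻¹ (b p : FreeGroup X) ∈ FA B' := fun p => (hmemH _).1 (b p).2
  have hκmem : ∀ z ∈ B', κ (FreeGroup.of z) ∈ FA B' := by
    intro z hz
    rw [hκ1 z hz]
    exact hbmem _
  have hκ'mem' : ∀ z ∈ B', κ' (FreeGroup.of z) ∈ FA B' := by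
    intro z hz
    rw [hκ'1 z hz]
    exact map_mem_FA _ (fun p => (j.symm p).2) _
  let K : MulAut (FreeGroup X) := MonoidHom.toMulEquiv κ κ'
    (by
      ext z
      simp only [MonoidHom.comp_apply, MonoidHom.id_apply]
      by_cases hz : z ∈ B'
      · rw [hκ'mem _ (hκmem z hz)]
        have h1 : (⟨ρ (κ (FreeGroup.of z)), hρH _ (hκmem z hz)⟩ : H) = b (j ⟨z, hz⟩) := by
          apply Subtype.ext
          change ρ (κ (FreeGroup.of z)) = _
          rw [hκ1 z hz, MulAut.apply_inv_self]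
        rw [h1, FreeGroupBasis.repr_apply_coe, FreeGroup.map.of, Equiv.symm_apply_apply]
      · rw [hκ2 z hz, hκ'2 z hz])
    (by
      ext z
      simp only [MonoidHom.comp_apply, MonoidHom.id_apply]
      by_cases hz : z ∈ B'
      · rw [hκ'1 z hz, hκmap, MulEquiv.symm_apply_apply]
        exact MulAut.inv_apply_self _ _ _
      · rw [hκ'2 z hz, hκ2 z hz])
  have hK : Closed K B' := fun z hz => ⟨hκmem z hz, hκ'mem' z hz⟩
  refine ⟨ρ * K, ?_, ?_⟩
  · intro x hx
    rw [MulAut.mul_apply]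
    change ρ (κ (FreeGroup.of x)) = _
    rw [hκ1 x (hBB' hx), MulAut.apply_inv_self, hj x hx, hb]
  · rw [inv_mul_cancel_left]
    exact hK

end Pool.Agent.Helper79.Berg
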