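import Pool.Agent.Helper34.PN.AVG
import Pool.Agent.Helper70.FQ_RULE
import Pool.Agent.Helper70.FQ_MASS
import Pool.Agent.Helper82.FQ.Van

/-!
Row SYS of project FQ (MP_08bd45_co, helper34): the approximate system.
-/


namespace Pool.Agent.Helper34.FQ

open Finset Pool.Agent.Helper34.PN

namespace SYS79

theorem wP_nonneg {Ω α J : Type} (s : Ω → α → Fin 3) (X : J → ℕ → α) (a : Fin 3)
    (P : Finset ℕ) (l : ℕ) (e : J) (ω : Ω) : 0 ≤ wP s X a P l e ω := by
  unfold wP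
  refine Finset.prod_nonneg ?_
  intro i _
  have : ∀ b : Fin 3, 0 ≤ ind s (X e i) b ω := by
    intro b
    unfold ind
    split_ifs
    · exact zero_le_one
    · exact le_refl _
  split_ifs
  · exact mul_nonneg zero_le_two (this _)
  · exact mul_nonneg zero_le_two (this _)

theorem avg_ind_le {Ω α : Type} [Fintype Ω] (s : Ω → α → Fin 3) (x : α) (S : Finset α)
    (a : Fin 3) (ω : Ω) : avg s S (ind s x a) ω ≤ 1 := by
  rw [← avg_ind_sum s x S ω]
  exact Finset.single_le_sum (f := fun a => avg s S (ind s x a) ω)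
    (fun b _ => avg_ind_nonneg s x S b ω) (Finset.mem_univ a)

theorem fq_nonneg {Ω α J : Type} [Fintype Ω] [LinearOrder α] (s : Ω → α → Fin 3)
    (W : Finset α) (X : J → ℕ → α) (a : Fin 3) (q : ℕ) (e : J) (ω : Ω) :
    0 ≤ fq s W X a q e ω :=
  mul_nonneg zero_le_two (avg_ind_nonneg _ _ _ _ _)

theorem fq_le {Ω α J : Type} [Fintype Ω] [LinearOrder α] (s : Ω → α → Fin 3)
    (W : Finset α) (X : J → ℕ → α) (a : Fin 3) (q : ℕ) (e : J) (ω : Ω) :
    fq s W X a q e ω ≤ 2 := by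
  have := avg_ind_le s (X e q) (lw W (X e q)) a ω
  unfold fq
  linarith

theorem fb_nonneg {E : Type} {f : ℕ → E → ℝ} (f0 : ∀ q x, 0 ≤ f q x) (O : Finset ℕ) (x : E) :
    0 ≤ fb f O x :=
  div_nonneg (Finset.sum_nonneg fun i _ => f0 i x) (Nat.cast_nonneg _)

theorem fb_le {E : Type} {f : ℕ → E → ℝ} (f2 : ∀ q x, f q x ≤ 2) (O : Finset ℕ) (x : E) :
    fb f O x ≤ 2 := by
  unfold fb
  rcases Finset.eq_empty_or_nonempty O with rfl | hO
  · simp
  · have hc : (0 : ℝ) < (O.card : ℝ) := Nat.cast_pos.2 (Finset.card_pos.2 hO)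
    rw [div_le_iff₀ hc]
    calc ∑ i ∈ O, f i x ≤ ∑ _i ∈ O, (2 : ℝ) := Finset.sum_le_sum fun i _ => f2 i x
      _ = 2 * (O.card : ℝ) := by rw [Finset.sum_const, nsmul_eq_mul]; ring

theorem lw_mono {α : Type} [LinearOrder α] (W : Finset α) {x y : α} (h : x ≤ y) :
    lw W x ⊆ lw W y := by
  intro z hz
  unfold lw at hz ⊢
  rw [Finset.mem_filter] at hz ⊢
  exact ⟨hz.1, hz.2.trans h⟩

theorem af_eq {Ω α J : Type} [Fintype Ω] [Fintype J] (s : Ω → α → Fin 3)
    (X : J → ℕ → α) (M : J → ℝ) (a : Fin 3) (P : Finset ℕ) (l : ℕ) (φ : J → Ω → ℝ) :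
    ∑ x : J × Ω, M x.1 * wP s X a P l x.1 x.2 / (Fintype.card Ω : ℝ) * φ x.1 x.2
      = Af s X M a P l φ := by
  unfold Af
  rw [Fintype.sum_prod_type, Finset.sum_div]
  refine Finset.sum_congr rfl ?_
  intro e _
  rw [Finset.mul_sum, Finset.sum_div]
  refine Finset.sum_congr rfl ?_
  intro ω _
  ring

end SYS79

open SYS79 in
theorem sys_of_er {Ω α J : Type} [Fintype Ω] [Nonempty Ω] [LinearOrder α] [Fintype J]
    {s : Ω → α → Fin 3} {W : Finset α} {m r : ℕ} {X : J → ℕ → α} {M : J → ℝ} {τ τ' : ℝ}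
    (h : Er s W r X M τ) (hτ : 0 ≤ τ) (hr : 1 ≤ r) (a : Fin 3) (ha : a ≠ 0)
    (hno : ∀ e ω, ¬ (m ≤ ((pre X r e).filter (fun x => s ω x = a)).card ∧
      ∀ x ∈ pre X r e, s ω x = a ∨ s ω x = 0))
    (hττ : 2 ^ (r + 4) * (2 ^ m * 2) * τ ≤ τ') :
    Sys m r τ' (fun P (x : J × Ω) => M x.1 * wP s X a P r x.1 x.2 / (Fintype.card Ω : ℝ))
      (fun q x => fq s W X a q x.1 x.2) := by
  have hc0 : (0 : ℝ) ≤ (Fintype.card Ω : ℝ) := Nat.cast_nonneg _
  have hbig : (2 : ℝ) ^ (r + 4) * τ ≤ τ' := by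
    refine le_trans ?_ hττ
    have h1 : (1 : ℝ) ≤ 2 ^ m * 2 := by
      have := one_le_pow₀ (M₀ := ℝ) (a := 2) (by norm_num) (n := m)
      linarith
    have h2 : (0 : ℝ) ≤ 2 ^ (r + 4) * τ := by positivity
    nlinarith
  -- the test functions
  have hfb0 : ∀ (O : Finset ℕ) (x : J × Ω),
      0 ≤ fb (fun q (x : J × Ω) => fq s W X a q x.1 x.2) O x := by
    intro O x
    apply fb_nonneg
    intro q y
    exact fq_nonneg s W X a q y.1 y.2
  have hfb2 : ∀ (O : Finset ℕ) (x : J × Ω),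
      fb (fun q (x : J × Ω) => fq s W X a q x.1 x.2) O x ≤ 2 := by
    intro O x
    apply fb_le
    intro q y
    exact fq_le s W X a q y.1 y.2
  have hψb : ∀ (O : Finset ℕ) (k : ℕ), k ≤ m → ∀ (e : J) (ω : Ω),
      |fb (fun q (x : J × Ω) => fq s W X a q x.1 x.2) O (e, ω) ^ k| ≤ 2 ^ m := by
    intro O k hk e ω
    rw [abs_of_nonneg (pow_nonneg (hfb0 O (e, ω)) k)]
    calc fb (fun q (x : J × Ω) => fq s W X a q x.1 x.2) O (e, ω) ^ k
        ≤ 2 ^ k := pow_le_pow_left₀ (hfb0 O (e, ω)) (hfb2 O (e, ω)) k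
      _ ≤ 2 ^ m := pow_le_pow_right₀ (by norm_num) hk
  have hψm : ∀ (O : Finset ℕ) (k p : ℕ), O ⊆ range p → p < r → ∀ (e : J) (ω ω' : Ω),
      (∀ x ∈ lw W (X e p), s ω' x = s ω x) →
      fb (fun q (x : J × Ω) => fq s W X a q x.1 x.2) O (e, ω') ^ k
        = fb (fun q (x : J × Ω) => fq s W X a q x.1 x.2) O (e, ω) ^ k := by
    intro O k p hO hp e ω ω' hω
    congr 1
    unfold fb
    congr 1
    refine Finset.sum_congr rfl ?_
    intro i hi
    have hip : i < p := Finset.mem_range.1 (hO hi)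
    change fq s W X a i e ω' = fq s W X a i e ω
    unfold fq
    rw [avg_meas s (lw W (X e i)) _ ω ω' fun x hx =>
      hω x (lw_mono W (h.mono e i p hip hp).le hx)]
  set F : Finset ℕ → J → Ω → ℝ := fun O e ω =>
    fb (fun q (x : J × Ω) => fq s W X a q x.1 x.2) O (e, ω) with hF
  have hFx : ∀ (O : Finset ℕ) (x : J × Ω),
      fb (fun q (x : J × Ω) => fq s W X a q x.1 x.2) O x = F O x.1 x.2 := fun O x => rfl
  have hsum : ∀ (P : Finset ℕ) (Φ : J × Ω → ℝ) (φ : J → Ω → ℝ),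
      (∀ x, Φ x = φ x.1 x.2) →
      ∑ x : J × Ω, M x.1 * wP s X a P r x.1 x.2 / (Fintype.card Ω : ℝ) * Φ x
        = Af s X M a P r φ := by
    intro P Φ φ hΦ
    rw [← af_eq]
    refine Finset.sum_congr rfl ?_
    intro x _
    rw [hΦ x]
  constructor
  · intro P x
    exact div_nonneg (mul_nonneg (h.M0 _) (wP_nonneg _ _ _ _ _ _ _)) hc0
  · intro q x
    exact fq_nonneg _ _ _ _ _ _ _
  · intro q x
    exact fq_le _ _ _ _ _ _ _
  · have e2 : ∑ x : J × Ω, M x.1 * wP s X a ∅ r x.1 x.2 / (Fintype.card Ω : ℝ)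
        = Af s X M a ∅ r (fun _ _ => 1) := by
      rw [← hsum ∅ (fun _ => 1) (fun _ _ => 1) (fun _ => rfl)]
      refine Finset.sum_congr rfl ?_
      intro x _
      rw [mul_one]
    change ∑ x : J × Ω, M x.1 * wP s X a ∅ r x.1 x.2 / (Fintype.card Ω : ℝ) ≤ 1 + τ'
    rw [e2]
    have e3 := abs_le.1 (mass_one h hτ hr a)
    linarith [e3.2]
  · intro P hP hc x
    rw [wP_van s X a ha m r x.1 x.2 (h.mono x.1) (hno x.1 x.2) P hP hc, mul_zero, zero_div]
  · intro P p O k hP hp hO hk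
    have e1 := rule h hτ a P p p hP hp hp (2 ^ m) 1 (by positivity) zero_le_one
      (fun e ω => F O e ω ^ k) (fun _ _ => 1)
      (hψb O k hk) (by intro v ω; simp) (fun e ω ω' hω => hψm O k p hO hp e ω ω' hω)
      (by intro v ω ω' _; rfl)
    have e2 := hsum (insert p P) (fun x => F O x.1 x.2 ^ k) (fun e ω => F O e ω ^ k * 1)
      (fun x => (mul_one _).symm)
    have e3 := hsum P (fun x => F O x.1 x.2 ^ k * fq s W X a p x.1 x.2)
      (fun e ω => F O e ω ^ k * fq s W X a p e ω * 1) (fun x => (mul_one _).symm)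
    simp only [hFx]
    rw [e2, e3]
    refine le_trans e1 ?_
    refine le_trans ?_ hττ
    have h2 : (0 : ℝ) ≤ 2 ^ (r + 4) * 2 ^ m * τ := by positivity
    nlinarith
  · intro P p q O k hP hp hq hO hk
    have e1 := rule h hτ a P p q hP (hp.trans hq) hq (2 ^ m) 2 (by positivity) zero_le_two
      (fun e ω => F O e ω ^ k)
      (fun v ω => 2 * avg s (lw W v) (ind s v a) ω)
      (hψb O k hk) (by
        intro v ω
        have a0 := avg_ind_nonneg s v (lw W v) a ω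
        have a1 := avg_ind_le s v (lw W v) a ω
        rw [abs_of_nonneg (by linarith)]
        linarith)
      (fun e ω ω' hω => hψm O k p hO (hp.trans hq) e ω ω' hω)
      (by
        intro v ω ω' hω
        rw [avg_meas s (lw W v) _ ω ω' hω])
    have e2 := hsum (insert p P) (fun x => F O x.1 x.2 ^ k * fq s W X a q x.1 x.2)
      (fun e ω => F O e ω ^ k * (2 * avg s (lw W (X e q)) (ind s (X e q) a) ω))
      (fun x => rfl)
    have e3 := hsum P (fun x => F O x.1 x.2 ^ k * fq s W X a p x.1 x.2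
        * fq s W X a q x.1 x.2)
      (fun e ω => F O e ω ^ k * fq s W X a p e ω
        * (2 * avg s (lw W (X e q)) (ind s (X e q) a) ω)) (fun x => rfl)
    simp only [hFx]
    rw [e2, e3]
    exact le_trans e1 hττ

end Pool.Agent.Helper34.FQ
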