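import Pool.Agent.Helper42.Jef.Defs2

/-!
# Hörmander condition for the main heat kernel (generic in the kernel family)

One dimensional facts: translation of monotone functions, power integrals, the time factor.
-/

open MeasureTheory Set Filter Topology
open scoped ENNReal ContDiff

namespace Pool.Agent.Helper79.Horm

/-- `L¹` modulus of continuity of a monotone function with values in `[0,1]`, positive shift. -/
theorem mono_shift_pos {M : ℝ → ℝ} (hM : Monotone M) (h0 : ∀ r, 0 ≤ M r) (h1 : ∀ r, M r ≤ 1)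
    {h : ℝ} (hh : 0 ≤ h) : ∫⁻ r, ENNReal.ofReal (M r - M (r - h)) ≤ ENNReal.ofReal h := by
  have hmeas : Measurable M := hM.measurable
  have hS : MeasurableSet {p : ℝ × ℝ | M (p.1 - h) ≤ p.2 ∧ p.2 < M p.1} :=
    (measurableSet_le (hmeas.comp (measurable_fst.sub_const h)) measurable_snd).inter
      (measurableSet_lt measurable_snd (hmeas.comp measurable_fst))
  have e1 : ∀ r, ENNReal.ofReal (M r - M (r - h)) =
      ∫⁻ t, ({p : ℝ × ℝ | M (p.1 - h) ≤ p.2 ∧ p.2 < M p.1}.indicator
        (fun _ => (1 : ℝ≥0∞))) (r, t) := by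
    intro r
    have : (fun t => ({p : ℝ × ℝ | M (p.1 - h) ≤ p.2 ∧ p.2 < M p.1}.indicator
        (fun _ => (1 : ℝ≥0∞))) (r, t)) = (Ico (M (r - h)) (M r)).indicator 1 := by
      funext t
      simp only [indicator, mem_setOf_eq, mem_Ico, Pi.one_apply]
    rw [this, lintegral_indicator_one measurableSet_Ico, Real.volume_Ico]
  simp_rw [e1]
  rw [lintegral_lintegral_swap (μ := volume) (ν := volume)
    (f := fun r t => ({p : ℝ × ℝ | M (p.1 - h) ≤ p.2 ∧ p.2 < M p.1}.indicator
        (fun _ => (1 : ℝ≥0∞))) (r, t))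
    ((Measurable.indicator measurable_const hS).aemeasurable)]
  have e2 : ∀ t, ∫⁻ r, ({p : ℝ × ℝ | M (p.1 - h) ≤ p.2 ∧ p.2 < M p.1}.indicator
        (fun _ => (1 : ℝ≥0∞))) (r, t) ≤ (Icc (0 : ℝ) 1).indicator
          (fun _ => ENNReal.ofReal h) t := by
    intro t
    have hm : MeasurableSet {r : ℝ | M (r - h) ≤ t ∧ t < M r} :=
      (measurableSet_le (hmeas.comp (measurable_id.sub_const h)) measurable_const).inter
      (measurableSet_lt measurable_const hmeas)
    have : (fun r => ({p : ℝ × ℝ | M (p.1 - h) ≤ p.2 ∧ p.2 < M p.1}.indicator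
        (fun _ => (1 : ℝ≥0∞))) (r, t)) = {r : ℝ | M (r - h) ≤ t ∧ t < M r}.indicator 1 := by
      funext r
      simp only [indicator, mem_setOf_eq, Pi.one_apply]
    rw [this, lintegral_indicator_one hm]
    by_cases ht : t ∈ Icc (0 : ℝ) 1
    · rw [indicator_of_mem ht]
      refine (Real.volume_le_diam _).trans ?_
      refine Metric.ediam_le fun x hx y hy => ?_
      rw [edist_dist, Real.dist_eq]
      refine ENNReal.ofReal_le_ofReal ?_
      rw [abs_le]
      constructor
      · by_contra hc
        push Not at hc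
        have : M x ≤ M (y - h) := hM (by linarith)
        have h1 := hx.2
        have h2 := hy.1
        linarith
      · by_contra hc
        push Not at hc
        have : M y ≤ M (x - h) := hM (by linarith)
        have h1 := hy.2
        have h2 := hx.1
        linarith
    · rw [indicator_of_notMem ht]
      have : {r : ℝ | M (r - h) ≤ t ∧ t < M r} = ∅ := by
        ext r
        simp only [mem_setOf_eq, mem_empty_iff_false, iff_false]
        rintro ⟨a, b⟩
        exact ht ⟨(h0 _).trans a, (b.le.trans (h1 _))⟩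
      rw [this]; simp
  refine (lintegral_mono e2).trans ?_
  rw [lintegral_indicator measurableSet_Icc, setLIntegral_const, Real.volume_Icc]
  simp

/-- `L¹` modulus of continuity of a monotone function with values in `[0,1]`. -/
theorem mono_shift {M : ℝ → ℝ} (hM : Monotone M) (h0 : ∀ r, 0 ≤ M r) (h1 : ∀ r, M r ≤ 1)
    (h : ℝ) : ∫⁻ r, ‖M (r - h) - M r‖ₑ ≤ ENNReal.ofReal |h| := by
  rcases le_total 0 h with hh | hh
  · rw [abs_of_nonneg hh]
    refine le_trans (le_of_eq ?_) (mono_shift_pos hM h0 h1 hh)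
    refine lintegral_congr fun r => ?_
    have : M (r - h) ≤ M r := hM (by linarith)
    rw [← ofReal_norm, Real.norm_eq_abs, abs_of_nonpos (by linarith)]
    congr 1; ring
  · rw [abs_of_nonpos hh]
    refine le_trans (le_of_eq ?_) (mono_shift_pos hM h0 h1 (neg_nonneg.2 hh))
    rw [← lintegral_sub_right_eq_self (fun r => ENNReal.ofReal (M r - M (r - -h))) h]
    refine lintegral_congr fun r => ?_
    have : M r ≤ M (r - h) := hM (by linarith)
    rw [← ofReal_norm, Real.norm_eq_abs, abs_of_nonneg (by linarith)]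
    congr 2; ring_nf

/-- antitone version -/
theorem anti_shift {M : ℝ → ℝ} (hM : Antitone M) (h0 : ∀ r, 0 ≤ M r) (h1 : ∀ r, M r ≤ 1)
    (h : ℝ) : ∫⁻ r, ‖M (r - h) - M r‖ₑ ≤ ENNReal.ofReal |h| := by
  have := mono_shift (M := fun r => 1 - M r) (fun a b hab => by have := hM hab; simp only; linarith)
    (fun r => by have := h1 r; linarith) (fun r => by have := h0 r; linarith) h
  refine le_trans (le_of_eq ?_) this
  refine lintegral_congr fun r => ?_
  rw [← ofReal_norm, ← ofReal_norm, Real.norm_eq_abs, Real.norm_eq_abs,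
    abs_sub_comm]
  congr 2; ring

/-- power integrals -/
theorem lint_rpow {a c : ℝ} (ha : a < -1) (hc : 0 < c) :
    ∫⁻ s in Ioi c, ENNReal.ofReal (s ^ a) = ENNReal.ofReal (-c ^ (a + 1) / (a + 1)) := by
  rw [← integral_Ioi_rpow_of_lt ha hc]
  rw [ofReal_integral_eq_lintegral_ofReal (integrableOn_Ioi_rpow_of_lt ha hc)]
  filter_upwards [ae_restrict_mem measurableSet_Ioi] with s hs
  exact Real.rpow_nonneg (hc.le.trans (le_of_lt hs)) _

/-- the time factor -/
noncomputable def aa (μ ε s r : ℝ) : ℝ :=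
  Real.smoothTransition (r / ε) * ((if μ * r + ε < s then 1 else 0) *
    (if s < μ * r + 1 then 1 else 0))

theorem aa_nonneg (μ ε s r : ℝ) : 0 ≤ aa μ ε s r := by
  unfold aa
  have := Real.smoothTransition.nonneg (r / ε)
  split_ifs <;> simp [this]

theorem aa_le_one (μ ε s r : ℝ) : aa μ ε s r ≤ 1 := by
  unfold aa
  have := Real.smoothTransition.le_one (r / ε)
  split_ifs <;> simp [this]

theorem aa_zero_r {μ ε s r : ℝ} (hε : 0 < ε) (hr : r ≤ 0) : aa μ ε s r = 0 := by
  unfold aa
  rw [Real.smoothTransition.zero_of_nonpos (div_nonpos_of_nonpos_of_nonneg hr hε.le)]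
  simp

/-- support of the time factor -/
theorem aa_supp {μ ε s r : ℝ} (hε : 0 < ε) (h : aa μ ε s r ≠ 0) :
    0 < r ∧ μ * r + ε < s ∧ s < μ * r + 1 := by
  have hr : 0 < r := by
    by_contra hr
    exact h (aa_zero_r hε (not_lt.1 hr))
  refine ⟨hr, ?_, ?_⟩
  · by_contra hc
    apply h; unfold aa; rw [if_neg hc]; simp
  · by_contra hc
    apply h; unfold aa; rw [if_neg hc]; simp

theorem aa_meas (μ ε : ℝ) : Measurable (fun p : ℝ × ℝ => aa μ ε p.1 p.2) := by
  unfold aa
  refine Measurable.mul ?_ (Measurable.mul ?_ ?_)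
  · exact Real.smoothTransition.continuous.measurable.comp (measurable_snd.div_const ε)
  · refine Measurable.ite ?_ measurable_const measurable_const
    exact measurableSet_lt (by fun_prop) (by fun_prop)
  · refine Measurable.ite ?_ measurable_const measurable_const
    exact measurableSet_lt (by fun_prop) (by fun_prop)

/-- integral of the time factor, first bound -/
theorem aa_int_le {μ ε s : ℝ} (hμ : 0 < μ) (hε : 0 < ε) :
    ∫⁻ r, ‖aa μ ε s r‖ₑ ≤ ENNReal.ofReal (s / μ) := by
  calc ∫⁻ r, ‖aa μ ε s r‖ₑ ≤ ∫⁻ r, (Ioo 0 (s / μ)).indicator (fun _ => (1 : ℝ≥0∞)) r := by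
        refine lintegral_mono fun r => ?_
        by_cases h : aa μ ε s r = 0
        · rw [h]; simp
        · obtain ⟨h1, h2, h3⟩ := aa_supp hε h
          rw [indicator_of_mem]
          · rw [← ofReal_norm, Real.norm_eq_abs, abs_of_nonneg (aa_nonneg _ _ _ _)]
            exact ENNReal.ofReal_le_one.2 (aa_le_one _ _ _ _)
          · refine ⟨h1, ?_⟩
            rw [lt_div_iff₀ hμ]; nlinarith
    _ = ENNReal.ofReal (s / μ) := by
        rw [lintegral_indicator measurableSet_Ioo, setLIntegral_const, Real.volume_Ioo]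
        simp

/-- integral of the time factor, second bound -/
theorem aa_int_le' {μ ε s : ℝ} (hμ : 0 < μ) (hε : 0 < ε) :
    ∫⁻ r, ‖aa μ ε s r‖ₑ ≤ (Ioi ε).indicator (fun _ => ENNReal.ofReal (1 / μ)) s := by
  by_cases hs : s ∈ Ioi ε
  · rw [indicator_of_mem hs]
    calc ∫⁻ r, ‖aa μ ε s r‖ₑ ≤
        ∫⁻ r, (Ioo ((s - 1) / μ) (s / μ)).indicator (fun _ => (1 : ℝ≥0∞)) r := by
          refine lintegral_mono fun r => ?_
          by_cases h : aa μ ε s r = 0
          · rw [h]; simp
          · obtain ⟨h1, h2, h3⟩ := aa_supp hε h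
            rw [indicator_of_mem]
            · rw [← ofReal_norm, Real.norm_eq_abs, abs_of_nonneg (aa_nonneg _ _ _ _)]
              exact ENNReal.ofReal_le_one.2 (aa_le_one _ _ _ _)
            · refine ⟨?_, ?_⟩
              · rw [div_lt_iff₀ hμ]; nlinarith
              · rw [lt_div_iff₀ hμ]; nlinarith
      _ = ENNReal.ofReal (1 / μ) := by
          rw [lintegral_indicator measurableSet_Ioo, setLIntegral_const, Real.volume_Ioo]
          rw [one_mul]; congr 1; ring
  · rw [indicator_of_notMem hs]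
    rw [nonpos_iff_eq_zero, lintegral_eq_zero_iff' ?_]
    · refine Eventually.of_forall fun r => ?_
      simp only [Pi.zero_apply, enorm_eq_zero]
      by_contra h
      obtain ⟨h1, h2, h3⟩ := aa_supp hε h
      exact hs (by simp only [mem_Ioi]; nlinarith)
    · exact ((aa_meas μ ε).comp (measurable_const.prodMk measurable_id)).enorm.aemeasurable

/-- translation of the time factor -/
theorem aa_shift {μ ε s : ℝ} (hμ : 0 < μ) (hε : 0 < ε) (h : ℝ) :
    ∫⁻ r, ‖aa μ ε s (r - h) - aa μ ε s r‖ₑ ≤ ENNReal.ofReal (3 * |h|) := by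
  set A : ℝ → ℝ := fun r => Real.smoothTransition (r / ε) with hA
  set B : ℝ → ℝ := fun r => if μ * r + ε < s then 1 else 0 with hB
  set D : ℝ → ℝ := fun r => if s < μ * r + 1 then 1 else 0 with hD
  have hA0 : ∀ r, 0 ≤ A r := fun r => Real.smoothTransition.nonneg _
  have hA1 : ∀ r, A r ≤ 1 := fun r => Real.smoothTransition.le_one _
  have hB0 : ∀ r, 0 ≤ B r := fun r => by simp only [hB]; split_ifs <;> norm_num
  have hB1 : ∀ r, B r ≤ 1 := fun r => by simp only [hB]; split_ifs <;> norm_num
  have hD0 : ∀ r, 0 ≤ D r := fun r => by simp only [hD]; split_ifs <;> norm_num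
  have hD1 : ∀ r, D r ≤ 1 := fun r => by simp only [hD]; split_ifs <;> norm_num
  have hAm : Monotone A := fun a b hab =>
    Real.smoothTransition.monotone (div_le_div_of_nonneg_right hab hε.le)
  have hBm : Antitone B := fun a b hab => by
    simp only [hB]
    have : μ * a ≤ μ * b := mul_le_mul_of_nonneg_left hab hμ.le
    split_ifs <;> first | (exfalso; linarith) | norm_num
  have hDm : Monotone D := fun a b hab => by
    simp only [hD]
    have : μ * a ≤ μ * b := mul_le_mul_of_nonneg_left hab hμ.le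
    split_ifs <;> first | (exfalso; linarith) | norm_num
  have key : ∀ r, ‖aa μ ε s (r - h) - aa μ ε s r‖ₑ ≤
      ‖A (r - h) - A r‖ₑ + (‖B (r - h) - B r‖ₑ + ‖D (r - h) - D r‖ₑ) := by
    intro r
    have e : aa μ ε s (r - h) - aa μ ε s r = (A (r - h) - A r) * (B (r - h) * D (r - h)) +
        (A r * ((B (r - h) - B r) * D (r - h)) + A r * (B r * (D (r - h) - D r))) := by
      simp only [aa, hA, hB, hD]; ring
    rw [e]
    refine (enorm_add_le _ _).trans (add_le_add ?_ ((enorm_add_le _ _).trans (add_le_add ?_ ?_)))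
    · rw [← ofReal_norm, ← ofReal_norm]
      refine ENNReal.ofReal_le_ofReal ?_
      rw [norm_mul]
      refine mul_le_of_le_one_right (norm_nonneg _) ?_
      rw [Real.norm_eq_abs, abs_of_nonneg (mul_nonneg (hB0 _) (hD0 _))]
      exact mul_le_one₀ (hB1 _) (hD0 _) (hD1 _)
    · rw [← ofReal_norm, ← ofReal_norm]
      refine ENNReal.ofReal_le_ofReal ?_
      rw [norm_mul, norm_mul, Real.norm_eq_abs (A r), abs_of_nonneg (hA0 _),
        Real.norm_eq_abs (D _), abs_of_nonneg (hD0 _)]
      have := norm_nonneg (B (r - h) - B r)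
      have h3 : ‖B (r - h) - B r‖ * D (r - h) ≤ ‖B (r - h) - B r‖ :=
        mul_le_of_le_one_right this (hD1 _)
      calc A r * (‖B (r - h) - B r‖ * D (r - h)) ≤ 1 * (‖B (r - h) - B r‖ * D (r - h)) :=
            mul_le_mul_of_nonneg_right (hA1 r) (mul_nonneg this (hD0 _))
        _ ≤ _ := by rw [one_mul]; exact h3
    · rw [← ofReal_norm, ← ofReal_norm]
      refine ENNReal.ofReal_le_ofReal ?_
      rw [norm_mul, norm_mul, Real.norm_eq_abs (A r), abs_of_nonneg (hA0 _),
        Real.norm_eq_abs (B _), abs_of_nonneg (hB0 _)]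
      have := norm_nonneg (D (r - h) - D r)
      have h3 : B r * ‖D (r - h) - D r‖ ≤ ‖D (r - h) - D r‖ :=
        mul_le_of_le_one_left this (hB1 _)
      calc A r * (B r * ‖D (r - h) - D r‖) ≤ 1 * (B r * ‖D (r - h) - D r‖) :=
            mul_le_mul_of_nonneg_right (hA1 r) (mul_nonneg (hB0 _) this)
        _ ≤ _ := by rw [one_mul]; exact h3
  refine (lintegral_mono key).trans ?_
  have mA : Measurable fun r => ‖A (r - h) - A r‖ₑ :=
    ((hAm.measurable.comp (measurable_id.sub_const h)).sub hAm.measurable).enorm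
  have mB : Measurable fun r => ‖B (r - h) - B r‖ₑ :=
    ((hBm.measurable.comp (measurable_id.sub_const h)).sub hBm.measurable).enorm
  rw [lintegral_add_left mA, lintegral_add_left mB]
  have h1 := mono_shift hAm hA0 hA1 h
  have h2 := anti_shift hBm hB0 hB1 h
  have h3 := mono_shift hDm hD0 hD1 h
  calc _ ≤ ENNReal.ofReal |h| + (ENNReal.ofReal |h| + ENNReal.ofReal |h|) :=
        add_le_add h1 (add_le_add h2 h3)
    _ = ENNReal.ofReal (3 * |h|) := by
        rw [← ENNReal.ofReal_add (abs_nonneg _) (abs_nonneg _),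
          ← ENNReal.ofReal_add (abs_nonneg _) (by positivity)]
        congr 1; ring

end Pool.Agent.Helper79.Horm
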