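import Pool.Agent.Helper79.JefHorm1

/-!
# Hörmander condition for the main heat kernel (generic in the kernel family)
-/

open MeasureTheory Set Filter Topology
open scoped ENNReal ContDiff

namespace Pool.Agent.Helper79.Horm

open Pool.Agent.Helper42.Jef

variable {n : ℕ}

/-- extension by zero to nonpositive times -/
noncomputable def PP (P : ℝ → Eu n → ℝ) (w : ℝ × Eu n) : ℝ :=
  (Ioi (0 : ℝ) ×ˢ (univ : Set (Eu n))).indicator (fun w => P w.1 w.2) w

theorem PP_pos {P : ℝ → Eu n → ℝ} {s : ℝ} (hs : 0 < s) (x : Eu n) : PP P (s, x) = P s x := by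
  unfold PP; rw [indicator_of_mem]; exact ⟨hs, mem_univ _⟩

theorem PP_neg {P : ℝ → Eu n → ℝ} {s : ℝ} (hs : s ≤ 0) (x : Eu n) : PP P (s, x) = 0 := by
  unfold PP; rw [indicator_of_notMem]; intro h; exact absurd h.1 (not_lt.2 hs)

theorem PP_meas {P : ℝ → Eu n → ℝ}
    (hP : ContinuousOn (fun z : ℝ × Eu n => P z.1 z.2) (Ioi 0 ×ˢ univ)) :
    Measurable (PP P) := by
  classical
  have h := ContinuousOn.measurable_piecewise (g := (0 : ℝ × Eu n → ℝ)) hP continuousOn_const
    (measurableSet_Ioi.prod MeasurableSet.univ)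
  rw [piecewise_eq_indicator] at h
  exact h

/-- the kernel -/
noncomputable def kap (μ ε : ℝ) (P : ℝ → Eu n → ℝ) (z : ST n) : ℝ :=
  ∫ s in ε..1, Real.smoothTransition (z.1 / ε) * P (μ * z.1 + s) z.2

/-- the layers of the kernel -/
noncomputable def FF (μ ε : ℝ) (P : ℝ → Eu n → ℝ) (s : ℝ) (z : ST n) : ℝ :=
  aa μ ε s z.1 * PP P (s, z.2)

theorem FF_eq {μ ε : ℝ} {P : ℝ → Eu n → ℝ} (hμ : 0 < μ) (hε : 0 < ε) {z : ST n} (hz : 0 < z.1)
    (s : ℝ) : FF μ ε P s z = Real.smoothTransition (z.1 / ε) *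
      (Ioo (μ * z.1 + ε) (μ * z.1 + 1)).indicator (fun s => P s z.2) s := by
  unfold FF aa
  by_cases h : s ∈ Ioo (μ * z.1 + ε) (μ * z.1 + 1)
  · rw [indicator_of_mem h, if_pos h.1, if_pos h.2, PP_pos]
    · ring
    · have := h.1
      nlinarith [mul_pos hμ hz]
  · rw [indicator_of_notMem h]
    by_cases h1 : μ * z.1 + ε < s
    · have h2 : ¬ s < μ * z.1 + 1 := fun h2 => h ⟨h1, h2⟩
      rw [if_neg h2]; ring
    · rw [if_neg h1]; ring

theorem FF_zero {μ ε : ℝ} {P : ℝ → Eu n → ℝ} (hε : 0 < ε) {z : ST n} (hz : z.1 ≤ 0)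
    (s : ℝ) : FF μ ε P s z = 0 := by
  unfold FF; rw [aa_zero_r hε hz]; ring

theorem kap_eq {μ ε : ℝ} {P : ℝ → Eu n → ℝ} (hμ : 0 < μ) (hε : 0 < ε) (hε1 : ε < 1) (z : ST n) :
    kap μ ε P z = ∫ s, FF μ ε P s z := by
  rcases le_or_gt z.1 0 with hz | hz
  · unfold kap
    rw [Real.smoothTransition.zero_of_nonpos (div_nonpos_of_nonpos_of_nonneg hz hε.le)]
    simp [FF_zero hε hz]
  · unfold kap
    simp_rw [FF_eq hμ hε hz]
    rw [intervalIntegral.integral_const_mul, integral_const_mul,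
      integral_indicator measurableSet_Ioo,
      intervalIntegral.integral_comp_add_left (fun s => P s z.2) (μ * z.1),
      intervalIntegral.integral_of_le (by linarith), integral_Ioc_eq_integral_Ioo]

theorem FF_int {μ ε : ℝ} {P : ℝ → Eu n → ℝ}
    (hP : ContinuousOn (fun z : ℝ × Eu n => P z.1 z.2) (Ioi 0 ×ˢ univ))
    (hμ : 0 < μ) (hε : 0 < ε) (z : ST n) :
    Integrable (fun s => FF μ ε P s z) := by
  rcases le_or_gt z.1 0 with hz | hz
  · simp [FF_zero hε hz]
  · simp_rw [FF_eq hμ hε hz]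
    refine Integrable.const_mul ?_ _
    rw [integrable_indicator_iff measurableSet_Ioo]
    refine IntegrableOn.mono_set ?_ Ioo_subset_Icc_self
    refine ContinuousOn.integrableOn_Icc ?_
    have : (fun s => P s z.2) = (fun z : ℝ × Eu n => P z.1 z.2) ∘ (fun s => (s, z.2)) := rfl
    rw [this]
    refine hP.comp (by fun_prop) ?_
    intro s hs
    refine ⟨?_, mem_univ _⟩
    have := hs.1
    simp only [mem_Ioi]
    nlinarith [mul_pos hμ hz]

theorem FF_meas {μ ε : ℝ} {P : ℝ → Eu n → ℝ}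
    (hP : ContinuousOn (fun z : ℝ × Eu n => P z.1 z.2) (Ioi 0 ×ˢ univ)) :
    Measurable (fun p : ℝ × ST n => FF μ ε P p.1 p.2) := by
  unfold FF
  exact ((aa_meas μ ε).comp (measurable_fst.prodMk (measurable_fst.comp measurable_snd))).mul
    ((PP_meas hP).comp (measurable_fst.prodMk (measurable_snd.comp measurable_snd)))

theorem kap_meas {μ ε : ℝ} {P : ℝ → Eu n → ℝ}
    (hP : ContinuousOn (fun z : ℝ × Eu n => P z.1 z.2) (Ioi 0 ×ˢ univ))
    (hμ : 0 < μ) (hε : 0 < ε) (hε1 : ε < 1) : StronglyMeasurable (kap μ ε P) := by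
  have : kap μ ε P = fun z => ∫ s, FF μ ε P s z := funext (kap_eq hμ hε hε1)
  rw [this]
  refine StronglyMeasurable.integral_prod_right (f := fun z s => FF μ ε P s z) ?_
  exact ((FF_meas hP).comp measurable_swap).stronglyMeasurable

theorem kap_enorm {μ ε : ℝ} {P : ℝ → Eu n → ℝ} (hμ : 0 < μ) (hε : 0 < ε) (hε1 : ε < 1)
    (z : ST n) : ‖kap μ ε P z‖ₑ ≤ ∫⁻ s, ‖FF μ ε P s z‖ₑ := by
  rw [kap_eq hμ hε hε1]
  exact enorm_integral_le_lintegral_enorm _

theorem kap_diff {μ ε : ℝ} {P : ℝ → Eu n → ℝ}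
    (hP : ContinuousOn (fun z : ℝ × Eu n => P z.1 z.2) (Ioi 0 ×ˢ univ))
    (hμ : 0 < μ) (hε : 0 < ε) (hε1 : ε < 1) (z w : ST n) :
    ‖kap μ ε P z - kap μ ε P w‖ₑ ≤ ∫⁻ s, ‖FF μ ε P s z - FF μ ε P s w‖ₑ := by
  rw [kap_eq hμ hε hε1, kap_eq hμ hε hε1, ← integral_sub (FF_int hP hμ hε z) (FF_int hP hμ hε w)]
  exact enorm_integral_le_lintegral_enorm _

/-- the hypotheses on the family (four derivatives of the Gaussian) -/
structure Fam (P : ℝ → Eu n → ℝ) (C : ℝ) : Prop where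
  cont : ContinuousOn (fun z : ℝ × Eu n => P z.1 z.2) (Ioi 0 ×ˢ univ)
  g1 : ∀ s > 0, ∫⁻ x, ‖P s x‖ₑ ≤ ENNReal.ofReal (C / s ^ 2)
  g2 : ∀ s > 0, ∫⁻ x, ENNReal.ofReal (‖x‖ ^ 4) * ‖P s x‖ₑ ≤ ENNReal.ofReal C
  g3 : ∀ s > 0, ∀ y, ∫⁻ x, ‖P s (x - y) - P s x‖ₑ ≤
    ENNReal.ofReal (C * ‖y‖ * s ^ (-(5 / 2) : ℝ))

/-- far layers -/
theorem phi_far {μ ε C : ℝ} {P : ℝ → Eu n → ℝ} (hP : Fam P C) (hμ : 0 < μ) (hε : 0 < ε)
    {s : ℝ} (hs : 0 < s) (h : ℝ) (y : Eu n) :
    ∫⁻ z : ST n, ‖FF μ ε P s (z.1 - h, z.2 - y) - FF μ ε P s z‖ₑ ≤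
      ENNReal.ofReal (3 * |h|) * ENNReal.ofReal (C / s ^ 2) +
        ENNReal.ofReal (s / μ) * ENNReal.ofReal (C * ‖y‖ * s ^ (-(5 / 2) : ℝ)) := by
  have mP : Measurable fun x : Eu n => P s x := by
    have : (fun x : Eu n => P s x) = fun x => PP P (s, x) := by
      funext x; rw [PP_pos hs]
    rw [this]
    exact (PP_meas hP.cont).comp (measurable_const.prodMk measurable_id)
  have ma : Measurable fun r => aa μ ε s r :=
    (aa_meas μ ε).comp (measurable_const.prodMk measurable_id)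
  have key : ∀ z : ST n, ‖FF μ ε P s (z.1 - h, z.2 - y) - FF μ ε P s z‖ₑ ≤
      ‖aa μ ε s (z.1 - h) - aa μ ε s z.1‖ₑ * ‖P s (z.2 - y)‖ₑ +
        ‖aa μ ε s z.1‖ₑ * ‖P s (z.2 - y) - P s z.2‖ₑ := by
    intro z
    have e : FF μ ε P s (z.1 - h, z.2 - y) - FF μ ε P s z =
        (aa μ ε s (z.1 - h) - aa μ ε s z.1) * P s (z.2 - y) +
          aa μ ε s z.1 * (P s (z.2 - y) - P s z.2) := by
      unfold FF; rw [PP_pos hs, PP_pos hs]; ring
    rw [e]
    refine (enorm_add_le _ _).trans ?_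
    rw [enorm_mul, enorm_mul]
  refine (lintegral_mono key).trans ?_
  have m1 : Measurable fun r => ‖aa μ ε s (r - h) - aa μ ε s r‖ₑ :=
    ((ma.comp (measurable_id.sub_const h)).sub ma).enorm
  have m2 : Measurable fun x : Eu n => ‖P s (x - y)‖ₑ :=
    (mP.comp (measurable_id.sub_const y)).enorm
  have m3 : Measurable fun x : Eu n => ‖P s (x - y) - P s x‖ₑ :=
    ((mP.comp (measurable_id.sub_const y)).sub mP).enorm
  have m12 : Measurable fun z : ST n =>
      ‖aa μ ε s (z.1 - h) - aa μ ε s z.1‖ₑ * ‖P s (z.2 - y)‖ₑ :=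
    (m1.comp measurable_fst).mul (m2.comp measurable_snd)
  rw [lintegral_add_left m12, Measure.volume_eq_prod,
    lintegral_prod_mul (f := fun r => ‖aa μ ε s (r - h) - aa μ ε s r‖ₑ)
      (g := fun x : Eu n => ‖P s (x - y)‖ₑ) m1.aemeasurable m2.aemeasurable,
    lintegral_prod_mul (f := fun r => ‖aa μ ε s r‖ₑ)
      (g := fun x : Eu n => ‖P s (x - y) - P s x‖ₑ) ma.enorm.aemeasurable m3.aemeasurable]
  refine add_le_add (mul_le_mul' (aa_shift hμ hε h) ?_) (mul_le_mul' (aa_int_le hμ hε) ?_)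
  · rw [lintegral_sub_right_eq_self (fun x => ‖P s x‖ₑ) y]
    exact hP.g1 s hs
  · exact hP.g3 s hs y

/-- near layers -/
theorem phi_near {μ ε C : ℝ} {P : ℝ → Eu n → ℝ} (hP : Fam P C) (hμ : 0 < μ) (hε : 0 < ε)
    {s : ℝ} (hs : 0 < s) {r₀ : ℝ} (hr : 0 < r₀) (hs' : s < 3 * μ * r₀ ^ 2) {h : ℝ} {y : Eu n}
    (hh : |h| ≤ r₀ ^ 2) (hy : ‖y‖ ≤ r₀) :
    ∫⁻ z in {z : ST n | 4 * r₀ ^ 2 ≤ |z.1| ∨ 2 * r₀ ≤ ‖z.2‖},
      ‖FF μ ε P s (z.1 - h, z.2 - y) - FF μ ε P s z‖ₑ ≤
      ENNReal.ofReal 2 * (ENNReal.ofReal (s / μ) *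
        (ENNReal.ofReal ((r₀ ^ 4)⁻¹) * ENNReal.ofReal C)) := by
  have mP : Measurable fun x : Eu n => P s x := by
    have : (fun x : Eu n => P s x) = fun x => PP P (s, x) := by
      funext x; rw [PP_pos hs]
    rw [this]
    exact (PP_meas hP.cont).comp (measurable_const.prodMk measurable_id)
  have ma : Measurable fun r => aa μ ε s r :=
    (aa_meas μ ε).comp (measurable_const.prodMk measurable_id)
  set Q : Eu n → ℝ≥0∞ := fun x => ENNReal.ofReal (‖x‖ ^ 4) * ‖P s x‖ₑ with hQ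
  have mQ : Measurable Q := by
    refine Measurable.mul ?_ mP.enorm
    exact ENNReal.measurable_ofReal.comp (measurable_norm.pow_const 4)
  set c : ℝ≥0∞ := ENNReal.ofReal ((r₀ ^ 4)⁻¹) with hc
  -- comparison of one term
  have one : ∀ x : Eu n, r₀ ≤ ‖x‖ → ‖P s x‖ₑ ≤ c * Q x := by
    intro x hx
    rw [hQ]
    simp only
    rw [← mul_assoc, hc, ← ENNReal.ofReal_mul (by positivity)]
    refine le_mul_of_one_le_left' ?_
    rw [ENNReal.one_le_ofReal, inv_mul_eq_div, one_le_div (by positivity)]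
    exact pow_le_pow_left₀ hr.le hx 4
  have small : ∀ r, aa μ ε s r ≠ 0 → 0 < r ∧ r < 3 * r₀ ^ 2 := by
    intro r hr'
    obtain ⟨h1, h2, h3⟩ := aa_supp hε hr'
    refine ⟨h1, ?_⟩
    by_contra hcon
    push Not at hcon
    have : μ * (3 * r₀ ^ 2) ≤ μ * r := mul_le_mul_of_nonneg_left hcon hμ.le
    nlinarith
  have key : ∀ z : ST n, z ∈ {z : ST n | 4 * r₀ ^ 2 ≤ |z.1| ∨ 2 * r₀ ≤ ‖z.2‖} →
      ‖FF μ ε P s (z.1 - h, z.2 - y) - FF μ ε P s z‖ₑ ≤
      ‖aa μ ε s (z.1 - h)‖ₑ * (c * Q (z.2 - y)) + ‖aa μ ε s z.1‖ₑ * (c * Q z.2) := by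
    intro z hz
    obtain ⟨hh1, hh2⟩ := abs_le.1 hh
    refine (enorm_sub_le).trans (add_le_add ?_ ?_)
    · unfold FF
      rw [PP_pos hs, enorm_mul]
      by_cases ha : aa μ ε s (z.1 - h) = 0
      · simp [ha]
      · refine mul_le_mul_right (one _ ?_) _
        obtain ⟨h1, h2⟩ := small _ ha
        have hz1 : |z.1| < 4 * r₀ ^ 2 := by
          rw [abs_lt]; constructor <;> nlinarith [sq_nonneg r₀, sq_pos_of_pos hr]
        have hz2 : 2 * r₀ ≤ ‖z.2‖ := hz.resolve_left (not_le.2 hz1)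
        have := norm_sub_norm_le z.2 y
        linarith
    · unfold FF
      rw [PP_pos hs, enorm_mul]
      by_cases ha : aa μ ε s z.1 = 0
      · simp [ha]
      · refine mul_le_mul_right (one _ ?_) _
        obtain ⟨h1, h2⟩ := small _ ha
        have hz1 : |z.1| < 4 * r₀ ^ 2 := by
          rw [abs_lt]; constructor <;> nlinarith [sq_nonneg r₀, sq_pos_of_pos hr]
        have hz2 : 2 * r₀ ≤ ‖z.2‖ := hz.resolve_left (not_le.2 hz1)
        linarith
  have hD : MeasurableSet {z : ST n | 4 * r₀ ^ 2 ≤ |z.1| ∨ 2 * r₀ ≤ ‖z.2‖} := by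
    refine MeasurableSet.union ?_ ?_
    · exact measurableSet_le measurable_const (measurable_norm.comp measurable_fst)
    · exact measurableSet_le measurable_const (measurable_norm.comp measurable_snd)
  refine (setLIntegral_mono' hD key).trans ?_
  refine (setLIntegral_le_lintegral _ _).trans ?_
  have m1 : Measurable fun r => ‖aa μ ε s (r - h)‖ₑ := (ma.comp (measurable_id.sub_const h)).enorm
  have m2 : Measurable fun x : Eu n => c * Q (x - y) :=
    (mQ.comp (measurable_id.sub_const y)).const_mul c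
  have m12 : Measurable fun z : ST n => ‖aa μ ε s (z.1 - h)‖ₑ * (c * Q (z.2 - y)) :=
    (m1.comp measurable_fst).mul (m2.comp measurable_snd)
  rw [lintegral_add_left m12, Measure.volume_eq_prod,
    lintegral_prod_mul (f := fun r => ‖aa μ ε s (r - h)‖ₑ)
      (g := fun x : Eu n => c * Q (x - y)) m1.aemeasurable m2.aemeasurable,
    lintegral_prod_mul (f := fun r => ‖aa μ ε s r‖ₑ)
      (g := fun x : Eu n => c * Q x) ma.enorm.aemeasurable (mQ.const_mul c).aemeasurable,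
    lintegral_sub_right_eq_self (fun r => ‖aa μ ε s r‖ₑ) h,
    lintegral_sub_right_eq_self (fun x => c * Q x) y, ← two_mul]
  have h2 : ENNReal.ofReal 2 = (2 : ℝ≥0∞) := by simp
  rw [h2]
  refine mul_le_mul_right (mul_le_mul' (aa_int_le hμ hε) ?_) _
  rw [lintegral_const_mul _ mQ]
  exact mul_le_mul_right (hP.g2 s hs) _

theorem phi_neg {μ ε : ℝ} {P : ℝ → Eu n → ℝ} {s : ℝ} (hs : s ≤ 0) (z : ST n) :
    FF μ ε P s z = 0 := by
  unfold FF; rw [PP_neg hs]; ring

/-- **Hörmander condition** -/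
theorem horm {μ ε C : ℝ} {P : ℝ → Eu n → ℝ} (hP : Fam P C) (hμ : 0 < μ) (hε : 0 < ε)
    (hε1 : ε < 1) (hC : 0 ≤ C) {r₀ : ℝ} (hr : 0 < r₀) {h : ℝ} {y : Eu n}
    (hh : |h| ≤ r₀ ^ 2) (hy : ‖y‖ ≤ r₀) :
    ∫⁻ z in {z : ST n | 4 * r₀ ^ 2 ≤ |z.1| ∨ 2 * r₀ ≤ ‖z.2‖},
      ‖kap μ ε P (z.1 - h, z.2 - y) - kap μ ε P z‖ₑ ≤
      ENNReal.ofReal (18 * μ * C + (C / μ + 2 * C / (μ * Real.sqrt (3 * μ)))) := by
  set D : Set (ST n) := {z : ST n | 4 * r₀ ^ 2 ≤ |z.1| ∨ 2 * r₀ ≤ ‖z.2‖} with hDdef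
  set S₀ : ℝ := 3 * μ * r₀ ^ 2 with hS₀
  have hS₀pos : 0 < S₀ := by positivity
  have mF : Measurable (fun p : ST n × ℝ =>
      ‖FF μ ε P p.2 (p.1.1 - h, p.1.2 - y) - FF μ ε P p.2 p.1‖ₑ) := by
    refine Measurable.enorm (Measurable.sub ?_ ?_)
    · exact (FF_meas hP.cont).comp (measurable_snd.prodMk
        (((measurable_fst.comp measurable_fst).sub_const h).prodMk
          ((measurable_snd.comp measurable_fst).sub_const y)))
    · exact (FF_meas hP.cont).comp (measurable_snd.prodMk measurable_fst)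
  calc ∫⁻ z in D, ‖kap μ ε P (z.1 - h, z.2 - y) - kap μ ε P z‖ₑ
      ≤ ∫⁻ z in D, ∫⁻ s, ‖FF μ ε P s (z.1 - h, z.2 - y) - FF μ ε P s z‖ₑ :=
        lintegral_mono fun z => kap_diff hP.cont hμ hε hε1 _ _
    _ = ∫⁻ s, ∫⁻ z in D, ‖FF μ ε P s (z.1 - h, z.2 - y) - FF μ ε P s z‖ₑ :=
        lintegral_lintegral_swap mF.aemeasurable
    _ ≤ ∫⁻ s, ((Ioo 0 S₀).indicator (fun _ => ENNReal.ofReal 2 * (ENNReal.ofReal (S₀ / μ) *
          (ENNReal.ofReal ((r₀ ^ 4)⁻¹) * ENNReal.ofReal C))) s +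
        ((Ioi S₀).indicator (fun s => ENNReal.ofReal (3 * |h| * C) * ENNReal.ofReal (s ^ (-2 : ℝ)) +
          ENNReal.ofReal (C * ‖y‖ / μ) * ENNReal.ofReal (s ^ (-(3 / 2) : ℝ))) s +
          ({S₀} : Set ℝ).indicator (fun _ => (⊤ : ℝ≥0∞)) s)) := by
        refine lintegral_mono fun s => ?_
        rcases le_or_gt s 0 with hs | hs
        · simp [phi_neg hs]
        rcases lt_trichotomy s S₀ with h1 | h1 | h1
        · refine le_trans ?_ le_self_add
          rw [indicator_of_mem (show s ∈ Ioo 0 S₀ from ⟨hs, h1⟩)]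
          refine (phi_near hP hμ hε hs hr h1 hh hy).trans ?_
          gcongr
        · refine le_trans ?_ le_add_self
          refine le_trans ?_ le_add_self
          rw [indicator_of_mem (by rw [h1]; rfl)]
          exact le_top
        · refine le_trans ?_ le_add_self
          refine le_trans ?_ le_self_add
          rw [indicator_of_mem (show s ∈ Ioi S₀ from h1)]
          refine (setLIntegral_le_lintegral _ _).trans ((phi_far hP hμ hε hs h y).trans ?_)
          refine add_le_add (le_of_eq ?_) (le_of_eq ?_)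
          · rw [← ENNReal.ofReal_mul (by positivity), ← ENNReal.ofReal_mul (by positivity)]
            congr 1
            rw [Real.rpow_neg hs.le, show (2 : ℝ) = ((2 : ℕ) : ℝ) by norm_num, Real.rpow_natCast]
            push_cast
            field_simp
          · rw [← ENNReal.ofReal_mul (by positivity), ← ENNReal.ofReal_mul (by positivity)]
            congr 1
            have : s ^ (-(3 / 2) : ℝ) = s * s ^ (-(5 / 2) : ℝ) := by
              rw [← Real.rpow_one_add' hs.le (by norm_num)]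
              congr 1; norm_num
            rw [this]; field_simp
    _ = ENNReal.ofReal 2 * (ENNReal.ofReal (S₀ / μ) *
          (ENNReal.ofReal ((r₀ ^ 4)⁻¹) * ENNReal.ofReal C)) * ENNReal.ofReal S₀ +
        (ENNReal.ofReal (3 * |h| * C) * ENNReal.ofReal (S₀⁻¹) +
          ENNReal.ofReal (C * ‖y‖ / μ) * ENNReal.ofReal (2 * S₀ ^ (-(1 / 2) : ℝ))) := by
        have ms : Measurable fun s : ℝ => ({S₀} : Set ℝ).indicator (fun _ => (⊤ : ℝ≥0∞)) s :=
          measurable_const.indicator (measurableSet_singleton _)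
        rw [lintegral_add_left (measurable_const.indicator measurableSet_Ioo),
          lintegral_add_right _ ms,
          lintegral_indicator measurableSet_Ioo, lintegral_indicator measurableSet_Ioi,
          lintegral_indicator (measurableSet_singleton _)]
        simp only [lintegral_const, Measure.restrict_apply, MeasurableSet.univ, univ_inter,
          Real.volume_Ioo, sub_zero, Real.volume_singleton, mul_zero, add_zero]
        congr 1
        have mr : ∀ a : ℝ, Measurable fun s : ℝ => ENNReal.ofReal (s ^ a) := fun a =>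
          ENNReal.measurable_ofReal.comp (measurable_id.pow_const a)
        rw [lintegral_add_left ((mr _).const_mul _), lintegral_const_mul _ (mr _),
          lintegral_const_mul _ (mr _), lint_rpow (by norm_num) hS₀pos,
          lint_rpow (by norm_num) hS₀pos]
        congr 3
        · rw [show (-2 : ℝ) + 1 = -1 by norm_num, Real.rpow_neg_one]; ring
        · rw [show -(3 / 2 : ℝ) + 1 = -(1 / 2) by norm_num]; ring
    _ ≤ ENNReal.ofReal (18 * μ * C + (C / μ + 2 * C / (μ * Real.sqrt (3 * μ)))) := by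
        have p1 : 0 ≤ C * ‖y‖ / μ := by positivity
        rw [← ENNReal.ofReal_mul (by positivity), ← ENNReal.ofReal_mul (by positivity),
          ← ENNReal.ofReal_mul (by positivity), ← ENNReal.ofReal_mul (by positivity),
          ← ENNReal.ofReal_mul (by positivity), ← ENNReal.ofReal_mul (by positivity),
          ← ENNReal.ofReal_add (by positivity) (by positivity),
          ← ENNReal.ofReal_add (by positivity) (by positivity)]
        refine ENNReal.ofReal_le_ofReal (add_le_add (le_of_eq ?_) (add_le_add ?_ ?_))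
        · rw [hS₀]; field_simp; ring
        · rw [hS₀]
          rw [← div_eq_mul_inv, div_le_div_iff₀ (by positivity) hμ]
          nlinarith [mul_le_mul_of_nonneg_left hh (by positivity : 0 ≤ 3 * C * μ)]
        · have h3 : S₀ ^ (-(1 / 2) : ℝ) = (Real.sqrt (3 * μ) * r₀)⁻¹ := by
            rw [Real.rpow_neg hS₀pos.le, ← Real.sqrt_eq_rpow, hS₀,
              Real.sqrt_mul (by positivity), Real.sqrt_sq hr.le]
          rw [h3]
          have hsq : 0 < Real.sqrt (3 * μ) := Real.sqrt_pos.2 (by positivity)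
          have e1 : C * ‖y‖ / μ * (2 * (Real.sqrt (3 * μ) * r₀)⁻¹) =
            2 * C / (μ * Real.sqrt (3 * μ)) * (‖y‖ / r₀) := by field_simp
          rw [e1]
          refine mul_le_of_le_one_right (by positivity) ?_
          rw [div_le_one hr]; exact hy

/-- integrability of the main kernel -/
theorem kap_integrable {μ ε C : ℝ} {P : ℝ → Eu n → ℝ} (hP : Fam P C) (hμ : 0 < μ) (hε : 0 < ε)
    (hε1 : ε < 1) (hC : 0 ≤ C) : Integrable (kap μ ε P) := by
  refine ⟨(kap_meas hP.cont hμ hε hε1).aestronglyMeasurable, ?_⟩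
  rw [hasFiniteIntegral_iff_enorm]
  have mF : Measurable (fun p : ST n × ℝ => ‖FF μ ε P p.2 p.1‖ₑ) :=
    ((FF_meas hP.cont).comp (measurable_snd.prodMk measurable_fst)).enorm
  calc ∫⁻ z, ‖kap μ ε P z‖ₑ ≤ ∫⁻ z, ∫⁻ s, ‖FF μ ε P s z‖ₑ :=
        lintegral_mono fun z => kap_enorm hμ hε hε1 z
    _ = ∫⁻ s, ∫⁻ z, ‖FF μ ε P s z‖ₑ := lintegral_lintegral_swap mF.aemeasurable
    _ ≤ ∫⁻ s, (Ioi ε).indicator (fun s => ENNReal.ofReal (C / μ) *
          ENNReal.ofReal (s ^ (-2 : ℝ))) s := by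
        refine lintegral_mono fun s => ?_
        have ma : Measurable fun r => aa μ ε s r :=
          (aa_meas μ ε).comp (measurable_const.prodMk measurable_id)
        have mp : Measurable fun x : Eu n => PP P (s, x) :=
          (PP_meas hP.cont).comp (measurable_const.prodMk measurable_id)
        have e1 : ∫⁻ z, ‖FF μ ε P s z‖ₑ = (∫⁻ r, ‖aa μ ε s r‖ₑ) * ∫⁻ x, ‖PP P (s, x)‖ₑ := by
          unfold FF
          simp_rw [enorm_mul]
          rw [Measure.volume_eq_prod,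
            lintegral_prod_mul ma.enorm.aemeasurable mp.enorm.aemeasurable]
        rw [e1]
        refine (mul_le_mul_left (aa_int_le' hμ hε) _).trans ?_
        by_cases hs : s ∈ Ioi ε
        · rw [indicator_of_mem hs, indicator_of_mem hs]
          have hs0 : 0 < s := hε.trans hs
          have e2 : ∫⁻ x, ‖PP P (s, x)‖ₑ = ∫⁻ x, ‖P s x‖ₑ :=
            lintegral_congr fun x => by rw [PP_pos hs0]
          rw [e2]
          refine (mul_le_mul_right (hP.g1 s hs0) _).trans (le_of_eq ?_)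
          rw [← ENNReal.ofReal_mul (by positivity), ← ENNReal.ofReal_mul (by positivity)]
          congr 1
          rw [Real.rpow_neg hs0.le, show (2 : ℝ) = ((2 : ℕ) : ℝ) by norm_num, Real.rpow_natCast]
          field_simp
        · rw [indicator_of_notMem hs, indicator_of_notMem hs]; simp
    _ < ⊤ := by
        have mr : Measurable fun s : ℝ => ENNReal.ofReal (s ^ (-2 : ℝ)) :=
          ENNReal.measurable_ofReal.comp (measurable_id.pow_const _)
        rw [lintegral_indicator measurableSet_Ioi, lintegral_const_mul _ mr,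
          lint_rpow (by norm_num) hε]
        exact ENNReal.mul_lt_top ENNReal.ofReal_lt_top ENNReal.ofReal_lt_top

end Pool.Agent.Helper79.Horm
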