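import Pool.Agent.Helper79.JefHorm2

/-!
# Integrability of the elliptic kernel, assembling the main kernel
-/

open MeasureTheory Set Filter Topology
open scoped ENNReal ContDiff

namespace Pool.Agent.Helper79.Horm

open Pool.Agent.Helper42.Jef

variable {n : ℕ}

/-- integrability of kernels with an integrable time factor -/
theorem ell_integrable {μ ε C : ℝ} {P : ℝ → Eu n → ℝ} {θ : ℝ → ℝ}
    (hP : ContinuousOn (fun z : ℝ × Eu n => P z.1 z.2) (Ioi 0 ×ˢ univ))
    (g1 : ∀ s > 0, ∫⁻ x, ‖P s x‖ₑ ≤ ENNReal.ofReal (C / s))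
    (hθm : Measurable θ) (hθ0 : ∀ r ≤ 0, θ r = 0) (hθ : Integrable θ)
    (hμ : 0 < μ) (hε : 0 < ε) (hε1 : ε < 1) (hC : 0 ≤ C) :
    Integrable (fun z : ST n => ∫ s in ε..1, θ z.1 * P (μ * z.1 + s) z.2) := by
  have e1 : (fun z : ST n => ∫ s in ε..1, θ z.1 * P (μ * z.1 + s) z.2) =
      fun z => ∫ s in Ioc ε 1, θ z.1 * PP P (μ * z.1 + s, z.2) := by
    funext z
    rw [intervalIntegral.integral_of_le hε1.le]
    refine setIntegral_congr_fun measurableSet_Ioc fun s hs => ?_
    rcases le_or_gt z.1 0 with hz | hz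
    · simp [hθ0 _ hz]
    · rw [PP_pos]
      have := hs.1
      nlinarith [mul_pos hμ hz]
  rw [e1]
  have mG : Measurable (fun p : ST n × ℝ => θ p.1.1 * PP P (μ * p.1.1 + p.2, p.1.2)) := by
    refine Measurable.mul (hθm.comp (measurable_fst.comp measurable_fst)) ?_
    refine (PP_meas hP).comp (Measurable.prodMk ?_ ?_)
    · exact ((measurable_fst.comp measurable_fst).const_mul μ).add measurable_snd
    · exact measurable_snd.comp measurable_fst
  refine ⟨?_, ?_⟩
  · have := StronglyMeasurable.integral_prod_right (ν := volume.restrict (Ioc ε 1))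
      (f := fun (z : ST n) s => θ z.1 * PP P (μ * z.1 + s, z.2)) mG.stronglyMeasurable
    exact this.aestronglyMeasurable
  · rw [hasFiniteIntegral_iff_enorm]
    calc ∫⁻ z : ST n, ‖∫ s in Ioc ε 1, θ z.1 * PP P (μ * z.1 + s, z.2)‖ₑ
        ≤ ∫⁻ z : ST n, ∫⁻ s in Ioc ε 1, ‖θ z.1 * PP P (μ * z.1 + s, z.2)‖ₑ :=
          lintegral_mono fun z => enorm_integral_le_lintegral_enorm _
      _ = ∫⁻ s in Ioc ε 1, ∫⁻ z : ST n, ‖θ z.1 * PP P (μ * z.1 + s, z.2)‖ₑ :=
          lintegral_lintegral_swap mG.enorm.aemeasurable
      _ ≤ ∫⁻ s in Ioc ε 1, (∫⁻ r, ‖θ r‖ₑ) * ENNReal.ofReal (C / ε) := by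
          refine setLIntegral_mono' measurableSet_Ioc fun s hs => ?_
          have ms : Measurable fun z : ST n => ‖θ z.1 * PP P (μ * z.1 + s, z.2)‖ₑ :=
            (mG.comp (measurable_id.prodMk measurable_const)).enorm
          rw [Measure.volume_eq_prod, lintegral_prod _ ms.aemeasurable]
          calc ∫⁻ r, ∫⁻ x, ‖θ r * PP P (μ * r + s, x)‖ₑ
              ≤ ∫⁻ r, ‖θ r‖ₑ * ENNReal.ofReal (C / ε) := by
                refine lintegral_mono fun r => ?_
                simp_rw [enorm_mul]
                have mx : Measurable fun x : Eu n => ‖PP P (μ * r + s, x)‖ₑ :=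
                  ((PP_meas hP).comp (measurable_const.prodMk measurable_id)).enorm
                rw [lintegral_const_mul _ mx]
                rcases le_or_gt r 0 with hr | hr
                · simp [hθ0 _ hr]
                · refine mul_le_mul_right ?_ _
                  have h1 : ε < μ * r + s := by nlinarith [hs.1, mul_pos hμ hr]
                  have h0 : 0 < μ * r + s := hε.trans h1
                  have : ∫⁻ x, ‖PP P (μ * r + s, x)‖ₑ = ∫⁻ x, ‖P (μ * r + s) x‖ₑ :=
                    lintegral_congr fun x => by rw [PP_pos h0]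
                  rw [this]
                  refine (g1 _ h0).trans (ENNReal.ofReal_le_ofReal ?_)
                  exact div_le_div_of_nonneg_left hC hε h1.le
            _ = (∫⁻ r, ‖θ r‖ₑ) * ENNReal.ofReal (C / ε) := lintegral_mul_const _ hθm.enorm
      _ < ⊤ := by
          rw [setLIntegral_const, Real.volume_Ioc]
          refine ENNReal.mul_lt_top (ENNReal.mul_lt_top ?_ ENNReal.ofReal_lt_top)
            ENNReal.ofReal_lt_top
          have := hθ.2
          rwa [hasFiniteIntegral_iff_enorm] at this

/-- facts on the derivative of the smooth step -/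
theorem dstep {ε : ℝ} (hε : 0 < ε) :
    Continuous (deriv fun r => Real.smoothTransition (r / ε)) ∧
    (∀ r ≤ 0, deriv (fun r => Real.smoothTransition (r / ε)) r = 0) ∧
    (∀ r, ε ≤ r → deriv (fun r => Real.smoothTransition (r / ε)) r = 0) ∧
    (∀ r, 0 ≤ deriv (fun r => Real.smoothTransition (r / ε)) r) ∧
    Integrable (deriv fun r => Real.smoothTransition (r / ε)) := by
  have hc : ContDiff ℝ 1 (fun r => Real.smoothTransition (r / ε)) :=
    (Real.smoothTransition.contDiff (n := 1)).comp (contDiff_id.div_const ε)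
  have h1 : Continuous (deriv fun r => Real.smoothTransition (r / ε)) :=
    hc.continuous_deriv (by norm_num)
  have h2 : ∀ r < 0, deriv (fun r => Real.smoothTransition (r / ε)) r = 0 := by
    intro r hr
    have : (fun r => Real.smoothTransition (r / ε)) =ᶠ[𝓝 r] fun _ => 0 := by
      filter_upwards [Iio_mem_nhds hr] with t ht
      exact Real.smoothTransition.zero_of_nonpos
        (div_nonpos_of_nonpos_of_nonneg (le_of_lt ht) hε.le)
    rw [this.deriv_eq]; simp
  have h3 : ∀ r, ε < r → deriv (fun r => Real.smoothTransition (r / ε)) r = 0 := by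
    intro r hr
    have : (fun r => Real.smoothTransition (r / ε)) =ᶠ[𝓝 r] fun _ => 1 := by
      filter_upwards [Ioi_mem_nhds hr] with t ht
      exact Real.smoothTransition.one_of_one_le ((one_le_div hε).2 (le_of_lt ht))
    rw [this.deriv_eq]; simp
  have h2' : ∀ r ≤ 0, deriv (fun r => Real.smoothTransition (r / ε)) r = 0 := by
    have : Iic (0 : ℝ) ⊆ {r | deriv (fun r => Real.smoothTransition (r / ε)) r = 0} := by
      rw [← closure_Iio]
      exact closure_minimal (fun r hr => h2 r hr) (isClosed_eq h1 continuous_const)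
    exact fun r hr => this hr
  have h3' : ∀ r, ε ≤ r → deriv (fun r => Real.smoothTransition (r / ε)) r = 0 := by
    have : Ici ε ⊆ {r | deriv (fun r => Real.smoothTransition (r / ε)) r = 0} := by
      rw [← closure_Ioi]
      exact closure_minimal (fun r hr => h3 r hr) (isClosed_eq h1 continuous_const)
    exact fun r hr => this hr
  refine ⟨h1, h2', h3', ?_, ?_⟩
  · intro r
    refine Monotone.deriv_nonneg ?_
    exact fun a b hab => Real.smoothTransition.monotone (div_le_div_of_nonneg_right hab hε.le)
  · refine h1.integrable_of_hasCompactSupport ?_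
    refine HasCompactSupport.of_support_subset_isCompact (isCompact_Icc (a := 0) (b := ε)) ?_
    intro r hr
    rw [Function.mem_support] at hr
    refine ⟨?_, ?_⟩
    · by_contra hc
      exact hr (h2' r (not_le.1 hc).le)
    · by_contra hc
      exact hr (h3' r (not_le.1 hc).le)

end Pool.Agent.Helper79.Horm
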