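import Pool.Agent.Helper71.FK.Defs

/-!
# Kohler-Jobin inequality, part 1: one sided averages and test functions
-/

open MeasureTheory Metric Set Filter Topology
open scoped ENNReal

namespace Pool.Agent.Helper79.KJ

open Pool.Agent.Helper71.FK

/-! ## one sided averages -/

/-- average of `η` over `[x - 2 ε, x - ε]` -/
noncomputable def av (η : ℝ → ℝ) (ε x : ℝ) : ℝ := (∫ t in (x - 2 * ε)..(x - ε), η t) / ε

theorem ii {η : ℝ → ℝ} {K : ℝ} (hm : Measurable η) (h0 : ∀ t, 0 ≤ η t) (hK : ∀ t, η t ≤ K)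
    (a b : ℝ) : IntervalIntegrable η volume a b := by
  refine (intervalIntegrable_const (c := K)).mono_fun hm.aestronglyMeasurable ?_
  filter_upwards with t
  rw [Real.norm_eq_abs, Real.norm_eq_abs, abs_of_nonneg (h0 t),
    abs_of_nonneg ((h0 t).trans (hK t))]
  exact hK t

theorem av_cont {η : ℝ → ℝ} {K : ℝ} (hm : Measurable η) (h0 : ∀ t, 0 ≤ η t)
    (hK : ∀ t, η t ≤ K) (ε : ℝ) : Continuous (av η ε) := by
  have h : av η ε = fun x => ((∫ t in (0 : ℝ)..(x - ε), η t) -
      ∫ t in (0 : ℝ)..(x - 2 * ε), η t) / ε := by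
    funext x
    unfold av
    rw [intervalIntegral.integral_interval_sub_left (ii hm h0 hK _ _) (ii hm h0 hK _ _)]
  have hc : Continuous fun x => ∫ t in (0 : ℝ)..x, η t :=
    intervalIntegral.continuous_primitive (fun a b => ii hm h0 hK a b) 0
  rw [h]
  exact ((hc.comp (continuous_id.sub continuous_const)).sub
    (hc.comp (continuous_id.sub continuous_const))).div_const ε

theorem av_nonneg {η : ℝ → ℝ} (h0 : ∀ t, 0 ≤ η t) {ε : ℝ} (hε : 0 < ε) (x : ℝ) :
    0 ≤ av η ε x :=
  div_nonneg (intervalIntegral.integral_nonneg (by linarith) fun t _ => h0 t) hε.le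

theorem av_le {η : ℝ → ℝ} {K : ℝ} (hm : Measurable η) (h0 : ∀ t, 0 ≤ η t)
    (hK : ∀ t, η t ≤ K) {ε : ℝ} (hε : 0 < ε) (x : ℝ) : av η ε x ≤ K := by
  unfold av
  rw [div_le_iff₀ hε]
  have := intervalIntegral.integral_mono (a := x - 2 * ε) (b := x - ε) (by linarith)
    (ii hm h0 hK _ _) (intervalIntegrable_const (c := K)) (fun t => hK t)
  rw [intervalIntegral.integral_const, smul_eq_mul] at this
  nlinarith

theorem av_zero {η : ℝ → ℝ} {a : ℝ} (ha : ∀ t ≤ a, η t = 0) {ε x : ℝ} (hε : 0 < ε)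
    (hx : x ≤ a + ε) : av η ε x = 0 := by
  unfold av
  have : ∫ t in (x - 2 * ε)..(x - ε), η t = ∫ t in (x - 2 * ε)..(x - ε), (0 : ℝ) := by
    refine intervalIntegral.integral_congr fun t ht => ?_
    rw [uIcc_of_le (by linarith)] at ht
    exact ha t (by linarith [ht.2])
  rw [this]; simp

theorem av_tendsto {η : ℝ → ℝ} {K : ℝ} (hm : Measurable η) (h0 : ∀ t, 0 ≤ η t)
    (hK : ∀ t, η t ≤ K) {x : ℝ} (hc : ContinuousWithinAt η (Iic x) x) {ε : ℕ → ℝ}
    (hε : ∀ n, 0 < ε n) (hε0 : Tendsto ε atTop (𝓝 0)) :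
    Tendsto (fun n => av η (ε n) x) atTop (𝓝 (η x)) := by
  rw [Metric.tendsto_atTop]
  intro δ hδ
  obtain ⟨d, hd, h⟩ := Metric.continuousWithinAt_iff.1 hc (δ / 2) (by positivity)
  obtain ⟨n₀, hn₀⟩ := (Metric.tendsto_atTop.1 hε0) (d / 2) (by positivity)
  refine ⟨n₀, fun n hn => ?_⟩
  have h1 : ε n < d / 2 := by
    have := hn₀ n hn
    rw [Real.dist_eq, sub_zero, abs_of_pos (hε n)] at this
    exact this
  have e1 : av η (ε n) x - η x =
      (∫ t in (x - 2 * ε n)..(x - ε n), (η t - η x)) / ε n := by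
    unfold av
    rw [intervalIntegral.integral_sub (ii hm h0 hK _ _) intervalIntegrable_const,
      intervalIntegral.integral_const, smul_eq_mul]
    have := hε n
    field_simp
    ring
  rw [Real.dist_eq, e1, abs_div, abs_of_pos (hε n), div_lt_iff₀ (hε n)]
  have h2 : ‖∫ t in (x - 2 * ε n)..(x - ε n), (η t - η x)‖ ≤
      δ / 2 * |(x - ε n) - (x - 2 * ε n)| := by
    refine intervalIntegral.norm_integral_le_of_norm_le_const fun t ht => ?_
    have hp := hε n
    rw [uIoc_of_le (by linarith)] at ht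
    have h3 : t ∈ Iic x := by simp only [mem_Iic]; linarith [ht.2]
    have h4 : dist t x < d := by
      rw [Real.dist_eq, abs_lt]; constructor <;> linarith [ht.1, ht.2]
    have := h h3 h4
    rw [Real.dist_eq] at this
    rw [Real.norm_eq_abs]; exact this.le
  rw [Real.norm_eq_abs, show (x - ε n) - (x - 2 * ε n) = ε n by ring,
    abs_of_pos (hε n)] at h2
  nlinarith [hε n]

/-! ## gradients -/

theorem norm_grad {N : ℕ} (u : E N → ℝ) (x : E N) : ‖gradient u x‖ = ‖fderiv ℝ u x‖ := by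
  unfold gradient
  exact LinearIsometryEquiv.norm_map _ _

theorem dir_eq {N : ℕ} (u : E N → ℝ) : dir u = ∫ x, ‖fderiv ℝ u x‖ ^ 2 := by
  unfold dir; simp_rw [norm_grad]

theorem fderiv_int {N : ℕ} {u : E N → ℝ} (hu : ContDiff ℝ 1 u) (hc : HasCompactSupport u) :
    Integrable fun x => ‖fderiv ℝ u x‖ ^ 2 := by
  have h1 : Continuous fun x => ‖fderiv ℝ u x‖ ^ 2 :=
    (hu.continuous_fderiv (by norm_num)).norm.pow 2
  refine h1.integrable_of_hasCompactSupport ?_
  have h2 := hc.fderiv (𝕜 := ℝ)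
  exact h2.comp_left (g := fun L : E N →L[ℝ] ℝ => ‖L‖ ^ 2) (by simp)

/-- primitive of a continuous function -/
theorem prim_contDiff {f : ℝ → ℝ} (hf : Continuous f) (a : ℝ) :
    ContDiff ℝ 1 (fun s => ∫ t in a..s, f t) ∧
      ∀ s, HasDerivAt (fun s => ∫ t in a..s, f t) (f s) s := by
  have h : ∀ s, HasDerivAt (fun s => ∫ t in a..s, f t) (f s) s := fun s =>
    intervalIntegral.integral_hasDerivAt_right (hf.intervalIntegrable _ _)
      (hf.stronglyMeasurableAtFilter _ _) hf.continuousAt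
  refine ⟨?_, h⟩
  rw [contDiff_one_iff_deriv]
  refine ⟨fun s => (h s).differentiableAt, ?_⟩
  have : deriv (fun s => ∫ t in a..s, f t) = f := funext fun s => (h s).deriv
  rw [this]; exact hf

/-- **Test functions `ψ ∘ u`, `ψ' = η` left continuous.** -/
theorem test_sub {N : ℕ} {u : E N → ℝ} (hu : ContDiff ℝ 1 u) (hc : HasCompactSupport u)
    (h0 : ∀ x, 0 ≤ u x) {η : ℝ → ℝ} {K a : ℝ} (ha : 0 ≤ a) (hm : Measurable η)
    (hη0 : ∀ t, 0 ≤ η t) (hηK : ∀ t, η t ≤ K) (hηa : ∀ t ≤ a, η t = 0)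
    (hηc : ∀ x, ContinuousWithinAt η (Iic x) x) {T : ℝ}
    (hT : ∀ φ : E N → ℝ, ContDiff ℝ 1 φ → HasCompactSupport φ → tsupport φ ⊆ {x | a < u x} →
      tsupport φ ⊆ tsupport u → (∀ x, 0 ≤ φ x) → J φ ≤ T) :
    2 * (∫ x, ∫ t in (0 : ℝ)..(u x), η t) - ∫ x, (η (u x)) ^ 2 * ‖fderiv ℝ u x‖ ^ 2 ≤ T := by
  set ε : ℕ → ℝ := fun n => 1 / ((n : ℝ) + 1) with hεd
  have hε : ∀ n, 0 < ε n := fun n => by positivity
  have hε0 : Tendsto ε atTop (𝓝 0) := tendsto_one_div_add_atTop_nhds_zero_nat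
  have hK0 : 0 ≤ K := (hη0 0).trans (hηK 0)
  set ψ : ℕ → ℝ → ℝ := fun n s => ∫ t in (0 : ℝ)..s, av η (ε n) t with hψd
  have avc : ∀ n, Continuous (av η (ε n)) := fun n => av_cont hm hη0 hηK _
  have hψ : ∀ n, ContDiff ℝ 1 (ψ n) ∧ ∀ s, HasDerivAt (ψ n) (av η (ε n) s) s :=
    fun n => prim_contDiff (avc n) 0
  have hψz : ∀ n s, s ≤ a + ε n → ψ n s = 0 := by
    intro n s hs
    have : ∫ t in (0 : ℝ)..s, av η (ε n) t = ∫ t in (0 : ℝ)..s, (0 : ℝ) := by
      refine intervalIntegral.integral_congr fun t ht => ?_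
      refine av_zero hηa (hε n) ?_
      rcases le_total 0 s with h | h
      · rw [uIcc_of_le h] at ht; linarith [ht.2]
      · rw [uIcc_of_ge h] at ht; linarith [ht.2, hε n]
    simp only [hψd]; rw [this]; simp
  -- the test functions
  have hφ1 : ∀ n, ContDiff ℝ 1 (fun x => ψ n (u x)) := fun n => (hψ n).1.comp hu
  have hcl : ∀ n, IsClosed {x | a + ε n ≤ u x} := fun n =>
    isClosed_le continuous_const hu.continuous
  have hts : ∀ n, tsupport (fun x => ψ n (u x)) ⊆ {x | a + ε n ≤ u x} := by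
    intro n
    refine closure_minimal ?_ (hcl n)
    intro x hx
    rw [Function.mem_support] at hx
    by_contra hcon
    simp only [mem_setOf_eq, not_le] at hcon
    exact hx (hψz n _ hcon.le)
  have hts2 : ∀ n, tsupport (fun x => ψ n (u x)) ⊆ tsupport u := by
    intro n
    refine closure_mono ?_
    intro x hx
    rw [Function.mem_support] at hx ⊢
    intro h
    apply hx
    rw [h]
    exact hψz n 0 (by linarith [hε n])
  have hφ2 : ∀ n, HasCompactSupport (fun x => ψ n (u x)) := fun n =>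
    hc.of_isClosed_subset (isClosed_tsupport _) (hts2 n)
  have hpos : ∀ n x, 0 ≤ ψ n (u x) := fun n x =>
    intervalIntegral.integral_nonneg (h0 x) fun t _ => av_nonneg hη0 (hε n) t
  have hJ : ∀ n, J (fun x => ψ n (u x)) ≤ T := fun n =>
    hT _ (hφ1 n) (hφ2 n) (fun x hx => by
      have := hts n hx
      simp only [mem_setOf_eq] at this ⊢
      linarith [hε n]) (hts2 n) (hpos n)
  have hfd : ∀ n x, ‖fderiv ℝ (fun x => ψ n (u x)) x‖ ^ 2 =
      (av η (ε n) (u x)) ^ 2 * ‖fderiv ℝ u x‖ ^ 2 := by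
    intro n x
    have h1 : HasFDerivAt (fun x => ψ n (u x)) ((av η (ε n) (u x)) • fderiv ℝ u x) x :=
      ((hψ n).2 (u x)).comp_hasFDerivAt x
        ((hu.differentiable (by norm_num)) x).hasFDerivAt
    rw [h1.fderiv, norm_smul, Real.norm_eq_abs, mul_pow, sq_abs]
  have hJ' : ∀ n, 2 * (∫ x, ψ n (u x)) -
      ∫ x, (av η (ε n) (u x)) ^ 2 * ‖fderiv ℝ u x‖ ^ 2 ≤ T := by
    intro n
    have := hJ n
    unfold J at this
    rw [dir_eq] at this
    simp_rw [hfd] at this
    exact this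
  -- limits
  have hui : Integrable u := hu.continuous.integrable_of_hasCompactSupport hc
  have l1 : Tendsto (fun n => ∫ x, ψ n (u x)) atTop
      (𝓝 (∫ x, ∫ t in (0 : ℝ)..(u x), η t)) := by
    refine tendsto_integral_of_dominated_convergence (fun x => K * u x)
      (fun n => (hφ1 n).continuous.aestronglyMeasurable) (hui.const_mul K) ?_ ?_
    · intro n
      filter_upwards with x
      rw [Real.norm_eq_abs, abs_of_nonneg (hpos n x)]
      have := intervalIntegral.integral_mono (μ := volume) (a := 0) (b := u x) (h0 x)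
        ((avc n).intervalIntegrable _ _) (intervalIntegrable_const (c := K))
        (fun t => av_le hm hη0 hηK (hε n) t)
      rw [intervalIntegral.integral_const, smul_eq_mul, sub_zero, mul_comm] at this
      exact this
    · filter_upwards with x
      refine intervalIntegral.tendsto_integral_filter_of_dominated_convergence (fun _ => K)
        ?_ ?_ intervalIntegrable_const ?_
      · filter_upwards with n
        exact (avc n).aestronglyMeasurable
      · filter_upwards with n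
        filter_upwards with t _
        rw [Real.norm_eq_abs, abs_of_nonneg (av_nonneg hη0 (hε n) t)]
        exact av_le hm hη0 hηK (hε n) t
      · filter_upwards with t _
        exact av_tendsto hm hη0 hηK (hηc t) hε hε0
  have l2 : Tendsto (fun n => ∫ x, (av η (ε n) (u x)) ^ 2 * ‖fderiv ℝ u x‖ ^ 2) atTop
      (𝓝 (∫ x, (η (u x)) ^ 2 * ‖fderiv ℝ u x‖ ^ 2)) := by
    refine tendsto_integral_of_dominated_convergence (fun x => K ^ 2 * ‖fderiv ℝ u x‖ ^ 2)
      (fun n => ?_) ((fderiv_int hu hc).const_mul _) ?_ ?_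
    · exact ((((avc n).comp hu.continuous).pow 2).mul
        ((hu.continuous_fderiv (by norm_num)).norm.pow 2)).aestronglyMeasurable
    · intro n
      filter_upwards with x
      rw [Real.norm_eq_abs, abs_of_nonneg (by positivity)]
      refine mul_le_mul_of_nonneg_right ?_ (by positivity)
      exact pow_le_pow_left₀ (av_nonneg hη0 (hε n) _) (av_le hm hη0 hηK (hε n) _) 2
    · filter_upwards with x
      exact ((av_tendsto hm hη0 hηK (hηc (u x)) hε hε0).pow 2).mul_const _
  exact le_of_tendsto' ((l1.const_mul 2).sub l2) hJ'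

end Pool.Agent.Helper79.KJ
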