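import Pool.Agent.Helper79.KJ1

/-!
# Kohler-Jobin inequality, part 2: radial test functions with step slopes
-/

open MeasureTheory Metric Set Filter Topology
open scoped ENNReal

namespace Pool.Agent.Helper79.KJ

open Pool.Agent.Helper71.FK

theorem radial {N : ℕ} {r ρ Λ K : ℝ} {γ : ℝ → ℝ} (hρ : 0 < ρ) (hρr : ρ ≤ r)
    (hm : Measurable γ) (hγ0 : ∀ t, 0 ≤ γ t) (hγK : ∀ t, γ t ≤ K)
    (hγz : ∀ t, ρ ^ 2 ≤ t → γ t = 0) (hγc : ∀ x, ContinuousWithinAt γ (Ici x) x)
    (hΛ : ∀ v : E N → ℝ, ContDiff ℝ 1 v → HasCompactSupport v → tsupport v ⊆ ball 0 r →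
      Λ * (∫ x, v x ^ 2) ≤ dir v) :
    Λ * ∫ y : E N, (∫ t in (‖y‖ ^ 2)..(ρ ^ 2), γ t) ^ 2 ≤
      ∫ y : E N, 4 * (γ (‖y‖ ^ 2)) ^ 2 * ‖y‖ ^ 2 := by
  set ε : ℕ → ℝ := fun n => 1 / ((n : ℝ) + 1) with hεd
  have hε : ∀ n, 0 < ε n := fun n => by positivity
  have hε0 : Tendsto ε atTop (𝓝 0) := tendsto_one_div_add_atTop_nhds_zero_nat
  have hK0 : 0 ≤ K := (hγ0 0).trans (hγK 0)
  set γ' : ℝ → ℝ := fun x => γ (-x) with hγ'
  have hm' : Measurable γ' := hm.comp measurable_neg
  have h0' : ∀ t, 0 ≤ γ' t := fun t => hγ0 _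
  have hK' : ∀ t, γ' t ≤ K := fun t => hγK _
  have hc' : ∀ x, ContinuousWithinAt γ' (Iic x) x := by
    intro x
    have : ContinuousWithinAt γ (Ici (-x)) (-x) := hγc (-x)
    refine this.comp continuous_neg.continuousWithinAt ?_
    intro t ht
    simp only [mem_Ici, mem_Iic] at ht ⊢
    linarith
  set g : ℕ → ℝ → ℝ := fun n x => av γ' (ε n) (-x) with hg
  have gc : ∀ n, Continuous (g n) := fun n => (av_cont hm' h0' hK' _).comp continuous_neg
  have g0 : ∀ n x, 0 ≤ g n x := fun n x => av_nonneg h0' (hε n) _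
  have gK : ∀ n x, g n x ≤ K := fun n x => av_le hm' h0' hK' (hε n) _
  have gz : ∀ n x, ρ ^ 2 - ε n ≤ x → g n x = 0 := by
    intro n x hx
    refine av_zero (a := -(ρ ^ 2)) ?_ (hε n) (by linarith)
    intro t ht
    exact hγz _ (by linarith)
  have gt : ∀ x, Tendsto (fun n => g n x) atTop (𝓝 (γ x)) := by
    intro x
    have := av_tendsto hm' h0' hK' (hc' (-x)) hε hε0
    simpa [hγ'] using this
  set v : ℕ → E N → ℝ := fun n y => ∫ t in (‖y‖ ^ 2)..(ρ ^ 2), g n t with hv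
  have hv' : ∀ n, v n = fun y => -(∫ t in (ρ ^ 2)..(‖y‖ ^ 2), g n t) := by
    intro n; funext y; simp only [hv]; rw [intervalIntegral.integral_symm]
  have hprim : ∀ n, ContDiff ℝ 1 (fun s => ∫ t in (ρ ^ 2)..s, g n t) ∧
      ∀ s, HasDerivAt (fun s => ∫ t in (ρ ^ 2)..s, g n t) (g n s) s :=
    fun n => prim_contDiff (gc n) _
  have hv1 : ∀ n, ContDiff ℝ 1 (v n) := by
    intro n
    rw [hv' n]
    exact ((hprim n).1.comp (contDiff_norm_sq ℝ)).neg
  have hvz : ∀ n y, ρ ^ 2 - ε n ≤ ‖y‖ ^ 2 → v n y = 0 := by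
    intro n y hy
    have : ∫ t in (‖y‖ ^ 2)..(ρ ^ 2), g n t = ∫ t in (‖y‖ ^ 2)..(ρ ^ 2), (0 : ℝ) := by
      refine intervalIntegral.integral_congr fun t ht => gz n t ?_
      rcases le_total (‖y‖ ^ 2) (ρ ^ 2) with h | h
      · rw [uIcc_of_le h] at ht; linarith [ht.1]
      · rw [uIcc_of_ge h] at ht; linarith [ht.1, hε n]
    simp only [hv]; rw [this]; simp
  have hts : ∀ n, tsupport (v n) ⊆ {y | ‖y‖ ^ 2 ≤ ρ ^ 2 - ε n} := by
    intro n
    refine closure_minimal ?_ (isClosed_le (by fun_prop) continuous_const)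
    intro y hy
    rw [Function.mem_support] at hy
    by_contra hcon
    simp only [mem_setOf_eq, not_le] at hcon
    exact hy (hvz n y hcon.le)
  have hcb : ∀ n, {y : E N | ‖y‖ ^ 2 ≤ ρ ^ 2 - ε n} ⊆ closedBall 0 ρ := by
    intro n y hy
    simp only [mem_setOf_eq] at hy
    rw [mem_closedBall_zero_iff]
    exact abs_le_of_sq_le_sq' (by linarith [hε n]) hρ.le |>.2
  have hcs : ∀ n, HasCompactSupport (v n) := fun n =>
    (isCompact_closedBall (0 : E N) ρ).of_isClosed_subset (isClosed_tsupport _)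
      ((hts n).trans (hcb n))
  have hbr : ∀ n, tsupport (v n) ⊆ ball 0 r := by
    intro n y hy
    have := hts n hy
    simp only [mem_setOf_eq] at this
    rw [mem_ball_zero_iff]
    have h1 : ‖y‖ ^ 2 < ρ ^ 2 := by linarith [hε n]
    exact (lt_of_pow_lt_pow_left₀ 2 hρ.le h1).trans_le hρr
  have hfd : ∀ n y, ‖fderiv ℝ (v n) y‖ ^ 2 = 4 * (g n (‖y‖ ^ 2)) ^ 2 * ‖y‖ ^ 2 := by
    intro n y
    have h1 : HasFDerivAt (v n) (-((g n (‖y‖ ^ 2)) • (2 • innerSL ℝ y))) y := by
      rw [hv' n]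
      exact (((hprim n).2 (‖y‖ ^ 2)).comp_hasFDerivAt y
        (hasStrictFDerivAt_norm_sq y).hasFDerivAt).neg
    rw [h1.fderiv, norm_neg, norm_smul, Real.norm_eq_abs, mul_pow, sq_abs]
    have h2 : ‖(2 • innerSL ℝ y : E N →L[ℝ] ℝ)‖ = 2 * ‖y‖ := by
      rw [← Nat.cast_smul_eq_nsmul ℝ, norm_smul, innerSL_apply_norm]
      simp
    rw [h2]; ring
  have hin : ∀ n, Λ * (∫ y, v n y ^ 2) ≤ ∫ y : E N, 4 * (g n (‖y‖ ^ 2)) ^ 2 * ‖y‖ ^ 2 := by
    intro n
    have := hΛ (v n) (hv1 n) (hcs n) (hbr n)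
    rw [dir_eq] at this
    simp_rw [hfd] at this
    exact this
  have hind : ∀ c : ℝ, Integrable ((closedBall (0 : E N) ρ).indicator fun _ => c) := by
    intro c
    rw [integrable_indicator_iff measurableSet_closedBall]
    exact integrableOn_const (by
      exact (isCompact_closedBall (0 : E N) ρ).measure_lt_top.ne)
  have hnb : ∀ (y : E N), y ∉ closedBall (0 : E N) ρ → ρ ^ 2 ≤ ‖y‖ ^ 2 := by
    intro y hy
    rw [mem_closedBall_zero_iff, not_le] at hy
    exact pow_le_pow_left₀ hρ.le hy.le 2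
  have hbb : ∀ (y : E N), y ∈ closedBall (0 : E N) ρ → ‖y‖ ^ 2 ≤ ρ ^ 2 := by
    intro y hy
    rw [mem_closedBall_zero_iff] at hy
    exact pow_le_pow_left₀ (norm_nonneg _) hy 2
  have l1 : Tendsto (fun n => ∫ y, v n y ^ 2) atTop
      (𝓝 (∫ y : E N, (∫ t in (‖y‖ ^ 2)..(ρ ^ 2), γ t) ^ 2)) := by
    refine tendsto_integral_of_dominated_convergence
      ((closedBall (0 : E N) ρ).indicator fun _ => (K * ρ ^ 2) ^ 2)
      (fun n => ((hv1 n).continuous.pow 2).aestronglyMeasurable) (hind _) ?_ ?_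
    · intro n
      filter_upwards with y
      by_cases hy : y ∈ closedBall (0 : E N) ρ
      · rw [indicator_of_mem hy, Real.norm_eq_abs, abs_of_nonneg (by positivity)]
        have h1 := hbb y hy
        have h2 : 0 ≤ v n y := intervalIntegral.integral_nonneg h1 fun t _ => g0 n t
        refine pow_le_pow_left₀ h2 ?_ 2
        have := intervalIntegral.integral_mono (μ := volume) h1
          ((gc n).intervalIntegrable _ _) (intervalIntegrable_const (c := K))
          (fun t => gK n t)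
        rw [intervalIntegral.integral_const, smul_eq_mul] at this
        have h3 : (ρ ^ 2 - ‖y‖ ^ 2) * K ≤ K * ρ ^ 2 := by
          nlinarith [sq_nonneg ‖y‖]
        exact this.trans h3
      · rw [indicator_of_notMem hy, hvz n y (by linarith [hnb y hy, hε n])]
        simp
    · filter_upwards with y
      refine Tendsto.pow ?_ 2
      refine intervalIntegral.tendsto_integral_filter_of_dominated_convergence (fun _ => K)
        ?_ ?_ intervalIntegrable_const ?_
      · filter_upwards with n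
        exact (gc n).aestronglyMeasurable
      · filter_upwards with n
        filter_upwards with t _
        rw [Real.norm_eq_abs, abs_of_nonneg (g0 n t)]
        exact gK n t
      · filter_upwards with t _
        exact gt t
  have l2 : Tendsto (fun n => ∫ y : E N, 4 * (g n (‖y‖ ^ 2)) ^ 2 * ‖y‖ ^ 2) atTop
      (𝓝 (∫ y : E N, 4 * (γ (‖y‖ ^ 2)) ^ 2 * ‖y‖ ^ 2)) := by
    refine tendsto_integral_of_dominated_convergence
      ((closedBall (0 : E N) ρ).indicator fun _ => 4 * K ^ 2 * ρ ^ 2)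
      (fun n => ?_) (hind _) ?_ ?_
    · have : Continuous fun y : E N => 4 * (g n (‖y‖ ^ 2)) ^ 2 * ‖y‖ ^ 2 := by
        have := gc n
        fun_prop
      exact this.aestronglyMeasurable
    · intro n
      filter_upwards with y
      by_cases hy : y ∈ closedBall (0 : E N) ρ
      · rw [indicator_of_mem hy, Real.norm_eq_abs, abs_of_nonneg (by positivity)]
        have h1 := hbb y hy
        have h2 : (g n (‖y‖ ^ 2)) ^ 2 ≤ K ^ 2 := pow_le_pow_left₀ (g0 n _) (gK n _) 2
        gcongr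
      · rw [indicator_of_notMem hy, gz n _ (by linarith [hnb y hy, hε n])]
        simp
    · filter_upwards with y
      exact (((gt _).pow 2).const_mul 4).mul_const _
  exact le_of_tendsto_of_tendsto' (l1.const_mul Λ) l2 hin

end Pool.Agent.Helper79.KJ
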