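import Pool.Agent.Helper79.KJ2

/-!
# Kohler-Jobin inequality, part 3: step slopes, evaluation of the radial integrals
-/

open MeasureTheory Metric Set Filter Topology
open scoped ENNReal

namespace Pool.Agent.Helper79.KJ

open Pool.Agent.Helper71.FK

/-! ## step functions -/

/-- sum of indicators -/
noncomputable def stp (I : ℕ → Set ℝ) (c : ℕ → ℝ) (F : Finset ℕ) (t : ℝ) : ℝ :=
  ∑ k ∈ F, (I k).indicator (fun _ => c k) t

theorem stp_meas {I : ℕ → Set ℝ} (hI : ∀ k, MeasurableSet (I k)) (c : ℕ → ℝ) (F : Finset ℕ) :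
    Measurable (stp I c F) := by
  unfold stp
  exact Finset.measurable_sum _ fun k _ => measurable_const.indicator (hI k)

theorem stp_nonneg {I : ℕ → Set ℝ} {c : ℕ → ℝ} {F : Finset ℕ} (hc : ∀ k ∈ F, 0 ≤ c k) (t : ℝ) :
    0 ≤ stp I c F t :=
  Finset.sum_nonneg fun k hk => indicator_nonneg (fun _ _ => hc k hk) _

theorem stp_le {I : ℕ → Set ℝ} {c : ℕ → ℝ} {F : Finset ℕ} (hc : ∀ k ∈ F, 0 ≤ c k) (t : ℝ) :
    stp I c F t ≤ ∑ k ∈ F, c k :=
  Finset.sum_le_sum fun k hk => indicator_le_self' (fun _ _ => hc k hk) _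

theorem stp_val {I : ℕ → Set ℝ} {c : ℕ → ℝ} {F : Finset ℕ}
    (hd : ∀ i ∈ F, ∀ j ∈ F, i ≠ j → Disjoint (I i) (I j)) {j : ℕ} (hj : j ∈ F) {t : ℝ}
    (ht : t ∈ I j) : stp I c F t = c j := by
  unfold stp
  rw [Finset.sum_eq_single j]
  · exact indicator_of_mem ht _
  · intro i hi hij
    refine indicator_of_notMem ?_ _
    intro h
    exact Set.disjoint_left.1 (hd i hi j hj hij) h ht
  · intro h; exact absurd hj h

theorem stp_zero {I : ℕ → Set ℝ} {c : ℕ → ℝ} {F : Finset ℕ} {t : ℝ} (ht : ∀ k ∈ F, t ∉ I k) :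
    stp I c F t = 0 := by
  unfold stp
  exact Finset.sum_eq_zero fun k hk => indicator_of_notMem (ht k hk) _

theorem stp_sq {I : ℕ → Set ℝ} {c : ℕ → ℝ} {F : Finset ℕ}
    (hd : ∀ i ∈ F, ∀ j ∈ F, i ≠ j → Disjoint (I i) (I j)) (t : ℝ) :
    (stp I c F t) ^ 2 = stp I (fun k => (c k) ^ 2) F t := by
  by_cases h : ∃ j ∈ F, t ∈ I j
  · obtain ⟨j, hj, ht⟩ := h
    rw [stp_val hd hj ht, stp_val hd hj ht]
  · push Not at h
    rw [stp_zero h, stp_zero h]; norm_num

theorem stp_left {s : ℕ → ℝ} (c : ℕ → ℝ) (F : Finset ℕ) (x : ℝ) :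
    ContinuousWithinAt (stp (fun k => Ioc (s k) (s (k + 1))) c F) (Iic x) x := by
  unfold stp
  refine tendsto_finsetSum _ fun k _ => ?_
  have : (fun t => (Ioc (s k) (s (k + 1))).indicator (fun _ => c k) t) =ᶠ[𝓝[≤] x]
      fun _ => (Ioc (s k) (s (k + 1))).indicator (fun _ => c k) x := by
    by_cases h1 : s k < x
    · by_cases h2 : x ≤ s (k + 1)
      · filter_upwards [Ioc_mem_nhdsLE h1] with t ht
        have e1 : t ∈ Ioc (s k) (s (k + 1)) := ⟨ht.1, ht.2.trans h2⟩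
        have e2 : x ∈ Ioc (s k) (s (k + 1)) := ⟨h1, h2⟩
        rw [indicator_of_mem e1, indicator_of_mem e2]
      · push Not at h2
        filter_upwards [Ioc_mem_nhdsLE h2] with t ht
        rw [indicator_of_notMem (fun h => absurd h.2 (not_le.2 ht.1)),
          indicator_of_notMem (fun h => absurd h.2 (not_le.2 h2))]
    · push Not at h1
      filter_upwards [self_mem_nhdsWithin] with t ht
      rw [indicator_of_notMem (fun h => absurd h.1 (not_lt.2 (le_trans ht h1))),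
        indicator_of_notMem (fun h => absurd h.1 (not_lt.2 h1))]
  exact this.tendsto

theorem stp_right {q : ℕ → ℝ} (c : ℕ → ℝ) (F : Finset ℕ) (x : ℝ) :
    ContinuousWithinAt (stp (fun k => Ico (q (k + 1)) (q k)) c F) (Ici x) x := by
  unfold stp
  refine tendsto_finsetSum _ fun k _ => ?_
  have : (fun t => (Ico (q (k + 1)) (q k)).indicator (fun _ => c k) t) =ᶠ[𝓝[≥] x]
      fun _ => (Ico (q (k + 1)) (q k)).indicator (fun _ => c k) x := by
    by_cases h1 : x < q k
    · by_cases h2 : q (k + 1) ≤ x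
      · filter_upwards [Ico_mem_nhdsGE h1] with t ht
        have e1 : t ∈ Ico (q (k + 1)) (q k) := ⟨h2.trans ht.1, ht.2⟩
        have e2 : x ∈ Ico (q (k + 1)) (q k) := ⟨h2, h1⟩
        rw [indicator_of_mem e1, indicator_of_mem e2]
      · push Not at h2
        filter_upwards [Ico_mem_nhdsGE h2] with t ht
        rw [indicator_of_notMem (fun h => absurd h.1 (not_le.2 ht.2)),
          indicator_of_notMem (fun h => absurd h.1 (not_le.2 h2))]
    · push Not at h1
      filter_upwards [self_mem_nhdsWithin] with t ht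
      rw [indicator_of_notMem (fun h => absurd h.2 (not_lt.2 (le_trans h1 ht))),
        indicator_of_notMem (fun h => absurd h.2 (not_lt.2 h1))]
  exact this.tendsto

/-! ## one annulus -/

theorem int_pow_pow {x y : ℝ} (n : ℕ) : ∫ t in x..y, t ^ (n + 1) =
    (y ^ (n + 2) - x ^ (n + 2)) / (n + 2) := by
  rw [integral_pow]; push_cast; ring_nf

theorem young {N : ℕ} {x y : ℝ} (hx : 0 ≤ x) (hxy : x ≤ y) :
    2 * (y ^ (N + 2) - x ^ (N + 2)) ≤ (N + 2) * y ^ N * (y ^ 2 - x ^ 2) := by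
  have h1 : ∫ t in x..y, t ^ (N + 1) ≤ ∫ t in x..y, y ^ N * t := by
    refine intervalIntegral.integral_mono_on hxy
      ((by fun_prop : Continuous fun t : ℝ => t ^ (N + 1)).intervalIntegrable _ _)
      ((by fun_prop : Continuous fun t : ℝ => y ^ N * t).intervalIntegrable _ _) ?_
    intro t ht
    have h0 : 0 ≤ t := hx.trans ht.1
    rw [pow_succ]
    exact mul_le_mul_of_nonneg_right (pow_le_pow_left₀ h0 ht.2 N) h0
  rw [int_pow_pow, intervalIntegral.integral_const_mul, integral_id] at h1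
  have hp : (0 : ℝ) < N + 2 := by positivity
  rw [div_le_iff₀ hp] at h1
  nlinarith

/-- one annulus -/
theorem ann {N : ℕ} (hN : 1 ≤ N) {x₀ y κ V : ℝ} (hx : 0 ≤ x₀) (hxy : x₀ ≤ y) (hκ : 0 ≤ κ)
    (hV : 0 ≤ V) :
    y ^ N * V ^ 2 - x₀ ^ N * (V + κ * (y ^ 2 - x₀ ^ 2) / (2 * N)) ^ 2 +
      2 * V * κ * (y ^ (N + 2) - x₀ ^ (N + 2)) / (N * (N + 2)) ≤
    ∫ t in x₀..y, N * t ^ (N - 1) * (V + κ * (y ^ 2 - t ^ 2) / (2 * N)) ^ 2 := by
  have hN0 : (0 : ℝ) < N := by exact_mod_cast hN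
  set P : ℝ → ℝ := fun t => V + κ * (y ^ 2 - t ^ 2) / (2 * N) with hP
  have hPd : ∀ t, HasDerivAt P (-(κ * t / N)) t := by
    intro t
    have h1 : HasDerivAt (fun t : ℝ => y ^ 2 - t ^ 2) (-(2 * t)) t := by
      have := (hasDerivAt_pow 2 t).const_sub (y ^ 2)
      simpa using this
    refine (((h1.const_mul κ).div_const (2 * (N : ℝ))).const_add V).congr_deriv ?_
    field_simp
  have hd : ∀ t ∈ uIcc x₀ y, HasDerivAt (fun t => t ^ N * P t ^ 2)
      (N * t ^ (N - 1) * P t ^ 2 - 2 * κ / N * (t ^ (N + 1) * P t)) t := by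
    intro t _
    refine ((hasDerivAt_pow N t).mul ((hPd t).pow 2)).congr_deriv ?_
    simp only [Nat.cast_ofNat, Nat.add_one_sub_one, pow_one, Pi.pow_apply]
    field_simp
    ring
  have hcP : Continuous P := by simp only [hP]; fun_prop
  have hc : Continuous fun t : ℝ => N * t ^ (N - 1) * P t ^ 2 - 2 * κ / N * (t ^ (N + 1) * P t) := by
    fun_prop
  have e1 := intervalIntegral.integral_eq_sub_of_hasDerivAt hd (hc.intervalIntegrable _ _)
  have hc1 : Continuous fun t : ℝ => N * t ^ (N - 1) * P t ^ 2 := by fun_prop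
  have hc2 : Continuous fun t : ℝ => 2 * κ / N * (t ^ (N + 1) * P t) := by fun_prop
  have hc3 : Continuous fun t : ℝ => 2 * κ / N * (t ^ (N + 1) * V) := by fun_prop
  rw [intervalIntegral.integral_sub (hc1.intervalIntegrable _ _)
    (hc2.intervalIntegrable _ _)] at e1
  have h2 : ∫ t in x₀..y, 2 * κ / N * (t ^ (N + 1) * V) ≤
      ∫ t in x₀..y, 2 * κ / N * (t ^ (N + 1) * P t) := by
    refine intervalIntegral.integral_mono_on hxy (hc3.intervalIntegrable _ _)
      (hc2.intervalIntegrable _ _) ?_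
    intro t ht
    have h0 : 0 ≤ t := hx.trans ht.1
    have h3 : V ≤ P t := by
      simp only [hP]
      have : 0 ≤ y ^ 2 - t ^ 2 := sub_nonneg.2 (pow_le_pow_left₀ h0 ht.2 2)
      have : 0 ≤ κ * (y ^ 2 - t ^ 2) / (2 * N) := by positivity
      linarith
    gcongr
  rw [intervalIntegral.integral_const_mul, intervalIntegral.integral_mul_const,
    int_pow_pow] at h2
  have h4 : 2 * κ / N * ((y ^ (N + 2) - x₀ ^ (N + 2)) / (N + 2) * V) =
      2 * V * κ * (y ^ (N + 2) - x₀ ^ (N + 2)) / (N * (N + 2)) := by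
    field_simp
  rw [h4] at h2
  have h5 : P y = V := by simp [hP]
  rw [h5] at e1
  have h6 : P x₀ = V + κ * (y ^ 2 - x₀ ^ 2) / (2 * N) := rfl
  rw [h6] at e1
  linarith

end Pool.Agent.Helper79.KJ
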