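import Pool.Agent.Helper79.KJ3

/-!
# Kohler-Jobin inequality, part 4: the radial comparison function
-/

open MeasureTheory Metric Set Filter Topology
open scoped ENNReal

namespace Pool.Agent.Helper79.KJ

open Pool.Agent.Helper71.FK

theorem om_pos (N : ℕ) : 0 < om N := by
  unfold om
  exact ENNReal.toReal_pos (measure_ball_pos volume _ one_pos).ne' measure_ball_lt_top.ne

theorem polar {N : ℕ} (hN : 1 ≤ N) (f : ℝ → ℝ) {R : ℝ} (hR : 0 ≤ R) (hf : ∀ x, R < x → f x = 0) :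
    ∫ y : E N, f ‖y‖ = N * om N * ∫ x in (0 : ℝ)..R, x ^ (N - 1) * f x := by
  haveI : Nonempty (Fin N) := ⟨⟨0, hN⟩⟩
  rw [integral_fun_norm_addHaar volume f]
  have hd : Module.finrank ℝ (E N) = N := by simp
  rw [hd, intervalIntegral.integral_of_le hR]
  have : ∫ y in Ioi (0 : ℝ), y ^ (N - 1) • f y = ∫ y in Ioc (0 : ℝ) R, y ^ (N - 1) * f y := by
    refine setIntegral_eq_of_subset_of_forall_sdiff_eq_zero measurableSet_Ioi Ioc_subset_Ioi_self ?_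
    intro x hx
    rw [hf x, smul_zero]
    by_contra h
    exact hx.2 ⟨hx.1, not_lt.1 h⟩
  rw [this, nsmul_eq_mul, smul_eq_mul]
  unfold om
  ring

variable {N m : ℕ} {ρ κ : ℕ → ℝ}

theorem anti_of (hρ : ∀ j < m, 0 ≤ ρ (j + 1) ∧ ρ (j + 1) < ρ j) {i j : ℕ} (hij : i ≤ j)
    (hj : j ≤ m) : ρ j ≤ ρ i := by
  induction j, hij using Nat.le_induction with
  | base => exact le_rfl
  | succ j hij ih => exact ((hρ j hj).2.le).trans (ih (by omega))

theorem nn_of (hρ : ∀ j < m, 0 ≤ ρ (j + 1) ∧ ρ (j + 1) < ρ j) (hm : 1 ≤ m) {j : ℕ} (hj : j ≤ m) :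
    0 ≤ ρ j := by
  have h1 : ρ m ≤ ρ j := anti_of hρ hj le_rfl
  have h2 : 0 ≤ ρ m := by
    obtain ⟨k, rfl⟩ : ∃ k, m = k + 1 := ⟨m - 1, by omega⟩
    exact (hρ k (by omega)).1
  linarith

theorem sum_int {F : ℝ → ℝ} (hF : ∀ a b, IntervalIntegrable F volume a b) (j : ℕ) :
    ∫ x in (ρ j)..(ρ 0), F x = ∑ i ∈ Finset.range j, ∫ x in (ρ (i + 1))..(ρ i), F x := by
  induction j with
  | zero => simp
  | succ j ih =>
    rw [Finset.sum_range_succ, ← ih,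
      ← intervalIntegral.integral_add_adjacent_intervals (hF (ρ (j + 1)) (ρ j))
        (hF (ρ j) (ρ 0))]
    ring

/-- the slope function -/
noncomputable def gam (N m : ℕ) (ρ κ : ℕ → ℝ) : ℝ → ℝ :=
  stp (fun k => Ico ((ρ (k + 1)) ^ 2) ((ρ k) ^ 2)) (fun k => κ k / (2 * N)) (Finset.range m)

/-- the heights -/
noncomputable def vv (N : ℕ) (ρ κ : ℕ → ℝ) (j : ℕ) : ℝ :=
  ∑ i ∈ Finset.range j, κ i * ((ρ i) ^ 2 - (ρ (i + 1)) ^ 2) / (2 * N)

theorem gam_disj (hρ : ∀ j < m, 0 ≤ ρ (j + 1) ∧ ρ (j + 1) < ρ j) (hm : 1 ≤ m) :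
    ∀ i ∈ Finset.range m, ∀ j ∈ Finset.range m, i ≠ j →
      Disjoint (Ico ((ρ (i + 1)) ^ 2) ((ρ i) ^ 2)) (Ico ((ρ (j + 1)) ^ 2) ((ρ j) ^ 2)) := by
  have key : ∀ i j, i < j → j < m →
      Disjoint (Ico ((ρ (i + 1)) ^ 2) ((ρ i) ^ 2)) (Ico ((ρ (j + 1)) ^ 2) ((ρ j) ^ 2)) := by
    intro i j hij hj
    have h1 : ρ j ≤ ρ (i + 1) := anti_of hρ (by omega) (by omega)
    have h2 : ρ j ^ 2 ≤ ρ (i + 1) ^ 2 := pow_le_pow_left₀ (nn_of hρ hm (by omega)) h1 2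
    rw [Set.disjoint_left]
    intro t ht ht'
    linarith [ht.1, ht'.2]
  intro i hi j hj hij
  rw [Finset.mem_range] at hi hj
  rcases lt_or_gt_of_ne hij with h | h
  · exact key i j h hj
  · exact (key j i h hi).symm

theorem gam_zero (hρ : ∀ j < m, 0 ≤ ρ (j + 1) ∧ ρ (j + 1) < ρ j) (hm : 1 ≤ m) {t : ℝ}
    (ht : (ρ 0) ^ 2 ≤ t) : gam N m ρ κ t = 0 := by
  unfold gam
  refine stp_zero fun k hk h => ?_
  rw [Finset.mem_range] at hk
  have h1 : ρ k ≤ ρ 0 := anti_of hρ (by omega) (by omega)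
  have h2 : ρ k ^ 2 ≤ ρ 0 ^ 2 := pow_le_pow_left₀ (nn_of hρ hm (by omega)) h1 2
  linarith [h.2]

theorem gam_int {j : ℕ} (hρ : ∀ j < m, 0 ≤ ρ (j + 1) ∧ ρ (j + 1) < ρ j) (hm : 1 ≤ m)
    (hj : j < m) {p : ℝ} (hp : (ρ (j + 1)) ^ 2 ≤ p) (hp' : p ≤ (ρ j) ^ 2) :
    ∫ t in p..((ρ j) ^ 2), gam N m ρ κ t = κ j * ((ρ j) ^ 2 - p) / (2 * N) := by
  have : ∫ t in p..((ρ j) ^ 2), gam N m ρ κ t = ∫ t in p..((ρ j) ^ 2), κ j / (2 * N) := by
    refine intervalIntegral.integral_congr_ae ?_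
    filter_upwards [compl_mem_ae_iff.2 (measure_singleton ((ρ j) ^ 2) : volume _ = 0)] with t ht ht'
    rw [uIoc_of_le hp'] at ht'
    refine stp_val (gam_disj hρ hm) (Finset.mem_range.2 hj) ⟨hp.trans ht'.1.le, ?_⟩
    exact lt_of_le_of_ne ht'.2 ht
  rw [this, intervalIntegral.integral_const, smul_eq_mul]
  ring

theorem radial_seq (hN : 1 ≤ N) (hm : 1 ≤ m) {Λ r : ℝ} (hΛ0 : 0 ≤ Λ)
    (hρ : ∀ j < m, 0 ≤ ρ (j + 1) ∧ ρ (j + 1) < ρ j) (hρm : ρ m = 0) (hκ : ∀ j < m, 0 ≤ κ j)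
    (hρr : ρ 0 ≤ r)
    (hΛ : ∀ v : E N → ℝ, ContDiff ℝ 1 v → HasCompactSupport v → tsupport v ⊆ ball 0 r →
      Λ * (∫ x, v x ^ 2) ≤ dir v) :
    Λ * ∑ j ∈ Finset.range m, 2 * vv N ρ κ j * (κ j * (TB N (ρ j) - TB N (ρ (j + 1)))) ≤
      ∑ j ∈ Finset.range m, κ j ^ 2 * (TB N (ρ j) - TB N (ρ (j + 1))) := by
  have hN0 : (0 : ℝ) < N := by exact_mod_cast hN
  have hom := om_pos N
  have h00 : 0 < ρ 0 := ((hρ 0 hm).1).trans_lt (hρ 0 hm).2
  have hc0 : ∀ k ∈ Finset.range m, 0 ≤ κ k / (2 * N) := fun k hk =>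
    div_nonneg (hκ k (Finset.mem_range.1 hk)) (by positivity)
  set γ := gam N m ρ κ with hγ
  have gm : Measurable γ := stp_meas (fun k => measurableSet_Ico) _ _
  have g0 : ∀ t, 0 ≤ γ t := stp_nonneg hc0
  have gK : ∀ t, γ t ≤ ∑ k ∈ Finset.range m, κ k / (2 * N) := stp_le hc0
  have hii := ii gm g0 gK
  have key := radial (Λ := Λ) h00 hρr gm g0 gK (fun t ht => gam_zero hρ hm ht)
    (fun x => stp_right (q := fun k => (ρ k) ^ 2) _ _ x) hΛ
  have dj := gam_disj hρ hm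
  -- values of the inner integral
  have hvj : ∀ j ≤ m, ∫ t in ((ρ j) ^ 2)..((ρ 0) ^ 2), γ t = vv N ρ κ j := by
    intro j hj
    induction j with
    | zero => simp [vv]
    | succ j ih =>
      rw [← intervalIntegral.integral_add_adjacent_intervals (hii _ ((ρ j) ^ 2)) (hii _ _),
        ih (by omega), gam_int hρ hm (by omega) le_rfl
          (pow_le_pow_left₀ (hρ j (by omega)).1 (hρ j (by omega)).2.le 2)]
      unfold vv
      rw [Finset.sum_range_succ]; ring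
  have hvx : ∀ j < m, ∀ x, ρ (j + 1) ≤ x → x ≤ ρ j →
      ∫ t in (x ^ 2)..((ρ 0) ^ 2), γ t = vv N ρ κ j + κ j * ((ρ j) ^ 2 - x ^ 2) / (2 * N) := by
    intro j hj x hx1 hx2
    have hx0 : 0 ≤ x := (hρ j hj).1.trans hx1
    rw [← intervalIntegral.integral_add_adjacent_intervals (hii _ ((ρ j) ^ 2)) (hii _ _),
      hvj j (by omega), gam_int hρ hm hj (pow_le_pow_left₀ (hρ j hj).1 hx1 2)
        (pow_le_pow_left₀ hx0 hx2 2)]
    ring
  have hvn : ∀ j ≤ m, 0 ≤ vv N ρ κ j := by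
    intro j hj
    refine Finset.sum_nonneg fun i hi => ?_
    rw [Finset.mem_range] at hi
    have h1 := hκ i (by omega)
    have h2 : 0 ≤ (ρ i) ^ 2 - (ρ (i + 1)) ^ 2 :=
      sub_nonneg.2 (pow_le_pow_left₀ (hρ i (by omega)).1 (hρ i (by omega)).2.le 2)
    positivity
  -- left side
  have hF1c : Continuous fun x : ℝ => x ^ (N - 1) * (∫ t in (x ^ 2)..((ρ 0) ^ 2), γ t) ^ 2 := by
    have h1 : Continuous fun x : ℝ => ∫ t in (x ^ 2)..((ρ 0) ^ 2), γ t := by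
      have h2 : Continuous fun s => ∫ t in ((ρ 0) ^ 2)..s, γ t :=
        intervalIntegral.continuous_primitive (fun a b => hii a b) _
      have h3 : (fun x : ℝ => ∫ t in (x ^ 2)..((ρ 0) ^ 2), γ t) =
          fun x => -(∫ t in ((ρ 0) ^ 2)..(x ^ 2), γ t) := by
        funext x; rw [intervalIntegral.integral_symm]
      rw [h3]
      exact (h2.comp (continuous_pow 2)).neg
    fun_prop
  have eL : ∫ y : E N, (∫ t in (‖y‖ ^ 2)..((ρ 0) ^ 2), γ t) ^ 2 =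
      N * om N * ∑ j ∈ Finset.range m, ∫ x in (ρ (j + 1))..(ρ j),
        x ^ (N - 1) * (∫ t in (x ^ 2)..((ρ 0) ^ 2), γ t) ^ 2 := by
    rw [polar hN (fun x => (∫ t in (x ^ 2)..((ρ 0) ^ 2), γ t) ^ 2) h00.le, ← hρm,
      sum_int (fun a b => hF1c.intervalIntegrable a b)]
    intro x hx
    have : ∫ t in (x ^ 2)..((ρ 0) ^ 2), γ t = ∫ t in (x ^ 2)..((ρ 0) ^ 2), (0 : ℝ) := by
      have h1 : (ρ 0) ^ 2 ≤ x ^ 2 := pow_le_pow_left₀ h00.le hx.le 2
      refine intervalIntegral.integral_congr fun t ht => ?_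
      rw [uIcc_of_ge h1] at ht
      exact gam_zero hρ hm ht.1
    rw [this]; simp
  have bL : ∑ j ∈ Finset.range m, 2 * vv N ρ κ j * (κ j * (TB N (ρ j) - TB N (ρ (j + 1)))) ≤
      ∫ y : E N, (∫ t in (‖y‖ ^ 2)..((ρ 0) ^ 2), γ t) ^ 2 := by
    rw [eL, Finset.mul_sum]
    have tel : ∑ j ∈ Finset.range m, (om N * ((ρ j) ^ N * vv N ρ κ j ^ 2) -
        om N * ((ρ (j + 1)) ^ N * vv N ρ κ (j + 1) ^ 2)) = 0 := by
      rw [Finset.sum_range_sub' (fun j => om N * ((ρ j) ^ N * vv N ρ κ j ^ 2)), hρm,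
        zero_pow (by omega)]
      simp [vv]
    rw [← zero_add (∑ j ∈ Finset.range m, 2 * vv N ρ κ j *
      (κ j * (TB N (ρ j) - TB N (ρ (j + 1))))), ← tel, ← Finset.sum_add_distrib]
    refine Finset.sum_le_sum fun j hj => ?_
    rw [Finset.mem_range] at hj
    have e1 : ∫ x in (ρ (j + 1))..(ρ j), x ^ (N - 1) * (∫ t in (x ^ 2)..((ρ 0) ^ 2), γ t) ^ 2 =
        ∫ x in (ρ (j + 1))..(ρ j), x ^ (N - 1) *
          (vv N ρ κ j + κ j * ((ρ j) ^ 2 - x ^ 2) / (2 * N)) ^ 2 := by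
      refine intervalIntegral.integral_congr fun x hx => ?_
      rw [uIcc_of_le (hρ j hj).2.le] at hx
      rw [hvx j hj x hx.1 hx.2]
    have e2 := ann hN (hρ j hj).1 (hρ j hj).2.le (hκ j hj) (hvn j hj.le)
    have e3 : ∫ x in (ρ (j + 1))..(ρ j), (N : ℝ) * x ^ (N - 1) *
        (vv N ρ κ j + κ j * ((ρ j) ^ 2 - x ^ 2) / (2 * N)) ^ 2 =
        (N : ℝ) * ∫ x in (ρ (j + 1))..(ρ j), x ^ (N - 1) *
          (vv N ρ κ j + κ j * ((ρ j) ^ 2 - x ^ 2) / (2 * N)) ^ 2 := by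
      rw [← intervalIntegral.integral_const_mul]
      refine intervalIntegral.integral_congr fun x _ => ?_
      ring
    have e4 : vv N ρ κ (j + 1) = vv N ρ κ j +
        κ j * ((ρ j) ^ 2 - (ρ (j + 1)) ^ 2) / (2 * N) := by
      unfold vv; rw [Finset.sum_range_succ]
    rw [e1, e4]
    rw [e3] at e2
    have e5 := mul_le_mul_of_nonneg_left e2 hom.le
    have e6 : 2 * vv N ρ κ j * (κ j * (TB N (ρ j) - TB N (ρ (j + 1)))) =
        om N * (2 * vv N ρ κ j * κ j * ((ρ j) ^ (N + 2) - (ρ (j + 1)) ^ (N + 2)) /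
          (N * (N + 2))) := by
      unfold TB; field_simp
    rw [e6]
    linarith
  -- right side
  have gsq : ∀ a b, IntervalIntegrable (fun x : ℝ => x ^ (N - 1) * (4 * (γ (x ^ 2)) ^ 2 * x ^ 2))
      volume a b := by
    intro a b
    have h1 : Measurable fun x : ℝ => (γ (x ^ 2)) ^ 2 := (gm.comp (measurable_id.pow_const 2)).pow_const 2
    have h2 := ii (η := fun x : ℝ => (γ (x ^ 2)) ^ 2) h1 (fun t => sq_nonneg _)
      (fun t => pow_le_pow_left₀ (g0 _) (gK _) 2) a b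
    have h3 := h2.mul_continuousOn (g := fun x : ℝ => 4 * x ^ 2 * x ^ (N - 1))
      (by fun_prop : Continuous fun x : ℝ => 4 * x ^ 2 * x ^ (N - 1)).continuousOn
    refine h3.congr ?_
    intro x _
    simp only; ring
  have eR : ∫ y : E N, 4 * (γ (‖y‖ ^ 2)) ^ 2 * ‖y‖ ^ 2 =
      ∑ j ∈ Finset.range m, κ j ^ 2 * (TB N (ρ j) - TB N (ρ (j + 1))) := by
    rw [polar hN (fun x => 4 * (γ (x ^ 2)) ^ 2 * x ^ 2) h00.le, ← hρm, sum_int gsq, Finset.mul_sum]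
    · refine Finset.sum_congr rfl fun j hj => ?_
      rw [Finset.mem_range] at hj
      have e1 : ∫ x in (ρ (j + 1))..(ρ j), x ^ (N - 1) * (4 * (γ (x ^ 2)) ^ 2 * x ^ 2) =
          ∫ x in (ρ (j + 1))..(ρ j), κ j ^ 2 / N ^ 2 * x ^ (N + 1) := by
        refine intervalIntegral.integral_congr_ae ?_
        filter_upwards [compl_mem_ae_iff.2 (measure_singleton (ρ j) : volume _ = 0)]
          with x hx hx'
        rw [uIoc_of_le (hρ j hj).2.le] at hx'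
        have hx0 : 0 ≤ x := (hρ j hj).1.trans hx'.1.le
        have h1 : γ (x ^ 2) = κ j / (2 * N) := by
          refine stp_val dj (Finset.mem_range.2 hj) ⟨?_, ?_⟩
          · exact pow_le_pow_left₀ (hρ j hj).1 hx'.1.le 2
          · exact pow_lt_pow_left₀ (lt_of_le_of_ne hx'.2 hx) hx0 (by norm_num)
        rw [h1]
        have h2 : x ^ (N + 1) = x ^ (N - 1) * x ^ 2 := by
          rw [← pow_add]; congr 1; omega
        rw [h2]; field_simp; ring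
      rw [e1, intervalIntegral.integral_const_mul, int_pow_pow]
      unfold TB
      field_simp
    · intro x hx
      have h1 : (ρ 0) ^ 2 ≤ x ^ 2 := pow_le_pow_left₀ h00.le hx.le 2
      have h2 : γ (x ^ 2) = 0 := gam_zero hρ hm h1
      rw [h2]; ring
  rw [eR] at key
  exact (mul_le_mul_of_nonneg_left bL hΛ0).trans key

end Pool.Agent.Helper79.KJ
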