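import Pool.Agent.Helper79.KJ4

/-!
# Kohler-Jobin inequality, part 5: discrete algebra and the truncations
-/

open MeasureTheory Metric Set Filter Topology
open scoped ENNReal

namespace Pool.Agent.Helper79.KJ

open Pool.Agent.Helper71.FK

/-- the algebra of the comparison -/
theorem alg {N m : ℕ} (hN : 1 ≤ N) {h : ℝ} (hh : 0 < h) {μ a b ρ : ℕ → ℝ}
    (hμ : ∀ j < m, 0 < μ j) (hμa : ∀ j < m, μ (j + 1) ≤ μ j)
    (hb : ∀ j < m, 0 < b j) (ha : ∀ j < m, 0 < a j) (hb1 : ∀ j < m, h * μ (j + 1) ≤ b j)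
    (hb2 : ∀ j < m, b j ≤ h * μ j) (hρ : ∀ j < m, 0 ≤ ρ (j + 1) ∧ ρ (j + 1) < ρ j)
    (hT : ∀ j < m, TB N (ρ j) - TB N (ρ (j + 1)) = b j ^ 2 / a j)
    (hρμ : ∀ j < m, om N * ρ j ^ N ≤ μ j) :
    ∑ j ∈ Finset.range m, 2 * (((j : ℝ) + 1) * h) * b j - 2 * h * ∑ j ∈ Finset.range m, b j -
      2 * h * (m * h) * μ 0 ≤
      ∑ j ∈ Finset.range m, 2 * vv N ρ (fun k => a k / b k) j * b j := by
  have hN0 : (0 : ℝ) < N := by exact_mod_cast hN
  have hom := om_pos N
  -- one step
  have step : ∀ j < m, b j / μ j ≤ a j / b j * ((ρ j) ^ 2 - (ρ (j + 1)) ^ 2) / (2 * N) := by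
    intro j hj
    have h1 := young (N := N) (hρ j hj).1 (hρ j hj).2.le
    have h2 : om N * (ρ j ^ (N + 2) - ρ (j + 1) ^ (N + 2)) = N * (N + 2) * (b j ^ 2 / a j) := by
      rw [← hT j hj]; unfold TB; field_simp
    have h3 : 0 ≤ ρ j ^ 2 - ρ (j + 1) ^ 2 :=
      sub_nonneg.2 (pow_le_pow_left₀ (hρ j hj).1 (hρ j hj).2.le 2)
    have h4 := mul_le_mul_of_nonneg_left h1 hom.le
    have h5 : om N * ρ j ^ N * (ρ j ^ 2 - ρ (j + 1) ^ 2) ≤ μ j * (ρ j ^ 2 - ρ (j + 1) ^ 2) :=
      mul_le_mul_of_nonneg_right (hρμ j hj) h3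
    have h6 : 2 * (N : ℝ) * (b j ^ 2 / a j) ≤ μ j * (ρ j ^ 2 - ρ (j + 1) ^ 2) := by
      have hp : (0 : ℝ) < N + 2 := by positivity
      nlinarith
    have hbj := hb j hj
    have haj := ha j hj
    have hμj := hμ j hj
    rw [div_le_div_iff₀ hμj (by positivity)]
    have h7 : b j * (2 * N) = (2 * N * (b j ^ 2 / a j)) * (a j / b j) := by
      field_simp
    rw [h7]
    calc (2 * N * (b j ^ 2 / a j)) * (a j / b j) ≤
        (μ j * (ρ j ^ 2 - ρ (j + 1) ^ 2)) * (a j / b j) :=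
          mul_le_mul_of_nonneg_right h6 (by positivity)
      _ = _ := by ring
  have μ0 : ∀ j ≤ m, μ j ≤ μ 0 := by
    intro j hj
    induction j with
    | zero => exact le_rfl
    | succ j ih => exact (hμa j hj).trans (ih (by omega))
  have hV : ∀ j < m, (j : ℝ) * h - h * μ 0 / μ j ≤ vv N ρ (fun k => a k / b k) j := by
    intro j hj
    induction j with
    | zero =>
      have := hμ 0 hj
      simp only [vv, Finset.range_zero, Finset.sum_empty, CharP.cast_eq_zero, zero_mul]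
      have : 0 ≤ h * μ 0 / μ 0 := by positivity
      linarith
    | succ j ih =>
      have ih' := ih (by omega)
      have hs := step j (by omega)
      have e : vv N ρ (fun k => a k / b k) (j + 1) = vv N ρ (fun k => a k / b k) j +
          a j / b j * ((ρ j) ^ 2 - (ρ (j + 1)) ^ 2) / (2 * N) := by
        unfold vv; rw [Finset.sum_range_succ]
      rw [e]
      have h1 : h * μ (j + 1) / μ j ≤ b j / μ j :=
        div_le_div_of_nonneg_right (hb1 j (by omega)) (hμ j (by omega)).le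
      have p0 := hμ j (by omega)
      have p1 := hμ (j + 1) hj
      have p2 := μ0 (j + 1) hj.le
      have p3 := hμa j (by omega)
      have h2 : (h : ℝ) * μ 0 / μ j + (h - h * μ (j + 1) / μ j) ≤ h * μ 0 / μ (j + 1) := by
        rw [← sub_nonneg]
        have : h * μ 0 / μ (j + 1) - (h * μ 0 / μ j + (h - h * μ (j + 1) / μ j)) =
            h * (μ j - μ (j + 1)) * (μ 0 - μ (j + 1)) / (μ j * μ (j + 1)) := by
          field_simp
          ring
        rw [this]
        have q1 : 0 ≤ μ j - μ (j + 1) := by linarith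
        have q2 : 0 ≤ μ 0 - μ (j + 1) := by linarith
        positivity
      push_cast
      linarith
  have hf : ∀ j ∈ Finset.range m, 2 * (((j : ℝ) + 1) * h) * b j - 2 * h * b j - 2 * h * h * μ 0 ≤
      2 * vv N ρ (fun k => a k / b k) j * b j := by
    intro j hj
    rw [Finset.mem_range] at hj
    have h1 := mul_le_mul_of_nonneg_right (hV j hj) (hb j hj).le
    have h2 : h * μ 0 / μ j * b j ≤ h * μ 0 * h := by
      have p0 := hμ j hj
      have p1 := hb2 j hj
      have p2 : 0 ≤ μ 0 := (p0.le).trans (μ0 j hj.le)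
      calc h * μ 0 / μ j * b j ≤ h * μ 0 / μ j * (h * μ j) :=
            mul_le_mul_of_nonneg_left p1 (by positivity)
        _ = h * μ 0 * h := by field_simp
    nlinarith
  have := Finset.sum_le_sum hf
  rw [Finset.sum_sub_distrib, Finset.sum_sub_distrib, ← Finset.mul_sum, Finset.sum_const,
    Finset.card_range, nsmul_eq_mul] at this
  linarith

/-! ## truncations -/

/-- truncation between two levels -/
noncomputable def cl (s : ℕ → ℝ) (k : ℕ) (x : ℝ) : ℝ := min x (s (k + 1)) - min x (s k)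

theorem cl_cont (s : ℕ → ℝ) (k : ℕ) : Continuous (cl s k) := by unfold cl; fun_prop

theorem cl_nonneg {s : ℕ → ℝ} (hs : Monotone s) (k : ℕ) (x : ℝ) : 0 ≤ cl s k x :=
  sub_nonneg.2 (min_le_min_left _ (hs (Nat.le_succ k)))

theorem cl_le {s : ℕ → ℝ} (hs : Monotone s) (k : ℕ) (x : ℝ) :
    cl s k x ≤ (Ioi (s k)).indicator (fun _ => s (k + 1) - s k) x := by
  have h := hs (Nat.le_succ k)
  by_cases hx : x ∈ Ioi (s k)
  · rw [indicator_of_mem hx]; unfold cl
    have hx' : s k ≤ x := le_of_lt hx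
    rw [min_eq_right hx']
    linarith [min_le_right x (s (k + 1))]
  · rw [indicator_of_notMem hx]; unfold cl
    simp only [mem_Ioi, not_lt] at hx
    rw [min_eq_left hx, min_eq_left (hx.trans h)]; simp

theorem le_cl {s : ℕ → ℝ} (hs : Monotone s) (k : ℕ) (x : ℝ) :
    (Ioi (s (k + 1))).indicator (fun _ => s (k + 1) - s k) x ≤ cl s k x := by
  have h := hs (Nat.le_succ k)
  by_cases hx : x ∈ Ioi (s (k + 1))
  · rw [indicator_of_mem hx]; unfold cl
    rw [min_eq_right (le_of_lt hx), min_eq_right (h.trans (le_of_lt hx))]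
  · rw [indicator_of_notMem hx]; exact cl_nonneg hs k x

theorem cl_sum (s : ℕ → ℝ) (m : ℕ) (x : ℝ) :
    ∑ k ∈ Finset.range m, cl s k x = min x (s m) - min x (s 0) := by
  unfold cl
  rw [Finset.sum_range_sub (fun k => min x (s k))]

theorem cl_sq {s : ℕ → ℝ} (hs : Monotone s) (h0 : s 0 = 0) (m : ℕ) {x : ℝ} (hx : 0 ≤ x) :
    (min x (s m)) ^ 2 ≤ ∑ k ∈ Finset.range m, 2 * s (k + 1) * cl s k x := by
  induction m with
  | zero => simp [h0, hx]
  | succ m ih =>
    rw [Finset.sum_range_succ]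
    have h1 : 0 ≤ s m := by rw [← h0]; exact hs (Nat.zero_le m)
    have h3 : 0 ≤ s (m + 1) := h1.trans (hs (Nat.le_succ m))
    have h2 : (min x (s (m + 1))) ^ 2 - (min x (s m)) ^ 2 ≤ 2 * s (m + 1) * cl s m x := by
      have e : (min x (s (m + 1))) ^ 2 - (min x (s m)) ^ 2 =
          (min x (s (m + 1)) + min x (s m)) * cl s m x := by unfold cl; ring
      rw [e]
      refine mul_le_mul_of_nonneg_right ?_ (cl_nonneg hs m x)
      have a1 := min_le_right x (s (m + 1))
      have a2 := (min_le_right x (s m)).trans (hs (Nat.le_succ m))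
      simp only [Nat.succ_eq_add_one] at a2
      linarith
    linarith

theorem int_ind {p q x c : ℝ} (hp : 0 ≤ p) (hpq : p ≤ q) (hx : 0 ≤ x) :
    ∫ t in (0 : ℝ)..x, (Ioc p q).indicator (fun _ => c) t = c * (min x q - min x p) := by
  rw [intervalIntegral.integral_of_le hx, setIntegral_indicator measurableSet_Ioc,
    setIntegral_const, smul_eq_mul]
  have : Ioc (0 : ℝ) x ∩ Ioc p q = Ioc p (min x q) := by
    ext t
    simp only [mem_inter_iff, mem_Ioc, le_min_iff]
    constructor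
    · rintro ⟨⟨_, a⟩, b, c⟩; exact ⟨b, a, c⟩
    · rintro ⟨b, a, c⟩; exact ⟨⟨hp.trans_lt b, a⟩, b, c⟩
  rw [this, measureReal_def, Real.volume_Ioc, mul_comm]
  congr 1
  rcases le_total p x with h | h
  · rw [min_eq_right h, ENNReal.toReal_ofReal]
    exact sub_nonneg.2 (le_min h hpq)
  · rw [min_eq_left h, min_eq_left (h.trans hpq), ENNReal.ofReal_of_nonpos (by linarith)]
    simp

theorem int_stp {s : ℕ → ℝ} (hs : Monotone s) (h0 : 0 ≤ s 0) (c : ℕ → ℝ) (F : Finset ℕ) {x : ℝ}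
    (hx : 0 ≤ x) : ∫ t in (0 : ℝ)..x, stp (fun k => Ioc (s k) (s (k + 1))) c F t =
      ∑ k ∈ F, c k * cl s k x := by
  unfold stp
  rw [intervalIntegral.integral_finsetSum]
  · refine Finset.sum_congr rfl fun k _ => ?_
    rw [int_ind (h0.trans (hs (Nat.zero_le k))) (hs (Nat.le_succ k)) hx]
    rfl
  · intro k _
    rw [intervalIntegrable_iff_integrableOn_Ioc_of_le hx]
    exact (integrableOn_const (by simp)).indicator measurableSet_Ioc

theorem Ioc_disj {s : ℕ → ℝ} (hs : Monotone s) (F : Finset ℕ) :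
    ∀ i ∈ F, ∀ j ∈ F, i ≠ j → Disjoint (Ioc (s i) (s (i + 1))) (Ioc (s j) (s (j + 1))) := by
  have key : ∀ i j, i < j → Disjoint (Ioc (s i) (s (i + 1))) (Ioc (s j) (s (j + 1))) := by
    intro i j hij
    rw [Set.disjoint_left]
    intro t ht ht'
    have := hs (Nat.succ_le_of_lt hij)
    simp only [Nat.succ_eq_add_one] at this
    linarith [ht.2, ht'.1]
  intro i _ j _ hij
  rcases lt_or_gt_of_ne hij with h | h
  · exact key i j h
  · exact (key j i h).symm

variable {N : ℕ}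

/-- volume of super level integrals -/
noncomputable def bb (u : E N → ℝ) (s : ℕ → ℝ) (k : ℕ) : ℝ := ∫ x, cl s k (u x)

/-- energy between two levels -/
noncomputable def aE (u : E N → ℝ) (s : ℕ → ℝ) (k : ℕ) : ℝ :=
  ∫ x, (Ioc (s k) (s (k + 1))).indicator (fun _ => (1 : ℝ)) (u x) * ‖fderiv ℝ u x‖ ^ 2

theorem cl_int {u : E N → ℝ} (hu : Continuous u) (hc : HasCompactSupport u) {s : ℕ → ℝ}
    (hs : Monotone s) (h0 : 0 ≤ s 0) (k : ℕ) :
    Continuous (fun x => cl s k (u x)) ∧ HasCompactSupport (fun x => cl s k (u x)) ∧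
      Integrable (fun x => cl s k (u x)) := by
  have h1 : Continuous (fun x => cl s k (u x)) := (cl_cont s k).comp hu
  have h2 : HasCompactSupport (fun x => cl s k (u x)) := by
    refine hc.comp_left (g := cl s k) ?_
    unfold cl
    rw [min_eq_left (h0.trans (hs (Nat.zero_le _))), min_eq_left (h0.trans (hs (Nat.zero_le _)))]
    simp
  exact ⟨h1, h2, h1.integrable_of_hasCompactSupport h2⟩

theorem aE_int {u : E N → ℝ} (hu : ContDiff ℝ 1 u) (hc : HasCompactSupport u) (s : ℕ → ℝ)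
    (k : ℕ) : Integrable fun x =>
      (Ioc (s k) (s (k + 1))).indicator (fun _ => (1 : ℝ)) (u x) * ‖fderiv ℝ u x‖ ^ 2 := by
  refine (fderiv_int hu hc).bdd_mul (c := 1) ?_ ?_
  · exact ((measurable_const.indicator measurableSet_Ioc).comp
      hu.continuous.measurable).aestronglyMeasurable
  · filter_upwards with x
    rw [Real.norm_eq_abs]
    by_cases h : u x ∈ Ioc (s k) (s (k + 1))
    · rw [indicator_of_mem h]; simp
    · rw [indicator_of_notMem h]; simp

theorem aE_nonneg (u : E N → ℝ) (s : ℕ → ℝ) (k : ℕ) : 0 ≤ aE u s k :=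
  integral_nonneg fun x => mul_nonneg (indicator_nonneg (fun _ _ => zero_le_one) _) (by positivity)

theorem aE_sum {u : E N → ℝ} (hu : ContDiff ℝ 1 u) (hc : HasCompactSupport u) {s : ℕ → ℝ}
    (hs : Monotone s) (m : ℕ) : ∑ k ∈ Finset.range m, aE u s k ≤ dir u := by
  unfold aE
  rw [← integral_finsetSum _ (fun k _ => aE_int hu hc s k), dir_eq]
  refine integral_mono (integrable_finsetSum _ fun k _ => aE_int hu hc s k)
    (fderiv_int hu hc) fun x => ?_
  simp only
  rw [← Finset.sum_mul]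
  refine mul_le_of_le_one_left (by positivity) ?_
  change stp (fun k => Ioc (s k) (s (k + 1))) (fun _ => 1) (Finset.range m) (u x) ≤ 1
  by_cases h : ∃ j ∈ Finset.range m, u x ∈ Ioc (s j) (s (j + 1))
  · obtain ⟨j, hj, ht⟩ := h
    rw [stp_val (Ioc_disj hs _) hj ht]
  · push Not at h
    rw [stp_zero h]; exact zero_le_one

/-- the test inequality with step slopes -/
theorem test_step {u : E N → ℝ} (hu : ContDiff ℝ 1 u) (hc : HasCompactSupport u)
    (h0 : ∀ x, 0 ≤ u x) {s : ℕ → ℝ} (hs : Monotone s) (hs0 : 0 ≤ s 0) (j m : ℕ) {c : ℕ → ℝ}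
    (hcn : ∀ k, 0 ≤ c k) {T : ℝ}
    (hT : ∀ φ : E N → ℝ, ContDiff ℝ 1 φ → HasCompactSupport φ → tsupport φ ⊆ {x | s j < u x} →
      tsupport φ ⊆ tsupport u → (∀ x, 0 ≤ φ x) → J φ ≤ T) :
    2 * (∑ k ∈ Finset.Ico j m, c k * bb u s k) - ∑ k ∈ Finset.Ico j m, c k ^ 2 * aE u s k ≤ T := by
  set η := stp (fun k => Ioc (s k) (s (k + 1))) c (Finset.Ico j m) with hη
  have key := test_sub hu hc h0 (η := η) (K := ∑ k ∈ Finset.Ico j m, c k)
    (hs0.trans (hs (Nat.zero_le j)))
    (stp_meas (fun _ => measurableSet_Ioc) _ _) (stp_nonneg fun k _ => hcn k)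
    (stp_le fun k _ => hcn k)
    (fun t ht => stp_zero fun k hk h => by
      have h1 : s j ≤ s k := hs (Finset.mem_Ico.1 hk).1
      linarith [h.1]) (stp_left c _) hT
  have e1 : ∫ x, ∫ t in (0 : ℝ)..(u x), η t = ∑ k ∈ Finset.Ico j m, c k * bb u s k := by
    have : ∀ x, ∫ t in (0 : ℝ)..(u x), η t = ∑ k ∈ Finset.Ico j m, c k * cl s k (u x) :=
      fun x => int_stp hs hs0 c _ (h0 x)
    simp_rw [this]
    rw [integral_finsetSum _ fun k _ => ((cl_int hu.continuous hc hs hs0 k).2.2.const_mul _)]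
    refine Finset.sum_congr rfl fun k _ => ?_
    rw [integral_const_mul]; rfl
  have e2 : ∫ x, (η (u x)) ^ 2 * ‖fderiv ℝ u x‖ ^ 2 =
      ∑ k ∈ Finset.Ico j m, c k ^ 2 * aE u s k := by
    have : ∀ x, (η (u x)) ^ 2 * ‖fderiv ℝ u x‖ ^ 2 = ∑ k ∈ Finset.Ico j m, c k ^ 2 *
        ((Ioc (s k) (s (k + 1))).indicator (fun _ => (1 : ℝ)) (u x) * ‖fderiv ℝ u x‖ ^ 2) := by
      intro x
      rw [hη, stp_sq (Ioc_disj hs _)]
      unfold stp
      rw [Finset.sum_mul]
      refine Finset.sum_congr rfl fun k _ => ?_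
      by_cases h : u x ∈ Ioc (s k) (s (k + 1))
      · rw [indicator_of_mem h, indicator_of_mem h]; ring
      · rw [indicator_of_notMem h, indicator_of_notMem h]; ring
    simp_rw [this]
    rw [integral_finsetSum _ fun k _ => ((aE_int hu hc s k).const_mul _)]
    refine Finset.sum_congr rfl fun k _ => ?_
    rw [integral_const_mul]; rfl
  rw [e1, e2] at key
  exact key

end Pool.Agent.Helper79.KJ
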