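import Mathlib

set_option autoImplicit false

namespace Pool.Agent.Helper79.Tub

/-- Generators of the group. -/
inductive Gen : Type
  | a : Gen
  | b : Gen
  | t : Bool → Gen

/-- The sign attached to a stable letter. -/
def sg : Bool → ℤ
  | true => 1
  | false => -1

/-- Defining relators. -/
def rels : Set (FreeGroup Gen) :=
  {w | w = FreeGroup.of Gen.a * FreeGroup.of Gen.b *
        (FreeGroup.of Gen.a)⁻¹ * (FreeGroup.of Gen.b)⁻¹} ∪
  {w | ∃ i : Bool, w = FreeGroup.of (Gen.t i) * FreeGroup.of Gen.a * (FreeGroup.of (Gen.t i))⁻¹ *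
        (FreeGroup.of Gen.a ^ (2 : ℤ) * FreeGroup.of Gen.b ^ (sg i))⁻¹}

/-- The tubular group. -/
abbrev G : Type := PresentedGroup rels

def ga : G := PresentedGroup.of Gen.a
def gb : G := PresentedGroup.of Gen.b
def gt (i : Bool) : G := PresentedGroup.of (Gen.t i)

/-- Elements of the base group. -/
def ab (x : ℤ × ℤ) : G := ga ^ x.1 * gb ^ x.2

/-- The exponent vector of the image of `a` under the stable letter `i`. -/
def vv (i : Bool) : ℤ × ℤ := (2, sg i)

lemma comm_ab : ga * gb = gb * ga := by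
  have h : PresentedGroup.mk rels (FreeGroup.of Gen.a * FreeGroup.of Gen.b *
        (FreeGroup.of Gen.a)⁻¹ * (FreeGroup.of Gen.b)⁻¹) = 1 :=
    PresentedGroup.one_of_mem (Or.inl rfl)
  have h2 : ga * gb * ga⁻¹ * gb⁻¹ = 1 := h
  rw [mul_inv_eq_one, mul_inv_eq_iff_eq_mul] at h2
  exact h2

lemma conj_t (i : Bool) : gt i * ga * (gt i)⁻¹ = ga ^ (2 : ℤ) * gb ^ (sg i) := by
  have h : PresentedGroup.mk rels (FreeGroup.of (Gen.t i) * FreeGroup.of Gen.a *
        (FreeGroup.of (Gen.t i))⁻¹ *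
        (FreeGroup.of Gen.a ^ (2 : ℤ) * FreeGroup.of Gen.b ^ (sg i))⁻¹) = 1 :=
    PresentedGroup.one_of_mem (Or.inr ⟨i, rfl⟩)
  have h2 : gt i * ga * (gt i)⁻¹ * (ga ^ (2 : ℤ) * gb ^ (sg i))⁻¹ = 1 := by
    simpa [gt, ga, gb, PresentedGroup.of] using h
  rwa [mul_inv_eq_one] at h2

lemma conj_t' (i : Bool) : gt i * ga = ab (vv i) * gt i := by
  have := conj_t i
  rw [mul_inv_eq_iff_eq_mul] at this
  exact this

section lift
variable {H : Type*} [Group H]

/-- The universal property. -/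
def lift (A B : H) (T : Bool → H) (hAB : A * B = B * A)
    (hT : ∀ i, T i * A * (T i)⁻¹ = A ^ (2 : ℤ) * B ^ (sg i)) : G →* H :=
  PresentedGroup.toGroup (rels := rels) (f := fun g => match g with
    | Gen.a => A
    | Gen.b => B
    | Gen.t i => T i) (by
    rintro r (hr | ⟨i, hr⟩)
    · rw [Set.mem_ofPred_eq] at hr
      subst hr
      simp [hAB]
    · subst hr
      simp only [map_mul, FreeGroup.lift_apply_of, map_inv, map_zpow]
      rw [mul_inv_eq_one]
      exact hT i)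

variable (A B : H) (T : Bool → H) (hAB : A * B = B * A)
    (hT : ∀ i, T i * A * (T i)⁻¹ = A ^ (2 : ℤ) * B ^ (sg i))

@[simp] lemma lift_ga : lift A B T hAB hT ga = A := by
  simp [lift, ga]
@[simp] lemma lift_gb : lift A B T hAB hT gb = B := by
  simp [lift, gb]
@[simp] lemma lift_gt (i : Bool) : lift A B T hAB hT (gt i) = T i := by
  simp [lift, gt]

end lift

lemma ab_add (x y : ℤ × ℤ) : ab (x + y) = ab x * ab y := by
  have hc : Commute ga gb := comm_ab
  simp only [ab, Prod.fst_add, Prod.snd_add, zpow_add]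
  have h : Commute (gb ^ x.2) (ga ^ y.1) := (hc.symm.zpow_zpow _ _)
  calc ga ^ x.1 * ga ^ y.1 * (gb ^ x.2 * gb ^ y.2) = ga ^ x.1 * (ga ^ y.1 * gb ^ x.2) * gb ^ y.2 := by
        group
    _ = ga ^ x.1 * (gb ^ x.2 * ga ^ y.1) * gb ^ y.2 := by rw [h.eq]
    _ = _ := by group

@[simp] lemma ab_zero : ab 0 = 1 := by simp [ab]

/-- The base homomorphism. -/
def abHom : Multiplicative (ℤ × ℤ) →* G where
  toFun x := ab (Multiplicative.toAdd x)
  map_one' := ab_zero
  map_mul' x y := ab_add _ _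

lemma ab_neg (x : ℤ × ℤ) : ab (-x) = (ab x)⁻¹ := by
  have := map_inv abHom (Multiplicative.ofAdd x)
  exact this

lemma ab_sub (x y : ℤ × ℤ) : ab (x - y) = ab x * (ab y)⁻¹ := by
  rw [sub_eq_add_neg, ab_add, ab_neg]

lemma ab_zsmul (n : ℤ) (x : ℤ × ℤ) : ab (n • x) = (ab x) ^ n := by
  have := map_zpow abHom (Multiplicative.ofAdd x) n
  exact this

lemma ga_eq : ga = ab (1, 0) := by simp [ab]
lemma gb_eq : gb = ab (0, 1) := by simp [ab]

/-- The vertex group. -/
def A : Subgroup G := abHom.range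

lemma ab_mem (x : ℤ × ℤ) : ab x ∈ A := ⟨Multiplicative.ofAdd x, rfl⟩

lemma mem_A {g : G} : g ∈ A ↔ ∃ x, ab x = g := by
  constructor
  · rintro ⟨x, hx⟩
    exact ⟨Multiplicative.toAdd x, hx⟩
  · rintro ⟨x, hx⟩
    exact ⟨Multiplicative.ofAdd x, hx⟩

lemma conj_zp (i : Bool) (n : ℤ) : gt i * ga ^ n * (gt i)⁻¹ = ab (n • vv i) := by
  rw [ab_zsmul, ← conj_zpow]
  congr 1
  have := conj_t i
  rw [this]
  rfl

lemma conj_zp' (i : Bool) (n : ℤ) : (gt i)⁻¹ * ab (n • vv i) * (gt i) = ga ^ n := by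
  rw [← conj_zp]; group

/-- The exponent sum of the stable letters. -/
def sig : G →* Multiplicative ℤ :=
  lift 1 1 (fun _ => Multiplicative.ofAdd 1) rfl (by intro i; simp)

@[simp] lemma sig_ga : sig ga = 1 := by simp [sig]
@[simp] lemma sig_gb : sig gb = 1 := by simp [sig]
@[simp] lemma sig_gt (i : Bool) : sig (gt i) = Multiplicative.ofAdd 1 := by simp [sig]
@[simp] lemma sig_ab (x : ℤ × ℤ) : sig (ab x) = 1 := by simp [ab]

lemma sig_A {g : G} (hg : g ∈ A) : sig g = 1 := by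
  obtain ⟨x, rfl⟩ := mem_A.1 hg
  simp

lemma gt_not_mem (i : Bool) : gt i ∉ A := by
  intro h
  have := sig_A h
  rw [sig_gt] at this
  have h2 : (1 : ℤ) = 0 := congrArg Multiplicative.toAdd this
  norm_num at h2

end Pool.Agent.Helper79.Tub
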