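import Pool.Agent.Helper79.Tub1

set_option autoImplicit false

namespace Pool.Agent.Helper79.Tub

section deriv
variable {Q : Type*} [Group Q] (π : G →* Q) (R : Type*) [Ring R]

/-- The edge set of the quotient graph. -/
abbrev Ed : Type _ := Σ i : Bool, Q ⧸ Subgroup.zpowers (π (ab (vv i)))

/-- The base edges. -/
def e0 (i : Bool) : Ed π := ⟨i, ((1 : Q) : Q ⧸ _)⟩

/-- The edge with a given representative. -/
def ed (i : Bool) (q : Q) : Ed π := ⟨i, (q : Q ⧸ _)⟩

lemma smul_ed (i : Bool) (q q' : Q) : q • ed π i q' = ed π i (q * q') := rfl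

lemma ed_eq_iff (i : Bool) (q q' : Q) :
    ed π i q = ed π i q' ↔ q⁻¹ * q' ∈ Subgroup.zpowers (π (ab (vv i))) := by
  unfold ed
  rw [Sigma.mk.injEq]
  simp only [heq_eq_eq, true_and]
  exact QuotientGroup.eq

lemma ed_type {i j : Bool} {q q' : Q} (h : ed π i q = ed π j q') : i = j := by
  unfold ed at h
  rw [Sigma.mk.injEq] at h
  exact h.1

/-- The semidirect product receiving the derivation. -/
abbrev SD : Type _ := (Ed π → Multiplicative R) ⋊[mulAutArrow] Q

open Classical in
/-- The indicator function of an edge. -/
noncomputable def ind (e : Ed π) : Ed π → Multiplicative R :=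
  fun e' => Multiplicative.ofAdd (if e' = e then (1 : R) else 0)

open Classical in
lemma ind_apply (e e' : Ed π) : ind π R e e' = Multiplicative.ofAdd (if e' = e then (1 : R) else 0) :=
  rfl

lemma act_ind (q : Q) (e : Ed π) : (mulAutArrow q) (ind π R e) = ind π R (q • e) := by
  funext e'
  rw [mulAutArrow_apply_apply]
  change ind π R e (q⁻¹ • e') = _
  rw [ind_apply, ind_apply]
  simp only [inv_smul_eq_iff]

/-- The lifted homomorphism. -/
noncomputable def D : G →* SD π R :=
  lift (SemidirectProduct.inr (π ga)) (SemidirectProduct.inr (π gb))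
    (fun i => SemidirectProduct.inl (ind π R (e0 π i)) * SemidirectProduct.inr (π (gt i)))
    (by rw [← map_mul, ← map_mul, ← map_mul, ← map_mul, comm_ab])
    (by
      intro i
      have h1 : (SemidirectProduct.inr (π ga) : SD π R) ^ (2 : ℤ) *
          (SemidirectProduct.inr (π gb)) ^ (sg i) = SemidirectProduct.inr (π (ab (vv i))) := by
        simp only [ab, vv, map_mul, map_zpow]
      rw [h1]
      have h2 : π (gt i) * π ga = π (ab (vv i)) * π (gt i) := by
        rw [← map_mul, ← map_mul, conj_t']
      have h3 : (mulAutArrow (π (ab (vv i)))) (ind π R (e0 π i)) = ind π R (e0 π i) := by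
        rw [act_ind]
        congr 1
        change ed π i (π (ab (vv i)) * 1) = ed π i 1
        rw [ed_eq_iff]
        rw [mul_one, mul_one]
        exact Subgroup.inv_mem _ (Subgroup.mem_zpowers _)
      rw [mul_inv_eq_iff_eq_mul]
      ext1
      · simp [h3]
      · simp [h2])

@[simp] lemma D_ga : D π R ga = SemidirectProduct.inr (π ga) := by simp [D]
@[simp] lemma D_gb : D π R gb = SemidirectProduct.inr (π gb) := by simp [D]
@[simp] lemma D_gt (i : Bool) : D π R (gt i) =
    SemidirectProduct.inl (ind π R (e0 π i)) * SemidirectProduct.inr (π (gt i)) := by simp [D]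

lemma D_right (g : G) : (D π R g).right = π g := by
  have : (SemidirectProduct.rightHom.comp (D π R)) = π := by
    apply PresentedGroup.ext
    rintro (_ | _ | i)
    · change SemidirectProduct.rightHom (D π R ga) = π ga
      simp
    · change SemidirectProduct.rightHom (D π R gb) = π gb
      simp
    · change SemidirectProduct.rightHom (D π R (gt i)) = π (gt i)
      simp
  exact DFunLike.congr_fun this g

lemma D_ab (x : ℤ × ℤ) : D π R (ab x) = SemidirectProduct.inr (π (ab x)) := by
  simp [ab]

/-- The derivation. -/
noncomputable def del (g : G) : Ed π → R := fun e => Multiplicative.toAdd ((D π R g).left e)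

lemma del_mul (g h : G) : del π R (g * h) = fun e => del π R g e + del π R h ((π g)⁻¹ • e) := by
  funext e
  unfold del
  rw [map_mul, SemidirectProduct.mul_left, D_right]
  rfl

lemma del_ab (x : ℤ × ℤ) : del π R (ab x) = 0 := by
  funext e
  unfold del
  rw [D_ab]
  rfl

open Classical in
lemma del_gt (i : Bool) : del π R (gt i) = fun e => if e = e0 π i then 1 else 0 := by
  funext e
  unfold del
  rw [D_gt]
  simp [ind_apply]

@[simp] lemma del_one : del π R 1 = 0 := by
  rw [← ab_zero]; exact del_ab π R 0

lemma del_A {g : G} (hg : g ∈ A) : del π R g = 0 := by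
  obtain ⟨x, rfl⟩ := mem_A.1 hg
  exact del_ab _ _ _

lemma del_mul_A (g : G) {h : G} (hh : h ∈ A) : del π R (g * h) = del π R g := by
  rw [del_mul, del_A π R hh]; funext e; simp

open Classical in
lemma del_mul_gt (g : G) (i : Bool) :
    del π R (g * gt i) = fun e => del π R g e + if e = ed π i (π g) then 1 else 0 := by
  rw [del_mul, del_gt]
  funext e
  congr 1
  beta_reduce
  have : π g • e0 π i = ed π i (π g) := by
    change ed π i (π g * 1) = _
    rw [mul_one]
  simp only [inv_smul_eq_iff, this]

open Classical in
lemma del_mul_gt_inv (g : G) (i : Bool) :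
    del π R (g * (gt i)⁻¹) = fun e => del π R g e - if e = ed π i (π g * (π (gt i))⁻¹) then 1 else 0 := by
  have h := del_mul_gt π R (g * (gt i)⁻¹) i
  rw [inv_mul_cancel_right] at h
  rw [h]
  funext e
  simp

end deriv

end Pool.Agent.Helper79.Tub
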