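import Pool.Agent.Helper79.Tub2

set_option autoImplicit false

namespace Pool.Agent.Helper79.Tub

section cast
variable {Q : Type*} [Group Q] (π : G →* Q) (R : Type*) [Ring R]

lemma del_inv (g : G) : del π R g⁻¹ = fun e => - del π R g (π g • e) := by
  have h := del_mul π R g g⁻¹
  rw [mul_inv_cancel, del_one] at h
  funext e
  have h2 := congrFun h (π g • e)
  rw [inv_smul_smul] at h2
  have h3 : (0 : R) = del π R g (π g • e) + del π R g⁻¹ e := h2
  exact (neg_eq_of_add_eq_zero_right h3.symm).symm

lemma del_cast (g : G) : ∀ e, ((del π ℤ g e : ℤ) : R) = del π R g e := by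
  classical
  let H : Subgroup G :=
    { carrier := {g | ∀ e, ((del π ℤ g e : ℤ) : R) = del π R g e}
      one_mem' := by
        intro e
        simp
      mul_mem' := by
        intro x y hx hy e
        rw [del_mul, del_mul]
        push_cast
        rw [hx e, hy _]
      inv_mem' := by
        intro x hx e
        rw [del_inv, del_inv]
        push_cast
        rw [hx _] }
  have : g ∈ H := by
    apply PresentedGroup.generated_by rels H
    rintro (_ | _ | i)
    · change ∀ e, ((del π ℤ ga e : ℤ) : R) = del π R ga e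
      intro e
      rw [ga_eq, del_ab, del_ab]; simp
    · change ∀ e, ((del π ℤ gb e : ℤ) : R) = del π R gb e
      intro e
      rw [gb_eq, del_ab, del_ab]; simp
    · change ∀ e, ((del π ℤ (gt i) e : ℤ) : R) = del π R (gt i) e
      intro e
      rw [del_gt, del_gt]
      simp only
      split_ifs <;> simp
  exact this

end cast

/-- A syllable: a stable letter with sign followed by an element of the base. -/
structure Syl : Type where
  i : Bool
  e : Bool
  x : ℤ × ℤ

/-- The stable letter part. -/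
def lt (i e : Bool) : G := if e then gt i else (gt i)⁻¹

/-- Evaluation of a syllable. -/
def ev (s : Syl) : G := lt s.i s.e * ab s.x

/-- The generator of the relevant edge group. -/
def eg (i e : Bool) : ℤ × ℤ := if e then (1, 0) else vv i

/-- Partial products. -/
def P (c : ℕ → Syl) : ℕ → G
  | 0 => 1
  | l + 1 => P c l * ev (c l)

section pinch
variable {Q : Type*} [Group Q] (π : G →* Q)

/-- A pinch, seen in the quotient. -/
def Pinch (s s' : Syl) : Prop :=
  s.i = s'.i ∧ s.e ≠ s'.e ∧ π (ab s.x) ∈ Subgroup.zpowers (π (ab (eg s.i s.e)))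

lemma zp_le_A (x : ℤ × ℤ) : Subgroup.zpowers (π (ab x)) ≤ A.map π := by
  rw [Subgroup.zpowers_le]
  exact Subgroup.mem_map_of_mem π (ab_mem x)

lemma conj_mem {i : Bool} {q : Q} (h : q ∈ Subgroup.zpowers (π (ab (vv i)))) :
    (π (gt i))⁻¹ * q * π (gt i) ∈ Subgroup.zpowers (π (ab (1, 0))) := by
  obtain ⟨n, rfl⟩ := Subgroup.mem_zpowers_iff.1 h
  refine Subgroup.mem_zpowers_iff.2 ⟨n, ?_⟩
  rw [← ga_eq, ← map_zpow, ← conj_zp' i n, ← map_zpow, ← ab_zsmul, map_mul, map_mul, map_inv]

/-- The edge crossed at step `l`. -/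
def edge (c : ℕ → Syl) (l : ℕ) : Ed π :=
  ed π (c l).i (if (c l).e then π (P c l) else π (P c l) * (π (gt (c l).i))⁻¹)

variable (R : Type*) [Ring R]

lemma del_step_ne (c : ℕ → Syl) (l : ℕ) (e : Ed π) (h : e ≠ edge π c l) :
    del π R (P c (l + 1)) e = del π R (P c l) e := by
  change del π R (P c l * (lt (c l).i (c l).e * ab (c l).x)) e = _
  rw [← mul_assoc, del_mul_A _ _ _ (ab_mem _)]
  unfold edge at h
  unfold lt
  by_cases he : (c l).e = true
  · rw [if_pos he] at h ⊢
    rw [del_mul_gt]
    simp only [if_neg h, add_zero]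
  · rw [if_neg he] at h ⊢
    rw [del_mul_gt_inv]
    simp only [if_neg h, sub_zero]

lemma del_step_eq [Nontrivial R] (c : ℕ → Syl) (l : ℕ) :
    del π R (P c (l + 1)) (edge π c l) ≠ del π R (P c l) (edge π c l) := by
  change del π R (P c l * (lt (c l).i (c l).e * ab (c l).x)) _ ≠ _
  rw [← mul_assoc, del_mul_A _ _ _ (ab_mem _)]
  unfold edge
  unfold lt
  by_cases he : (c l).e = true
  · simp only [if_pos he]
    rw [del_mul_gt]
    simp
  · simp only [if_neg he]
    rw [del_mul_gt_inv]
    simp

end pinch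

section lemU
variable (c : ℕ → Syl) (L : ℕ)

/-- Pairs of positions which coincide in the quotient graph. -/
noncomputable def coin {Q : Type} [Group Q] (π : G →* Q) : Finset (ℕ × ℕ) :=
  @Finset.filter _ (fun p : ℕ × ℕ => p.1 < p.2 ∧ (π (P c p.1))⁻¹ * π (P c p.2) ∈ A.map π)
    (Classical.decPred _) ((Finset.range (L + 1)) ×ˢ (Finset.range (L + 1)))

lemma mem_coin {Q : Type} [Group Q] (π : G →* Q) (i j : ℕ) :
    (i, j) ∈ coin c L π ↔ i < j ∧ j ≤ L ∧ (π (P c i))⁻¹ * π (P c j) ∈ A.map π := by
  unfold coin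
  rw [@Finset.mem_filter _ _ (Classical.decPred _), Finset.mem_product, Finset.mem_range,
    Finset.mem_range]
  simp only
  constructor
  · rintro ⟨⟨_, h2⟩, h3, h4⟩
    exact ⟨h3, by omega, h4⟩
  · rintro ⟨h1, h2, h3⟩
    exact ⟨⟨by omega, by omega⟩, h1, h3⟩

lemma P_succ (l : ℕ) : P c (l + 1) = P c l * (lt (c l).i (c l).e * ab (c l).x) := rfl

/-- Two distinct crossings within a minimal closed subpath are different edges. -/
lemma edge_ne {Q : Type} [Group Q] (π : G →* Q)
    (hred : ∀ l, l + 1 < L → ¬ Pinch π (c l) (c (l + 1)))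
    (i j : ℕ) (hij : (i, j) ∈ coin c L π)
    (hmin : ∀ i' j', (i', j') ∈ coin c L π → j - i ≤ j' - i')
    (l : ℕ) (hil : i < l) (hlj : l < j) : edge π c i ≠ edge π c l := by
  intro heq
  obtain ⟨_, hjL, _⟩ := (mem_coin c L π i j).1 hij
  have hi : (c i).i = (c l).i := by
    unfold edge at heq
    exact ed_type π heq
  -- coincidences strictly inside are impossible
  have hno : ∀ i' j', i' < j' → j' ≤ L → j' - i' < j - i →
      (π (P c i'))⁻¹ * π (P c j') ∉ A.map π := by
    intro i' j' h1 h2 h3 h4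
    have := hmin i' j' ((mem_coin c L π i' j').2 ⟨h1, h2, h4⟩)
    omega
  unfold edge at heq
  rw [← hi] at heq
  have hPi : π (P c (i + 1)) = π (P c i) * (π (lt (c i).i (c i).e) * π (ab (c i).x)) := by
    rw [P_succ, map_mul, map_mul]
  have hPl : π (P c (l + 1)) = π (P c l) * (π (lt (c i).i (c l).e) * π (ab (c l).x)) := by
    rw [P_succ, map_mul, map_mul, hi]
  have hAx : ∀ x, π (ab x) ∈ A.map π := fun x => Subgroup.mem_map_of_mem π (ab_mem x)
  have hz1 := zp_le_A π (1, 0)
  have hz2 := zp_le_A π (vv (c i).i)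
  by_cases h1 : (c i).e = true <;> by_cases h2 : (c l).e = true
  · rw [if_pos h1, if_pos h2, ed_eq_iff] at heq
    exact hno i l hil (by omega) (by omega) (hz2 heq)
  · rw [if_pos h1, if_neg h2, ed_eq_iff] at heq
    rw [lt, if_pos h1] at hPi
    rw [lt, if_neg h2, map_inv] at hPl
    have hc := conj_mem π heq
    -- `x_{l+1} = x_i`
    have e1 : (π (P c i))⁻¹ * π (P c (l + 1)) ∈ A.map π := by
      rw [hPl]
      have : (π (P c i))⁻¹ * (π (P c l) * ((π (gt (c i).i))⁻¹ * π (ab (c l).x))) =
        ((π (P c i))⁻¹ * (π (P c l) * (π (gt (c i).i))⁻¹)) * π (ab (c l).x) := by group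
      rw [this]
      exact Subgroup.mul_mem _ (hz2 heq) (hAx _)
    -- `x_l = x_{i+1}`
    have e2 : (π (P c (i + 1)))⁻¹ * π (P c l) ∈ A.map π := by
      rw [hPi]
      have : (π (P c i) * (π (gt (c i).i) * π (ab (c i).x)))⁻¹ * π (P c l) =
        (π (ab (c i).x))⁻¹ * ((π (gt (c i).i))⁻¹ * ((π (P c i))⁻¹ *
          (π (P c l) * (π (gt (c i).i))⁻¹)) * π (gt (c i).i)) := by group
      rw [this]
      exact Subgroup.mul_mem _ (Subgroup.inv_mem _ (hAx _)) (hz1 hc)
    have hl1 : l + 1 = j := by
      by_contra hne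
      exact hno i (l + 1) (by omega) (by omega) (by omega) e1
    have hl2 : l = i + 1 := by
      by_contra hne
      exact hno (i + 1) l (by omega) (by omega) (by omega) e2
    subst hl2
    apply hred i (by omega)
    refine ⟨hi, by rw [h1]; exact fun h => h2 h.symm, ?_⟩
    rw [h1, eg, if_pos rfl]
    rw [hPi] at hc
    have : (π (gt (c i).i))⁻¹ * ((π (P c i))⁻¹ *
      (π (P c i) * (π (gt (c i).i) * π (ab (c i).x)) * (π (gt (c i).i))⁻¹)) * π (gt (c i).i)
        = π (ab (c i).x) := by group
    rw [this] at hc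
    exact hc
  · rw [if_neg h1, if_pos h2, ed_eq_iff] at heq
    rw [lt, if_neg h1, map_inv] at hPi
    rw [lt, if_pos h2] at hPl
    have hc := conj_mem π heq
    have e1 : (π (P c i))⁻¹ * π (P c (l + 1)) ∈ A.map π := by
      rw [hPl]
      have : (π (P c i))⁻¹ * (π (P c l) * (π (gt (c i).i) * π (ab (c l).x))) =
        ((π (gt (c i).i))⁻¹ * ((π (P c i) * (π (gt (c i).i))⁻¹)⁻¹ * π (P c l)) *
          π (gt (c i).i)) * π (ab (c l).x) := by group
      rw [this]
      exact Subgroup.mul_mem _ (hz1 hc) (hAx _)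
    have e2 : (π (P c (i + 1)))⁻¹ * π (P c l) ∈ A.map π := by
      rw [hPi]
      have : (π (P c i) * ((π (gt (c i).i))⁻¹ * π (ab (c i).x)))⁻¹ * π (P c l) =
        (π (ab (c i).x))⁻¹ * ((π (P c i) * (π (gt (c i).i))⁻¹)⁻¹ * π (P c l)) := by group
      rw [this]
      exact Subgroup.mul_mem _ (Subgroup.inv_mem _ (hAx _)) (hz2 heq)
    have hl1 : l + 1 = j := by
      by_contra hne
      exact hno i (l + 1) (by omega) (by omega) (by omega) e1
    have hl2 : l = i + 1 := by
      by_contra hne
      exact hno (i + 1) l (by omega) (by omega) (by omega) e2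
    subst hl2
    apply hred i (by omega)
    have h1' : (c i).e = false := by simpa using h1
    refine ⟨hi, by rw [h1', h2]; decide, ?_⟩
    rw [h1', eg, if_neg (by decide)]
    rw [hPi] at heq
    have : (π (P c i) * (π (gt (c i).i))⁻¹)⁻¹ *
      (π (P c i) * ((π (gt (c i).i))⁻¹ * π (ab (c i).x))) = π (ab (c i).x) := by group
    rw [this] at heq
    exact heq
  · rw [if_neg h1, if_neg h2, ed_eq_iff] at heq
    have hc := conj_mem π heq
    have e1 : (π (P c i))⁻¹ * π (P c l) ∈ A.map π := by
      have : (π (P c i))⁻¹ * π (P c l) = (π (gt (c i).i))⁻¹ *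
        ((π (P c i) * (π (gt (c i).i))⁻¹)⁻¹ * (π (P c l) * (π (gt (c i).i))⁻¹)) *
          π (gt (c i).i) := by group
      rw [this]
      exact hz1 hc
    exact hno i l hil (by omega) (by omega) e1

/-- The closed subpath has nonzero class. -/
lemma del_ne {Q : Type} [Group Q] (π : G →* Q) (R : Type*) [Ring R] [Nontrivial R]
    (hred : ∀ l, l + 1 < L → ¬ Pinch π (c l) (c (l + 1)))
    (i j : ℕ) (hij : (i, j) ∈ coin c L π)
    (hmin : ∀ i' j', (i', j') ∈ coin c L π → j - i ≤ j' - i') :
    del π R (P c j) ≠ del π R (P c i) := by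
  obtain ⟨hlt, hjL, _⟩ := (mem_coin c L π i j).1 hij
  intro h
  have key : ∀ l, i + 1 ≤ l → l ≤ j → del π R (P c l) (edge π c i) =
      del π R (P c (i + 1)) (edge π c i) := by
    intro l hl
    induction l, hl using Nat.le_induction with
    | base => intro _; rfl
    | succ l hl ih =>
      intro hlj
      rw [del_step_ne π R c l _ (edge_ne c L π hred i j hij hmin l (by omega) (by omega))]
      exact ih (by omega)
  have h2 := key j (by omega) le_rfl
  rw [h] at h2
  exact del_step_eq π R c i h2.symm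

lemma pinch_right {Q : Type} [Group Q] (π : G →* Q) (R : Type*) [Ring R] {s s' : Syl}
    (h : Pinch (D π R) s s') : Pinch π s s' := by
  obtain ⟨h1, h2, h3⟩ := h
  refine ⟨h1, h2, ?_⟩
  obtain ⟨n, hn⟩ := Subgroup.mem_zpowers_iff.1 h3
  refine Subgroup.mem_zpowers_iff.2 ⟨n, ?_⟩
  have := congrArg SemidirectProduct.rightHom hn
  rw [map_zpow] at this
  simp only [SemidirectProduct.rightHom_eq_right, D_right] at this
  exact this

lemma mem_right {Q : Type} [Group Q] (π : G →* Q) (R : Type*) [Ring R] {g : G}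
    (h : D π R g ∈ A.map (D π R)) : π g ∈ A.map π := by
  obtain ⟨a, ha, hh⟩ := h
  refine ⟨a, ha, ?_⟩
  have := congrArg SemidirectProduct.rightHom hh
  simp only [SemidirectProduct.rightHom_eq_right, D_right] at this
  exact this

lemma finite_SD {Q : Type} [Group Q] [Finite Q] (π : G →* Q) (n : ℕ) [NeZero n] :
    Finite (SD π (ZMod n)) := by
  have : Finite (Multiplicative (ZMod n)) := inferInstanceAs (Finite (ZMod n))
  exact Finite.of_equiv _ SemidirectProduct.equivProd.symm

theorem lemmaU (hL : 0 < L) (a : G) (haA : a ∈ A) :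
    ∀ (n : ℕ) (Q : Type) [Group Q] [Finite Q] (π : G →* Q),
    (∀ l, l + 1 < L → ¬ Pinch π (c l) (c (l + 1))) →
    π (P c L) = π a → (coin c L π).card ≤ n →
    ∃ (Q' : Type) (_ : Group Q') (_ : Finite Q') (π' : G →* Q'),
      π' (P c L) = π' a ∧ del π' ℤ (P c L) ≠ 0 := by
  intro n
  induction n with
  | zero =>
    intro Q _ _ π _ hPa hcard
    exfalso
    have : (0, L) ∈ coin c L π := by
      rw [mem_coin]
      refine ⟨hL, le_rfl, ?_⟩
      simp only [P, map_one, inv_one, one_mul, hPa]
      exact Subgroup.mem_map_of_mem π haA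
    have h0 : coin c L π = ∅ := Finset.card_eq_zero.1 (Nat.le_zero.1 hcard)
    rw [h0] at this
    simp at this
  | succ n ih =>
    intro Q _ _ π hred hPa hcard
    by_cases hd : del π ℤ (P c L) ≠ 0
    · exact ⟨Q, inferInstance, inferInstance, π, hPa, hd⟩
    push Not at hd
    have hfin := finite_SD π 2
    have hmem : (0, L) ∈ coin c L π := by
      rw [mem_coin]
      refine ⟨hL, le_rfl, ?_⟩
      simp only [P, map_one, inv_one, one_mul, hPa]
      exact Subgroup.mem_map_of_mem π haA
    obtain ⟨⟨i, j⟩, hij, hmin⟩ := Finset.exists_min_image (coin c L π) (fun p => p.2 - p.1)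
      ⟨_, hmem⟩
    have hmin' : ∀ i' j', (i', j') ∈ coin c L π → j - i ≤ j' - i' := fun i' j' h =>
      hmin (i', j') h
    refine ih (SD π (ZMod 2)) (D π (ZMod 2)) ?_ ?_ ?_
    · intro l hl hp
      exact hred l hl (pinch_right π _ hp)
    · have hdc : del π (ZMod 2) (P c L) = 0 := by
        funext e
        rw [← del_cast π (ZMod 2) (P c L) e, hd]
        simp
      have hda : del π (ZMod 2) a = 0 := del_A π _ haA
      ext1
      · funext e
        have h1 := congrFun hdc e
        have h2 := congrFun hda e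
        exact h1.trans h2.symm
      · rw [D_right, D_right, hPa]
    · have hsub : coin c L (D π (ZMod 2)) ⊂ coin c L π := by
        rw [Finset.ssubset_iff_of_subset]
        · refine ⟨(i, j), hij, ?_⟩
          intro hij'
          rw [mem_coin] at hij'
          obtain ⟨_, _, a', ha', hh⟩ := hij'
          apply del_ne c L π (ZMod 2) hred i j hij hmin'
          have h3 : D π (ZMod 2) (P c j) = D π (ZMod 2) (P c i * a') := by
            rw [map_mul, hh]; group
          have h4 : del π (ZMod 2) (P c j) = del π (ZMod 2) (P c i * a') := by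
            unfold del
            rw [h3]
          rw [h4, del_mul_A _ _ _ ha']
        · rintro ⟨i', j'⟩ h
          rw [mem_coin] at h ⊢
          obtain ⟨h1, h2, h3⟩ := h
          refine ⟨h1, h2, ?_⟩
          rw [← map_inv, ← map_mul] at h3 ⊢
          exact mem_right π _ h3
      have := Finset.card_lt_card hsub
      omega

end lemU

end Pool.Agent.Helper79.Tub
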