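import Pool.Agent.Helper79.Tub3

set_option autoImplicit false

namespace Pool.Agent.Helper79.Tub

section aff
variable (R : Type) [CommRing R]

/-- Translations. -/
def trHom : Multiplicative (R × R) →* Equiv.Perm (R × R) where
  toFun v := Equiv.addLeft (Multiplicative.toAdd v)
  map_one' := by ext <;> simp
  map_mul' v w := by ext <;> simp

/-- The translation by `v`. -/
def tr (v : R × R) : Equiv.Perm (R × R) := trHom R (Multiplicative.ofAdd v)

lemma tr_apply (v z : R × R) : tr R v z = v + z := rfl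

lemma tr_zsmul (n : ℤ) (v : R × R) : tr R (n • v) = (tr R v) ^ n := by
  have := map_zpow (trHom R) (Multiplicative.ofAdd v) n
  exact this

lemma tr_add (v w : R × R) : tr R (v + w) = tr R v * tr R w := by
  have := map_mul (trHom R) (Multiplicative.ofAdd v) (Multiplicative.ofAdd w)
  exact this

lemma sg_sq (i : Bool) : sg i * sg i = 1 := by cases i <;> rfl

/-- Multiplication by the unit. -/
def um (i : Bool) : Equiv.Perm (R × R) where
  toFun z := (2 * z.1 + 3 * (sg i : R) * z.2, (sg i : R) * z.1 + 2 * z.2)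
  invFun z := (2 * z.1 - 3 * (sg i : R) * z.2, - (sg i : R) * z.1 + 2 * z.2)
  left_inv z := by
    have h : (sg i : R) * (sg i : R) = 1 := by
      rw [← Int.cast_mul, sg_sq, Int.cast_one]
    ext
    · simp only
      linear_combination (-3 * z.1) * h
    · simp only
      linear_combination (-3 * z.2) * h
  right_inv z := by
    have h : (sg i : R) * (sg i : R) = 1 := by
      rw [← Int.cast_mul, sg_sq, Int.cast_one]
    ext
    · simp only
      linear_combination (-3 * z.1) * h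
    · simp only
      linear_combination (-3 * z.2) * h

/-- The affine representation. -/
def aff : G →* Equiv.Perm (R × R) :=
  lift (tr R (1, 0)) (tr R (0, 1)) (um R)
    (by rw [← tr_add, ← tr_add, add_comm])
    (by
      intro i
      rw [mul_inv_eq_iff_eq_mul, ← tr_zsmul, ← tr_zsmul, ← tr_add]
      apply Equiv.ext
      intro z
      rw [Equiv.Perm.mul_apply, Equiv.Perm.mul_apply, tr_apply, tr_apply]
      ext
      · simp [um]; ring
      · simp [um]; ring)

lemma aff_ab (x : ℤ × ℤ) : aff R (ab x) = tr R ((x.1 : R), (x.2 : R)) := by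
  unfold ab
  rw [map_mul, map_zpow, map_zpow]
  have h1 : aff R ga = tr R (1, 0) := by simp [aff]
  have h2 : aff R gb = tr R (0, 1) := by simp [aff]
  rw [h1, h2, ← tr_zsmul, ← tr_zsmul, ← tr_add]
  congr 1
  ext <;> simp

lemma aff_ab_zero (x : ℤ × ℤ) : aff R (ab x) 0 = ((x.1 : R), (x.2 : R)) := by
  rw [aff_ab, tr_apply, add_zero]

end aff

lemma ab_injective : Function.Injective ab := by
  intro x y h
  have := congrArg (fun g => aff ℤ g 0) h
  simp only [aff_ab_zero, Int.cast_id] at this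
  exact this

/-- The linear form detecting the edge group. -/
def lf (i e : Bool) (x : ℤ × ℤ) : ℤ := if e then x.2 else x.1 - 2 * sg i * x.2

lemma lf_eg (i e : Bool) (k : ℤ) : lf i e (k • eg i e) = 0 := by
  cases e <;> cases i <;> simp [lf, eg, vv, sg] <;> ring

lemma eg_of_lf (i e : Bool) (x : ℤ × ℤ) (h : lf i e x = 0) : ∃ k : ℤ, x = k • eg i e := by
  cases e
  · refine ⟨sg i * x.2, ?_⟩
    simp only [lf, Bool.false_eq_true, if_false] at h
    simp only [eg, Bool.false_eq_true, if_false, vv]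
    ext
    · simp only [Prod.smul_fst, smul_eq_mul]; linarith
    · simp only [Prod.smul_snd, smul_eq_mul]
      have := sg_sq i
      linear_combination (- x.2) * this
  · refine ⟨x.1, ?_⟩
    simp only [lf, if_true] at h
    simp only [eg, if_true]
    ext
    · simp
    · simp [h]

lemma pinch_id_iff {s s' : Syl} : Pinch (MonoidHom.id G) s s' ↔
    s.i = s'.i ∧ s.e ≠ s'.e ∧ lf s.i s.e s.x = 0 := by
  unfold Pinch
  simp only [MonoidHom.id_apply]
  refine and_congr_right fun _ => and_congr_right fun _ => ?_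
  constructor
  · intro h
    obtain ⟨k, hk⟩ := Subgroup.mem_zpowers_iff.1 h
    rw [← ab_zsmul] at hk
    rw [← ab_injective hk, lf_eg]
  · intro h
    obtain ⟨k, hk⟩ := eg_of_lf _ _ _ h
    rw [hk]
    exact Subgroup.mem_zpowers_iff.2 ⟨k, (ab_zsmul _ _).symm⟩

lemma pinch_aff {s s' : Syl} {n : ℕ} (hn : |lf s.i s.e s.x| < n)
    (h : Pinch (aff (ZMod n)) s s') : Pinch (MonoidHom.id G) s s' := by
  rw [pinch_id_iff]
  obtain ⟨h1, h2, h3⟩ := h
  refine ⟨h1, h2, ?_⟩
  obtain ⟨k, hk⟩ := Subgroup.mem_zpowers_iff.1 h3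
  rw [← map_zpow, ← ab_zsmul] at hk
  have h4 := congrArg (fun f : Equiv.Perm (ZMod n × ZMod n) => f 0) hk
  simp only [aff_ab_zero, Prod.mk.injEq] at h4
  obtain ⟨h5, h6⟩ := h4
  have h7 : ((lf s.i s.e s.x : ℤ) : ZMod n) = ((lf s.i s.e (k • eg s.i s.e) : ℤ) : ZMod n) := by
    unfold lf
    split_ifs
    · rw [h6]
    · push_cast
      rw [h5, h6]
  rw [lf_eg, Int.cast_zero] at h7
  rw [ZMod.intCast_zmod_eq_zero_iff_dvd] at h7
  exact Int.eq_zero_of_abs_lt_dvd h7 hn

lemma fi_comap {Q : Type} [Group Q] (π : G →* Q) (M : Subgroup Q) [hM : M.FiniteIndex] :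
    (M.comap π).FiniteIndex := by
  constructor
  rw [Subgroup.index_comap]
  have : (M.subgroupOf π.range).FiniteIndex := inferInstance
  exact this.index_ne_zero

/-- Separability in the group `G`. -/
def Sep (g : G) : Prop := ∀ h : G, h ∉ Subgroup.zpowers g →
  ∃ K : Subgroup G, K.FiniteIndex ∧ Subgroup.zpowers g ≤ K ∧ h ∉ K

lemma sep_of_hom {Q : Type} [Group Q] [Finite Q] (π : G →* Q) (M : Subgroup Q) {g h : G}
    (hg : π g ∈ M) (hh : π h ∉ M) :
    ∃ K : Subgroup G, K.FiniteIndex ∧ Subgroup.zpowers g ≤ K ∧ h ∉ K := by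
  refine ⟨M.comap π, ?_, ?_, ?_⟩
  · exact fi_comap _ _
  · rw [Subgroup.zpowers_le]
    exact hg
  · exact hh

lemma sep_conj {g : G} (y : G) (h : Sep (y⁻¹ * g * y)) : Sep g := by
  intro h' hh'
  have : y⁻¹ * h' * y ∉ Subgroup.zpowers (y⁻¹ * g * y) := by
    intro hm
    apply hh'
    obtain ⟨k, hk⟩ := Subgroup.mem_zpowers_iff.1 hm
    refine Subgroup.mem_zpowers_iff.2 ⟨k, ?_⟩
    have e : (y⁻¹ * g * y) ^ k = y⁻¹ * g ^ k * y := by
      have := conj_zpow (i := k) (a := y⁻¹) (b := g)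
      simpa using this
    rw [e] at hk
    have := congrArg (fun z => y * z * y⁻¹) hk
    simpa [mul_assoc] using this
  obtain ⟨K, hK1, hK2, hK3⟩ := h _ this
  refine ⟨K.comap (MulAut.conj y⁻¹).toMonoidHom, ?_, ?_, ?_⟩
  · exact fi_comap _ _
  · rw [Subgroup.zpowers_le] at hK2 ⊢
    simpa [Subgroup.mem_comap] using hK2
  · simpa [Subgroup.mem_comap] using hK3

/-- Residual finiteness. -/
def RF : Prop := ∀ g : G, g ≠ 1 → ∃ (Q : Type) (_ : Group Q) (_ : Finite Q) (π : G →* Q), π g ≠ 1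

/-- The homomorphism from the kernel. -/
noncomputable def phi {Q : Type} [Group Q] (π : G →* Q) (e : Ed π) : π.ker →* Multiplicative ℤ where
  toFun k := Multiplicative.ofAdd (del π ℤ (k : G) e)
  map_one' := by simp
  map_mul' k k' := by
    have hk : π (k : G) = 1 := k.2
    rw [Subgroup.coe_mul, del_mul]
    simp only [hk, inv_one, one_smul]
    rfl

lemma del_zpow_ker {Q : Type} [Group Q] (π : G →* Q) (e : Ed π) (k : G) (hk : π k = 1) (n : ℤ) :
    del π ℤ (k ^ n) e = n * del π ℤ k e := by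
  have := map_zpow (phi π e) ⟨k, hk⟩ n
  have h2 := congrArg Multiplicative.toAdd this
  rw [toAdd_zpow] at h2
  exact h2

lemma del_mul_ker {Q : Type} [Group Q] (π : G →* Q) (e : Ed π) (k k' : G) (hk : π k = 1) :
    del π ℤ (k * k') e = del π ℤ k e + del π ℤ k' e := by
  rw [del_mul]
  simp [hk]

theorem sep_of_VR (hRF : RF) (g : G) (N : ℕ) (hN : 0 < N) {Q : Type} [Group Q] [Finite Q]
    (π : G →* Q) (hg : π (g ^ N) = 1) (hd : del π ℤ (g ^ N) ≠ 0) : Sep g := by
  classical
  intro h hh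
  by_contra hcon
  -- every finite quotient maps `h` into the image of `⟨g⟩`
  have key : ∀ (F : Type) [Group F] [Finite F] (ψ : G →* F), ∃ j : ℤ, ψ (g ^ (-j) * h) = 1 := by
    intro F _ _ ψ
    by_contra hno
    apply hcon
    apply sep_of_hom ψ (Subgroup.zpowers (ψ g)) (Subgroup.mem_zpowers _)
    intro hm
    obtain ⟨j, hj⟩ := Subgroup.mem_zpowers_iff.1 hm
    apply hno
    refine ⟨j, ?_⟩
    rw [map_mul, map_zpow, ← hj]
    simp
  obtain ⟨e, he⟩ : ∃ e, del π ℤ (g ^ N) e ≠ 0 := by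
    by_contra hno
    push Not at hno
    exact hd (funext hno)
  set cc : ℤ := del π ℤ (g ^ N) e with hcc
  -- candidate exponents
  have hcand : ∀ r : Fin N, ∃ (F : Type) (_ : Group F) (_ : Finite F) (ψ : G →* F),
      ∀ l : ℤ, del π ℤ (g ^ (-(r : ℤ)) * h) e = cc * l →
        ψ (g ^ (-((r : ℤ) + N * l)) * h) ≠ 1 := by
    intro r
    by_cases hc : ∃ l : ℤ, del π ℤ (g ^ (-(r : ℤ)) * h) e = cc * l
    · obtain ⟨l, hl⟩ := hc
      have hne : g ^ (-((r : ℤ) + N * l)) * h ≠ 1 := by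
        intro h1
        apply hh
        refine Subgroup.mem_zpowers_iff.2 ⟨(r : ℤ) + N * l, ?_⟩
        rw [zpow_neg, inv_mul_eq_one] at h1
        exact h1
      obtain ⟨F, i1, i2, ψ, hψ⟩ := hRF _ hne
      refine ⟨F, i1, i2, ψ, ?_⟩
      intro l' hl'
      have : l' = l := by
        have := hl'.symm.trans hl
        exact mul_left_cancel₀ he this
      rw [this]
      exact hψ
    · refine ⟨Unit, inferInstance, inferInstance, 1, ?_⟩
      intro l hl
      exact absurd ⟨l, hl⟩ hc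
  choose F i1 i2 ψ hψ using hcand
  let FF := ∀ r : Fin N, F r
  let Ψ : G →* FF := MonoidHom.pi ψ
  have hfin : Finite FF := inferInstance
  set m' : ℕ := Nat.card FF with hm'
  have hm'pos : 0 < m' := Nat.card_pos
  set m : ℕ := cc.natAbs * m' with hm
  have hccpos : 0 < cc.natAbs := Int.natAbs_pos.2 he
  have hmpos : 0 < m := Nat.mul_pos hccpos hm'pos
  have : NeZero m := ⟨hmpos.ne'⟩
  have := finite_SD π m
  obtain ⟨j, hj⟩ := key (SD π (ZMod m) × FF) ((D π (ZMod m)).prod Ψ)
  rw [MonoidHom.prod_apply, Prod.mk_eq_one] at hj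
  obtain ⟨hj1, hj2⟩ := hj
  -- consequences
  have hj3 : π (g ^ (-j) * h) = 1 := by
    have := congrArg SemidirectProduct.right hj1
    rw [D_right] at this
    exact this
  have hj4 : (m : ℤ) ∣ del π ℤ (g ^ (-j) * h) e := by
    have h1 : del π (ZMod m) (g ^ (-j) * h) e = 0 := by
      unfold del
      rw [hj1]
      rfl
    rw [← del_cast, ZMod.intCast_zmod_eq_zero_iff_dvd] at h1
    exact h1
  have hNz : (N : ℤ) ≠ 0 := by exact_mod_cast hN.ne'
  have hr0 : 0 ≤ j % N := Int.emod_nonneg _ hNz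
  have hrN : j % N < N := Int.emod_lt_of_pos _ (by exact_mod_cast hN)
  obtain ⟨r0, hr0'⟩ := Int.eq_ofNat_of_zero_le hr0
  let r : Fin N := ⟨r0, by rw [hr0'] at hrN; exact_mod_cast hrN⟩
  have hrj : (r : ℤ) = j % N := by rw [hr0']
  set l : ℤ := j / N with hl
  have hjl : j = (r : ℤ) + N * l := by rw [hrj, hl]; exact (Int.emod_add_mul_ediv j N).symm
  have hsplit : g ^ (-j) * h = (g ^ N) ^ (-l) * (g ^ (-(r : ℤ)) * h) := by
    rw [← mul_assoc, ← zpow_natCast g N, ← zpow_mul, ← zpow_add, hjl]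
    congr 2
    ring
  have hπl : π ((g ^ N) ^ (-l)) = 1 := by rw [map_zpow, hg, one_zpow]
  have hdel : del π ℤ (g ^ (-j) * h) e = -l * cc + del π ℤ (g ^ (-(r : ℤ)) * h) e := by
    rw [hsplit, del_mul_ker π e _ _ hπl, del_zpow_ker π e _ hg]
  obtain ⟨w, hw⟩ := hj4
  have hmc : ∃ u : ℤ, (m : ℤ) = cc * (m' * u) ∧ u * u = 1 := by
    refine ⟨cc.sign, ?_, ?_⟩
    · rw [hm]
      have h1 : ((cc.natAbs : ℕ) : ℤ) = cc * cc.sign := (Int.mul_sign_self cc).symm
      rw [Nat.cast_mul, h1]; ring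
    · rcases lt_or_gt_of_ne he with h1 | h1
      · rw [Int.sign_eq_neg_one_of_neg h1]; norm_num
      · rw [Int.sign_eq_one_of_pos h1]; norm_num
  obtain ⟨u, hu, _⟩ := hmc
  have hCr : del π ℤ (g ^ (-(r : ℤ)) * h) e = cc * (l + m' * u * w) := by
    have : del π ℤ (g ^ (-(r : ℤ)) * h) e = m * w + l * cc := by
      rw [← hw, hdel]; ring
    rw [this, hu]; ring
  apply hψ r _ hCr
  have h5 : g ^ (-((r : ℤ) + N * (l + m' * u * w))) * h =
      (g ^ (m' : ℤ)) ^ (-(N * u * w)) * (g ^ (-j) * h) := by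
    rw [← mul_assoc, ← zpow_mul, ← zpow_add, hjl]
    congr 2
    ring
  have h6 : ψ r (g ^ (-j) * h) = 1 := congrFun hj2 r
  have h7 : ψ r (g ^ (m' : ℤ)) = 1 := by
    have : Ψ (g ^ (m' : ℤ)) = 1 := by
      rw [zpow_natCast, map_pow, hm']
      exact pow_card_eq_one'
    exact congrFun this r
  rw [h5, map_mul, map_zpow, h7, h6, one_zpow, one_mul]

end Pool.Agent.Helper79.Tub
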