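import Pool.Agent.Helper79.Tub4

set_option autoImplicit false

namespace Pool.Agent.Helper79.Tub

/-- Evaluation of a word. -/
def evL (w : List Syl) : G := (w.map ev).prod

lemma evL_nil : evL [] = 1 := rfl

lemma evL_append (w w' : List Syl) : evL (w ++ w') = evL w * evL w' := by
  simp [evL]

lemma evL_cons (s : Syl) (w : List Syl) : evL (s :: w) = ev s * evL w := by
  simp [evL]

/-- `g` is represented by a word with `n` stable letters. -/
def Rep (g : G) (n : ℕ) : Prop := ∃ (x : ℤ × ℤ) (w : List Syl), w.length = n ∧ g = ab x * evL w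

lemma rep_mul_ab {g : G} {n : ℕ} (h : Rep g n) (y : ℤ × ℤ) : Rep (g * ab y) n := by
  obtain ⟨x, w, hw, rfl⟩ := h
  rcases List.eq_nil_or_concat w with rfl | ⟨w', s, rfl⟩
  · refine ⟨x + y, [], hw, ?_⟩
    rw [evL_nil, mul_one, mul_one, ab_add]
  · refine ⟨x, w' ++ [⟨s.i, s.e, s.x + y⟩], ?_, ?_⟩
    · simpa using hw
    · rw [List.concat_eq_append, evL_append, evL_append]
      simp only [evL, List.map_cons, List.map_nil, List.prod_cons, List.prod_nil, mul_one, ev,
        ab_add, mul_assoc]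

lemma rep_mul_A {g a : G} {n : ℕ} (h : Rep g n) (ha : a ∈ A) : Rep (g * a) n := by
  obtain ⟨y, rfl⟩ := mem_A.1 ha
  exact rep_mul_ab h y

lemma rep_mul_evL {g : G} {n : ℕ} (h : Rep g n) (w : List Syl) : Rep (g * evL w) (n + w.length) := by
  obtain ⟨x, w', hw, rfl⟩ := h
  refine ⟨x, w' ++ w, ?_, ?_⟩
  · rw [List.length_append, hw]
  · rw [evL_append, mul_assoc]

lemma rep_mul_lt {g : G} {n : ℕ} (h : Rep g n) (i e : Bool) : Rep (g * lt i e) (n + 1) := by
  have := rep_mul_evL h [⟨i, e, 0⟩]
  simpa [evL, ev] using this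

lemma exists_rep (g : G) : ∃ n, Rep g n := by
  have hg : g ∈ Subgroup.closure (Set.range (PresentedGroup.of : Gen → G)) := by
    rw [PresentedGroup.closure_range_of]; trivial
  refine Subgroup.closure_induction_right (p := fun g _ => ∃ n, Rep g n) ?_ ?_ ?_ hg
  · exact ⟨0, 0, [], rfl, by simp [evL]⟩
  · rintro x _ _ ⟨y, rfl⟩ ⟨n, hn⟩
    rcases y with _ | _ | i
    · exact ⟨n, by
        have := rep_mul_ab hn (1, 0)
        rwa [← ga_eq] at this⟩
    · exact ⟨n, by
        have := rep_mul_ab hn (0, 1)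
        rwa [← gb_eq] at this⟩
    · exact ⟨n + 1, by
        have := rep_mul_lt hn i true
        simpa [lt, gt] using this⟩
  · rintro x _ _ ⟨y, rfl⟩ ⟨n, hn⟩
    rcases y with _ | _ | i
    · exact ⟨n, by
        have := rep_mul_ab hn (-(1, 0))
        rwa [ab_neg, ← ga_eq] at this⟩
    · exact ⟨n, by
        have := rep_mul_ab hn (-(0, 1))
        rwa [ab_neg, ← gb_eq] at this⟩
    · exact ⟨n + 1, by
        have := rep_mul_lt hn i false
        simpa [lt, gt] using this⟩

lemma A_of_pinch {s s' : Syl} (h : Pinch (MonoidHom.id G) s s') : ev s * ev s' ∈ A := by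
  rw [pinch_id_iff] at h
  obtain ⟨h1, h2, h3⟩ := h
  obtain ⟨k, hk⟩ := eg_of_lf _ _ _ h3
  have e1 : ev s * ev s' = (lt s.i s.e * ab s.x * lt s'.i s'.e) * ab s'.x := by
    unfold ev; group
  rw [e1]
  refine Subgroup.mul_mem _ ?_ (ab_mem _)
  rw [hk, ← h1]
  cases he : s.e
  · have he' : s'.e = true := by
      rw [he] at h2
      cases hh : s'.e
      · exact absurd hh.symm h2
      · rfl
    rw [he']
    simp only [lt, eg, if_true, Bool.false_eq_true, if_false]
    rw [conj_zp', ga_eq, ← ab_zsmul]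
    exact ab_mem _
  · have he' : s'.e = false := by
      rw [he] at h2
      cases hh : s'.e
      · rfl
      · exact absurd hh.symm h2
    rw [he']
    simp only [lt, eg, if_true, Bool.false_eq_true, if_false]
    rw [ab_zsmul, ← ga_eq, conj_zp]
    exact ab_mem _

/-- A pinch allows to shorten. -/
lemma rep_shorten {g : G} {n : ℕ} (h : Rep g n) (w2 : List Syl) {s s' : Syl}
    (hp : Pinch (MonoidHom.id G) s s') :
    Rep (g * evL (s :: s' :: w2)) (n + w2.length) := by
  rw [evL_cons, evL_cons, ← mul_assoc, ← mul_assoc, mul_assoc g]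
  exact rep_mul_evL (rep_mul_A h (A_of_pinch hp)) w2

lemma P_eq (c : ℕ → Syl) (l : ℕ) : P c l = evL ((List.range l).map c) := by
  induction l with
  | zero => rfl
  | succ l ih =>
    rw [List.range_succ, List.map_append, evL_append, ← ih]
    simp [P, evL]

lemma exists_bound (w : List Syl) : ∃ B : ℕ, ∀ s ∈ w, |lf s.i s.e s.x| < B := by
  induction w with
  | nil => exact ⟨0, by simp⟩
  | cons s w ih =>
    obtain ⟨B, hB⟩ := ih
    refine ⟨B + (|lf s.i s.e s.x|).toNat + 1, ?_⟩
    intro s' hs'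
    have h0 : 0 ≤ |lf s.i s.e s.x| := abs_nonneg _
    push_cast
    rw [Int.toNat_of_nonneg h0]
    rcases List.mem_cons.1 hs' with rfl | h
    · have : (0 : ℤ) ≤ B := by positivity
      linarith
    · have := hB s' h
      linarith

instance (n : ℕ) [NeZero n] : Finite (Equiv.Perm (ZMod n × ZMod n)) := inferInstance

/-- Elements outside the vertex group can be separated from it. -/
theorem lemmaS (h : G) (hA : h ∉ A) :
    ∃ (Q : Type) (_ : Group Q) (_ : Finite Q) (π : G →* Q), π h ∉ A.map π := by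
  classical
  obtain ⟨hm1, hm2⟩ := (⟨Nat.find_spec (exists_rep h), fun m => Nat.find_min (exists_rep h)⟩ :
    Rep h (Nat.find (exists_rep h)) ∧ ∀ m, m < Nat.find (exists_rep h) → ¬ Rep h m)
  set n := Nat.find (exists_rep h) with hn
  obtain ⟨x, w, hw, hxw⟩ := hm1
  have hwne : w ≠ [] := by
    rintro rfl
    apply hA
    rw [hxw, evL_nil, mul_one]
    exact ab_mem _
  have hnpos : 0 < n := by
    rw [← hw]; exact List.length_pos_iff.2 hwne
  let c : ℕ → Syl := fun l => if hl : l < w.length then w[l] else ⟨true, true, 0⟩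
  have hc : ∀ l (hl : l < w.length), c l = w[l] := fun l hl => dif_pos hl
  have hPn : P c n = evL w := by
    rw [P_eq]
    congr 1
    apply List.ext_getElem
    · simp [hw]
    · intro l h1 h2
      simp [hc l h2]
  have hredG : ∀ l, l + 1 < n → ¬ Pinch (MonoidHom.id G) (c l) (c (l + 1)) := by
    intro l hl hp
    have hl1 : l < w.length := by omega
    have hl2 : l + 1 < w.length := by omega
    rw [hc l hl1, hc (l + 1) hl2] at hp
    have hsplit : w = w.take l ++ (w[l] :: w[l+1] :: w.drop (l + 2)) := by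
      rw [← List.drop_eq_getElem_cons hl2, ← List.drop_eq_getElem_cons hl1,
        List.take_append_drop]
    have hw2 : evL w = evL (w.take l) * evL (w[l] :: w[l+1] :: w.drop (l + 2)) := by
      rw [← evL_append, ← hsplit]
    have : Rep h (l + (w.drop (l + 2)).length) := by
      rw [hxw, hw2, ← mul_assoc]
      refine rep_shorten ⟨x, w.take l, ?_, rfl⟩ _ hp
      rw [List.length_take]; omega
    refine hm2 _ ?_ this
    rw [List.length_drop]
    omega
  obtain ⟨B, hB⟩ := exists_bound w
  have : NeZero (B + 1) := ⟨by omega⟩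
  have hred : ∀ l, l + 1 < n → ¬ Pinch (aff (ZMod (B + 1))) (c l) (c (l + 1)) := by
    intro l hl hp
    apply hredG l hl
    apply pinch_aff _ hp
    have hl1 : l < w.length := by omega
    rw [hc l hl1]
    have := hB w[l] (List.getElem_mem _)
    push_cast
    linarith
  by_cases h0 : aff (ZMod (B + 1)) h ∉ A.map (aff (ZMod (B + 1)))
  · exact ⟨_, inferInstance, inferInstance, _, h0⟩
  push Not at h0
  obtain ⟨a, haA, ha⟩ := h0
  have haA' : (ab x)⁻¹ * a ∈ A := Subgroup.mul_mem _ (Subgroup.inv_mem _ (ab_mem x)) haA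
  have hw' : evL w = (ab x)⁻¹ * h := by rw [hxw]; group
  obtain ⟨Q', i1, i2, π', h1, h2⟩ := lemmaU c n hnpos ((ab x)⁻¹ * a) haA' _ _
    (aff (ZMod (B + 1))) hred (by rw [hPn, hw', map_mul, map_mul, ha]) le_rfl
  obtain ⟨e, he⟩ : ∃ e, del π' ℤ (P c n) e ≠ 0 := by
    by_contra hno
    push Not at hno
    exact h2 (funext hno)
  set m := (del π' ℤ (P c n) e).natAbs + 1 with hm
  have : NeZero m := ⟨by omega⟩
  refine ⟨SD π' (ZMod m), inferInstance, finite_SD π' m, D π' (ZMod m), ?_⟩
  rintro ⟨a', ha', hh⟩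
  have h3 : del π' (ZMod m) (P c n) = 0 := by
    have h4 : D π' (ZMod m) (P c n) = D π' (ZMod m) ((ab x)⁻¹ * a') := by
      rw [hPn, hw', map_mul, map_mul, hh]
    have h5 : del π' (ZMod m) (P c n) = del π' (ZMod m) ((ab x)⁻¹ * a') := by
      unfold del
      rw [h4]
    rw [h5, del_A _ _ (Subgroup.mul_mem _ (Subgroup.inv_mem _ (ab_mem x)) ha')]
  have h6 := congrFun h3 e
  rw [← del_cast, Pi.zero_apply, ZMod.intCast_zmod_eq_zero_iff_dvd] at h6
  apply he
  apply Int.eq_zero_of_abs_lt_dvd h6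
  rw [hm, Int.abs_eq_natAbs]
  push_cast
  linarith

theorem rf : RF := by
  intro g hg
  by_cases hA : g ∈ A
  · obtain ⟨x, rfl⟩ := mem_A.1 hA
    have hx : x ≠ 0 := by
      rintro rfl
      exact hg ab_zero
    set n := x.1.natAbs + x.2.natAbs + 1 with hn
    have : NeZero n := ⟨by omega⟩
    refine ⟨_, inferInstance, inferInstance, aff (ZMod n), ?_⟩
    intro h1
    have h2 := congrArg (fun f : Equiv.Perm (ZMod n × ZMod n) => f 0) h1
    simp only [aff_ab_zero, Equiv.Perm.one_apply] at h2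
    have h3 : (x.1 : ZMod n) = 0 := congrArg Prod.fst h2
    have h4 : (x.2 : ZMod n) = 0 := congrArg Prod.snd h2
    rw [ZMod.intCast_zmod_eq_zero_iff_dvd] at h3 h4
    apply hx
    have h5 : x.1 = 0 := Int.eq_zero_of_abs_lt_dvd h3 (by
      rw [hn]; push_cast; linarith [abs_nonneg x.2])
    have h6 : x.2 = 0 := Int.eq_zero_of_abs_lt_dvd h4 (by
      rw [hn]; push_cast; linarith [abs_nonneg x.1])
    exact Prod.ext h5 h6
  · obtain ⟨Q, i1, i2, π, h⟩ := lemmaS g hA
    refine ⟨Q, i1, i2, π, ?_⟩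
    intro h1
    apply h
    rw [h1]
    exact Subgroup.one_mem _

/-- Number theory: cyclic subgroups of `ℤ × ℤ` are congruence closed. -/
lemma cong_sep (x y : ℤ × ℤ) (h : ∀ k : ℤ, y ≠ k • x) :
    ∃ n : ℕ, 0 < n ∧ ∀ k : ℤ, ¬ ((n : ℤ) ∣ y.1 - k * x.1 ∧ (n : ℤ) ∣ y.2 - k * x.2) := by
  by_cases hd : x.1 * y.2 - x.2 * y.1 = 0
  · by_cases hx : x = 0
    · subst hx
      have hy : y ≠ 0 := by
        intro h0
        exact h 0 (by simp [h0])
      refine ⟨y.1.natAbs + y.2.natAbs + 1, by omega, ?_⟩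
      rintro k ⟨h1, h2⟩
      simp only [Prod.fst_zero, Prod.snd_zero, mul_zero, sub_zero] at h1 h2
      apply hy
      have h5 : y.1 = 0 := Int.eq_zero_of_abs_lt_dvd h1 (by
        push_cast; linarith [abs_nonneg y.2])
      have h6 : y.2 = 0 := Int.eq_zero_of_abs_lt_dvd h2 (by
        push_cast; linarith [abs_nonneg y.1])
      exact Prod.ext h5 h6
    · have hg : 0 < Int.gcd x.1 x.2 := by
        rw [Nat.pos_iff_ne_zero]
        intro h0
        rw [Int.gcd_eq_zero_iff] at h0
        exact hx (Prod.ext h0.1 h0.2)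
      obtain ⟨u, v, huv1, huv2, huv3⟩ : ∃ u v : ℤ, x.1 = Int.gcd x.1 x.2 * u ∧
          x.2 = Int.gcd x.1 x.2 * v ∧ IsCoprime u v := by
        obtain ⟨u, hu⟩ := Int.gcd_dvd_left x.1 x.2
        obtain ⟨v, hv⟩ := Int.gcd_dvd_right x.1 x.2
        refine ⟨u, v, hu, hv, ?_⟩
        have hb := Int.gcd_eq_gcd_ab x.1 x.2
        refine ⟨Int.gcdA x.1 x.2, Int.gcdB x.1 x.2, ?_⟩
        have hgz : (Int.gcd x.1 x.2 : ℤ) ≠ 0 := by exact_mod_cast hg.ne'
        apply mul_left_cancel₀ hgz
        have e1 : (Int.gcd x.1 x.2 : ℤ) * (Int.gcdA x.1 x.2 * u + Int.gcdB x.1 x.2 * v) =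
          x.1 * Int.gcdA x.1 x.2 + x.2 * Int.gcdB x.1 x.2 := by
          linear_combination (-Int.gcdA x.1 x.2) * hu - (Int.gcdB x.1 x.2) * hv
        rw [e1, mul_one]
        exact hb.symm
      set d : ℕ := Int.gcd x.1 x.2 with hd'
      refine ⟨d, hg, ?_⟩
      rintro k ⟨h1, h2⟩
      have hdx1 : (d : ℤ) ∣ x.1 := ⟨u, huv1⟩
      have hdx2 : (d : ℤ) ∣ x.2 := ⟨v, huv2⟩
      have hy1 : (d : ℤ) ∣ y.1 := by
        have := dvd_add h1 (Dvd.dvd.mul_left hdx1 k)
        simpa using this
      have hy2 : (d : ℤ) ∣ y.2 := by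
        have := dvd_add h2 (Dvd.dvd.mul_left hdx2 k)
        simpa using this
      obtain ⟨y1, hy1'⟩ := hy1
      obtain ⟨y2, hy2'⟩ := hy2
      have hdz : (d : ℤ) ≠ 0 := by exact_mod_cast hg.ne'
      have huv : u * y2 = v * y1 := by
        have : (d : ℤ) * d * (u * y2 - v * y1) = 0 := by
          rw [huv1, huv2, hy1', hy2'] at hd
          linear_combination hd
        have h3 : u * y2 - v * y1 = 0 := by
          rcases mul_eq_zero.1 this with h4 | h4
          · exact absurd h4 (mul_ne_zero hdz hdz)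
          · exact h4
        linarith
      obtain ⟨p, q, hpq⟩ := huv3
      apply h (p * y1 + q * y2)
      ext
      · simp only [Prod.smul_fst, smul_eq_mul]
        rw [hy1', huv1]
        linear_combination (-(d : ℤ) * y1) * hpq - (d : ℤ) * q * huv
      · simp only [Prod.smul_snd, smul_eq_mul]
        rw [hy2', huv2]
        linear_combination (-(d : ℤ) * y2) * hpq + (d : ℤ) * p * huv
  · refine ⟨(x.1 * y.2 - x.2 * y.1).natAbs + 1, by omega, ?_⟩
    rintro k ⟨h1, h2⟩
    apply hd
    have h3 : (((x.1 * y.2 - x.2 * y.1).natAbs + 1 : ℕ) : ℤ) ∣ x.1 * y.2 - x.2 * y.1 := by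
      have := dvd_sub (Dvd.dvd.mul_left h2 x.1) (Dvd.dvd.mul_left h1 x.2)
      have e : x.1 * (y.2 - k * x.2) - x.2 * (y.1 - k * x.1) = x.1 * y.2 - x.2 * y.1 := by ring
      rwa [e] at this
    exact Int.eq_zero_of_abs_lt_dvd h3 (by rw [Int.abs_eq_natAbs]; push_cast; omega)

/-- Elements of the vertex group generate separable subgroups. -/
lemma sep_A (g : G) (hg : g ∈ A) : Sep g := by
  intro h hh
  by_cases hA : h ∈ A
  · obtain ⟨x, rfl⟩ := mem_A.1 hg
    obtain ⟨y, rfl⟩ := mem_A.1 hA
    have hxy : ∀ k : ℤ, y ≠ k • x := by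
      intro k hk
      apply hh
      exact Subgroup.mem_zpowers_iff.2 ⟨k, by rw [hk, ab_zsmul]⟩
    obtain ⟨n, hn, hn2⟩ := cong_sep x y hxy
    have : NeZero n := ⟨hn.ne'⟩
    refine sep_of_hom (aff (ZMod n)) (Subgroup.zpowers (aff (ZMod n) (ab x)))
      (Subgroup.mem_zpowers _) ?_
    intro hm
    obtain ⟨k, hk⟩ := Subgroup.mem_zpowers_iff.1 hm
    rw [← map_zpow, ← ab_zsmul] at hk
    have h4 := congrArg (fun f : Equiv.Perm (ZMod n × ZMod n) => f 0) hk
    simp only [aff_ab_zero, Prod.mk.injEq] at h4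
    obtain ⟨h5, h6⟩ := h4
    apply hn2 k
    constructor
    · rw [← ZMod.intCast_zmod_eq_zero_iff_dvd]
      push_cast
      rw [← h5]
      simp
    · rw [← ZMod.intCast_zmod_eq_zero_iff_dvd]
      push_cast
      rw [← h6]
      simp
  · obtain ⟨Q, i1, i2, π, hπ⟩ := lemmaS h hA
    exact sep_of_hom π (A.map π) (Subgroup.mem_map_of_mem π hg) hπ

/-- `g` is conjugate to an element represented with `n` stable letters. -/
def CRep (g : G) (n : ℕ) : Prop := ∃ y : G, Rep (y⁻¹ * g * y) n

theorem sep_all (g : G) : Sep g := by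
  classical
  have hex : ∃ n, CRep g n := by
    obtain ⟨n, hn⟩ := exists_rep g
    exact ⟨n, 1, by simpa using hn⟩
  obtain ⟨hm1, hm2⟩ := (⟨Nat.find_spec hex, fun m => Nat.find_min hex⟩ :
    CRep g (Nat.find hex) ∧ ∀ m, m < Nat.find hex → ¬ CRep g m)
  set n := Nat.find hex with hn
  obtain ⟨y, x, w, hw, hxw⟩ := hm1
  by_cases hwne : w = []
  · apply sep_conj y
    apply sep_A
    rw [hxw, hwne, evL_nil, mul_one]
    exact ab_mem _
  have hnpos : 0 < n := by
    rw [← hw]; exact List.length_pos_iff.2 hwne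
  -- absorb the first base element
  obtain ⟨z, w', hw', hz⟩ : ∃ (z : G) (w' : List Syl), w'.length = n ∧ z⁻¹ * g * z = evL w' := by
    rcases List.eq_nil_or_concat w with h0 | ⟨w0, s, h0⟩
    · exact absurd h0 hwne
    · refine ⟨y * ab x, w0 ++ [⟨s.i, s.e, s.x + x⟩], ?_, ?_⟩
      · rw [← hw, h0]; simp
      · have e1 : (y * ab x)⁻¹ * g * (y * ab x) = (ab x)⁻¹ * (y⁻¹ * g * y) * ab x := by group
        rw [e1, hxw, h0, List.concat_eq_append, evL_append, evL_append]
        simp only [evL, List.map_cons, List.map_nil, List.prod_cons, List.prod_nil, mul_one, ev,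
          ab_add]
        group
  let c : ℕ → Syl := fun l => w'[l % n]'(by rw [hw']; exact Nat.mod_lt _ hnpos)
  have hcper : ∀ l, c (n + l) = c l := by
    intro l
    simp only [c]
    congr 1
    exact Nat.add_mod_left n l
  have hPn : P c n = evL w' := by
    rw [P_eq]
    congr 1
    apply List.ext_getElem
    · simp [hw']
    · intro l h1 h2
      have : l % n = l := Nat.mod_eq_of_lt (by rw [← hw']; exact h2)
      simp [c, this]
  have hPadd : ∀ l, P c (n + l) = P c n * P c l := by
    intro l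
    induction l with
    | zero => simp [P]
    | succ l ih =>
      change P c (n + l) * ev (c (n + l)) = P c n * (P c l * ev (c l))
      rw [ih, hcper, mul_assoc]
  have hPmul : ∀ N : ℕ, P c (n * N) = (P c n) ^ N := by
    intro N
    induction N with
    | zero => simp [P]
    | succ N ih =>
      have : n * (N + 1) = n + n * N := by ring
      rw [this, hPadd, ih, pow_succ']
  -- no pinches in `G`
  have hredG : ∀ l, ¬ Pinch (MonoidHom.id G) (c l) (c (l + 1)) := by
    intro l hp
    by_cases hn1 : n = 1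
    · have : c l = c (l + 1) := by
        simp only [c, hn1, Nat.mod_one]
      rw [this] at hp
      exact hp.2.1 rfl
    have hn2 : 2 ≤ n := by omega
    set k := l % n with hk
    have hkn : k < n := Nat.mod_lt _ hnpos
    have hrot : evL (w'.rotate k) = (evL (w'.take k))⁻¹ * evL w' * evL (w'.take k) := by
      rw [List.rotate_eq_drop_append_take (by rw [hw']; omega), evL_append]
      have : evL w' = evL (w'.take k) * evL (w'.drop k) := by
        rw [← evL_append, List.take_append_drop]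
      rw [this]
      group
    have hlen : (w'.rotate k).length = n := by rw [List.length_rotate, hw']
    have h0 : (w'.rotate k)[0]'(by omega) = c l := by
      rw [List.getElem_rotate]
      simp only [c, hw', Nat.zero_add]
      congr 1
      rw [hk, Nat.mod_mod]
    have h1 : (w'.rotate k)[1]'(by omega) = c (l + 1) := by
      rw [List.getElem_rotate]
      simp only [c, hw']
      congr 1
      rw [hk, Nat.add_mod_mod, add_comm]
    have hdecomp : w'.rotate k = c l :: c (l + 1) :: (w'.rotate k).drop 2 := by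
      have e1 := List.drop_eq_getElem_cons (l := w'.rotate k) (i := 0) (by omega)
      have e2 := List.drop_eq_getElem_cons (l := w'.rotate k) (i := 1) (by omega)
      rw [h1] at e2
      rw [h0] at e1
      rw [List.drop_zero] at e1
      rw [e1]
      simp only [Nat.zero_add, e2]
      simp
    have hrep : Rep (1 * evL (c l :: c (l + 1) :: (w'.rotate k).drop 2))
        (0 + ((w'.rotate k).drop 2).length) :=
      rep_shorten ⟨0, [], rfl, by simp [evL]⟩ _ hp
    rw [← hdecomp, one_mul, hrot, ← hz] at hrep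
    refine hm2 (0 + ((w'.rotate k).drop 2).length) ?_ ⟨z * evL (w'.take k), ?_⟩
    · rw [List.length_drop, hlen]; omega
    · have e : (z * evL (List.take k w'))⁻¹ * g * (z * evL (List.take k w')) =
        (evL (List.take k w'))⁻¹ * (z⁻¹ * g * z) * evL (List.take k w') := by group
      rw [e]
      exact hrep
  obtain ⟨B, hB⟩ := exists_bound w'
  have : NeZero (B + 1) := ⟨by omega⟩
  have hred : ∀ l, ¬ Pinch (aff (ZMod (B + 1))) (c l) (c (l + 1)) := by
    intro l hp
    apply hredG l
    apply pinch_aff _ hp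
    have := hB (c l) (List.getElem_mem _)
    push_cast
    linarith
  set N := Nat.card (Equiv.Perm (ZMod (B + 1) × ZMod (B + 1))) with hN
  have hNpos : 0 < N := Nat.card_pos
  obtain ⟨Q', i1, i2, π', h1, h2⟩ := lemmaU c (n * N) (Nat.mul_pos hnpos hNpos) 1
    (Subgroup.one_mem _) _ _ (aff (ZMod (B + 1))) (fun l _ => hred l)
    (by rw [hPmul, map_pow, map_one, hN]; exact pow_card_eq_one') le_rfl
  apply sep_conj z
  rw [hz, ← hPn]
  rw [hPmul, map_one] at h1
  rw [hPmul] at h2
  exact sep_of_VR rf (P c n) N hNpos π' h1 h2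

end Pool.Agent.Helper79.Tub
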