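import Pool.Agent.Helper79.Tub5

set_option autoImplicit false

namespace Pool.Agent.Helper79.Tub

/-- The vertex set of the tree. -/
abbrev V : Type := G ⧸ A

/-- Oriented adjacency. -/
def Ar (x y : V) : Prop := ∃ (g : G) (i : Bool), x = (g : V) ∧ y = ((g * gt i : G) : V)

/-- The tree. -/
def T : SimpleGraph V where
  Adj x y := Ar x y ∨ Ar y x
  symm := ⟨fun x y h => h.symm⟩
  loopless := ⟨by
    intro x h
    have h2 : Ar x x := by rcases h with h | h <;> exact h
    obtain ⟨g, i, h3, h4⟩ := h2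
    rw [h3, QuotientGroup.eq] at h4
    apply gt_not_mem i
    simpa using h4⟩

lemma T_adj (x y : V) : T.Adj x y ↔ Ar x y ∨ Ar y x := Iff.rfl

lemma Ar_smul (h : G) {x y : V} (hxy : Ar x y) : Ar (h • x) (h • y) := by
  obtain ⟨g, i, rfl, rfl⟩ := hxy
  exact ⟨h * g, i, rfl, by rw [mul_assoc]; rfl⟩

lemma adj_smul (h : G) (x y : V) (hxy : T.Adj x y) : T.Adj (h • x) (h • y) := by
  rcases hxy with h1 | h1
  · exact Or.inl (Ar_smul h h1)
  · exact Or.inr (Ar_smul h h1)

lemma coe_mul_A (g : G) {a : G} (ha : a ∈ A) : ((g * a : G) : V) = (g : V) := by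
  rw [QuotientGroup.eq]
  have : (g * a)⁻¹ * g = a⁻¹ := by group
  rw [this]
  exact Subgroup.inv_mem _ ha

lemma reach (g : G) : T.Reachable ((1 : G) : V) (g : V) := by
  have hg : g ∈ Subgroup.closure (Set.range (PresentedGroup.of : Gen → G)) := by
    rw [PresentedGroup.closure_range_of]; trivial
  have hstep : ∀ (x : G) (i : Bool), T.Adj (x : V) ((x * gt i : G) : V) :=
    fun x i => Or.inl ⟨x, i, rfl, rfl⟩
  refine Subgroup.closure_induction_right
    (p := fun (g : G) _ => T.Reachable ((1 : G) : V) (g : V)) ?_ ?_ ?_ hg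
  · exact SimpleGraph.Reachable.refl _
  · rintro x _ _ ⟨y, rfl⟩ hx
    rcases y with _ | _ | i
    · change T.Reachable _ ((x * ga : G) : V)
      rw [ga_eq, coe_mul_A x (ab_mem _)]; exact hx
    · change T.Reachable _ ((x * gb : G) : V)
      rw [gb_eq, coe_mul_A x (ab_mem _)]; exact hx
    · exact hx.trans (hstep x i).reachable
  · rintro x _ _ ⟨y, rfl⟩ hx
    rcases y with _ | _ | i
    · change T.Reachable _ ((x * ga⁻¹ : G) : V)
      rw [ga_eq, coe_mul_A x (Subgroup.inv_mem _ (ab_mem _))]; exact hx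
    · change T.Reachable _ ((x * gb⁻¹ : G) : V)
      rw [gb_eq, coe_mul_A x (Subgroup.inv_mem _ (ab_mem _))]; exact hx
    · have h1 := hstep (x * (gt i)⁻¹) i
      rw [inv_mul_cancel_right] at h1
      exact hx.trans h1.symm.reachable

/-- The height function of an edge. -/
noncomputable def ht (e : Ed (MonoidHom.id G)) : V → ℤ :=
  Quotient.lift (fun g : G => del (MonoidHom.id G) ℤ g e) (by
    intro g g' h
    have h2 : g⁻¹ * g' ∈ A := QuotientGroup.leftRel_apply.1 h
    have h3 : g' = g * (g⁻¹ * g') := by group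
    change del (MonoidHom.id G) ℤ g e = del (MonoidHom.id G) ℤ g' e
    rw [h3, del_mul_A _ _ _ h2])

lemma ht_coe (e : Ed (MonoidHom.id G)) (g : G) : ht e (g : V) = del (MonoidHom.id G) ℤ g e := rfl

lemma ht_eq (e : Ed (MonoidHom.id G)) (g : G) (i : Bool) (h : e ≠ ed (MonoidHom.id G) i g) :
    ht e ((g * gt i : G) : V) = ht e (g : V) := by
  rw [ht_coe, ht_coe, del_mul_gt]
  have h' : ¬ (e = ed (MonoidHom.id G) i ((MonoidHom.id G) g)) := h
  simp only [if_neg h', add_zero]

lemma ht_ne (g : G) (i : Bool) : ht (ed (MonoidHom.id G) i g) ((g * gt i : G) : V) ≠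
    ht (ed (MonoidHom.id G) i g) (g : V) := by
  rw [ht_coe, ht_coe, del_mul_gt]
  simp

lemma vv_conj (i : Bool) (k : G) (hk : k ∈ Subgroup.zpowers (ab (vv i))) :
    (gt i)⁻¹ * k * gt i ∈ A := by
  obtain ⟨n, rfl⟩ := Subgroup.mem_zpowers_iff.1 hk
  rw [← ab_zsmul, conj_zp', ga_eq, ← ab_zsmul]
  exact ab_mem _

/-- Equal edges have equal end points. -/
lemma ends_eq {i j : Bool} {g g' : G}
    (h : ed (MonoidHom.id G) i g = ed (MonoidHom.id G) j g') :
    (g : V) = (g' : V) ∧ ((g * gt i : G) : V) = ((g' * gt j : G) : V) := by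
  have hij := ed_type _ h
  subst hij
  rw [ed_eq_iff] at h
  simp only [MonoidHom.id_apply] at h
  have hA : g⁻¹ * g' ∈ A := by
    obtain ⟨n, hn⟩ := Subgroup.mem_zpowers_iff.1 h
    rw [← hn, ← ab_zsmul]; exact ab_mem _
  constructor
  · rw [QuotientGroup.eq]; exact hA
  · rw [QuotientGroup.eq]
    have := vv_conj i _ h
    have e : (g * gt i)⁻¹ * (g' * gt i) = (gt i)⁻¹ * (g⁻¹ * g') * gt i := by group
    rw [e]; exact this

lemma bridge (g : G) (i : Bool) :
    ¬ (T.deleteEdges {s((g : V), ((g * gt i : G) : V))}).Reachable (g : V)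
      ((g * gt i : G) : V) := by
  intro h
  set e := ed (MonoidHom.id G) i g with he
  have hstep : ∀ x y : V, Ar x y → s(x, y) ≠ s((g : V), ((g * gt i : G) : V)) →
      ht e x = ht e y := by
    rintro x y ⟨g', j, rfl, rfl⟩ hne
    refine (ht_eq e g' j ?_).symm
    intro heq
    apply hne
    obtain ⟨h1, h2⟩ := ends_eq heq
    rw [h1, h2]
  have hconst : ∀ x y : V, (T.deleteEdges {s((g : V), ((g * gt i : G) : V))}).Reachable x y →
      ht e x = ht e y := by
    intro x y hxy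
    obtain ⟨p⟩ := hxy
    induction p with
    | nil => rfl
    | cons hadj _ ih =>
      rw [← ih]
      rw [SimpleGraph.deleteEdges_adj] at hadj
      obtain ⟨h1, h2⟩ := hadj
      rw [Set.mem_singleton_iff] at h2
      rcases h1 with h1 | h1
      · exact hstep _ _ h1 h2
      · refine (hstep _ _ h1 ?_).symm
        rwa [Sym2.eq_swap]
  exact ht_ne g i (hconst _ _ h).symm

theorem T_isTree : T.IsTree := by
  constructor
  · have : Nonempty V := ⟨((1 : G) : V)⟩
    refine SimpleGraph.Connected.mk ?_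
    intro x y
    induction x using QuotientGroup.induction_on with
    | H g =>
      induction y using QuotientGroup.induction_on with
      | H g' => exact (reach g).symm.trans (reach g')
  · rw [SimpleGraph.isAcyclic_iff_forall_adj_isBridge]
    intro x y hxy
    rcases hxy with ⟨g, i, rfl, rfl⟩ | ⟨g, i, rfl, rfl⟩
    · rw [SimpleGraph.isBridge_iff]
      exact bridge g i
    · rw [Sym2.eq_swap, SimpleGraph.isBridge_iff]
      exact bridge g i

lemma no_inv (g : G) (u v : V) (h : T.Adj u v) : ¬ (g • u = v ∧ g • v = u) := by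
  have key : ∀ u v : V, Ar u v → ¬ (g • u = v ∧ g • v = u) := by
    rintro _ _ ⟨x, i, rfl, rfl⟩ ⟨h1, h2⟩
    have h1' : ((g * x : G) : V) = ((x * gt i : G) : V) := h1
    have h2' : ((g * (x * gt i) : G) : V) = (x : V) := h2
    rw [QuotientGroup.eq] at h1' h2'
    have h3 := congrArg Multiplicative.toAdd (sig_A h1')
    have h4 := congrArg Multiplicative.toAdd (sig_A h2')
    simp only [map_mul, map_inv, sig_gt, toAdd_mul, toAdd_inv, toAdd_ofAdd, toAdd_one] at h3 h4
    omega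
  rcases h with h | h
  · exact key u v h
  · rintro ⟨h1, h2⟩
    exact key v u h ⟨h2, h1⟩

lemma stab_ar {u v : V} (h : Ar u v) :
    ∃ c : G, MulAction.stabilizer G u ⊓ MulAction.stabilizer G v ≤ Subgroup.zpowers c := by
  obtain ⟨g, i, rfl, rfl⟩ := h
  refine ⟨g * ab (vv i) * g⁻¹, ?_⟩
  rintro x ⟨h1, h2⟩
  have h1' : ((x * g : G) : V) = (g : V) := h1
  have h2' : ((x * (g * gt i) : G) : V) = ((g * gt i : G) : V) := h2
  rw [eq_comm, QuotientGroup.eq] at h1' h2'
  set k := g⁻¹ * (x * g) with hk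
  set a := (g * gt i)⁻¹ * (x * (g * gt i)) with ha
  have hka : k * gt i = gt i * a := by rw [hk, ha]; group
  have h3 : del (MonoidHom.id G) ℤ (k * gt i) (ed (MonoidHom.id G) i 1) =
      del (MonoidHom.id G) ℤ (1 * gt i) (ed (MonoidHom.id G) i 1) := by
    rw [hka, del_mul_A _ _ _ h2', one_mul]
  rw [del_mul_gt, del_mul_gt, del_A _ _ h1', del_one] at h3
  simp only [MonoidHom.id_apply, Pi.zero_apply, zero_add, if_true] at h3
  have h4 : ed (MonoidHom.id G) i 1 = ed (MonoidHom.id G) i k := by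
    by_contra hne
    rw [if_neg hne] at h3
    exact zero_ne_one h3
  rw [ed_eq_iff] at h4
  simp only [inv_one, one_mul, MonoidHom.id_apply] at h4
  obtain ⟨n, hn⟩ := Subgroup.mem_zpowers_iff.1 h4
  refine Subgroup.mem_zpowers_iff.2 ⟨n, ?_⟩
  rw [_root_.conj_zpow, hn, hk]
  group

lemma stab_cyclic (u v : V) (h : T.Adj u v) :
    IsCyclic ↥(MulAction.stabilizer G u ⊓ MulAction.stabilizer G v) := by
  have hex : ∃ c : G, MulAction.stabilizer G u ⊓ MulAction.stabilizer G v ≤
      Subgroup.zpowers c := by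
    rcases h with h | h
    · exact stab_ar h
    · obtain ⟨c, hc⟩ := stab_ar h
      exact ⟨c, by rw [inf_comm]; exact hc⟩
  obtain ⟨c, hc⟩ := hex
  exact isCyclic_of_injective (Subgroup.inclusion hc) (Subgroup.inclusion_injective hc)

/-- The vertex group is free abelian of rank two. -/
noncomputable def eA : A ≃* Multiplicative (Fin 2 → ℤ) :=
  ((MonoidHom.ofInjective (f := abHom) (by
    intro x y h
    exact ab_injective h)).symm).trans
    (AddEquiv.toMultiplicative (LinearEquiv.finTwoArrow ℤ ℤ).symm.toAddEquiv)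

lemma stab_free (v : V) :
    ∃ n : ℕ, Nonempty (↥(MulAction.stabilizer G v) ≃* Multiplicative (Fin n → ℤ)) := by
  refine ⟨2, ?_⟩
  induction v using QuotientGroup.induction_on with
  | H g =>
    have h1 : (g : V) = g • ((1 : G) : V) := by
      change (g : V) = ((g * 1 : G) : V)
      rw [mul_one]
    have e1 := (MulAction.stabilizerEquivStabilizer h1).symm
    have e2 : MulAction.stabilizer G ((1 : G) : V) = A := MulAction.stabilizer_quotient A
    exact ⟨(e1.trans (MulEquiv.subgroupCongr e2)).trans eA⟩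

/-- The subgroup generated by `a` is not a virtual retract. -/
theorem not_vr : ¬ ∃ K : Subgroup G, K.FiniteIndex ∧ Subgroup.zpowers ga ≤ K ∧
      ∃ r : ↥K →* G, (∀ k : ↥K, r k ∈ Subgroup.zpowers ga) ∧
        (∀ k : ↥K, (k : G) ∈ Subgroup.zpowers ga → r k = (k : G)) := by
  rintro ⟨K, hK, hgK, r, hr1, hr2⟩
  -- integer valued homomorphism
  let ψ : K → ℤ := fun k => (aff ℤ (r k) 0).1
  have hψ : ∀ k : K, r k = ga ^ (ψ k) := by
    intro k
    obtain ⟨n, hn⟩ := Subgroup.mem_zpowers_iff.1 (hr1 k)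
    have : ψ k = n := by
      simp only [ψ]
      rw [← hn, ga_eq, ← ab_zsmul, aff_ab_zero]
      simp
    rw [this, hn]
  have hinj : ∀ m n : ℤ, ga ^ m = ga ^ n → m = n := by
    intro m n h
    rw [ga_eq, ← ab_zsmul, ← ab_zsmul] at h
    have := congrArg Prod.fst (ab_injective h)
    simpa using this
  have hadd : ∀ k k' : K, ψ (k * k') = ψ k + ψ k' := by
    intro k k'
    apply hinj
    rw [← hψ, map_mul, hψ k, hψ k', zpow_add]
  let N := K.normalCore
  have hN : N.FiniteIndex := inferInstance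
  have hNK : N ≤ K := K.normalCore_le
  have hNn : N.Normal := inferInstance
  set m := N.index with hm
  have hm0 : m ≠ 0 := hN.index_ne_zero
  have hpow : ∀ g : G, g ^ m ∈ N := fun g => Subgroup.pow_index_mem N g
  have hconj : ∀ (x n : G), n ∈ N → x⁻¹ * n * x ∈ N := by
    intro x n hn
    have := hNn.conj_mem n hn x⁻¹
    simpa using this
  -- conjugated functionals
  let Φ : G → (n : G) → n ∈ N → ℤ := fun x n hn => ψ ⟨x⁻¹ * n * x, hNK (hconj x n hn)⟩
  have hΦadd : ∀ x n n' (hn : n ∈ N) (hn' : n' ∈ N),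
      Φ x (n * n') (N.mul_mem hn hn') = Φ x n hn + Φ x n' hn' := by
    intro x n n' hn hn'
    simp only [Φ]
    rw [← hadd]
    congr 1
    apply Subtype.ext
    simp only [Subgroup.coe_mul]
    group
  have hΦc : ∀ x n n' (hn : n ∈ N) (hn' : n' ∈ N), n = n' → Φ x n hn = Φ x n' hn' := by
    intro x n n' hn hn' h
    subst h
    rfl
  let F : G → ℤ := fun x => |Φ x (ga ^ m) (hpow ga)|
  have hFcoset : ∀ x n, n ∈ N → F (x * n) = F x := by
    intro x n hn
    simp only [F, Φ]
    congr 1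
    have hninv : n⁻¹ ∈ N := N.inv_mem hn
    have e : (⟨(x * n)⁻¹ * ga ^ m * (x * n), hNK (hconj (x * n) _ (hpow ga))⟩ : K) =
        ⟨n⁻¹, hNK hninv⟩ * ⟨x⁻¹ * ga ^ m * x, hNK (hconj x _ (hpow ga))⟩ * ⟨n, hNK hn⟩ := by
      apply Subtype.ext
      simp only [Subgroup.coe_mul]
      group
    have hinv : ψ ⟨n⁻¹, hNK hninv⟩ + ψ ⟨n, hNK hn⟩ = 0 := by
      rw [← hadd]
      have : (⟨n⁻¹, hNK hninv⟩ * ⟨n, hNK hn⟩ : K) = 1 := by
        apply Subtype.ext
        simp
      rw [this]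
      have h1 := hadd 1 1
      rw [mul_one] at h1
      linarith
    rw [e, hadd, hadd]
    linarith
  let F' : G ⧸ N → ℤ := Quotient.lift F (by
    intro g g' h
    have h2 : g⁻¹ * g' ∈ N := QuotientGroup.leftRel_apply.1 h
    have h3 : g' = g * (g⁻¹ * g') := by group
    rw [h3, hFcoset _ _ h2])
  have hfin : Finite (G ⧸ N) := inferInstance
  obtain ⟨q, hq⟩ := Finite.exists_max F'
  obtain ⟨x0, rfl⟩ := QuotientGroup.mk_surjective q
  have hmax : ∀ x, F x ≤ F x0 := fun x => hq (x : G ⧸ N)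
  have hci : ∀ i : Bool, (gt i) * ga ^ m * (gt i)⁻¹ ∈ N := fun i =>
    hNn.conj_mem _ (hpow ga) (gt i)
  -- invariance
  have hinv : ∀ (i : Bool), |Φ x0 ((gt i) * ga ^ m * (gt i)⁻¹) (hci i)| ≤ F x0 := by
    intro i
    refine le_trans (le_of_eq ?_) (hmax ((gt i)⁻¹ * x0))
    simp only [F, Φ]
    congr 2
    apply Subtype.ext
    simp only
    group
  have hval : ∀ (i : Bool), Φ x0 ((gt i) * ga ^ m * (gt i)⁻¹) (hci i) =
      2 * Φ x0 (ga ^ m) (hpow ga) + sg i * Φ x0 (gb ^ m) (hpow gb) := by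
    intro i
    have hb : ∀ j : Bool, (gb ^ m) ^ (sg j) ∈ N := fun j => N.zpow_mem (hpow gb) _
    have hbv : Φ x0 ((gb ^ m) ^ (sg i)) (hb i) = sg i * Φ x0 (gb ^ m) (hpow gb) := by
      cases i
      · simp only [sg, Φ]
        have h1 := hadd ⟨x0⁻¹ * (gb ^ m) ^ (-1 : ℤ) * x0, hNK (hconj x0 _ (hb false))⟩
          ⟨x0⁻¹ * (gb ^ m) * x0, hNK (hconj x0 _ (hpow gb))⟩
        have h2 : (⟨x0⁻¹ * (gb ^ m) ^ (-1 : ℤ) * x0, hNK (hconj x0 _ (hb false))⟩ *
          ⟨x0⁻¹ * (gb ^ m) * x0, hNK (hconj x0 _ (hpow gb))⟩ : K) = 1 := by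
          apply Subtype.ext
          simp only [Subgroup.coe_mul, Subgroup.coe_one]
          group
        have h3 := hadd 1 1
        rw [mul_one] at h3
        rw [h2] at h1
        linarith
      · simp only [sg, zpow_one, one_mul]
    have e1 : (gt i) * ga ^ m * (gt i)⁻¹ = (ga ^ m * ga ^ m) * (gb ^ m) ^ (sg i) := by
      have h1 := conj_zp i (m : ℤ)
      rw [zpow_natCast] at h1
      rw [h1]
      unfold ab vv
      simp only [Prod.smul_fst, Prod.smul_snd, smul_eq_mul]
      rw [← zpow_natCast, ← zpow_natCast, ← zpow_mul, ← zpow_add]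
      congr 2
      ring
    rw [hΦc x0 _ ((ga ^ m * ga ^ m) * (gb ^ m) ^ (sg i)) (hci i)
      (N.mul_mem (N.mul_mem (hpow ga) (hpow ga)) (hb i)) e1, hΦadd x0 _ _ (N.mul_mem (hpow ga) (hpow ga)) (hb i), hΦadd x0 _ _ (hpow ga) (hpow ga),
      hbv]
    ring
  have h1 := hinv true
  have h2 := hinv false
  rw [hval] at h1 h2
  simp only [sg, F] at h1 h2
  have h3 : Φ x0 (ga ^ m) (hpow ga) = 0 := by
    rw [abs_le] at h1 h2
    rcases abs_cases (Φ x0 (ga ^ m) (hpow ga)) with ⟨h4, h5⟩ | ⟨h4, h5⟩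
    · rw [h4] at h1 h2
      linarith
    · rw [h4] at h1 h2
      linarith
  have h4 : F 1 ≤ 0 := by
    refine (hmax 1).trans ?_
    simp only [F]
    rw [h3, abs_zero]
  have h5 : Φ 1 (ga ^ m) (hpow ga) = m := by
    simp only [Φ]
    apply hinj
    rw [← hψ]
    rw [hr2]
    · simp
    · simp only
      rw [inv_one, one_mul, mul_one]
      exact Subgroup.pow_mem _ (Subgroup.mem_zpowers _) _
  simp only [F] at h4
  rw [h5] at h4
  have h6 : (m : ℤ) = 0 := abs_nonpos_iff.1 h4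
  exact hm0 (by exact_mod_cast h6)

/-- The tubular group contradicts the statement. -/
theorem final :
    ¬ (∀ (G : Type) [Group G] (V : Type) (T : SimpleGraph V) [MulAction G V],
    T.IsTree →
    (∀ (g : G) (u v : V), T.Adj u v → T.Adj (g • u) (g • v)) →
    (∀ (g : G) (u v : V), T.Adj u v → ¬ (g • u = v ∧ g • v = u)) →
    (∃ S : Finset V, ∀ v : V, ∃ g : G, g • v ∈ S) →
    (∃ E : Finset (V × V), ∀ u v : V, T.Adj u v → ∃ g : G, (g • u, g • v) ∈ E) →
    (∀ v : V, ∃ n : ℕ, Nonempty (↥(MulAction.stabilizer G v) ≃* Multiplicative (Fin n → ℤ))) →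
    (∀ u v : V, T.Adj u v →
      IsCyclic ↥(MulAction.stabilizer G u ⊓ MulAction.stabilizer G v)) →
    (∀ g h : G, h ∉ Subgroup.zpowers g →
      ∃ K : Subgroup G, K.FiniteIndex ∧ Subgroup.zpowers g ≤ K ∧ h ∉ K) →
    ∀ g : G, ∃ K : Subgroup G, K.FiniteIndex ∧ Subgroup.zpowers g ≤ K ∧
      ∃ r : ↥K →* G, (∀ k : ↥K, r k ∈ Subgroup.zpowers g) ∧
        (∀ k : ↥K, (k : G) ∈ Subgroup.zpowers g → r k = (k : G))) := by
  classical
  intro H
  refine not_vr (H G V T T_isTree adj_smul no_inv ?_ ?_ stab_free stab_cyclic ?_ ga)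
  · refine ⟨{((1 : G) : V)}, ?_⟩
    intro v
    induction v using QuotientGroup.induction_on with
    | H g =>
      refine ⟨g⁻¹, ?_⟩
      rw [Finset.mem_singleton]
      change ((g⁻¹ * g : G) : V) = _
      rw [inv_mul_cancel]
  · refine ⟨Finset.image (fun i => (((1 : G) : V), ((gt i : G) : V))) Finset.univ ∪
      Finset.image (fun i => (((gt i : G) : V), ((1 : G) : V))) Finset.univ, ?_⟩
    rintro u v (⟨g, i, rfl, rfl⟩ | ⟨g, i, rfl, rfl⟩)
    · refine ⟨g⁻¹, ?_⟩
      rw [Finset.mem_union]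
      left
      rw [Finset.mem_image]
      refine ⟨i, Finset.mem_univ _, ?_⟩
      change _ = (((g⁻¹ * g : G) : V), ((g⁻¹ * (g * gt i) : G) : V))
      rw [inv_mul_cancel, inv_mul_cancel_left]
    · refine ⟨g⁻¹, ?_⟩
      rw [Finset.mem_union]
      right
      rw [Finset.mem_image]
      refine ⟨i, Finset.mem_univ _, ?_⟩
      change _ = (((g⁻¹ * (g * gt i) : G) : V), ((g⁻¹ * g : G) : V))
      rw [inv_mul_cancel, inv_mul_cancel_left]
  · exact fun g h hh => sep_all g h hh

end Pool.Agent.Helper79.Tub
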